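import Mathlib

set_option autoImplicit false

/-! Ashkin-Teller critical points, part G0: this file joins several modules to save build time. -/

section S_Defs

/-!
Definitions for the Ashkin-Teller project MP_2023fc_mp (helper82).
Colours are pairs `(s, t)`: A = (true,true), B = (true,false), C = (false,true), D = (false,false),
so that partners (A,B), (C,D) share the first component.
-/

set_option autoImplicit false

namespace H82AT

open Finset

/-- indicator of a proposition -/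
noncomputable def ind (P : Prop) : ℝ := by
  classical
  exact if P then 1 else 0

theorem ind_true {P : Prop} (h : P) : ind P = 1 := by
  classical
  unfold ind
  simp [h]

theorem ind_false {P : Prop} (h : ¬ P) : ind P = 0 := by
  classical
  unfold ind
  simp [h]

theorem ind_nonneg (P : Prop) : 0 ≤ ind P := by
  by_cases h : P
  · rw [ind_true h]; norm_num
  · rw [ind_false h]

theorem ind_le_one (P : Prop) : ind P ≤ 1 := by
  by_cases h : P
  · rw [ind_true h]
  · rw [ind_false h]; norm_num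

theorem ind_mono {P Q : Prop} (h : P → Q) : ind P ≤ ind Q := by
  by_cases hP : P
  · rw [ind_true hP, ind_true (h hP)]
  · rw [ind_false hP]; exact ind_nonneg Q

theorem ind_and (P Q : Prop) : ind (P ∧ Q) = ind P * ind Q := by
  by_cases hP : P <;> by_cases hQ : Q <;> simp [ind, hP, hQ]

/-! ## general finite graphs -/

/-- colours -/
abbrev Col := Bool × Bool

/-- a graph (multi-edges allowed) given by the two end points of each edge -/
structure Gr (V E : Type) where
  s : E → V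
  t : E → V

section Graph

variable {V E : Type}

/-- one step along an edge of `F` -/
def Gr.adj (g : Gr V E) (F : Set E) (x y : V) : Prop :=
  ∃ e ∈ F, (g.s e = x ∧ g.t e = y) ∨ (g.s e = y ∧ g.t e = x)

/-- connection by edges of `F` -/
def Gr.conn (g : Gr V E) (F : Set E) : V → V → Prop := Relation.ReflTransGen (g.adj F)

/-- the edges of value at least `i` (`i = 1`: type 1/2; `i = 2`: type 2) -/
def lv (ω : E → Fin 3) (i : ℕ) : Set E := {e | i ≤ (ω e : ℕ)}

/-- number of maps `V → Bool` which are constant on the clusters of `F`; equals `2 ^ k(F)` -/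
noncomputable def Gr.nc (g : Gr V E) (F : Set E) : ℕ :=
  Nat.card {s : V → Bool // ∀ e ∈ F, s (g.s e) = s (g.t e)}

/-- the weights `p_0, p_1, p_2` -/
noncomputable def pr (β J1 J2 : ℝ) : Fin 3 → ℝ :=
  ![Real.exp (-(β * J2)), Real.exp (-(β * J1)) - Real.exp (-(β * J2)), 1 - Real.exp (-(β * J1))]

/-- random-cluster weight -/
noncomputable def Gr.W [Fintype E] (g : Gr V E) (p : Fin 3 → ℝ) (ω : E → Fin 3) : ℝ :=
  (∏ e, p (ω e)) * ((g.nc (lv ω 1) : ℝ) * (g.nc (lv ω 2) : ℝ))

/-- random-cluster expectation -/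
noncomputable def Gr.phi [Fintype E] [DecidableEq E] (g : Gr V E) (p : Fin 3 → ℝ)
    (f : (E → Fin 3) → ℝ) : ℝ :=
  (∑ ω, g.W p ω * f ω) / ∑ ω, g.W p ω

/-- compatibility of an edge value with the colours of the two ends -/
def cmp (k : Fin 3) (c c' : Col) : Prop := (1 ≤ (k : ℕ) → c.1 = c'.1) ∧ (2 ≤ (k : ℕ) → c = c')

/-- joint (Edwards-Sokal) weight -/
noncomputable def Gr.J [Fintype E] (g : Gr V E) (p : Fin 3 → ℝ) (ω : E → Fin 3)
    (σ : V → Col) : ℝ := ∏ e, (p (ω e) * ind (cmp (ω e) (σ (g.s e)) (σ (g.t e))))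

/-- joint expectation -/
noncomputable def Gr.EE [Fintype V] [DecidableEq V] [Fintype E] [DecidableEq E]
    (g : Gr V E) (p : Fin 3 → ℝ) (f : (E → Fin 3) → (V → Col) → ℝ) : ℝ :=
  (∑ ω, ∑ σ, g.J p ω σ * f ω σ) / ∑ ω, ∑ σ, g.J p ω σ

/-- the Gibbs edge weight `p_0 + p_1 1{same s} + p_2 1{same colour}` -/
noncomputable def aw (p : Fin 3 → ℝ) (c c' : Col) : ℝ :=
  p 0 + p 1 * ind (c.1 = c'.1) + p 2 * ind (c = c')

/-- the Ashkin-Teller interaction -/
noncomputable def dl (J1 J2 : ℝ) (c c' : Col) : ℝ :=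
  if c = c' then 0 else if c.1 = c'.1 then J1 else J2

/-- ratio order of parameters -/
def RL (p p' : Fin 3 → ℝ) : Prop := ∀ i j : Fin 3, i ≤ j → p j * p' i ≤ p i * p' j

end Graph

/-- an embedding of graphs -/
structure Emb {V E V' E' : Type} (g : Gr V E) (g' : Gr V' E') where
  fV : V → V'
  fE : E → E'
  injV : Function.Injective fV
  injE : Function.Injective fE
  hs : ∀ e, g'.s (fE e) = fV (g.s e)
  ht : ∀ e, g'.t (fE e) = fV (g.t e)

/-- extension of a configuration by `0` -/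
noncomputable def Emb.ext {V E V' E' : Type} {g : Gr V E} {g' : Gr V' E'} (m : Emb g g')
    (ω : E → Fin 3) : E' → Fin 3 := Function.extend m.fE ω (fun _ => 0)

/-- `I` disjoint copies of a graph -/
def Gr.copies {V E : Type} (I : Type) (g : Gr V E) : Gr (I × V) (I × E) :=
  ⟨fun e => (e.1, g.s e.2), fun e => (e.1, g.t e.2)⟩

/-! ## the lattice Z^d -/

/-- vertices of Z^d -/
abbrev Vx (d : ℕ) := Fin d → ℤ

/-- edges of Z^d: `(x, i)` is the edge between `x` and `x + e_i` -/
abbrev Ed (d : ℕ) := (Fin d → ℤ) × Fin d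

/-- the graph Z^d -/
def ZGr (d : ℕ) : Gr (Vx d) (Ed d) := ⟨fun e => e.1, fun e => e.1 + Pi.single e.2 1⟩

/-- l1 distance -/
def zdist {d : ℕ} (x y : Vx d) : ℕ := ∑ i, (x i - y i).natAbs

/-- edges of the box `[a,b]`: both ends are in the box -/
abbrev BE (d : ℕ) (a b : Vx d) : Type :=
  {e : ↥(Finset.Icc a b) × Fin d // (e.1 : Vx d) + Pi.single e.2 1 ∈ Finset.Icc a b}

/-- vertices of the box `[a,b]` -/
abbrev BV (d : ℕ) (a b : Vx d) : Type := ↥(Finset.Icc a b)

/-- the box `[a,b]` as a graph -/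
def boxGr (d : ℕ) (a b : Vx d) : Gr (BV d a b) (BE d a b) :=
  ⟨fun e => e.1.1, fun e => ⟨(e.1.1 : Vx d) + Pi.single e.1.2 1, e.2⟩⟩

/-- an edge of the box as an edge of Z^d -/
def BE.toEd {d : ℕ} {a b : Vx d} (e : BE d a b) : Ed d := ((e.1.1 : Vx d), e.1.2)

/-- extension by zero of a box configuration -/
noncomputable def bext {d : ℕ} {a b : Vx d} (ω : BE d a b → Fin 3) : Ed d → Fin 3 :=
  Function.extend BE.toEd ω (fun _ => 0)

/-- expectation in the free box `[a,b]` of a function of configurations on Z^d -/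
noncomputable def phiB (d : ℕ) (a b : Vx d) (p : Fin 3 → ℝ) (f : (Ed d → Fin 3) → ℝ) : ℝ :=
  (boxGr d a b).phi p (fun ω => f (bext ω))

/-- `x` is connected to distance at least `n` by edges of value at least `i` -/
def reachZ {d : ℕ} (i n : ℕ) (x : Vx d) (ω : Ed d → Fin 3) : Prop :=
  ∃ y, n ≤ zdist x y ∧ (ZGr d).conn (lv ω i) x y

/-- percolation of edges of value at least `i` (free boundary conditions) -/
def Perc (d : ℕ) (p : Fin 3 → ℝ) (i : ℕ) : Prop :=
  ∃ θ > 0, ∀ n : ℕ, ∃ a b x : Vx d, θ ≤ phiB d a b p (fun ω => ind (reachZ i n x ω))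

/-! ## the torus -/

/-- torus -/
abbrev Tor (d L : ℕ) := Fin d → ZMod L

/-- the torus graph -/
def torGr (d L : ℕ) : Gr (Tor d L) (Tor d L × Fin d) :=
  ⟨fun e => e.1, fun e => e.1 + Pi.single e.2 1⟩

/-- torus l1 distance -/
def tdist {d L : ℕ} (x y : Tor d L) : ℕ := ∑ i, (x i - y i).valMinAbs.natAbs

/-- reaching distance `n` in the torus inside an edge set -/
def rch {d L : ℕ} (F : Set (Tor d L × Fin d)) (n : ℕ) (x : Tor d L) : Prop :=
  ∃ y, n ≤ tdist x y ∧ (torGr d L).conn F x y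

/-- the same for a configuration -/
def reachT {d L : ℕ} (i n : ℕ) (x : Tor d L) (ω : Tor d L × Fin d → Fin 3) : Prop :=
  rch (lv ω i) n x

/-- sign -/
def sg (b : Bool) : ℝ := if b then 1 else -1

/-- spin vectors: `|Sv ε c - Sv ε c'|^2 = 2 * dl (1 - ε) 1 c c'` -/
noncomputable def Sv (ε : ℝ) (c : Col) : Fin 3 → ℝ :=
  ![Real.sqrt (1 + ε) / 2 * sg c.1, Real.sqrt (1 - ε) / 2 * sg c.2,
    Real.sqrt (1 - ε) / 2 * (sg c.1 * sg c.2)]

/-- magnetisation vector of a configuration on a finite set -/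
noncomputable def mv {V : Type} [Fintype V] (ε : ℝ) (σ : V → Col) (j : Fin 3) : ℝ :=
  (∑ x, Sv ε (σ x) j) / Fintype.card V

/-- squared norm of the magnetisation -/
noncomputable def m2 {V : Type} [Fintype V] (ε : ℝ) (σ : V → Col) : ℝ := ∑ j, (mv ε σ j) ^ 2

/-- average of `t` -/
noncomputable def mt {V : Type} [Fintype V] (σ : V → Col) : ℝ :=
  (∑ x, sg (σ x).2) / Fintype.card V

/-- Gibbs weight on the torus, `J2 = 1`, `J1 = 1 - ε` -/
noncomputable def gw {d L : ℕ} [NeZero L] (β ε : ℝ) (σ : Tor d L → Col) : ℝ :=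
  Real.exp (-(β / 2) * ∑ e : Tor d L × Fin d, ∑ j,
    (Sv ε (σ e.1) j - Sv ε (σ (e.1 + Pi.single e.2 1)) j) ^ 2)

/-- Gibbs expectation on the torus -/
noncomputable def GE {d L : ℕ} [NeZero L] (β ε : ℝ) (f : (Tor d L → Col) → ℝ) : ℝ :=
  (∑ σ, gw β ε σ * f σ) / ∑ σ, gw (d := d) (L := L) β ε σ

/-- the shifted partition function -/
noncomputable def Zh {d L : ℕ} [NeZero L] (c : ℝ) (S : Col → Fin 3 → ℝ)
    (h : Tor d L × Fin d → Fin 3 → ℝ) : ℝ :=
  ∑ σ : Tor d L → Col, Real.exp (-c * ∑ e : Tor d L × Fin d, ∑ j,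
    (S (σ e.1) j - S (σ (e.1 + Pi.single e.2 1)) j + h e j) ^ 2)

/-- nearest neighbour average -/
noncomputable def avg {d L : ℕ} (f : Tor d L → ℝ) (x : Tor d L) : ℝ :=
  (∑ i : Fin d, (f (x + Pi.single i 1) + f (x - Pi.single i 1))) / (2 * d)

/-- `1 - D` -/
noncomputable def Lap {d L : ℕ} (f : Tor d L → ℝ) (x : Tor d L) : ℝ := f x - avg f x

/-- real character value -/
noncomputable def ch {L : ℕ} (a : ZMod L) : ℝ := Real.cos (2 * Real.pi * (a.val : ℝ) / L)

/-- the symbol of the averaging operator -/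
noncomputable def Dh {d L : ℕ} (k : Tor d L) : ℝ := (∑ i, ch (k i)) / d

/-- the Green function of `1 - D` with the zero mode removed -/
noncomputable def Gf {d L : ℕ} [NeZero L] (x : Tor d L) : ℝ :=
  (∑ k ∈ (Finset.univ : Finset (Tor d L)).erase 0, ch (∑ i, k i * x i) / (1 - Dh k)) /
    (L : ℝ) ^ d

/-- `(D^r G)(0)` -/
noncomputable def RR (d L r : ℕ) [NeZero L] : ℝ :=
  (∑ k ∈ (Finset.univ : Finset (Tor d L)).erase 0, (Dh k) ^ r / (1 - Dh k)) / (L : ℝ) ^ d

/-- second inverse moment of `1 - Dh` -/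
noncomputable def MM (d L : ℕ) [NeZero L] : ℝ :=
  (∑ k ∈ (Finset.univ : Finset (Tor d L)).erase 0, 1 / (1 - Dh k) ^ 2) / (L : ℝ) ^ d

/-! ## mean field -/

/-- mean-field magnetisation of a frequency vector -/
noncomputable def mf (ε : ℝ) (f : Col → ℝ) (j : Fin 3) : ℝ := ∑ c, f c * Sv ε c j

/-- mean-field functional -/
noncomputable def Phi (K ε : ℝ) (f : Col → ℝ) : ℝ :=
  -(K / 2) * ∑ j, (mf ε f j) ^ 2 + ∑ c, f c * Real.log (f c)

/-- mean-field value of `t` -/
noncomputable def mft (f : Col → ℝ) : ℝ := ∑ c, f c * sg c.2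

/-- colour frequencies -/
noncomputable def frq {V : Type} [Fintype V] (σ : V → Col) (c : Col) : ℝ :=
  ((Finset.univ.filter (fun x => σ x = c)).card : ℝ) / Fintype.card V

end H82AT

end S_Defs
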