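import Mathlib
import Pool.Agent.H82.ATM.G0

set_option autoImplicit false

/-! Ashkin-Teller critical points, part G1: this file joins several modules to save build time. -/

section S_NC

/-! MODULE NC: compatibility numbers `nc F = 2^(number of clusters)`. -/

set_option autoImplicit false

namespace H82AT

/-- the subspace of `(Z/2)^V` of maps constant along the edges of `F` -/
def nc_sub {V E : Type} (g : Gr V E) (F : Set E) : Submodule (ZMod 2) (V → ZMod 2) where
  carrier := {s | ∀ e ∈ F, s (g.s e) = s (g.t e)}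
  add_mem' := by
    intro a b ha hb e he
    simp only [Pi.add_apply]
    rw [ha e he, hb e he]
  zero_mem' := by
    intro e _
    rfl
  smul_mem' := by
    intro c a ha e he
    simp only [Pi.smul_apply]
    rw [ha e he]

theorem nc_mem_sub {V E : Type} (g : Gr V E) (F : Set E) (s : V → ZMod 2) :
    s ∈ nc_sub g F ↔ ∀ e ∈ F, s (g.s e) = s (g.t e) := Iff.rfl

/-- `Bool ≃ Z/2` -/
def nc_b : Bool ≃ ZMod 2 where
  toFun b := if b then 1 else 0
  invFun a := decide (a = 1)
  left_inv := by decide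
  right_inv := by decide

theorem nc_card_sub {V E : Type} (g : Gr V E) (F : Set E) :
    g.nc F = Nat.card (nc_sub g F) := by
  unfold Gr.nc
  apply Nat.card_congr
  refine ⟨fun s => ⟨fun v => nc_b (s.1 v), ?_⟩, fun s => ⟨fun v => nc_b.symm (s.1 v), ?_⟩, ?_, ?_⟩
  · intro e he
    show nc_b (s.1 (g.s e)) = nc_b (s.1 (g.t e))
    rw [s.2 e he]
  · intro e he
    show nc_b.symm (s.1 (g.s e)) = nc_b.symm (s.1 (g.t e))
    rw [s.2 e he]
  · intro s
    apply Subtype.ext
    funext v
    simp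
  · intro s
    apply Subtype.ext
    funext v
    simp

theorem nc_pow {V E : Type} [Finite V] (g : Gr V E) (F : Set E) :
    g.nc F = 2 ^ Module.finrank (ZMod 2) (nc_sub g F) := by
  rw [nc_card_sub, Module.natCard_eq_pow_finrank (K := ZMod 2), Nat.card_zmod]

/-- `nc F` = cardinality of the subspace `H_F` of `(Z/2)^V`; `H_(F ∪ F') = H_F ∩ H_F'` and
`H_(F ∩ F') ⊇ H_F + H_F'`, so the claim is dim(A+B) + dim(A∩B) = dim A + dim B. -/
theorem nc_supermod {V E : Type} [Finite V] (g : Gr V E) (F F' : Set E) :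
    g.nc F * g.nc F' ≤ g.nc (F ∪ F') * g.nc (F ∩ F') := by
  rw [nc_pow, nc_pow, nc_pow, nc_pow, ← pow_add, ← pow_add]
  apply Nat.pow_le_pow_right (by norm_num)
  rw [← Submodule.finrank_sup_add_finrank_inf_eq (nc_sub g F) (nc_sub g F'), add_comm]
  apply Nat.add_le_add
  · apply Submodule.finrank_mono
    intro s hs e he
    rcases he with he | he
    · exact hs.1 e he
    · exact hs.2 e he
  · apply Submodule.finrank_mono
    apply sup_le
    · intro s hs e he
      exact hs e he.1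
    · intro s hs e he
      exact hs e he.2

theorem nc_pos {V E : Type} [Finite V] (g : Gr V E) (F : Set E) : 0 < g.nc F := by
  rw [nc_pow]
  positivity

/-- the graph with vertex set `V` and edge set `F` -/
def Gr.sgr {V E : Type} (g : Gr V E) (F : Set E) : SimpleGraph V :=
  SimpleGraph.fromRel (fun x y => ∃ e ∈ F, g.s e = x ∧ g.t e = y)

theorem nc_adj {V E : Type} (g : Gr V E) (F : Set E) (s : V → Bool)
    (hs : ∀ e ∈ F, s (g.s e) = s (g.t e)) (x y : V) (h : (g.sgr F).Adj x y) : s x = s y := by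
  unfold Gr.sgr at h
  rw [SimpleGraph.fromRel_adj] at h
  obtain ⟨_, ⟨e, he, h1, h2⟩ | ⟨e, he, h1, h2⟩⟩ := h
  · rw [← h1, ← h2]; exact hs e he
  · rw [← h1, ← h2]; exact (hs e he).symm

theorem nc_walk {V E : Type} (g : Gr V E) (F : Set E) (s : V → Bool)
    (hs : ∀ e ∈ F, s (g.s e) = s (g.t e)) (x y : V) (p : (g.sgr F).Walk x y) : s x = s y := by
  induction p with
  | nil => rfl
  | cons h _ ih => exact (nc_adj g F s hs _ _ h).trans ih

theorem nc_comp {V E : Type} [Finite V] (g : Gr V E) (F : Set E) :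
    g.nc F = 2 ^ Nat.card (g.sgr F).ConnectedComponent := by
  have h2 : (2 : ℕ) = Nat.card Bool := by simp
  rw [h2, ← Nat.card_fun]
  unfold Gr.nc
  apply Nat.card_congr
  refine ⟨fun s c => c.lift s.1 (fun v w p _ => nc_walk g F s.1 s.2 v w p),
    fun f => ⟨fun v => f ((g.sgr F).connectedComponentMk v), ?_⟩, ?_, ?_⟩
  · intro e he
    by_cases hst : g.s e = g.t e
    · show f _ = f _
      rw [hst]
    · show f _ = f _
      congr 1
      apply SimpleGraph.ConnectedComponent.sound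
      apply SimpleGraph.Adj.reachable
      unfold Gr.sgr
      rw [SimpleGraph.fromRel_adj]
      exact ⟨hst, Or.inl ⟨e, he, rfl, rfl⟩⟩
  · intro s
    apply Subtype.ext
    funext v
    rfl
  · intro f
    funext c
    induction c using SimpleGraph.ConnectedComponent.ind with
    | h v => rfl

end H82AT

end S_NC

section S_HOL

/-! MODULE HOL: log-supermodularity of the random-cluster weight, Holley inequality,
monotonicity in the parameters. -/

set_option autoImplicit false

namespace H82AT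

open Finset

theorem pr_pos {β J1 J2 : ℝ} (hβ : 0 < β) (h1 : 0 < J1) (h2 : J1 < J2) (i : Fin 3) :
    0 < pr β J1 J2 i := by
  have e1 : Real.exp (-(β * J2)) < Real.exp (-(β * J1)) := by
    apply Real.exp_lt_exp.2
    nlinarith
  have e2 : Real.exp (-(β * J1)) < 1 := by
    rw [← Real.exp_zero]
    apply Real.exp_lt_exp.2
    nlinarith
  fin_cases i
  · exact Real.exp_pos _
  · show 0 < Real.exp (-(β * J1)) - Real.exp (-(β * J2))
    linarith
  · show 0 < 1 - Real.exp (-(β * J1))
    linarith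

theorem pr_sum (β J1 J2 : ℝ) : pr β J1 J2 0 + pr β J1 J2 1 + pr β J1 J2 2 = 1 := by
  show Real.exp (-(β * J2)) + (Real.exp (-(β * J1)) - Real.exp (-(β * J2))) +
    (1 - Real.exp (-(β * J1))) = 1
  ring

private theorem hol_conv {β β' c : ℝ} (hβ : 0 < β) (hb : β ≤ β') :
    β' * (Real.exp (β * c) - 1) ≤ β * (Real.exp (β' * c) - 1) := by
  have hβ' : 0 < β' := by linarith
  have h := convexOn_exp.2 (Set.mem_univ (β' * c)) (Set.mem_univ (0 : ℝ))
    (show (0 : ℝ) ≤ β / β' by positivity) (show (0 : ℝ) ≤ 1 - β / β' by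
      rw [sub_nonneg, div_le_one hβ']; exact hb) (by ring)
  simp only [smul_eq_mul, mul_zero, add_zero, Real.exp_zero, mul_one] at h
  have e : β / β' * (β' * c) = β * c := by
    field_simp
  rw [e] at h
  have h2 := mul_le_mul_of_nonneg_left h hβ'.le
  have e2 : β' * (β / β' * Real.exp (β' * c) + (1 - β / β'))
      = β * Real.exp (β' * c) + (β' - β) := by
    field_simp
  rw [e2] at h2
  linarith

/-- `p1/p0 = exp(β(J2-J1)) - 1` and `p2/p1 = (exp(βJ1) - 1)/(1 - exp(-β(J2-J1)))` increase in `β` -/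
theorem pr_RL {β β' J1 J2 : ℝ} (hβ : 0 < β) (hb : β ≤ β') (h1 : 0 < J1) (h2 : J1 < J2) :
    RL (pr β J1 J2) (pr β' J1 J2) := by
  have hβ' : 0 < β' := by linarith
  have h01 : pr β J1 J2 1 * pr β' J1 J2 0 ≤ pr β J1 J2 0 * pr β' J1 J2 1 := by
    show (Real.exp (-(β * J1)) - Real.exp (-(β * J2))) * Real.exp (-(β' * J2)) ≤
      Real.exp (-(β * J2)) * (Real.exp (-(β' * J1)) - Real.exp (-(β' * J2)))
    have h : Real.exp (-(β * J1)) * Real.exp (-(β' * J2)) ≤
        Real.exp (-(β * J2)) * Real.exp (-(β' * J1)) := by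
      rw [← Real.exp_add, ← Real.exp_add]
      apply Real.exp_le_exp.2
      nlinarith
    linarith
  have h12 : pr β J1 J2 2 * pr β' J1 J2 1 ≤ pr β J1 J2 1 * pr β' J1 J2 2 := by
    show (1 - Real.exp (-(β * J1))) * (Real.exp (-(β' * J1)) - Real.exp (-(β' * J2))) ≤
      (Real.exp (-(β * J1)) - Real.exp (-(β * J2))) * (1 - Real.exp (-(β' * J1)))
    -- write everything with `a = J1`, `b = J2 - J1`
    set A : ℝ := Real.exp (-(β * J1)) with hA
    set A' : ℝ := Real.exp (-(β' * J1)) with hA'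
    have hA0 : 0 < A := Real.exp_pos _
    have hA0' : 0 < A' := Real.exp_pos _
    have eB : Real.exp (-(β * J2)) = A * Real.exp (β * (-(J2 - J1))) := by
      rw [hA, ← Real.exp_add]; congr 1; ring
    have eB' : Real.exp (-(β' * J2)) = A' * Real.exp (β' * (-(J2 - J1))) := by
      rw [hA', ← Real.exp_add]; congr 1; ring
    have eA : A * Real.exp (β * J1) = 1 := by
      rw [hA, ← Real.exp_add]; simp
    have eA' : A' * Real.exp (β' * J1) = 1 := by
      rw [hA', ← Real.exp_add]; simp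
    have k1 := hol_conv (c := J1) hβ hb
    have k2 := hol_conv (c := -(J2 - J1)) hβ hb
    have hy : 0 ≤ 1 - Real.exp (β * (-(J2 - J1))) := by
      have : Real.exp (β * (-(J2 - J1))) ≤ 1 := by
        rw [← Real.exp_zero]; apply Real.exp_le_exp.2; nlinarith
      linarith
    have hx : 0 ≤ Real.exp (β' * J1) - 1 := by
      have : 1 ≤ Real.exp (β' * J1) := by
        rw [← Real.exp_zero]; apply Real.exp_le_exp.2; nlinarith
      linarith
    have hy' : 0 ≤ 1 - Real.exp (β' * (-(J2 - J1))) := by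
      have : Real.exp (β' * (-(J2 - J1))) ≤ 1 := by
        rw [← Real.exp_zero]; apply Real.exp_le_exp.2; nlinarith
      linarith
    rw [eB, eB']
    set X : ℝ := Real.exp (β * J1)
    set X' : ℝ := Real.exp (β' * J1)
    set Y : ℝ := Real.exp (β * (-(J2 - J1)))
    set Y' : ℝ := Real.exp (β' * (-(J2 - J1)))
    have e1 : (1 - A) * (A' - A' * Y') = A * A' * ((X - 1) * (1 - Y')) := by
      have : 1 - A = A * (X - 1) := by rw [mul_sub, eA, mul_one]
      rw [this]; ring
    have e2 : (A - A * Y) * (1 - A') = A * A' * ((1 - Y) * (X' - 1)) := by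
      have : 1 - A' = A' * (X' - 1) := by rw [mul_sub, eA', mul_one]
      rw [this]; ring
    rw [e1, e2]
    apply mul_le_mul_of_nonneg_left _ (by positivity)
    -- `β β' (X - 1)(1 - Y') ≤ β β' (1 - Y)(X' - 1)`
    have k3 : β * (1 - Y') ≤ β' * (1 - Y) := by linarith
    have k4 : (β' * (X - 1)) * (β * (1 - Y')) ≤ (β * (X' - 1)) * (β' * (1 - Y)) := by
      apply mul_le_mul k1 k3 (by positivity) (by positivity)
    have k5 : (β * β') * ((X - 1) * (1 - Y')) ≤ (β * β') * ((1 - Y) * (X' - 1)) := by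
      calc (β * β') * ((X - 1) * (1 - Y')) = (β' * (X - 1)) * (β * (1 - Y')) := by ring
        _ ≤ (β * (X' - 1)) * (β' * (1 - Y)) := k4
        _ = _ := by ring
    exact le_of_mul_le_mul_left k5 (by positivity)
  have p1 := pr_pos hβ h1 h2 1
  have p1' := pr_pos hβ' h1 h2 1
  have p0' := pr_pos hβ' h1 h2 0
  have p2 := pr_pos hβ h1 h2 2
  have p0 := pr_pos hβ h1 h2 0
  have p2' := pr_pos hβ' h1 h2 2
  have h02 : pr β J1 J2 2 * pr β' J1 J2 0 ≤ pr β J1 J2 0 * pr β' J1 J2 2 := by
    have h : (pr β J1 J2 1 * pr β' J1 J2 0) * (pr β J1 J2 2 * pr β' J1 J2 1) ≤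
        (pr β J1 J2 0 * pr β' J1 J2 1) * (pr β J1 J2 1 * pr β' J1 J2 2) :=
      mul_le_mul h01 h12 (by positivity) (by positivity)
    have h' : (pr β J1 J2 1 * pr β' J1 J2 1) * (pr β J1 J2 2 * pr β' J1 J2 0) ≤
        (pr β J1 J2 1 * pr β' J1 J2 1) * (pr β J1 J2 0 * pr β' J1 J2 2) := by
      calc _ = (pr β J1 J2 1 * pr β' J1 J2 0) * (pr β J1 J2 2 * pr β' J1 J2 1) := by ring
        _ ≤ _ := h
        _ = _ := by ring
    exact le_of_mul_le_mul_left h' (by positivity)
  intro i j hij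
  fin_cases i <;> fin_cases j
  · exact le_rfl
  · exact h01
  · exact h02
  · exact absurd hij (by decide)
  · exact le_rfl
  · exact h12
  · exact absurd hij (by decide)
  · exact absurd hij (by decide)
  · exact le_rfl

theorem RL_refl (p : Fin 3 → ℝ) : RL p p := by
  intro i j _
  exact (mul_comm _ _).le

theorem W_nonneg {V E : Type} [Fintype E] (g : Gr V E) {p : Fin 3 → ℝ} (hp : ∀ i, 0 < p i)
    (ω : E → Fin 3) : 0 ≤ g.W p ω := by
  unfold Gr.W
  exact mul_nonneg (Finset.prod_nonneg fun e _ => (hp _).le) (by positivity)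

theorem W_pos {V E : Type} [Finite V] [Fintype E] (g : Gr V E) {p : Fin 3 → ℝ}
    (hp : ∀ i, 0 < p i) (ω : E → Fin 3) : 0 < g.W p ω := by
  unfold Gr.W
  have h1 := nc_pos g (lv ω 1)
  have h2 := nc_pos g (lv ω 2)
  have h1' : (0 : ℝ) < (g.nc (lv ω 1) : ℝ) := by exact_mod_cast h1
  have h2' : (0 : ℝ) < (g.nc (lv ω 2) : ℝ) := by exact_mod_cast h2
  exact mul_pos (Finset.prod_pos fun e _ => hp _) (mul_pos h1' h2')

private theorem hol_lv_inf {E : Type} (ω ω' : E → Fin 3) (i : ℕ) :
    lv (ω ⊓ ω') i = lv ω i ∩ lv ω' i := by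
  ext e
  simp only [lv, Set.mem_setOf_eq, Set.mem_inter_iff, Pi.inf_apply]
  rcases le_total (ω e) (ω' e) with h | h
  · rw [inf_eq_left.2 h]
    exact ⟨fun hi => ⟨hi, hi.trans h⟩, fun hi => hi.1⟩
  · rw [inf_eq_right.2 h]
    exact ⟨fun hi => ⟨hi.trans h, hi⟩, fun hi => hi.2⟩

private theorem hol_lv_sup {E : Type} (ω ω' : E → Fin 3) (i : ℕ) :
    lv (ω ⊔ ω') i = lv ω i ∪ lv ω' i := by
  ext e
  simp only [lv, Set.mem_setOf_eq, Set.mem_union, Pi.sup_apply]
  rcases le_total (ω e) (ω' e) with h | h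
  · rw [sup_eq_right.2 h]
    exact ⟨fun hi => Or.inr hi, fun hi => hi.elim (fun hi => hi.trans h) id⟩
  · rw [sup_eq_left.2 h]
    exact ⟨fun hi => Or.inl hi, fun hi => hi.elim id (fun hi => hi.trans h)⟩

theorem W_mul_le {V E : Type} [Finite V] [Fintype E] (g : Gr V E) {p p' : Fin 3 → ℝ}
    (hp : ∀ i, 0 < p i) (hp' : ∀ i, 0 < p' i) (h : RL p p') (ω ω' : E → Fin 3) :
    g.W p ω * g.W p' ω' ≤ g.W p (ω ⊓ ω') * g.W p' (ω ⊔ ω') := by
  unfold Gr.W
  have hedge : ∀ a b : Fin 3, p a * p' b ≤ p (a ⊓ b) * p' (a ⊔ b) := by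
    intro a b
    rcases le_total a b with hab | hab
    · rw [inf_eq_left.2 hab, sup_eq_right.2 hab]
    · rw [inf_eq_right.2 hab, sup_eq_left.2 hab]
      exact h b a hab
  have hprod : (∏ e, p (ω e)) * (∏ e, p' (ω' e)) ≤
      (∏ e, p ((ω ⊓ ω') e)) * (∏ e, p' ((ω ⊔ ω') e)) := by
    rw [← Finset.prod_mul_distrib, ← Finset.prod_mul_distrib]
    apply Finset.prod_le_prod
    · intro e _
      exact mul_nonneg (hp _).le (hp' _).le
    · intro e _
      exact hedge _ _
  have hn : ∀ i : ℕ, (g.nc (lv ω i) : ℝ) * (g.nc (lv ω' i) : ℝ) ≤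
      (g.nc (lv (ω ⊓ ω') i) : ℝ) * (g.nc (lv (ω ⊔ ω') i) : ℝ) := by
    intro i
    rw [hol_lv_inf, hol_lv_sup]
    have := nc_supermod g (lv ω i) (lv ω' i)
    have h' : ((g.nc (lv ω i) * g.nc (lv ω' i) : ℕ) : ℝ) ≤
      ((g.nc (lv ω i ∪ lv ω' i) * g.nc (lv ω i ∩ lv ω' i) : ℕ) : ℝ) := Nat.cast_le.2 this
    push_cast at h'
    linarith
  calc (∏ e, p (ω e)) * ((g.nc (lv ω 1) : ℝ) * (g.nc (lv ω 2) : ℝ)) *
        ((∏ e, p' (ω' e)) * ((g.nc (lv ω' 1) : ℝ) * (g.nc (lv ω' 2) : ℝ)))
      = ((∏ e, p (ω e)) * (∏ e, p' (ω' e))) *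
        (((g.nc (lv ω 1) : ℝ) * (g.nc (lv ω' 1) : ℝ)) *
          ((g.nc (lv ω 2) : ℝ) * (g.nc (lv ω' 2) : ℝ))) := by ring
    _ ≤ ((∏ e, p ((ω ⊓ ω') e)) * (∏ e, p' ((ω ⊔ ω') e))) *
        (((g.nc (lv (ω ⊓ ω') 1) : ℝ) * (g.nc (lv (ω ⊔ ω') 1) : ℝ)) *
          ((g.nc (lv (ω ⊓ ω') 2) : ℝ) * (g.nc (lv (ω ⊔ ω') 2) : ℝ))) := by
        apply mul_le_mul hprod _ (by positivity)
        · exact mul_nonneg (Finset.prod_nonneg fun e _ => (hp _).le)
            (Finset.prod_nonneg fun e _ => (hp' _).le)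
        · exact mul_le_mul (hn 1) (hn 2) (by positivity) (by positivity)
    _ = _ := by ring

/-- Holley inequality for unnormalised weights and arbitrary real monotone functions
(from Mathlib `holley` or `four_functions_theorem`; add a constant to `u` to make it nonnegative) -/
theorem holley_gen {α : Type} [Fintype α] [DistribLattice α] (f g u : α → ℝ)
    (hf : 0 ≤ f) (hg : 0 ≤ g) (h : ∀ a b, f a * g b ≤ f (a ⊓ b) * g (a ⊔ b))
    (hu : Monotone u) :
    (∑ a, f a * u a) * ∑ a, g a ≤ (∑ a, g a * u a) * ∑ a, f a := by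
  classical
  set c : ℝ := ∑ a, |u a| with hc
  have hpos : ∀ a, 0 ≤ u a + c := by
    intro a
    have h1 : |u a| ≤ c := Finset.single_le_sum (f := fun a => |u a|)
      (fun i _ => abs_nonneg _) (Finset.mem_univ a)
    have h2 := neg_abs_le (u a)
    linarith
  have key := four_functions_theorem_univ (fun a => f a * (u a + c)) g f
    (fun a => g a * (u a + c)) (fun a => mul_nonneg (hf a) (hpos a)) hg hf
    (fun a => mul_nonneg (hg a) (hpos a)) (by
      intro a b
      calc f a * (u a + c) * g b = (f a * g b) * (u a + c) := by ring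
        _ ≤ (f (a ⊓ b) * g (a ⊔ b)) * (u (a ⊔ b) + c) := by
          apply mul_le_mul (h a b) _ (hpos a) (mul_nonneg (hf _) (hg _))
          have := hu (le_sup_left : a ≤ a ⊔ b)
          linarith
        _ = f (a ⊓ b) * (g (a ⊔ b) * (u (a ⊔ b) + c)) := by ring)
  simp only [mul_add, Finset.sum_add_distrib, ← Finset.sum_mul] at key
  nlinarith [key]

theorem hol_sum_pos {V E : Type} [Finite V] [Fintype E] [DecidableEq E] (g : Gr V E)
    {p : Fin 3 → ℝ} (hp : ∀ i, 0 < p i) : 0 < ∑ ω, g.W p ω :=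
  Finset.sum_pos (fun ω _ => W_pos g hp ω) ⟨fun _ => 0, Finset.mem_univ _⟩

theorem phi_mono_p {V E : Type} [Finite V] [Fintype E] [DecidableEq E] (g : Gr V E)
    {p p' : Fin 3 → ℝ} (hp : ∀ i, 0 < p i) (hp' : ∀ i, 0 < p' i) (h : RL p p')
    (f : (E → Fin 3) → ℝ) (hf : Monotone f) : g.phi p f ≤ g.phi p' f := by
  unfold Gr.phi
  have h1 : 0 < ∑ ω, g.W p ω := hol_sum_pos g hp
  have h2 : 0 < ∑ ω, g.W p' ω := hol_sum_pos g hp'
  rw [div_le_div_iff₀ h1 h2]
  exact holley_gen (g.W p) (g.W p') f (fun ω => W_nonneg g hp ω) (fun ω => W_nonneg g hp' ω)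
    (fun a b => W_mul_le g hp hp' h a b) hf

/-- monotonicity and constants of `phi` -/
theorem phi_le_phi {V E : Type} [Finite V] [Fintype E] [DecidableEq E] (g : Gr V E)
    {p : Fin 3 → ℝ} (hp : ∀ i, 0 < p i) (f f' : (E → Fin 3) → ℝ) (h : ∀ ω, f ω ≤ f' ω) :
    g.phi p f ≤ g.phi p f' := by
  unfold Gr.phi
  apply div_le_div_of_nonneg_right _ (hol_sum_pos g hp).le
  exact Finset.sum_le_sum fun ω _ => mul_le_mul_of_nonneg_left (h ω) (W_nonneg g hp ω)

theorem phi_const {V E : Type} [Finite V] [Fintype E] [DecidableEq E] (g : Gr V E)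
    {p : Fin 3 → ℝ} (hp : ∀ i, 0 < p i) (c : ℝ) : g.phi p (fun _ => c) = c := by
  unfold Gr.phi
  rw [← Finset.sum_mul, mul_div_assoc, mul_comm, div_mul_cancel₀ _ (hol_sum_pos g hp).ne']

theorem phi_add {V E : Type} [Fintype E] [DecidableEq E] (g : Gr V E)
    (p : Fin 3 → ℝ) (f f' : (E → Fin 3) → ℝ) :
    g.phi p (fun ω => f ω + f' ω) = g.phi p f + g.phi p f' := by
  unfold Gr.phi
  rw [← add_div, ← Finset.sum_add_distrib]
  simp only [mul_add]

theorem phi_smul {V E : Type} [Fintype E] [DecidableEq E] (g : Gr V E)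
    (p : Fin 3 → ℝ) (c : ℝ) (f : (E → Fin 3) → ℝ) :
    g.phi p (fun ω => c * f ω) = c * g.phi p f := by
  unfold Gr.phi
  rw [← mul_div_assoc, Finset.mul_sum]
  congr 1
  exact Finset.sum_congr rfl fun ω _ => by ring

theorem phi_sum {V E ι : Type} [Fintype E] [DecidableEq E] (g : Gr V E)
    (p : Fin 3 → ℝ) (s : Finset ι) (f : ι → (E → Fin 3) → ℝ) :
    g.phi p (fun ω => ∑ i ∈ s, f i ω) = ∑ i ∈ s, g.phi p (f i) := by
  unfold Gr.phi
  rw [← Finset.sum_div, Finset.sum_comm]
  congr 1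
  exact Finset.sum_congr rfl fun ω _ => by rw [Finset.mul_sum]

end H82AT

end S_HOL

section S_EMBM

/-! MODULE EMBM: monotonicity of the random-cluster measure under embeddings of graphs. -/

set_option autoImplicit false

namespace H82AT

open Finset

/-- number of maps whose restriction to the range satisfies a predicate -/
theorem embm_card {V V' : Type} [Finite V] [Finite V'] (fV : V → V')
    (hinj : Function.Injective fV) (P : (V → Bool) → Prop) :
    Nat.card {s : V' → Bool // P (s ∘ fV)} =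
      Nat.card {s : V → Bool // P s} * 2 ^ Nat.card {v' : V' // v' ∉ Set.range fV} := by
  classical
  have h2 : (2 : ℕ) ^ Nat.card {v' : V' // v' ∉ Set.range fV} =
      Nat.card ({v' : V' // v' ∉ Set.range fV} → Bool) := by
    rw [Nat.card_fun]
    simp
  rw [h2, ← Nat.card_prod]
  apply Nat.card_eq_of_bijective
    (fun s : {s : V' → Bool // P (s ∘ fV)} =>
      ((⟨s.1 ∘ fV, s.2⟩ : {s : V → Bool // P s}),
        (fun v' : {v' : V' // v' ∉ Set.range fV} => s.1 v'.1)))
  constructor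
  · rintro ⟨s, hs⟩ ⟨s', hs'⟩ h
    simp only [Prod.mk.injEq, Subtype.mk.injEq] at h
    apply Subtype.ext
    funext v'
    by_cases hv : v' ∈ Set.range fV
    · obtain ⟨v, rfl⟩ := hv
      exact congrFun h.1 v
    · exact congrFun h.2 ⟨v', hv⟩
  · rintro ⟨⟨a, ha⟩, b⟩
    have hcomp : (fun v' : V' => if h : v' ∈ Set.range fV then a h.choose else b ⟨v', h⟩) ∘ fV
        = a := by
      funext v
      have hv : fV v ∈ Set.range fV := ⟨v, rfl⟩
      simp only [Function.comp_apply]
      rw [dif_pos hv]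
      congr 1
      exact hinj hv.choose_spec
    refine ⟨⟨fun v' => if h : v' ∈ Set.range fV then a h.choose else b ⟨v', h⟩, ?_⟩, ?_⟩
    · rw [hcomp]
      exact ha
    · simp only [Prod.mk.injEq, Subtype.mk.injEq]
      refine ⟨hcomp, ?_⟩
      funext v'
      rw [dif_neg v'.2]

section
variable {V E V' E' : Type} [Finite V] [Finite V'] [Fintype E] [DecidableEq E] [Fintype E']
  [DecidableEq E'] {g : Gr V E} {g' : Gr V' E'}

omit [Finite V] [Finite V'] [Fintype E] [DecidableEq E] [Fintype E'] [DecidableEq E'] in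
theorem embm_ext_apply (m : Emb g g') (ω : E → Fin 3) (e : E) : m.ext ω (m.fE e) = ω e :=
  m.injE.extend_apply _ _ _

omit [Finite V] [Finite V'] [Fintype E] [DecidableEq E] [Fintype E'] [DecidableEq E'] in
theorem embm_ext_off (m : Emb g g') (ω : E → Fin 3) (e : E') (he : e ∉ Set.range m.fE) :
    m.ext ω e = 0 := by
  apply Function.extend_apply'
  rintro ⟨a, ha⟩
  exact he ⟨a, ha⟩

omit [Finite V] [Finite V'] [Fintype E] [DecidableEq E] [Fintype E'] [DecidableEq E'] in
theorem embm_ext_inj (m : Emb g g') : Function.Injective m.ext := by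
  intro ω ω' h
  funext e
  have := congrFun h (m.fE e)
  rwa [embm_ext_apply, embm_ext_apply] at this

omit [Finite V] [Finite V'] [Fintype E] [DecidableEq E] [Fintype E'] [DecidableEq E'] in
theorem embm_of_off (m : Emb g g') (ω' : E' → Fin 3) (h : ∀ e, e ∉ Set.range m.fE → ω' e = 0) :
    m.ext (fun e => ω' (m.fE e)) = ω' := by
  funext e
  by_cases he : e ∈ Set.range m.fE
  · obtain ⟨a, rfl⟩ := he
    rw [embm_ext_apply]
  · rw [embm_ext_off m _ e he, h e he]

omit [Fintype E] [DecidableEq E] [Fintype E'] [DecidableEq E'] in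
theorem embm_nc (m : Emb g g') (ω : E → Fin 3) (i : ℕ) (hi : 1 ≤ i) :
    g'.nc (lv (m.ext ω) i) =
      g.nc (lv ω i) * 2 ^ Nat.card {v' : V' // v' ∉ Set.range m.fV} := by
  unfold Gr.nc
  rw [← embm_card m.fV m.injV (fun s => ∀ e ∈ lv ω i, s (g.s e) = s (g.t e))]
  congr 1
  have h : ∀ s : V' → Bool, (∀ e ∈ lv (m.ext ω) i, s (g'.s e) = s (g'.t e)) ↔
      (∀ e ∈ lv ω i, (s ∘ m.fV) (g.s e) = (s ∘ m.fV) (g.t e)) := by
    intro s
    constructor
    · intro h e he
      have h1 : m.fE e ∈ lv (m.ext ω) i := by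
        show i ≤ (m.ext ω (m.fE e) : ℕ)
        rw [embm_ext_apply]
        exact he
      have h2 := h _ h1
      rw [m.hs, m.ht] at h2
      exact h2
    · intro h e' he'
      by_cases hr : e' ∈ Set.range m.fE
      · obtain ⟨e, rfl⟩ := hr
        rw [m.hs, m.ht]
        apply h e
        have h1 : i ≤ (m.ext ω (m.fE e) : ℕ) := he'
        rw [embm_ext_apply] at h1
        exact h1
      · exfalso
        have h1 : i ≤ (m.ext ω e' : ℕ) := he'
        rw [embm_ext_off m _ e' hr] at h1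
        simp at h1
        omega
  simp only [h]

/-- the constant is `p 0 ^ #(E' \ E) * 4 ^ #(V' \ V)` -/
theorem W_ext (m : Emb g g') {p : Fin 3 → ℝ} (hp : ∀ i, 0 < p i) :
    ∃ c > 0, ∀ ω : E → Fin 3, g'.W p (m.ext ω) = c * g.W p ω := by
  classical
  set k := Nat.card {v' : V' // v' ∉ Set.range m.fV} with hk
  set R : Finset E' := Finset.univ.image m.fE with hR
  refine ⟨p 0 ^ (Rᶜ).card * (2 ^ k * 2 ^ k), ?_, ?_⟩
  · have := hp 0
    positivity
  · intro ω
    unfold Gr.W
    rw [embm_nc m ω 1 le_rfl, embm_nc m ω 2 (by norm_num)]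
    have hprod : ∏ e', p (m.ext ω e') = (∏ e, p (ω e)) * p 0 ^ (Rᶜ).card := by
      rw [← Finset.prod_mul_prod_compl R]
      congr 1
      · rw [hR, Finset.prod_image (fun a _ b _ h => m.injE h)]
        refine Finset.prod_congr rfl (fun e _ => ?_)
        rw [embm_ext_apply]
      · rw [← Finset.prod_const]
        refine Finset.prod_congr rfl (fun e he => ?_)
        rw [embm_ext_off]
        rintro ⟨a, ha⟩
        rw [Finset.mem_compl, hR, Finset.mem_image] at he
        exact he ⟨a, Finset.mem_univ _, ha⟩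
    rw [hprod]
    push_cast
    ring

omit [Finite V] [Finite V'] in
theorem embm_sum (m : Emb g g') (F : (E' → Fin 3) → ℝ)
    (hF : ∀ ω', ¬ (∀ e, e ∉ Set.range m.fE → ω' e = 0) → F ω' = 0) :
    ∑ ω', F ω' = ∑ ω, F (m.ext ω) := by
  classical
  have h1 : ∑ ω ∈ (Finset.univ : Finset (E → Fin 3)).image m.ext, F ω = ∑ ω, F (m.ext ω) :=
    Finset.sum_image (fun a _ b _ h => embm_ext_inj m h)
  rw [← h1]
  symm
  apply Finset.sum_subset (Finset.subset_univ _)
  intro ω' _ h2
  apply hF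
  intro h3
  apply h2
  rw [Finset.mem_image]
  exact ⟨_, Finset.mem_univ _, embm_of_off m ω' h3⟩

/-- Holley with `f1(ω') = W_p(ω') 1{ω' = 0 off the range}` and `g1 = W_p'`. -/
theorem phi_emb_mono (m : Emb g g') {p p' : Fin 3 → ℝ} (hp : ∀ i, 0 < p i)
    (hp' : ∀ i, 0 < p' i) (h : RL p p') (f : (E' → Fin 3) → ℝ) (hf : Monotone f) :
    g.phi p (fun ω => f (m.ext ω)) ≤ g'.phi p' f := by
  classical
  obtain ⟨c, hc, hW⟩ := W_ext m hp
  set F : (E' → Fin 3) → ℝ := fun ω' =>
    if (∀ e, e ∉ Set.range m.fE → ω' e = 0) then g'.W p ω' else 0 with hFdef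
  have hF0 : 0 ≤ F := by
    intro ω'
    simp only [hFdef]
    split_ifs
    · exact W_nonneg g' hp ω'
    · exact le_rfl
  have hG0 : 0 ≤ g'.W p' := fun ω' => W_nonneg g' hp' ω'
  have hhol := holley_gen F (g'.W p') f hF0 hG0 (by
    intro a b
    by_cases ha : ∀ e, e ∉ Set.range m.fE → a e = 0
    · have hab : ∀ e, e ∉ Set.range m.fE → (a ⊓ b) e = 0 := by
        intro e he
        rw [Pi.inf_apply, ha e he]
        exact bot_inf_eq _
      simp only [hFdef]
      rw [if_pos ha, if_pos hab]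
      exact W_mul_le g' hp hp' h a b
    · have : F a = 0 := by
        simp only [hFdef]
        rw [if_neg ha]
      rw [this, zero_mul]
      exact mul_nonneg (hF0 _) (hG0 _)) hf
  have hsum : ∀ u : (E' → Fin 3) → ℝ, ∑ ω', F ω' * u ω' = c * ∑ ω, g.W p ω * u (m.ext ω) := by
    intro u
    rw [embm_sum m (fun ω' => F ω' * u ω'), Finset.mul_sum]
    · refine Finset.sum_congr rfl (fun ω _ => ?_)
      have : F (m.ext ω) = g'.W p (m.ext ω) := by
        simp only [hFdef]
        rw [if_pos]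
        exact fun e he => embm_ext_off m ω e he
      rw [this, hW]
      ring
    · intro ω' h'
      have : F ω' = 0 := by
        simp only [hFdef]
        rw [if_neg h']
      rw [this, zero_mul]
  have hsum1 : ∑ ω', F ω' = c * ∑ ω, g.W p ω := by
    have := hsum (fun _ => 1)
    simpa using this
  rw [hsum, hsum1] at hhol
  unfold Gr.phi
  have hpos1 : 0 < ∑ ω, g.W p ω := Finset.sum_pos (fun ω _ => W_pos g hp ω) ⟨fun _ => 0, by simp⟩
  have hpos2 : 0 < ∑ ω, g'.W p' ω :=
    Finset.sum_pos (fun ω _ => W_pos g' hp' ω) ⟨fun _ => 0, by simp⟩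
  rw [div_le_div_iff₀ hpos1 hpos2]
  have h3 : c * ((∑ ω, g.W p ω * f (m.ext ω)) * ∑ ω, g'.W p' ω) ≤
      c * ((∑ ω, g'.W p' ω * f ω) * ∑ ω, g.W p ω) := by
    calc c * ((∑ ω, g.W p ω * f (m.ext ω)) * ∑ ω, g'.W p' ω) =
        (c * ∑ ω, g.W p ω * f (m.ext ω)) * ∑ ω, g'.W p' ω := by ring
      _ ≤ _ := hhol
      _ = _ := by ring
  exact le_of_mul_le_mul_left h3 hc

theorem phi_emb_eq (m : Emb g g') (hE : Function.Surjective m.fE) {p : Fin 3 → ℝ}
    (hp : ∀ i, 0 < p i) (f : (E' → Fin 3) → ℝ) :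
    g.phi p (fun ω => f (m.ext ω)) = g'.phi p f := by
  classical
  obtain ⟨c, hc, hW⟩ := W_ext m hp
  have hr : ∀ e : E', e ∈ Set.range m.fE := fun e => hE e
  have h1 : ∑ ω', g'.W p ω' * f ω' = c * ∑ ω, g.W p ω * f (m.ext ω) := by
    rw [embm_sum m (fun ω' => g'.W p ω' * f ω'), Finset.mul_sum]
    · refine Finset.sum_congr rfl (fun ω _ => ?_)
      rw [hW]
      ring
    · intro ω' h'
      exfalso
      apply h'
      intro e he
      exact absurd (hr e) he
  have h2 : ∑ ω', g'.W p ω' = c * ∑ ω, g.W p ω := by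
    rw [embm_sum m (fun ω' => g'.W p ω'), Finset.mul_sum]
    · refine Finset.sum_congr rfl (fun ω _ => ?_)
      rw [hW]
    · intro ω' h'
      exfalso
      apply h'
      intro e he
      exact absurd (hr e) he
  unfold Gr.phi
  rw [h1, h2, mul_div_mul_left _ _ hc.ne']

/-- conditional version: `h` does not depend on the edges of the range; for each
configuration `η` off the range use Holley with `f1(a) = W(a) 1{a = 0 off range}` and
`g1(b) = W(b) 1{b = η off range}`. -/
theorem phi_emb_cond (m : Emb g g') {p : Fin 3 → ℝ} (hp : ∀ i, 0 < p i)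
    (f h : (E' → Fin 3) → ℝ) (hf : Monotone f) (h0 : ∀ ω, 0 ≤ h ω)
    (hh : ∀ ω ω' : E' → Fin 3, (∀ e, e ∉ Set.range m.fE → ω e = ω' e) → h ω = h ω') :
    g.phi p (fun ω => f (m.ext ω)) * g'.phi p h ≤ g'.phi p (fun ω => f ω * h ω) := by
  classical
  obtain ⟨c, hc, hW⟩ := W_ext m hp
  set F : (E' → Fin 3) → ℝ := fun ω' =>
    if (∀ e, e ∉ Set.range m.fE → ω' e = 0) then g'.W p ω' else 0 with hFdef
  have hF0 : 0 ≤ F := by
    intro ω'
    simp only [hFdef]
    split_ifs
    · exact W_nonneg g' hp ω'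
    · exact le_rfl
  have hsum : ∀ u : (E' → Fin 3) → ℝ, ∑ ω', F ω' * u ω' = c * ∑ ω, g.W p ω * u (m.ext ω) := by
    intro u
    rw [embm_sum m (fun ω' => F ω' * u ω'), Finset.mul_sum]
    · refine Finset.sum_congr rfl (fun ω _ => ?_)
      have : F (m.ext ω) = g'.W p (m.ext ω) := by
        simp only [hFdef]
        rw [if_pos]
        exact fun e he => embm_ext_off m ω e he
      rw [this, hW]
      ring
    · intro ω' h'
      have : F ω' = 0 := by
        simp only [hFdef]
        rw [if_neg h']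
      rw [this, zero_mul]
  have hsum1 : ∑ ω', F ω' = c * ∑ ω, g.W p ω := by
    have := hsum (fun _ => 1)
    simpa using this
  -- restriction to the complement of the range
  set r : (E' → Fin 3) → (E' → Fin 3) := fun b e => if e ∈ Set.range m.fE then 0 else b e with hr
  have hroff : ∀ b e, e ∉ Set.range m.fE → r b e = b e := by
    intro b e he
    simp only [hr]
    rw [if_neg he]
  have hhr : ∀ b, h b = h (r b) := fun b => hh b (r b) (fun e he => (hroff b e he).symm)
  -- Holley for each class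
  have key : ∀ q : E' → Fin 3,
      (∑ ω', F ω' * f ω') * (∑ b ∈ Finset.univ.filter (fun b => r b = q), g'.W p b) ≤
      (∑ b ∈ Finset.univ.filter (fun b => r b = q), g'.W p b * f b) * ∑ ω', F ω' := by
    intro q
    set Gq : (E' → Fin 3) → ℝ := fun b => if r b = q then g'.W p b else 0 with hGq
    have hG0 : 0 ≤ Gq := by
      intro b
      simp only [hGq]
      split_ifs
      · exact W_nonneg g' hp b
      · exact le_rfl
    have hhol := holley_gen F Gq f hF0 hG0 (by
      intro a b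
      by_cases ha : ∀ e, e ∉ Set.range m.fE → a e = 0
      · by_cases hb : r b = q
        · have hab : ∀ e, e ∉ Set.range m.fE → (a ⊓ b) e = 0 := by
            intro e he
            rw [Pi.inf_apply, ha e he]
            exact bot_inf_eq _
          have hab2 : r (a ⊔ b) = q := by
            rw [← hb]
            funext e
            by_cases he : e ∈ Set.range m.fE
            · simp only [hr]
              rw [if_pos he, if_pos he]
            · rw [hroff _ e he, hroff _ e he, Pi.sup_apply, ha e he]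
              exact bot_sup_eq _
          simp only [hFdef, hGq]
          rw [if_pos ha, if_pos hab, if_pos hb, if_pos hab2]
          exact W_mul_le g' hp hp (RL_refl p) a b
        · have : Gq b = 0 := by
            simp only [hGq]
            rw [if_neg hb]
          rw [this, mul_zero]
          exact mul_nonneg (hF0 _) (hG0 _)
      · have : F a = 0 := by
          simp only [hFdef]
          rw [if_neg ha]
        rw [this, zero_mul]
        exact mul_nonneg (hF0 _) (hG0 _)) hf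
    have e1 : ∑ b, Gq b = ∑ b ∈ Finset.univ.filter (fun b => r b = q), g'.W p b := by
      rw [Finset.sum_filter]
    have e2 : ∑ b, Gq b * f b =
        ∑ b ∈ Finset.univ.filter (fun b => r b = q), g'.W p b * f b := by
      rw [Finset.sum_filter]
      refine Finset.sum_congr rfl (fun b _ => ?_)
      simp only [hGq]
      split_ifs
      · rfl
      · rw [zero_mul]
    rw [e1, e2] at hhol
    exact hhol
  have hfib1 : ∑ b, g'.W p b * h b =
      ∑ q, (∑ b ∈ Finset.univ.filter (fun b => r b = q), g'.W p b) * h q := by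
    rw [← Finset.sum_fiberwise Finset.univ r (fun b => g'.W p b * h b)]
    refine Finset.sum_congr rfl (fun q _ => ?_)
    rw [Finset.sum_mul]
    refine Finset.sum_congr rfl (fun b hb => ?_)
    rw [Finset.mem_filter] at hb
    rw [hhr b, hb.2]
  have hfib2 : ∑ b, g'.W p b * (f b * h b) =
      ∑ q, (∑ b ∈ Finset.univ.filter (fun b => r b = q), g'.W p b * f b) * h q := by
    rw [← Finset.sum_fiberwise Finset.univ r (fun b => g'.W p b * (f b * h b))]
    refine Finset.sum_congr rfl (fun q _ => ?_)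
    rw [Finset.sum_mul]
    refine Finset.sum_congr rfl (fun b hb => ?_)
    rw [Finset.mem_filter] at hb
    rw [hhr b, hb.2]
    ring
  have hmain : (∑ ω', F ω' * f ω') * (∑ b, g'.W p b * h b) ≤
      (∑ b, g'.W p b * (f b * h b)) * ∑ ω', F ω' := by
    rw [hfib1, hfib2, Finset.mul_sum, Finset.sum_mul]
    refine Finset.sum_le_sum (fun q _ => ?_)
    calc (∑ ω', F ω' * f ω') * ((∑ b ∈ Finset.univ.filter (fun b => r b = q), g'.W p b) * h q)
        = ((∑ ω', F ω' * f ω') * (∑ b ∈ Finset.univ.filter (fun b => r b = q), g'.W p b)) * h q := by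
          ring
      _ ≤ ((∑ b ∈ Finset.univ.filter (fun b => r b = q), g'.W p b * f b) * ∑ ω', F ω') * h q :=
          mul_le_mul_of_nonneg_right (key q) (h0 q)
      _ = _ := by ring
  rw [hsum, hsum1] at hmain
  unfold Gr.phi
  have hpos1 : 0 < ∑ ω, g.W p ω := Finset.sum_pos (fun ω _ => W_pos g hp ω) ⟨fun _ => 0, by simp⟩
  have hpos2 : 0 < ∑ ω, g'.W p ω :=
    Finset.sum_pos (fun ω _ => W_pos g' hp ω) ⟨fun _ => 0, by simp⟩
  have h3 : c * ((∑ ω, g.W p ω * f (m.ext ω)) * ∑ b, g'.W p b * h b) ≤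
      c * ((∑ b, g'.W p b * (f b * h b)) * ∑ ω, g.W p ω) := by
    calc c * ((∑ ω, g.W p ω * f (m.ext ω)) * ∑ b, g'.W p b * h b) =
        (c * ∑ ω, g.W p ω * f (m.ext ω)) * ∑ b, g'.W p b * h b := by ring
      _ ≤ _ := hmain
      _ = _ := by ring
  have h4 := le_of_mul_le_mul_left h3 hc
  rw [div_mul_div_comm, div_le_div_iff₀ (by positivity) hpos2]
  calc (∑ ω, g.W p ω * f (m.ext ω)) * (∑ ω, g'.W p ω * h ω) * ∑ ω, g'.W p ω
      ≤ ((∑ b, g'.W p b * (f b * h b)) * ∑ ω, g.W p ω) * ∑ ω, g'.W p ω :=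
        mul_le_mul_of_nonneg_right h4 hpos2.le
    _ = _ := by ring

end

theorem embm_nc_copies {V E I : Type} [Finite V] [Fintype I] (g : Gr V E)
    (ω : I × E → Fin 3) (k : ℕ) :
    (g.copies I).nc (lv ω k) = ∏ i, g.nc (lv (fun e => ω (i, e)) k) := by
  unfold Gr.nc
  rw [← Nat.card_pi]
  apply Nat.card_eq_of_bijective
    (fun s : {s : I × V → Bool // ∀ e ∈ lv ω k, s ((g.copies I).s e) = s ((g.copies I).t e)} =>
      (fun i => (⟨fun v => s.1 (i, v), fun e he => s.2 (i, e) he⟩ :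
        {s : V → Bool // ∀ e ∈ lv (fun e => ω (i, e)) k, s (g.s e) = s (g.t e)})))
  constructor
  · rintro ⟨s, hs⟩ ⟨s', hs'⟩ h
    apply Subtype.ext
    funext v
    have h1 := congrFun h v.1
    have h2 := congrArg Subtype.val h1
    exact congrFun h2 v.2
  · intro F
    refine ⟨⟨fun v => (F v.1).1 v.2, ?_⟩, rfl⟩
    rintro ⟨i, e⟩ he
    exact (F i).2 e he

theorem embm_W_copies {V E I : Type} [Finite V] [Fintype E] [Fintype I] (g : Gr V E)
    (p : Fin 3 → ℝ) (ω : I × E → Fin 3) :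
    (g.copies I).W p ω = ∏ i, g.W p (fun e => ω (i, e)) := by
  unfold Gr.W
  rw [embm_nc_copies, embm_nc_copies, Finset.prod_mul_distrib, Finset.prod_mul_distrib,
    Fintype.prod_prod_type]
  push_cast
  rfl

/-- disjoint copies -/
theorem phi_copies {V E I : Type} [Finite V] [Fintype E] [DecidableEq E] [Fintype I]
    [DecidableEq I] (g : Gr V E) {p : Fin 3 → ℝ} (hp : ∀ i, 0 < p i)
    (f : I → (E → Fin 3) → ℝ) :
    (g.copies I).phi p (fun ω => ∏ i, f i (fun e => ω (i, e))) = ∏ i, g.phi p (f i) := by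
  have key : ∀ u : I → (E → Fin 3) → ℝ,
      ∑ ω : I × E → Fin 3, (g.copies I).W p ω * ∏ i, u i (fun e => ω (i, e)) =
        ∏ i, ∑ ω, g.W p ω * u i ω := by
    intro u
    rw [Finset.prod_univ_sum, Fintype.piFinset_univ]
    rw [← Equiv.sum_comp (Equiv.curry I E (Fin 3))]
    refine Finset.sum_congr rfl (fun ω _ => ?_)
    rw [embm_W_copies, ← Finset.prod_mul_distrib]
    rfl
  unfold Gr.phi
  rw [key, Finset.prod_div_distrib]
  congr 1
  have := key (fun _ _ => 1)
  simpa using this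

end H82AT

end S_EMBM
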