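import Mathlib
import Pool.Agent.H82.ATM.G1

set_option autoImplicit false

/-! Ashkin-Teller critical points, part G2: this file joins several modules to save build time. -/

section S_ES

/-! MODULE ES: the Edwards-Sokal coupling. -/

set_option autoImplicit false

namespace H82AT

open Finset

section
variable {V E : Type} [Fintype V] [DecidableEq V] [Fintype E] [DecidableEq E]

theorem es_prod_ind {ι : Type} (s : Finset ι) (P : ι → Prop) :
    ∏ i ∈ s, ind (P i) = ind (∀ i ∈ s, P i) := by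
  classical
  induction s using Finset.induction_on with
  | empty => rw [Finset.prod_empty, ind_true]; simp
  | insert a s ha ih =>
    rw [Finset.prod_insert ha, ih, ← ind_and]
    congr 1
    simp only [Finset.mem_insert, forall_eq_or_imp]

theorem es_sum_ind {α : Type} [Fintype α] (P : α → Prop) :
    ∑ a, ind (P a) = (Nat.card {a // P a} : ℝ) := by
  classical
  have h : ∀ a, ind (P a) = if P a then 1 else 0 := by
    intro a
    by_cases hP : P a
    · rw [ind_true hP, if_pos hP]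
    · rw [ind_false hP, if_neg hP]
  simp only [h, Finset.sum_boole]
  rw [Nat.card_eq_fintype_card, Fintype.card_subtype]

theorem J_nonneg (g : Gr V E) {p : Fin 3 → ℝ} (hp : ∀ i, 0 < p i) (ω : E → Fin 3)
    (σ : V → Col) : 0 ≤ g.J p ω σ :=
  Finset.prod_nonneg fun _ _ => mul_nonneg (hp _).le (ind_nonneg _)

theorem J_sum_col (g : Gr V E) (p : Fin 3 → ℝ) (ω : E → Fin 3) :
    ∑ σ, g.J p ω σ = g.W p ω := by
  have h1 : ∀ σ : V → Col, g.J p ω σ =
      (∏ e, p (ω e)) * ind (∀ e, cmp (ω e) (σ (g.s e)) (σ (g.t e))) := by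
    intro σ
    unfold Gr.J
    rw [Finset.prod_mul_distrib, es_prod_ind]
    simp only [Finset.mem_univ, true_imp_iff]
  simp only [h1]
  rw [← Finset.mul_sum, es_sum_ind]
  unfold Gr.W Gr.nc
  congr 1
  rw [← Nat.cast_mul, ← Nat.card_prod]
  congr 1
  refine Nat.card_congr
    { toFun := fun σ => (⟨fun x => (σ.1 x).1, ?_⟩, ⟨fun x => (σ.1 x).2, ?_⟩)
      invFun := fun st => ⟨fun x => (st.1.1 x, st.2.1 x), ?_⟩
      left_inv := fun _ => rfl
      right_inv := fun _ => rfl }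
  · intro e he
    exact (σ.2 e).1 he
  · intro e he
    exact congrArg Prod.snd ((σ.2 e).2 he)
  · intro e
    refine ⟨fun he => st.1.2 e he, fun he => ?_⟩
    exact Prod.ext (st.1.2 e (le_trans (by norm_num) he)) (st.2.2 e he)

theorem J_sum_edge (g : Gr V E) (p : Fin 3 → ℝ) (σ : V → Col) :
    ∑ ω, g.J p ω σ = ∏ e, aw p (σ (g.s e)) (σ (g.t e)) := by
  unfold Gr.J
  have h := Finset.prod_univ_sum (fun _ : E => (Finset.univ : Finset (Fin 3)))
    (fun e k => p k * ind (cmp k (σ (g.s e)) (σ (g.t e))))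
  rw [Fintype.piFinset_univ] at h
  rw [← h]
  refine Finset.prod_congr rfl fun e _ => ?_
  rw [Fin.sum_univ_three]
  unfold aw
  generalize σ (g.s e) = c
  generalize σ (g.t e) = c'
  have e0 : ind (cmp 0 c c') = 1 := ind_true ⟨fun h => absurd h (by decide), fun h => absurd h (by decide)⟩
  have e1 : ind (cmp 1 c c') = ind (c.1 = c'.1) := by
    congr 1
    apply propext
    constructor
    · intro h
      exact h.1 (by decide)
    · intro h
      exact ⟨fun _ => h, fun h' => absurd h' (by decide)⟩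
  have e2 : ind (cmp 2 c c') = ind (c = c') := by
    congr 1
    apply propext
    constructor
    · intro h
      exact h.2 (by decide)
    · intro h
      exact ⟨fun _ => by rw [h], fun _ => h⟩
  rw [e0, e1, e2, mul_one]

theorem EE_edge (g : Gr V E) (p : Fin 3 → ℝ) (f : (E → Fin 3) → ℝ) :
    g.EE p (fun ω _ => f ω) = g.phi p f := by
  unfold Gr.EE Gr.phi
  simp only [← Finset.sum_mul, J_sum_col]

theorem EE_col (g : Gr V E) (p : Fin 3 → ℝ) (f : (V → Col) → ℝ) :
    g.EE p (fun _ σ => f σ) = (∑ σ, (∏ e, aw p (σ (g.s e)) (σ (g.t e))) * f σ) /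
      ∑ σ : V → Col, ∏ e, aw p (σ (g.s e)) (σ (g.t e)) := by
  unfold Gr.EE
  rw [Finset.sum_comm, Finset.sum_comm (f := fun ω σ => g.J p ω σ)]
  simp only [← Finset.sum_mul, J_sum_edge]

theorem es_den_nonneg (g : Gr V E) {p : Fin 3 → ℝ} (hp : ∀ i, 0 < p i) :
    0 ≤ ∑ ω, ∑ σ, g.J p ω σ :=
  Finset.sum_nonneg fun ω _ => Finset.sum_nonneg fun σ _ => J_nonneg g hp ω σ

theorem es_den_pos (g : Gr V E) {p : Fin 3 → ℝ} (hp : ∀ i, 0 < p i) :
    0 < ∑ ω, ∑ σ, g.J p ω σ := by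
  rw [Finset.sum_comm]
  simp only [J_sum_edge]
  refine Finset.sum_pos (fun σ _ => Finset.prod_pos fun e _ => ?_) Finset.univ_nonempty
  unfold aw
  have h1 := mul_nonneg (hp 1).le (ind_nonneg ((σ (g.s e)).1 = (σ (g.t e)).1))
  have h2 := mul_nonneg (hp 2).le (ind_nonneg (σ (g.s e) = σ (g.t e)))
  have h0 := hp 0
  linarith

theorem EE_mono (g : Gr V E) {p : Fin 3 → ℝ} (hp : ∀ i, 0 < p i)
    (f f' : (E → Fin 3) → (V → Col) → ℝ) (h : ∀ ω σ, f ω σ ≤ f' ω σ) :
    g.EE p f ≤ g.EE p f' := by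
  unfold Gr.EE
  apply div_le_div_of_nonneg_right _ (es_den_nonneg g hp)
  exact Finset.sum_le_sum fun ω _ => Finset.sum_le_sum fun σ _ =>
    mul_le_mul_of_nonneg_left (h ω σ) (J_nonneg g hp ω σ)

theorem EE_add (g : Gr V E) (p : Fin 3 → ℝ) (f f' : (E → Fin 3) → (V → Col) → ℝ) :
    g.EE p (fun ω σ => f ω σ + f' ω σ) = g.EE p f + g.EE p f' := by
  unfold Gr.EE
  rw [← add_div]
  congr 1
  simp only [mul_add, Finset.sum_add_distrib]

theorem EE_smul (g : Gr V E) (p : Fin 3 → ℝ) (c : ℝ) (f : (E → Fin 3) → (V → Col) → ℝ) :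
    g.EE p (fun ω σ => c * f ω σ) = c * g.EE p f := by
  unfold Gr.EE
  rw [← mul_div_assoc]
  congr 1
  simp only [Finset.mul_sum]
  refine Finset.sum_congr rfl fun ω _ => Finset.sum_congr rfl fun σ _ => ?_
  ring

theorem EE_const (g : Gr V E) {p : Fin 3 → ℝ} (hp : ∀ i, 0 < p i) (c : ℝ) :
    g.EE p (fun _ _ => c) = c := by
  unfold Gr.EE
  simp only [← Finset.sum_mul]
  have h := es_den_pos g hp
  field_simp

theorem EE_sum {ι : Type} (g : Gr V E) (p : Fin 3 → ℝ) (s : Finset ι)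
    (f : ι → (E → Fin 3) → (V → Col) → ℝ) :
    g.EE p (fun ω σ => ∑ i ∈ s, f i ω σ) = ∑ i ∈ s, g.EE p (f i) := by
  classical
  induction s using Finset.induction_on with
  | empty =>
    unfold Gr.EE
    simp
  | insert a s ha ih =>
    simp only [Finset.sum_insert ha]
    rw [EE_add, ih]

theorem aw_pr {β J1 J2 : ℝ} (c c' : Col) :
    aw (pr β J1 J2) c c' = Real.exp (-(β * dl J1 J2 c c')) := by
  unfold aw dl pr
  by_cases h : c = c'
  · subst h
    rw [ind_true rfl, ind_true rfl, if_pos rfl]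
    simp
  · rw [ind_false h, if_neg h]
    by_cases h1 : c.1 = c'.1
    · rw [ind_true h1, if_pos h1]
      simp
    · rw [ind_false h1, if_neg h1]
      simp

end

end H82AT

end S_ES

section S_ESC

/-! MODULE ESC: spin correlations are connection probabilities. -/

set_option autoImplicit false

namespace H82AT

open Finset

section
variable {V E : Type} [Fintype V] [DecidableEq V] [Fintype E] [DecidableEq E]

/-- weighted number of maps constant on the clusters of `F` -/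
noncomputable def escA (g : Gr V E) (F : Set E) (h : (V → Bool) → ℝ) : ℝ :=
  ∑ s : V → Bool, ind (∀ e ∈ F, s (g.s e) = s (g.t e)) * h s

theorem esc_one (g : Gr V E) (F : Set E) : escA g F (fun _ => 1) = (g.nc F : ℝ) := by
  unfold escA Gr.nc
  simp only [mul_one]
  exact es_sum_ind _

theorem esc_sum (g : Gr V E) (p : Fin 3 → ℝ) (ω : E → Fin 3) (h1 h2 : (V → Bool) → ℝ) :
    ∑ σ : V → Col, g.J p ω σ * (h1 (fun x => (σ x).1) * h2 (fun x => (σ x).2)) =
      (∏ e, p (ω e)) * (escA g (lv ω 1) h1 * escA g (lv ω 2) h2) := by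
  have hJ : ∀ σ : V → Col, g.J p ω σ =
      (∏ e, p (ω e)) * (ind (∀ e ∈ lv ω 1, (σ (g.s e)).1 = (σ (g.t e)).1) *
        ind (∀ e ∈ lv ω 2, (σ (g.s e)).2 = (σ (g.t e)).2)) := by
    intro σ
    unfold Gr.J
    rw [Finset.prod_mul_distrib, es_prod_ind, ← ind_and]
    congr 2
    apply propext
    simp only [Finset.mem_univ, true_imp_iff]
    constructor
    · intro h
      exact ⟨fun e he => (h e).1 he, fun e he => congrArg Prod.snd ((h e).2 he)⟩
    · rintro ⟨ha, hb⟩ e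
      exact ⟨fun he => ha e he, fun he => Prod.ext (ha e (le_trans (by norm_num) he)) (hb e he)⟩
  simp only [hJ]
  unfold escA
  rw [Finset.sum_mul_sum, ← Finset.sum_product', Finset.univ_product_univ, Finset.mul_sum]
  refine Fintype.sum_equiv (Equiv.arrowProdEquivProdArrow V (fun _ => Bool) (fun _ => Bool)) _ _ ?_
  intro σ
  simp only [Equiv.arrowProdEquivProdArrow, Equiv.coe_fn_mk]
  ring

omit [Fintype V] [DecidableEq V] [Fintype E] [DecidableEq E] in
theorem esc_conn_symm (g : Gr V E) (F : Set E) {x y : V} (h : g.conn F x y) : g.conn F y x := by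
  have hs : ∀ a b, g.adj F a b → g.adj F b a := by
    rintro a b ⟨e, he, h1 | h1⟩
    · exact ⟨e, he, Or.inr h1⟩
    · exact ⟨e, he, Or.inl h1⟩
  induction h with
  | refl => exact Relation.ReflTransGen.refl
  | tail _ hbc ih => exact Relation.ReflTransGen.head (hs _ _ hbc) ih

omit [Fintype V] [DecidableEq V] [Fintype E] [DecidableEq E] in
theorem esc_const (g : Gr V E) (F : Set E) (s : V → Bool)
    (hs : ∀ e ∈ F, s (g.s e) = s (g.t e)) {x y : V} (h : g.conn F x y) : s x = s y := by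
  induction h with
  | refl => rfl
  | tail _ hbc ih =>
    rw [ih]
    obtain ⟨e, he, ⟨h1, h2⟩ | ⟨h1, h2⟩⟩ := hbc
    · rw [← h1, ← h2]
      exact hs e he
    · rw [← h1, ← h2]
      exact (hs e he).symm

theorem esc_sg_not (b : Bool) : sg (!b) = - sg b := by
  cases b <;> simp [sg]

theorem esc_sg_sq (b : Bool) : sg b * sg b = 1 := by
  cases b <;> simp [sg]

theorem esc_corr (g : Gr V E) (F : Set E) (x y : V) :
    escA g F (fun s => sg (s x) * sg (s y)) = (g.nc F : ℝ) * ind (g.conn F x y) := by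
  classical
  by_cases hxy : g.conn F x y
  · rw [ind_true hxy, mul_one, ← esc_one]
    unfold escA
    refine Finset.sum_congr rfl fun s _ => ?_
    by_cases hs : ∀ e ∈ F, s (g.s e) = s (g.t e)
    · simp only
      rw [esc_const g F s hs hxy, esc_sg_sq]
    · rw [ind_false hs, zero_mul, zero_mul]
  · rw [ind_false hxy, mul_zero]
    let fl : (V → Bool) → (V → Bool) := fun s z => if g.conn F y z then !(s z) else s z
    have hfl : Function.Involutive fl := by
      intro s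
      funext z
      by_cases hz : g.conn F y z
      · simp only [fl, hz, if_true, Bool.not_not]
      · simp only [fl, hz, if_false]
    have hedge : ∀ e ∈ F, g.conn F y (g.s e) ↔ g.conn F y (g.t e) := by
      intro e he
      constructor
      · intro h
        exact h.tail ⟨e, he, Or.inl ⟨rfl, rfl⟩⟩
      · intro h
        exact h.tail ⟨e, he, Or.inr ⟨rfl, rfl⟩⟩
    have hcomp : ∀ s : V → Bool, (∀ e ∈ F, s (g.s e) = s (g.t e)) →
        (∀ e ∈ F, fl s (g.s e) = fl s (g.t e)) := by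
      intro s hs e he
      by_cases h : g.conn F y (g.s e)
      · have h' := (hedge e he).mp h
        simp only [fl, h, h', if_true, hs e he]
      · have h' : ¬ g.conn F y (g.t e) := fun h' => h ((hedge e he).mpr h')
        simp only [fl, h, h', if_false, hs e he]
    have hkey : escA g F (fun s => sg (s x) * sg (s y)) =
        - escA g F (fun s => sg (s x) * sg (s y)) := by
      conv_lhs => unfold escA
      rw [← Equiv.sum_comp hfl.toPerm]
      unfold escA
      rw [← Finset.sum_neg_distrib]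
      refine Finset.sum_congr rfl fun s _ => ?_
      change ind (∀ e ∈ F, fl s (g.s e) = fl s (g.t e)) * (sg (fl s x) * sg (fl s y)) = _
      have e1 : ind (∀ e ∈ F, fl s (g.s e) = fl s (g.t e)) =
          ind (∀ e ∈ F, s (g.s e) = s (g.t e)) := by
        congr 1
        apply propext
        constructor
        · intro h
          have := hcomp (fl s) h
          rwa [hfl s] at this
        · exact hcomp s
      have e2 : fl s x = s x := by
        have : ¬ g.conn F y x := fun h => hxy (esc_conn_symm g F h)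
        simp only [fl, this, if_false]
      have e3 : fl s y = !(s y) := by
        have : g.conn F y y := Relation.ReflTransGen.refl
        simp only [fl, this, if_true]
      rw [e1, e2, e3, esc_sg_not]
      ring
    linarith

omit [Fintype V] [DecidableEq V] [Fintype E] [DecidableEq E] in
theorem esc_conn_mono (g : Gr V E) {F F' : Set E} (h : F ⊆ F') {x y : V} (hc : g.conn F x y) :
    g.conn F' x y := by
  induction hc with
  | refl => exact Relation.ReflTransGen.refl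
  | tail _ hbc ih =>
    obtain ⟨e, he, h1⟩ := hbc
    exact ih.tail ⟨e, h he, h1⟩

theorem esc_EE (g : Gr V E) (p : Fin 3 → ℝ) (f : (V → Col) → ℝ) (F : (E → Fin 3) → ℝ)
    (h : ∀ ω, ∑ σ, g.J p ω σ * f σ = g.W p ω * F ω) :
    g.EE p (fun _ σ => f σ) = g.phi p F := by
  unfold Gr.EE Gr.phi
  simp only [h, J_sum_col]

/-- given `ω` the first components are constant on type-1/2 clusters, the second components
on type-2 clusters, and otherwise free fair coins -/
theorem EE_ss (g : Gr V E) {p : Fin 3 → ℝ} (hp : ∀ i, 0 < p i) (x y : V) :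
    g.EE p (fun _ σ => sg (σ x).1 * sg (σ y).1)
      = g.phi p (fun ω => ind (g.conn (lv ω 1) x y)) := by
  refine esc_EE g p _ _ fun ω => ?_
  have h := esc_sum g p ω (fun s => sg (s x) * sg (s y)) (fun _ => 1)
  simp only [mul_one] at h
  rw [h, esc_corr, esc_one]
  unfold Gr.W
  ring

theorem EE_tt (g : Gr V E) {p : Fin 3 → ℝ} (hp : ∀ i, 0 < p i) (x y : V) :
    g.EE p (fun _ σ => sg (σ x).2 * sg (σ y).2)
      = g.phi p (fun ω => ind (g.conn (lv ω 2) x y)) := by
  refine esc_EE g p _ _ fun ω => ?_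
  have h := esc_sum g p ω (fun _ => 1) (fun s => sg (s x) * sg (s y))
  simp only [one_mul] at h
  rw [h, esc_corr, esc_one]
  unfold Gr.W
  ring

theorem EE_stst (g : Gr V E) {p : Fin 3 → ℝ} (hp : ∀ i, 0 < p i) (x y : V) :
    g.EE p (fun _ σ => (sg (σ x).1 * sg (σ y).1) * (sg (σ x).2 * sg (σ y).2))
      = g.phi p (fun ω => ind (g.conn (lv ω 2) x y)) := by
  refine esc_EE g p _ _ fun ω => ?_
  have h := esc_sum g p ω (fun s => sg (s x) * sg (s y)) (fun s => sg (s x) * sg (s y))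
  rw [h, esc_corr, esc_corr]
  unfold Gr.W
  by_cases h2 : g.conn (lv ω 2) x y
  · have h1 : g.conn (lv ω 1) x y := by
      refine esc_conn_mono g ?_ h2
      intro e he
      have he' : 2 ≤ ((ω e : Fin 3) : ℕ) := he
      change 1 ≤ ((ω e : Fin 3) : ℕ)
      omega
    rw [ind_true h2, ind_true h1]
    ring
  · rw [ind_false h2]
    ring

end

end H82AT

end S_ESC

section S_ESO

/-! MODULE ESO: edges are independent given the colours. -/

set_option autoImplicit false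

namespace H82AT

open Finset

section
variable {V E : Type} [Fintype V] [DecidableEq V] [Fintype E] [DecidableEq E]

theorem eso_gen (g : Gr V E) (p : Fin 3 → ℝ) (σ : V → Col) (w : E → Fin 3 → ℝ) :
    ∑ ω, g.J p ω σ * ∏ e, w e (ω e) =
      ∏ e, ∑ k, p k * ind (cmp k (σ (g.s e)) (σ (g.t e))) * w e k := by
  unfold Gr.J
  have h := Finset.prod_univ_sum (fun _ : E => (Finset.univ : Finset (Fin 3)))
    (fun e k => p k * ind (cmp k (σ (g.s e)) (σ (g.t e))) * w e k)
  rw [Fintype.piFinset_univ] at h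
  rw [h]
  refine Finset.sum_congr rfl fun ω _ => ?_
  rw [← Finset.prod_mul_distrib]

theorem eso_cmp (c c' : Col) : ind (cmp 0 c c') = 1 ∧ ind (cmp 1 c c') = ind (c.1 = c'.1) ∧
    ind (cmp 2 c c') = ind (c = c') := by
  refine ⟨ind_true ⟨fun h => absurd h (by decide), fun h => absurd h (by decide)⟩, ?_, ?_⟩
  · congr 1
    apply propext
    constructor
    · intro h
      exact h.1 (by decide)
    · intro h
      exact ⟨fun _ => h, fun h' => absurd h' (by decide)⟩
  · congr 1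
    apply propext
    constructor
    · intro h
      exact h.2 (by decide)
    · intro h
      exact ⟨fun _ => by rw [h], fun _ => h⟩

theorem eso_aw_pos {p : Fin 3 → ℝ} (hp : ∀ i, 0 < p i) (c c' : Col) : 0 < aw p c c' := by
  unfold aw
  have h1 := mul_nonneg (hp 1).le (ind_nonneg (c.1 = c'.1))
  have h2 := mul_nonneg (hp 2).le (ind_nonneg (c = c'))
  have h0 := hp 0
  linarith

/-- given `σ` the edges are independent -/
theorem EE_open (g : Gr V E) {p : Fin 3 → ℝ} (hp : ∀ i, 0 < p i) (F : Finset E)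
    (f : (V → Col) → ℝ) :
    g.EE p (fun ω σ => ind (∀ e ∈ F, 1 ≤ ((ω e : Fin 3) : ℕ)) * f σ)
      = g.EE p (fun _ σ => (∏ e ∈ F, (1 - p 0 / aw p (σ (g.s e)) (σ (g.t e)))) * f σ) := by
  classical
  unfold Gr.EE
  congr 1
  rw [Finset.sum_comm, Finset.sum_comm (f := fun ω σ => g.J p ω σ *
    ((∏ e ∈ F, (1 - p 0 / aw p (σ (g.s e)) (σ (g.t e)))) * f σ))]
  refine Finset.sum_congr rfl fun σ _ => ?_
  have key : ∑ ω, g.J p ω σ * ind (∀ e ∈ F, 1 ≤ ((ω e : Fin 3) : ℕ)) =
      (∑ ω, g.J p ω σ) * ∏ e ∈ F, (1 - p 0 / aw p (σ (g.s e)) (σ (g.t e))) := by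
    have e1 : ∀ ω : E → Fin 3, ind (∀ e ∈ F, 1 ≤ ((ω e : Fin 3) : ℕ)) =
        ∏ e, (if e ∈ F then ind (1 ≤ ((ω e : Fin 3) : ℕ)) else 1) := by
      intro ω
      rw [← es_prod_ind, Finset.prod_ite_mem, Finset.univ_inter]
    simp only [e1]
    rw [eso_gen g p σ (fun e k => if e ∈ F then ind (1 ≤ (k : ℕ)) else 1), J_sum_edge]
    rw [← Finset.univ_inter F, ← Finset.prod_ite_mem Finset.univ F
      (fun e => (1 - p 0 / aw p (σ (g.s e)) (σ (g.t e)))), ← Finset.prod_mul_distrib]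
    simp only [Finset.univ_inter]
    refine Finset.prod_congr rfl fun e _ => ?_
    have haw := eso_aw_pos hp (σ (g.s e)) (σ (g.t e))
    obtain ⟨c0, c1, c2⟩ := eso_cmp (σ (g.s e)) (σ (g.t e))
    rw [Fin.sum_univ_three, c0, c1, c2]
    have i0 : ind (1 ≤ ((0 : Fin 3) : ℕ)) = 0 := ind_false (by decide)
    have i1 : ind (1 ≤ ((1 : Fin 3) : ℕ)) = 1 := ind_true (by decide)
    have i2 : ind (1 ≤ ((2 : Fin 3) : ℕ)) = 1 := ind_true (by decide)
    by_cases he : e ∈ F
    · simp only [he, if_true, i0, i1, i2]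
      rw [mul_sub, mul_one, mul_div_cancel₀ _ haw.ne']
      unfold aw
      ring
    · simp only [he, if_false]
      unfold aw
      ring
  have e2 : ∀ ω : E → Fin 3, g.J p ω σ * (ind (∀ e ∈ F, 1 ≤ ((ω e : Fin 3) : ℕ)) * f σ) =
      (g.J p ω σ * ind (∀ e ∈ F, 1 ≤ ((ω e : Fin 3) : ℕ))) * f σ := fun ω => by ring
  simp only [e2]
  rw [← Finset.sum_mul, key, ← Finset.sum_mul]
  ring

/-- expected value of an edge, given the colours -/
theorem EE_val (g : Gr V E) {p : Fin 3 → ℝ} (hp : ∀ i, 0 < p i) (e : E) :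
    g.phi p (fun ω => ((ω e : ℕ) : ℝ))
      = g.EE p (fun _ σ => (p 1 * ind ((σ (g.s e)).1 = (σ (g.t e)).1)
          + 2 * p 2 * ind (σ (g.s e) = σ (g.t e))) / aw p (σ (g.s e)) (σ (g.t e))) := by
  classical
  rw [← EE_edge]
  unfold Gr.EE
  congr 1
  rw [Finset.sum_comm, Finset.sum_comm (f := fun ω σ => g.J p ω σ *
    ((p 1 * ind ((σ (g.s e)).1 = (σ (g.t e)).1)
          + 2 * p 2 * ind (σ (g.s e) = σ (g.t e))) / aw p (σ (g.s e)) (σ (g.t e))))]
  refine Finset.sum_congr rfl fun σ _ => ?_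
  rw [← Finset.sum_mul]
  have e1 : ∀ ω : E → Fin 3, ((ω e : ℕ) : ℝ) =
      ∏ e', (if e' = e then ((ω e' : ℕ) : ℝ) else 1) := by
    intro ω
    rw [Finset.prod_ite_eq' Finset.univ e (fun e' => ((ω e' : ℕ) : ℝ)), if_pos (Finset.mem_univ e)]
  simp only [e1]
  rw [eso_gen g p σ (fun e' k => if e' = e then ((k : ℕ) : ℝ) else 1), J_sum_edge]
  have haw := eso_aw_pos hp (σ (g.s e)) (σ (g.t e))
  have e2 : ∀ e', ∑ k, p k * ind (cmp k (σ (g.s e')) (σ (g.t e'))) *
      (if e' = e then ((k : ℕ) : ℝ) else 1) =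
      aw p (σ (g.s e')) (σ (g.t e')) * (if e' = e then (p 1 * ind ((σ (g.s e')).1 = (σ (g.t e')).1)
          + 2 * p 2 * ind (σ (g.s e') = σ (g.t e'))) / aw p (σ (g.s e')) (σ (g.t e')) else 1) := by
    intro e'
    have haw' := eso_aw_pos hp (σ (g.s e')) (σ (g.t e'))
    obtain ⟨c0, c1, c2⟩ := eso_cmp (σ (g.s e')) (σ (g.t e'))
    rw [Fin.sum_univ_three, c0, c1, c2]
    by_cases he : e' = e
    · simp only [he, if_true]
      rw [he] at haw'
      rw [mul_div_cancel₀ _ haw'.ne']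
      simp only [Fin.val_zero, Fin.val_one, Fin.val_two, Nat.cast_zero, Nat.cast_one, Nat.cast_ofNat]
      ring
    · simp only [he, if_false]
      unfold aw
      ring
  simp only [e2]
  rw [Finset.prod_mul_distrib]
  congr 1
  rw [Finset.prod_ite_eq' Finset.univ e (fun e' => (p 1 * ind ((σ (g.s e')).1 = (σ (g.t e')).1)
          + 2 * p 2 * ind (σ (g.s e') = σ (g.t e'))) / aw p (σ (g.s e')) (σ (g.t e'))),
    if_pos (Finset.mem_univ e)]

end

end H82AT

end S_ESO

section S_MVT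

/-! MODULE MVT: mean value theorem for the difference of the pressures. -/

set_option autoImplicit false

namespace H82AT

open Finset

private noncomputable def mvtH {V E : Type} [Fintype E] (g : Gr V E) (J1 J2 : ℝ) (σ : V → Col) : ℝ :=
  ∑ e, dl J1 J2 (σ (g.s e)) (σ (g.t e))

private noncomputable def mvtZ {V E : Type} [Fintype V] [DecidableEq V] [Fintype E] (g : Gr V E)
    (J1 J2 β : ℝ) : ℝ := ∑ σ : V → Col, Real.exp (-(β * mvtH g J1 J2 σ))

private noncomputable def mvtN {V E : Type} [Fintype V] [DecidableEq V] [Fintype E] (g : Gr V E)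
    (J1 J2 β : ℝ) : ℝ := ∑ σ : V → Col, Real.exp (-(β * mvtH g J1 J2 σ)) * mvtH g J1 J2 σ

private theorem mvt_dl_nonneg {J1 J2 : ℝ} (h1 : 0 < J1) (h2 : J1 < J2) (c c' : Col) :
    0 ≤ dl J1 J2 c c' := by
  unfold dl
  split_ifs <;> linarith

private theorem mvt_dl_le {J1 J2 : ℝ} (h1 : 0 < J1) (h2 : J1 < J2) (c c' : Col) :
    dl J1 J2 c c' ≤ J2 := by
  unfold dl
  split_ifs <;> linarith

private theorem mvt_Z_pos {V E : Type} [Fintype V] [DecidableEq V] [Fintype E] (g : Gr V E)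
    (J1 J2 β : ℝ) : 0 < mvtZ g J1 J2 β :=
  Finset.sum_pos (fun σ _ => Real.exp_pos _) Finset.univ_nonempty

private theorem mvt_EE {V E : Type} [Fintype V] [DecidableEq V] [Fintype E] [DecidableEq E]
    (g : Gr V E) (J1 J2 β : ℝ) :
    ∑ e, g.EE (pr β J1 J2) (fun _ σ => dl J1 J2 (σ (g.s e)) (σ (g.t e))) =
      mvtN g J1 J2 β / mvtZ g J1 J2 β := by
  rw [← EE_sum, EE_col]
  have h : ∀ σ : V → Col, ∏ e, aw (pr β J1 J2) (σ (g.s e)) (σ (g.t e)) =
      Real.exp (-(β * mvtH g J1 J2 σ)) := by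
    intro σ
    simp only [aw_pr]
    rw [← Real.exp_sum]
    congr 1
    unfold mvtH
    rw [Finset.mul_sum, ← Finset.sum_neg_distrib]
  simp only [h]
  rfl

private theorem mvt_deriv {V E : Type} [Fintype V] [DecidableEq V] [Fintype E] (g : Gr V E)
    (J1 J2 β : ℝ) :
    HasDerivAt (fun β => Real.log (mvtZ g J1 J2 β)) (-(mvtN g J1 J2 β / mvtZ g J1 J2 β)) β := by
  have h1 : HasDerivAt (fun β => mvtZ g J1 J2 β) (-(mvtN g J1 J2 β)) β := by
    unfold mvtZ mvtN
    rw [← Finset.sum_neg_distrib]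
    apply HasDerivAt.fun_sum
    intro σ _
    have h2 : HasDerivAt (fun β : ℝ => -(β * mvtH g J1 J2 σ)) (-(1 * mvtH g J1 J2 σ)) β :=
      ((hasDerivAt_id β).mul_const _).neg
    have h3 := h2.exp
    have e3 : Real.exp (-(β * mvtH g J1 J2 σ)) * -(1 * mvtH g J1 J2 σ) =
        -(Real.exp (-(β * mvtH g J1 J2 σ)) * mvtH g J1 J2 σ) := by ring
    rw [e3] at h3
    exact h3
  have h4 := h1.log (mvt_Z_pos g J1 J2 β).ne'
  rw [neg_div] at h4
  exact h4

private theorem mvt_split {V E V' E' : Type} [Fintype E] [DecidableEq E] [Fintype E']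
    [DecidableEq E'] {g : Gr V E} {g' : Gr V' E'} (m : Emb g g') (f : E' → ℝ) :
    ∑ e', f e' = ∑ e, f (m.fE e) + ∑ e' ∈ (Finset.univ.image m.fE)ᶜ, f e' := by
  rw [← Finset.sum_add_sum_compl (Finset.univ.image m.fE) f]
  congr 1
  exact Finset.sum_image (fun x _ y _ h => m.injE h)

private theorem mvt_card {V E V' E' : Type} [Fintype E] [DecidableEq E] [Fintype E']
    [DecidableEq E'] {g : Gr V E} {g' : Gr V' E'} (m : Emb g g') :
    (((Finset.univ.image m.fE)ᶜ : Finset E').card : ℝ) = (Fintype.card E' : ℝ) - Fintype.card E := by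
  rw [Finset.card_compl, Finset.card_image_of_injective _ m.injE, Finset.card_univ,
    Nat.cast_sub (Fintype.card_le_of_injective _ m.injE)]

private theorem mvt_H {V E V' E' : Type} [Fintype E] [DecidableEq E] [Fintype E']
    [DecidableEq E'] {g : Gr V E} {g' : Gr V' E'} (m : Emb g g') {J1 J2 : ℝ} (h1 : 0 < J1)
    (h2 : J1 < J2) (σ : V' → Col) :
    mvtH g J1 J2 (fun v => σ (m.fV v)) ≤ mvtH g' J1 J2 σ ∧
    mvtH g' J1 J2 σ ≤ mvtH g J1 J2 (fun v => σ (m.fV v)) +
      J2 * ((Fintype.card E' : ℝ) - Fintype.card E) := by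
  have e1 : mvtH g' J1 J2 σ = mvtH g J1 J2 (fun v => σ (m.fV v)) +
      ∑ e' ∈ (Finset.univ.image m.fE)ᶜ, dl J1 J2 (σ (g'.s e')) (σ (g'.t e')) := by
    unfold mvtH
    rw [mvt_split m]
    congr 1
    apply Finset.sum_congr rfl
    intro e _
    rw [m.hs, m.ht]
  constructor
  · rw [e1]
    have := Finset.sum_nonneg (s := (Finset.univ.image m.fE)ᶜ)
      (f := fun e' => dl J1 J2 (σ (g'.s e')) (σ (g'.t e')))
      (fun e' _ => mvt_dl_nonneg h1 h2 _ _)
    linarith
  · rw [e1]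
    have := Finset.sum_le_card_nsmul (s := (Finset.univ.image m.fE)ᶜ)
      (f := fun e' => dl J1 J2 (σ (g'.s e')) (σ (g'.t e'))) J2
      (fun e' _ => mvt_dl_le h1 h2 _ _)
    rw [nsmul_eq_mul, mvt_card m] at this
    linarith

private theorem mvt_Z {V E V' E' : Type} [Fintype V] [DecidableEq V] [Fintype V'] [DecidableEq V']
    [Fintype E] [DecidableEq E] [Fintype E'] [DecidableEq E'] {g : Gr V E} {g' : Gr V' E'}
    (m : Emb g g') (hV : Function.Bijective m.fV) {J1 J2 β : ℝ} (h1 : 0 < J1) (h2 : J1 < J2)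
    (hβ : 0 < β) :
    0 ≤ Real.log (mvtZ g J1 J2 β) - Real.log (mvtZ g' J1 J2 β) ∧
    Real.log (mvtZ g J1 J2 β) - Real.log (mvtZ g' J1 J2 β) ≤
      β * J2 * ((Fintype.card E' : ℝ) - Fintype.card E) := by
  have hZ := mvt_Z_pos g J1 J2 β
  have hZ' := mvt_Z_pos g' J1 J2 β
  have e1 : mvtZ g J1 J2 β = ∑ σ : V' → Col, Real.exp (-(β * mvtH g J1 J2 (fun v => σ (m.fV v)))) := by
    unfold mvtZ
    let φ : V ≃ V' := Equiv.ofBijective m.fV hV
    have := (Equiv.arrowCongr φ (Equiv.refl Col)).symm.sum_comp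
      (fun σ : V → Col => Real.exp (-(β * mvtH g J1 J2 σ)))
    rw [← this]
    rfl
  constructor
  · rw [sub_nonneg]
    apply Real.log_le_log hZ'
    rw [e1]
    unfold mvtZ
    apply Finset.sum_le_sum
    intro σ _
    apply Real.exp_le_exp.mpr
    have := mul_le_mul_of_nonneg_left (mvt_H m h1 h2 σ).1 hβ.le
    linarith
  · rw [sub_le_iff_le_add]
    have e2 : mvtZ g J1 J2 β ≤
        Real.exp (β * J2 * ((Fintype.card E' : ℝ) - Fintype.card E)) * mvtZ g' J1 J2 β := by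
      rw [e1]
      unfold mvtZ
      rw [Finset.mul_sum]
      apply Finset.sum_le_sum
      intro σ _
      rw [← Real.exp_add]
      apply Real.exp_le_exp.mpr
      have := mul_le_mul_of_nonneg_left (mvt_H m h1 h2 σ).2 hβ.le
      linarith
    have e3 := Real.log_le_log hZ e2
    rw [Real.log_mul (Real.exp_pos _).ne' hZ'.ne', Real.log_exp] at e3
    exact e3

private theorem mvt_EE_le {V E : Type} [Fintype V] [DecidableEq V] [Fintype E] [DecidableEq E]
    (g : Gr V E) {J1 J2 β : ℝ} (h1 : 0 < J1) (h2 : J1 < J2) (hβ : 0 < β) (e : E) :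
    g.EE (pr β J1 J2) (fun _ σ => dl J1 J2 (σ (g.s e)) (σ (g.t e))) ≤ J2 := by
  have hp := fun i => pr_pos hβ h1 h2 i
  have := EE_mono g hp (fun _ σ => dl J1 J2 (σ (g.s e)) (σ (g.t e))) (fun _ _ => J2)
    (fun _ _ => mvt_dl_le h1 h2 _ _)
  rwa [EE_const g hp] at this

/-- `D(β) = log Z_g - log Z_g'`, `Z_g = ∑_σ exp(-β ∑_e dl)`; identify the colourings of `g` and `g'` by `fV`;
`0 ≤ D(β) ≤ β J2 (|E'| - |E|)`, `D'(β) = -∑_(e in E) E_g dl + ∑_(e in E') E_g' dl`. -/
theorem mvt_gen {V E V' E' : Type} [Fintype V] [DecidableEq V] [Fintype V'] [DecidableEq V']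
    [Fintype E] [DecidableEq E] [Fintype E'] [DecidableEq E'] {g : Gr V E} {g' : Gr V' E'}
    (m : Emb g g') (hV : Function.Bijective m.fV) {J1 J2 a b : ℝ} (h1 : 0 < J1) (h2 : J1 < J2)
    (ha : 0 < a) (hab : a < b) :
    ∃ β : ℝ, a < β ∧ β < b ∧
      ∑ e, (g.EE (pr β J1 J2) (fun _ σ => dl J1 J2 (σ (g.s e)) (σ (g.t e)))
        - g'.EE (pr β J1 J2) (fun _ σ => dl J1 J2 (σ (g'.s (m.fE e))) (σ (g'.t (m.fE e)))))
      ≤ J2 * (1 + a / (b - a)) * ((Fintype.card E' : ℝ) - Fintype.card E) := by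
  have hd : ∀ β, HasDerivAt
      (fun β => Real.log (mvtZ g J1 J2 β) - Real.log (mvtZ g' J1 J2 β))
      (-(mvtN g J1 J2 β / mvtZ g J1 J2 β) - -(mvtN g' J1 J2 β / mvtZ g' J1 J2 β)) β :=
    fun β => (mvt_deriv g J1 J2 β).sub (mvt_deriv g' J1 J2 β)
  obtain ⟨β, hβ, hslope⟩ := exists_hasDerivAt_eq_slope
    (fun β => Real.log (mvtZ g J1 J2 β) - Real.log (mvtZ g' J1 J2 β))
    (fun β => -(mvtN g J1 J2 β / mvtZ g J1 J2 β) - -(mvtN g' J1 J2 β / mvtZ g' J1 J2 β)) hab
    (fun x _ => (hd x).continuousAt.continuousWithinAt) (fun x _ => hd x)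
  refine ⟨β, hβ.1, hβ.2, ?_⟩
  have hβ0 : 0 < β := ha.trans hβ.1
  have ha' := mvt_Z m hV h1 h2 ha
  have hb' := mvt_Z m hV h1 h2 (ha.trans hab)
  have hba : 0 < b - a := by linarith
  have hk0 : 0 ≤ (Fintype.card E' : ℝ) - Fintype.card E := by
    have := Fintype.card_le_of_injective _ m.injE
    have h' : (Fintype.card E : ℝ) ≤ Fintype.card E' := by exact_mod_cast this
    linarith
  have hs : -(a * J2 * ((Fintype.card E' : ℝ) - Fintype.card E) / (b - a)) ≤
      -(mvtN g J1 J2 β / mvtZ g J1 J2 β) - -(mvtN g' J1 J2 β / mvtZ g' J1 J2 β) := by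
    rw [hslope, ← neg_div]
    apply div_le_div_of_nonneg_right _ hba.le
    linarith [ha'.2, hb'.1]
  rw [Finset.sum_sub_distrib, mvt_EE g]
  have hsp := mvt_split m (fun e' => g'.EE (pr β J1 J2)
    (fun _ σ => dl J1 J2 (σ (g'.s e')) (σ (g'.t e'))))
  rw [mvt_EE g'] at hsp
  have hc := Finset.sum_le_card_nsmul (s := (Finset.univ.image m.fE)ᶜ)
    (f := fun e' => g'.EE (pr β J1 J2) (fun _ σ => dl J1 J2 (σ (g'.s e')) (σ (g'.t e')))) J2
    (fun e' _ => mvt_EE_le g' h1 h2 hβ0 e')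
  rw [nsmul_eq_mul, mvt_card m] at hc
  have e5 : J2 * (1 + a / (b - a)) * ((Fintype.card E' : ℝ) - Fintype.card E) =
      ((Fintype.card E' : ℝ) - Fintype.card E) * J2 +
        a * J2 * ((Fintype.card E' : ℝ) - Fintype.card E) / (b - a) := by
    field_simp
  rw [e5]
  linarith

end H82AT

end S_MVT

section S_CMP

/-! MODULE CMP: comparison of a graph and a larger graph through edge marginals. -/

set_option autoImplicit false

namespace H82AT

open Finset

section
variable {V E V' E' : Type} [Fintype V] [DecidableEq V] [Fintype V'] [DecidableEq V']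
    [Fintype E] [DecidableEq E] [Fintype E'] [DecidableEq E'] {g : Gr V E} {g' : Gr V' E'}

private theorem cmp_lv_mono {E : Type} {ω ω' : E → Fin 3} (h : ω ≤ ω') (i : ℕ) :
    lv ω i ⊆ lv ω' i := by
  intro e he
  unfold lv at he ⊢
  exact le_trans he (Fin.le_iff_val_le_val.mp (h e))

private theorem cmp_conn_sub {V E : Type} (g : Gr V E) {F F' : Set E} (h : F ⊆ F') {x y : V}
    (hc : g.conn F x y) : g.conn F' x y := by
  unfold Gr.conn at hc ⊢
  induction hc with
  | refl => exact Relation.ReflTransGen.refl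
  | tail _ hab ih =>
    obtain ⟨e, he, h'⟩ := hab
    exact ih.tail ⟨e, h he, h'⟩

private theorem cmp_conn_lift {V E V' E' : Type} {g : Gr V E} {g' : Gr V' E'} (m : Emb g g')
    (ω : E → Fin 3) (i : ℕ) {x y : V} (hc : g.conn (lv ω i) x y) :
    g'.conn (lv (m.ext ω) i) (m.fV x) (m.fV y) := by
  unfold Gr.conn at hc ⊢
  induction hc with
  | refl => exact Relation.ReflTransGen.refl
  | tail _ hab ih =>
  refine ih.tail ?_
  obtain ⟨e, he, h'⟩ := hab
  refine ⟨m.fE e, ?_, ?_⟩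
  · have : m.ext ω (m.fE e) = ω e := m.injE.extend_apply _ _ _
    unfold lv
    change i ≤ ((m.ext ω (m.fE e) : Fin 3) : ℕ)
    rw [this]
    exact he
  · rw [m.hs, m.ht]
    rcases h' with ⟨h1, h2⟩ | ⟨h1, h2⟩
    · left; rw [h1, h2]; exact ⟨rfl, rfl⟩
    · right; rw [h1, h2]; exact ⟨rfl, rfl⟩

private theorem cmp_conn_mono {V E V' E' : Type} [Finite V] [Finite V'] [Fintype E]
    [DecidableEq E] [Fintype E'] [DecidableEq E'] {g : Gr V E} {g' : Gr V' E'} (m : Emb g g')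
    {p : Fin 3 → ℝ} (hp : ∀ i, 0 < p i) (i : ℕ) (x y : V) :
    g.phi p (fun ω => ind (g.conn (lv ω i) x y)) ≤
      g'.phi p (fun ω => ind (g'.conn (lv ω i) (m.fV x) (m.fV y))) := by
  have h1 : g.phi p (fun ω => ind (g.conn (lv ω i) x y)) ≤
      g.phi p (fun ω => ind (g'.conn (lv (m.ext ω) i) (m.fV x) (m.fV y))) :=
    phi_le_phi g hp _ _ (fun ω => ind_mono (cmp_conn_lift m ω i))
  have h2 := phi_emb_mono m hp hp (RL_refl p)
    (fun ω => ind (g'.conn (lv ω i) (m.fV x) (m.fV y)))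
    (fun ω ω' h => ind_mono (cmp_conn_sub g' (cmp_lv_mono h i)))
  exact h1.trans h2

/-- the two indicator functions in terms of the spins -/
private theorem cmp_col (c c' : Col) :
    ind (c = c') = 1 / 4 * (1 + (sg c.1 * sg c'.1 + (sg c.2 * sg c'.2 +
      (sg c.1 * sg c'.1) * (sg c.2 * sg c'.2)))) ∧
    ind (c.1 = c'.1) = 1 / 2 * (1 + sg c.1 * sg c'.1) := by
  rcases c with ⟨a, b⟩
  rcases c' with ⟨a', b'⟩
  cases a <;> cases b <;> cases a' <;> cases b' <;>
    simp [ind, sg] <;> norm_num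

private theorem cmp_E {V E : Type} [Fintype V] [DecidableEq V] [Fintype E] [DecidableEq E]
    (g : Gr V E) {p : Fin 3 → ℝ} (hp : ∀ i, 0 < p i) (x y : V) :
    g.EE p (fun _ σ => ind (σ x = σ y)) = 1 / 4 * (1 +
      (g.phi p (fun ω => ind (g.conn (lv ω 1) x y)) + (g.phi p (fun ω => ind (g.conn (lv ω 2) x y)) +
        g.phi p (fun ω => ind (g.conn (lv ω 2) x y))))) ∧
    g.EE p (fun _ σ => ind ((σ x).1 = (σ y).1)) = 1 / 2 * (1 +
      g.phi p (fun ω => ind (g.conn (lv ω 1) x y))) := by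
  constructor
  · rw [← EE_ss g hp]
    nth_rewrite 1 [← EE_tt g hp]
    rw [← EE_stst g hp, ← EE_add, ← EE_add]
    nth_rewrite 2 [← EE_const g hp 1]
    rw [← EE_add, ← EE_smul]
    congr 1
    funext _ σ
    exact (cmp_col (σ x) (σ y)).1
  · rw [← EE_ss g hp]
    nth_rewrite 2 [← EE_const g hp 1]
    rw [← EE_add, ← EE_smul]
    congr 1
    funext _ σ
    exact (cmp_col (σ x) (σ y)).2

private theorem cmp_dl (J1 J2 : ℝ) (c c' : Col) :
    dl J1 J2 c c' = J2 + ((J1 - J2) * ind (c.1 = c'.1) + (-J1) * ind (c = c')) := by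
  unfold dl
  by_cases h : c = c'
  · subst h
    rw [if_pos rfl, ind_true rfl, ind_true rfl]
    ring
  · by_cases h' : c.1 = c'.1
    · rw [if_neg h, if_pos h', ind_true h', ind_false h]
      ring
    · rw [if_neg h, if_neg h', ind_false h', ind_false h]
      ring

private theorem cmp_Edl {V E : Type} [Fintype V] [DecidableEq V] [Fintype E] [DecidableEq E]
    (g : Gr V E) {p : Fin 3 → ℝ} (hp : ∀ i, 0 < p i) (J1 J2 : ℝ) (x y : V) :
    g.EE p (fun _ σ => dl J1 J2 (σ x) (σ y)) = J2 +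
      ((J1 - J2) * g.EE p (fun _ σ => ind ((σ x).1 = (σ y).1)) +
        (-J1) * g.EE p (fun _ σ => ind (σ x = σ y))) := by
  simp only [cmp_dl]
  rw [EE_add, EE_add, EE_smul, EE_smul, EE_const g hp]

private theorem cmp_val {p : Fin 3 → ℝ} (hp : ∀ i, 0 < p i) (hs : p 0 + p 1 + p 2 = 1)
    (c c' : Col) :
    (p 1 * ind (c.1 = c'.1) + 2 * p 2 * ind (c = c')) / aw p c c' =
      (p 1 / (p 0 + p 1)) * ind (c.1 = c'.1) +
        (p 1 + 2 * p 2 - p 1 / (p 0 + p 1)) * ind (c = c') := by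
  have h0 := hp 0
  have h1 := hp 1
  unfold aw
  by_cases h : c = c'
  · subst h
    rw [ind_true rfl, ind_true rfl]
    have e : p 0 + p 1 * 1 + p 2 * 1 = 1 := by linarith
    rw [e]
    ring
  · by_cases h' : c.1 = c'.1
    · rw [ind_true h', ind_false h]
      have e : p 0 + p 1 * 1 + p 2 * 0 = p 0 + p 1 := by ring
      rw [e]
      ring
    · rw [ind_false h', ind_false h]
      simp

/-- with `A = φ(x↔y type 1/2)`, `B = φ(x↔y type 2)` at the ends of the edge:
`P(same) = (1+A+2B)/4`, `P(partner) = (1+A-2B)/4`; both `A`, `B` increase from `g` to `g'`. -/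
theorem edge_compare (m : Emb g g') {β J1 J2 : ℝ} (hβ : 0 < β) (h1 : 0 < J1) (h2 : J1 < J2)
    (e : E) :
    g'.phi (pr β J1 J2) (fun ω => ((ω (m.fE e) : ℕ) : ℝ))
        - g.phi (pr β J1 J2) (fun ω => ((ω e : ℕ) : ℝ))
      ≤ 3 / J1 * (g.EE (pr β J1 J2) (fun _ σ => dl J1 J2 (σ (g.s e)) (σ (g.t e)))
        - g'.EE (pr β J1 J2)
          (fun _ σ => dl J1 J2 (σ (g'.s (m.fE e))) (σ (g'.t (m.fE e))))) := by
  have hp : ∀ i, 0 < pr β J1 J2 i := fun i => pr_pos hβ h1 h2 i
  have hs := pr_sum β J1 J2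
  set p := pr β J1 J2 with hpdef
  rw [EE_val g hp e, EE_val g' hp (m.fE e), cmp_Edl g hp, cmp_Edl g' hp]
  simp only [cmp_val hp hs]
  rw [EE_add, EE_smul, EE_smul, EE_add, EE_smul, EE_smul]
  have hA := cmp_conn_mono m hp 1 (g.s e) (g.t e)
  have hB := cmp_conn_mono m hp 2 (g.s e) (g.t e)
  rw [← m.hs, ← m.ht] at hA hB
  rw [(cmp_E g hp (g.s e) (g.t e)).1, (cmp_E g hp (g.s e) (g.t e)).2,
    (cmp_E g' hp (g'.s (m.fE e)) (g'.t (m.fE e))).1, (cmp_E g' hp (g'.s (m.fE e)) (g'.t (m.fE e))).2]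
  set A := g.phi p (fun ω => ind (g.conn (lv ω 1) (g.s e) (g.t e)))
  set B := g.phi p (fun ω => ind (g.conn (lv ω 2) (g.s e) (g.t e)))
  set A' := g'.phi p (fun ω => ind (g'.conn (lv ω 1) (g'.s (m.fE e)) (g'.t (m.fE e))))
  set B' := g'.phi p (fun ω => ind (g'.conn (lv ω 2) (g'.s (m.fE e)) (g'.t (m.fE e))))
  have p0 := hp 0
  have p1 := hp 1
  have p2 := hp 2
  obtain ⟨r, hr⟩ : ∃ r, r = p 1 / (p 0 + p 1) := ⟨_, rfl⟩
  have hr0 : 0 ≤ r := by rw [hr]; positivity
  have hr1 : r ≤ 1 := by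
    rw [hr, div_le_one (by linarith)]
    linarith
  rw [← hr]
  have hDA : 0 ≤ A' - A := by linarith
  have hDB : 0 ≤ B' - B := by linarith
  have e1 : r * (1 / 2 * (1 + A')) + (p 1 + 2 * p 2 - r) * (1 / 4 * (1 + (A' + (B' + B')))) -
      (r * (1 / 2 * (1 + A)) + (p 1 + 2 * p 2 - r) * (1 / 4 * (1 + (A + (B + B))))) =
      (p 1 + 2 * p 2) / 4 * ((A' - A) + 2 * (B' - B)) + r / 4 * ((A' - A) - 2 * (B' - B)) := by
    ring
  rw [e1]
  have e2 : J2 + ((J1 - J2) * (1 / 2 * (1 + A)) + -J1 * (1 / 4 * (1 + (A + (B + B))))) -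
      (J2 + ((J1 - J2) * (1 / 2 * (1 + A')) + -J1 * (1 / 4 * (1 + (A' + (B' + B')))))) =
      (2 * J2 - J1) / 4 * (A' - A) + J1 / 2 * (B' - B) := by ring
  rw [e2]
  have k1 : (p 1 + 2 * p 2) / 4 * ((A' - A) + 2 * (B' - B)) ≤ 2 / 4 * ((A' - A) + 2 * (B' - B)) := by
    apply mul_le_mul_of_nonneg_right _ (by linarith)
    linarith
  have k2 : r / 4 * ((A' - A) - 2 * (B' - B)) ≤ 1 / 4 * (A' - A) := by
    have a1 : r / 4 * (A' - A) ≤ 1 / 4 * (A' - A) := mul_le_mul_of_nonneg_right (by linarith) hDA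
    have a2 : 0 ≤ r / 4 * (2 * (B' - B)) := by positivity
    linarith
  have k3 : 3 / J1 * (J1 / 4 * (A' - A) + J1 / 2 * (B' - B)) ≤
      3 / J1 * ((2 * J2 - J1) / 4 * (A' - A) + J1 / 2 * (B' - B)) := by
    apply mul_le_mul_of_nonneg_left _ (by positivity)
    have := mul_le_mul_of_nonneg_right (show J1 / 4 ≤ (2 * J2 - J1) / 4 by linarith) hDA
    linarith
  have k4 : 3 / J1 * (J1 / 4 * (A' - A) + J1 / 2 * (B' - B)) =
      3 / 4 * (A' - A) + 3 / 2 * (B' - B) := by
    field_simp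
  linarith

/-- `∑_(e in B) ω e - 1_A` is increasing -/
theorem local_compare (m : Emb g g') {p : Fin 3 → ℝ} (hp : ∀ i, 0 < p i) (B : Finset E')
    (A : (E' → Fin 3) → Prop) (hA : ∀ ω ω', ω ≤ ω' → A ω → A ω')
    (hloc : ∀ ω ω' : E' → Fin 3, (∀ e ∈ B, ω e = ω' e) → (A ω ↔ A ω')) :
    g'.phi p (fun ω => ind (A ω)) - g.phi p (fun ω => ind (A (m.ext ω)))
      ≤ ∑ e ∈ B, (g'.phi p (fun ω => ((ω e : ℕ) : ℝ))
        - g.phi p (fun ω => ((m.ext ω e : ℕ) : ℝ))) := by
  have hmono : Monotone (fun ω : E' → Fin 3 => ∑ e ∈ B, ((ω e : ℕ) : ℝ) + (-1) * ind (A ω)) := by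
    intro ω ω' h
    have hle : ∀ e ∈ B, ((ω e : ℕ) : ℝ) ≤ ((ω' e : ℕ) : ℝ) := fun e _ => by
      exact_mod_cast Fin.le_iff_val_le_val.mp (h e)
    by_cases hq : ∀ e ∈ B, ω e = ω' e
    · have e1 : ind (A ω) = ind (A ω') := by
        rw [propext (hloc ω ω' hq)]
      have e2 : ∑ e ∈ B, ((ω e : ℕ) : ℝ) = ∑ e ∈ B, ((ω' e : ℕ) : ℝ) :=
        Finset.sum_congr rfl (fun e he => by rw [hq e he])
      simp only
      rw [e1, e2]
    · push Not at hq
      obtain ⟨e0, he0, hne⟩ := hq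
      have h3 : ((ω e0 : ℕ) : ℝ) + 1 ≤ ((ω' e0 : ℕ) : ℝ) := by
        have h4 : (ω e0 : ℕ) + 1 ≤ (ω' e0 : ℕ) := by
          have h5 := Fin.le_iff_val_le_val.mp (h e0)
          have h6 : (ω e0 : ℕ) ≠ (ω' e0 : ℕ) := fun hh => hne (Fin.ext hh)
          omega
        exact_mod_cast h4
      have h7 : ∑ e ∈ B, ((ω e : ℕ) : ℝ) + 1 ≤ ∑ e ∈ B, ((ω' e : ℕ) : ℝ) := by
        rw [← Finset.add_sum_erase B _ he0, ← Finset.add_sum_erase B (fun e => ((ω' e : ℕ) : ℝ)) he0]
        have h8 : ∑ e ∈ B.erase e0, ((ω e : ℕ) : ℝ) ≤ ∑ e ∈ B.erase e0, ((ω' e : ℕ) : ℝ) :=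
          Finset.sum_le_sum (fun e he => hle e (Finset.mem_of_mem_erase he))
        linarith
      have h9 := ind_le_one (A ω')
      have h10 := ind_nonneg (A ω)
      simp only
      linarith
  have key := phi_emb_mono m hp hp (RL_refl p) _ hmono
  have e1 : g'.phi p (fun ω => ∑ e ∈ B, ((ω e : ℕ) : ℝ) + (-1) * ind (A ω)) =
      ∑ e ∈ B, g'.phi p (fun ω => ((ω e : ℕ) : ℝ)) + (-1) * g'.phi p (fun ω => ind (A ω)) := by
    rw [phi_add, phi_smul, phi_sum]
  have e2 : g.phi p (fun ω => ∑ e ∈ B, ((m.ext ω e : ℕ) : ℝ) + (-1) * ind (A (m.ext ω))) =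
      ∑ e ∈ B, g.phi p (fun ω => ((m.ext ω e : ℕ) : ℝ)) +
        (-1) * g.phi p (fun ω => ind (A (m.ext ω))) := by
    rw [phi_add, phi_smul, phi_sum]
  rw [Finset.sum_sub_distrib]
  rw [e1, e2] at key
  linarith

end

end H82AT

end S_CMP
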