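import Mathlib
import Pool.Agent.H82.ATM.G0

set_option autoImplicit false

/-! Ashkin-Teller critical points, part G3: this file joins several modules to save build time. -/

section S_TGD

/-! MODULE TGD: distances in the torus. -/

set_option autoImplicit false

namespace H82AT

open Finset

/-! distances in the torus -/

private lemma tgd_one {L : ℕ} [NeZero L] : (1 : ZMod L).valMinAbs.natAbs ≤ 1 := by
  rw [ZMod.valMinAbs_natAbs_eq_min]
  have h1 : (1 : ZMod L).val ≤ 1 := by
    have h2 := ZMod.val_natCast L 1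
    rw [Nat.cast_one] at h2
    rw [h2]
    exact Nat.mod_le 1 L
  exact (min_le_left _ _).trans h1

theorem tdist_self {d L : ℕ} [NeZero L] (x : Tor d L) : tdist x x = 0 := by
  unfold tdist
  refine Finset.sum_eq_zero fun i _ => ?_
  rw [sub_self, ZMod.valMinAbs_zero, Int.natAbs_zero]

theorem tdist_comm {d L : ℕ} [NeZero L] (x y : Tor d L) : tdist x y = tdist y x := by
  unfold tdist
  refine Finset.sum_congr rfl fun i _ => ?_
  rw [← neg_sub, ZMod.natAbs_valMinAbs_neg]

theorem tdist_tri {d L : ℕ} [NeZero L] (x y z : Tor d L) :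
    tdist x z ≤ tdist x y + tdist y z := by
  unfold tdist
  rw [← Finset.sum_add_distrib]
  refine Finset.sum_le_sum fun i _ => ?_
  have h1 : x i - z i = (x i - y i) + (y i - z i) := by ring
  rw [h1]
  exact (ZMod.natAbs_valMinAbs_add_le _ _).trans (Int.natAbs_add_le _ _)

theorem tdist_sub {d L : ℕ} [NeZero L] (x y : Tor d L) : tdist x y = tdist 0 (y - x) := by
  unfold tdist
  refine Finset.sum_congr rfl fun i _ => ?_
  have h1 : (0 : Tor d L) i - (y - x) i = x i - y i := by
    simp only [Pi.zero_apply, Pi.sub_apply]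
    ring
  rw [h1]

theorem tdist_step {d L : ℕ} [NeZero L] (x : Tor d L) (i : Fin d) :
    tdist x (x + Pi.single i 1) ≤ 1 := by
  unfold tdist
  rw [Finset.sum_eq_single i]
  · have h1 : x i - (x + Pi.single i 1 : Tor d L) i = -1 := by
      simp only [Pi.add_apply, Pi.single_eq_same]
      ring
    rw [h1, ZMod.natAbs_valMinAbs_neg]
    exact tgd_one
  · intro j _ hj
    have h1 : x j - (x + Pi.single i 1 : Tor d L) j = 0 := by
      simp only [Pi.add_apply, Pi.single_eq_of_ne hj]
      ring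
    rw [h1, ZMod.valMinAbs_zero, Int.natAbs_zero]
  · intro h
    exact absurd (Finset.mem_univ i) h

theorem tball_card {d L : ℕ} [NeZero L] (n : ℕ) (x : Tor d L) :
    ((Finset.univ.filter (fun y : Tor d L => tdist x y ≤ n)).card : ℝ)
      ≤ (2 * (n : ℝ) + 1) ^ d := by
  classical
  have h1 : (Finset.univ.filter (fun y : Tor d L => tdist x y ≤ n)).card ≤
      (Fintype.piFinset fun _ : Fin d => Finset.Icc (-(n : ℤ)) n).card := by
    refine Finset.card_le_card_of_injOn (fun y i => (x i - y i).valMinAbs) ?_ ?_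
    · intro y hy
      rw [Finset.mem_coe, Finset.mem_filter] at hy
      rw [Finset.mem_coe, Fintype.mem_piFinset]
      intro i
      have h2 : (x i - y i).valMinAbs.natAbs ≤ n :=
        (Finset.single_le_sum (f := fun i => (x i - y i).valMinAbs.natAbs)
          (fun _ _ => Nat.zero_le _) (Finset.mem_univ i)).trans hy.2
      rw [Finset.mem_Icc]
      show -(n : ℤ) ≤ (x i - y i).valMinAbs ∧ (x i - y i).valMinAbs ≤ n
      omega
    · intro y _ y' _ h
      funext i
      have h2 := congrFun h i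
      have h3 := ZMod.valMinAbs_inj.1 h2
      exact sub_right_injective h3
  have h2 : (Fintype.piFinset fun _ : Fin d => Finset.Icc (-(n : ℤ)) n).card = (2 * n + 1) ^ d := by
    rw [Fintype.card_piFinset, Finset.prod_const, Finset.card_univ, Fintype.card_fin, Int.card_Icc]
    congr 1
    omega
  rw [h2] at h1
  exact_mod_cast h1

/-- a connection passes through every intermediate distance -/
theorem conn_between {d L : ℕ} [NeZero L] (F : Set (Tor d L × Fin d)) (x z : Tor d L) (n : ℕ)
    (h : (torGr d L).conn F x z) (hn : n ≤ tdist x z) :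
    ∃ y, tdist x y = n ∧ (torGr d L).conn F x y := by
  induction h with
  | refl =>
    rw [tdist_self] at hn
    exact ⟨x, by rw [tdist_self]; omega, Relation.ReflTransGen.refl⟩
  | @tail b c hab hbc ih =>
    by_cases hb : n ≤ tdist x b
    · exact ih hb
    · have h1 : tdist b c ≤ 1 := by
        obtain ⟨e, _, h | h⟩ := hbc
        · have h1 : e.1 = b := h.1
          have h2 : e.1 + Pi.single e.2 1 = c := h.2
          rw [← h2, ← h1]
          exact tdist_step _ _
        · have h1 : e.1 = c := h.1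
          have h2 : e.1 + Pi.single e.2 1 = b := h.2
          rw [← h2, ← h1, tdist_comm]
          exact tdist_step _ _
      have h2 := tdist_tri x b c
      exact ⟨c, by omega, Relation.ReflTransGen.tail hab hbc⟩

end H82AT

end S_TGD

section S_PTH

/-! Definitions of lattice paths given by words of directions (complete file, no proofs needed). -/

set_option autoImplicit false

namespace H82AT

/-- directions -/
abbrev Dir (d : ℕ) := Fin d × Bool

/-- one step -/
def stp {d L : ℕ} (x : Tor d L) (a : Dir d) : Tor d L :=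
  if a.2 then x + Pi.single a.1 1 else x - Pi.single a.1 1

/-- the edge of one step -/
def edg {d L : ℕ} (x : Tor d L) (a : Dir d) : Tor d L × Fin d :=
  if a.2 then (x, a.1) else (x - Pi.single a.1 1, a.1)

/-- vertices of the path -/
def vts {d L : ℕ} : Tor d L → List (Dir d) → List (Tor d L)
  | x, [] => [x]
  | x, a :: w => x :: vts (stp x a) w

/-- edges of the path -/
def eds {d L : ℕ} : Tor d L → List (Dir d) → List (Tor d L × Fin d)
  | _, [] => []
  | x, a :: w => edg x a :: eds (stp x a) w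

/-- all vertices of a family of paths -/
def vtsq {d L : ℕ} (q : List (Tor d L × List (Dir d))) : List (Tor d L) :=
  q.flatMap (fun p => vts p.1 p.2)

/-- all edges of a family of paths -/
def edsq {d L : ℕ} (q : List (Tor d L × List (Dir d))) : List (Tor d L × Fin d) :=
  q.flatMap (fun p => eds p.1 p.2)

/-- sum of the Green function over pairs of vertices of a list -/
noncomputable def gsum {d L : ℕ} [NeZero L] (l : List (Tor d L)) : ℝ :=
  (l.map (fun v => (l.map (fun w => |Gf (v - w)|)).sum)).sum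

/-- the families of `2^m` paths of length `ℓ` of the multiscale argument -/
def QQ {d L : ℕ} (ℓ N0 : ℕ) : ℕ → Tor d L → Set (List (Tor d L × List (Dir d)))
  | 0, x => {q | ∃ w : List (Dir d), w.length = ℓ ∧ (vts x w).Nodup ∧ q = [(x, w)]}
  | m + 1, x => {q | ∃ (y : Tor d L) (q1 q2 : List (Tor d L × List (Dir d))),
      tdist x y = 4 ^ (m + 1) * N0 ∧ q1 ∈ QQ ℓ N0 m x ∧ q2 ∈ QQ ℓ N0 m y ∧ q = q1 ++ q2}

end H82AT

end S_PTH

section S_QDET

/-! MODULE QDET: long connections contain a family of the multiscale set; counting. -/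

set_option autoImplicit false

namespace H82AT

open Finset

private lemma qdet_step {d L : ℕ} (F : Set (Tor d L × Fin d)) (a b : Tor d L)
    (h : (torGr d L).adj F a b) : ∃ s : Dir d, stp a s = b ∧ edg a s ∈ F := by
  obtain ⟨e, he, h | h⟩ := h
  · refine ⟨(e.2, true), ?_, ?_⟩
    · have h1 : e.1 = a := h.1
      have h2 : e.1 + Pi.single e.2 1 = b := h.2
      show a + Pi.single e.2 1 = b
      rw [← h1]; exact h2
    · have h1 : e.1 = a := h.1
      show (a, e.2) ∈ F
      rw [← h1]; exact he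
  · have h1 : e.1 = b := h.1
    have h2 : e.1 + Pi.single e.2 1 = a := h.2
    refine ⟨(e.2, false), ?_, ?_⟩
    · show a - Pi.single e.2 1 = b
      rw [← h2, h1, add_sub_cancel_right]
    · show (a - Pi.single e.2 1, e.2) ∈ F
      rw [← h2, add_sub_cancel_right]
      exact he

private lemma qdet_adj_symm {d L : ℕ} (F : Set (Tor d L × Fin d)) (a b : Tor d L)
    (h : (torGr d L).adj F a b) : (torGr d L).adj F b a := by
  obtain ⟨e, he, h | h⟩ := h
  · exact ⟨e, he, Or.inr h⟩
  · exact ⟨e, he, Or.inl h⟩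

private lemma qdet_conn_symm {d L : ℕ} (F : Set (Tor d L × Fin d)) (a b : Tor d L)
    (h : (torGr d L).conn F a b) : (torGr d L).conn F b a := by
  induction h with
  | refl => exact Relation.ReflTransGen.refl
  | tail _ hbc ih => exact Relation.ReflTransGen.head (qdet_adj_symm F _ _ hbc) ih

private lemma qdet_adj_dist {d L : ℕ} [NeZero L] (F : Set (Tor d L × Fin d)) (a b : Tor d L)
    (h : (torGr d L).adj F a b) : tdist a b ≤ 1 := by
  obtain ⟨e, _, h | h⟩ := h
  · have h1 : e.1 = a := h.1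
    have h2 : e.1 + Pi.single e.2 1 = b := h.2
    rw [← h2, ← h1]
    exact tdist_step _ _
  · have h1 : e.1 = b := h.1
    have h2 : e.1 + Pi.single e.2 1 = a := h.2
    rw [← h2, ← h1, tdist_comm]
    exact tdist_step _ _

/-- the open graph -/
private def qdet_G {d L : ℕ} (F : Set (Tor d L × Fin d)) : SimpleGraph (Tor d L) where
  Adj a b := a ≠ b ∧ (torGr d L).adj F a b
  symm := ⟨fun _ _ h => ⟨h.1.symm, qdet_adj_symm F _ _ h.2⟩⟩
  loopless := ⟨fun _ h => h.1 rfl⟩

private lemma qdet_reach {d L : ℕ} (F : Set (Tor d L × Fin d)) (x z : Tor d L)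
    (h : (torGr d L).conn F x z) : (qdet_G F).Reachable x z := by
  induction h with
  | refl => exact SimpleGraph.Reachable.refl _
  | @tail b c _ hbc ih =>
    by_cases hb : b = c
    · rw [← hb]; exact ih
    · exact ih.trans (SimpleGraph.Adj.reachable (show (qdet_G F).Adj b c from ⟨hb, hbc⟩))

private lemma qdet_len {d L : ℕ} [NeZero L] (F : Set (Tor d L × Fin d)) (x z : Tor d L)
    (p : (qdet_G F).Walk x z) : tdist x z ≤ p.length := by
  induction p with
  | nil => rw [tdist_self]; exact Nat.zero_le _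
  | cons h q ih =>
    rename_i u v w
    rw [SimpleGraph.Walk.length_cons]
    have h1 := qdet_adj_dist F _ _ (show (torGr d L).adj F u v from h.2)
    have h2 := tdist_tri u v w
    omega

private lemma qdet_word {d L : ℕ} (F : Set (Tor d L × Fin d)) (x z : Tor d L)
    (p : (qdet_G F).Walk x z) : ∃ w : List (Dir d), w.length = p.length ∧ vts x w = p.support ∧
      ∀ e ∈ eds x w, e ∈ F := by
  induction p with
  | nil => exact ⟨[], rfl, rfl, fun e he => by simp [eds] at he⟩
  | cons h q ih =>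
    rename_i u v w'
    obtain ⟨w, h1, h2, h3⟩ := ih
    obtain ⟨s, hs1, hs2⟩ := qdet_step F u v h.2
    refine ⟨s :: w, ?_, ?_, ?_⟩
    · rw [List.length_cons, h1, SimpleGraph.Walk.length_cons]
    · rw [SimpleGraph.Walk.support_cons]
      show u :: vts (stp u s) w = _
      rw [hs1, h2]
    · intro e he
      have he' : e ∈ edg u s :: eds (stp u s) w := he
      rcases List.mem_cons.1 he' with rfl | he'
      · exact hs2
      · rw [hs1] at he'
        exact h3 e he'

/-- a connection to distance at least `ℓ` contains a self-avoiding open path of length `ℓ` -/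
theorem saw_exists {d L : ℕ} [NeZero L] (F : Set (Tor d L × Fin d)) (x z : Tor d L) (ℓ : ℕ)
    (hc : (torGr d L).conn F x z) (hl : ℓ ≤ tdist x z) :
    ∃ w : List (Dir d), w.length = ℓ ∧ (vts x w).Nodup ∧ ∀ e ∈ eds x w, e ∈ F := by
  classical
  obtain ⟨p, hp⟩ := (qdet_reach F x z hc).exists_isPath
  have h1 := qdet_len F x z p
  obtain ⟨w, h2, h3, h4⟩ := qdet_word F x _ (p.take ℓ)
  refine ⟨w, ?_, ?_, h4⟩
  · rw [h2, SimpleGraph.Walk.take_length]
    omega
  · rw [h3]
    exact (hp.take ℓ).support_nodup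

theorem reach_family {d L : ℕ} [NeZero L] (F : Set (Tor d L × Fin d)) (ℓ N0 : ℕ)
    (hN : ℓ ≤ N0) (m : ℕ) (x : Tor d L) (h : rch F (4 ^ m * N0) x) :
    ∃ q ∈ QQ ℓ N0 m x, ∀ e ∈ edsq q, e ∈ F := by
  induction m generalizing x with
  | zero =>
    obtain ⟨z, hz, hc⟩ := h
    obtain ⟨w, h1, h2, h3⟩ := saw_exists F x z ℓ hc (by simp at hz; omega)
    refine ⟨[(x, w)], ⟨w, h1, h2, rfl⟩, ?_⟩
    intro e he
    have : e ∈ eds x w := by simpa [edsq] using he
    exact h3 e this
  | succ m ih =>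
    obtain ⟨z, hz, hc⟩ := h
    obtain ⟨y, hy, hcy⟩ := conn_between F x z _ hc hz
    have hpow : 4 ^ m * N0 ≤ 4 ^ (m + 1) * N0 :=
      Nat.mul_le_mul_right _ (Nat.pow_le_pow_right (by norm_num) (by omega))
    obtain ⟨q1, hq1, he1⟩ := ih x ⟨y, by omega, hcy⟩
    obtain ⟨q2, hq2, he2⟩ := ih y ⟨x, by rw [tdist_comm]; omega, qdet_conn_symm F _ _ hcy⟩
    refine ⟨q1 ++ q2, ⟨y, q1, q2, hy, hq1, hq2, rfl⟩, ?_⟩
    intro e he
    have : e ∈ edsq q1 ++ edsq q2 := by
      unfold edsq at he ⊢
      rwa [List.flatMap_append] at he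
    rcases List.mem_append.1 this with h | h
    · exact he1 e h
    · exact he2 e h

private lemma qdet_card_aux {d L : ℕ} [NeZero L] (ℓ N0 : ℕ) (hN : 1 ≤ N0) (m : ℕ) :
    ∀ x : Tor d L, (QQ ℓ N0 m x).Finite ∧
      (36 * (4 : ℝ) ^ m * (N0 : ℝ)) ^ d * ((QQ ℓ N0 m x).ncard : ℝ)
        ≤ ((36 * (N0 : ℝ)) ^ d) ^ (2 ^ m) * ((2 * (d : ℝ)) ^ ℓ) ^ (2 ^ m) := by
  classical
  induction m with
  | zero =>
    intro x
    set f : List.Vector (Dir d) ℓ → List (Tor d L × List (Dir d)) := fun v => [(x, v.1)] with hf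
    have hsub : QQ ℓ N0 0 x ⊆ Set.range f := by
      rintro q ⟨w, h1, _, rfl⟩
      exact ⟨⟨w, h1⟩, rfl⟩
    have hfin : (Set.range f).Finite := Set.finite_range f
    refine ⟨hfin.subset hsub, ?_⟩
    have h1 : (QQ ℓ N0 0 x).ncard ≤ (2 * d) ^ ℓ := by
      refine (Set.ncard_le_ncard hsub hfin).trans ?_
      have h2 : (Set.range f).ncard ≤ (Set.univ : Set (List.Vector (Dir d) ℓ)).ncard := by
        rw [← Set.image_univ]
        exact Set.ncard_image_le Set.finite_univ
      refine h2.trans ?_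
      rw [Set.ncard_univ, Nat.card_eq_fintype_card, card_vector]
      simp [Fintype.card_prod, mul_comm]
    have h2 : ((QQ ℓ N0 0 x).ncard : ℝ) ≤ (2 * (d : ℝ)) ^ ℓ := by exact_mod_cast h1
    simp only [pow_zero, pow_one, mul_one]
    exact mul_le_mul_of_nonneg_left h2 (by positivity)
  | succ m ih =>
    intro x
    set Y : Finset (Tor d L) := Finset.univ.filter (fun y => tdist x y ≤ 4 ^ (m + 1) * N0) with hY
    have hQf : ∀ y, (QQ (d := d) (L := L) ℓ N0 m y).Finite := fun y => (ih y).1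
    set U : Finset (List (Tor d L × List (Dir d))) := Y.biUnion (fun y =>
      ((hQf x).toFinset ×ˢ (hQf y).toFinset).image (fun r => r.1 ++ r.2)) with hU
    have hsub : QQ ℓ N0 (m + 1) x ⊆ (U : Set _) := by
      rintro q ⟨y, q1, q2, hy, h1, h2, rfl⟩
      rw [Finset.mem_coe, hU, Finset.mem_biUnion]
      refine ⟨y, ?_, ?_⟩
      · rw [hY, Finset.mem_filter]
        exact ⟨Finset.mem_univ _, hy.le⟩
      · rw [Finset.mem_image]
        exact ⟨(q1, q2), Finset.mem_product.2 ⟨(hQf x).mem_toFinset.2 h1,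
          (hQf y).mem_toFinset.2 h2⟩, rfl⟩
    refine ⟨U.finite_toSet.subset hsub, ?_⟩
    set A : ℝ := ((36 * (N0 : ℝ)) ^ d) ^ (2 ^ m) * ((2 * (d : ℝ)) ^ ℓ) ^ (2 ^ m) with hA
    have hA0 : 0 ≤ A := by positivity
    set D : ℝ := (36 * (4 : ℝ) ^ m * (N0 : ℝ)) ^ d with hD
    have hN0 : (1 : ℝ) ≤ N0 := by exact_mod_cast hN
    have hD0 : 0 < D := by positivity
    have hq : ∀ y, ((QQ (d := d) (L := L) ℓ N0 m y).ncard : ℝ) ≤ A / D := by
      intro y
      rw [le_div_iff₀ hD0, mul_comm]
      exact (ih y).2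
    have hcU : (U.card : ℝ) ≤ Y.card * ((A / D) * (A / D)) := by
      have h1 : U.card ≤ ∑ y ∈ Y, (QQ (d := d) (L := L) ℓ N0 m x).ncard *
          (QQ (d := d) (L := L) ℓ N0 m y).ncard := by
        rw [hU]
        refine Finset.card_biUnion_le.trans (Finset.sum_le_sum fun y _ => ?_)
        refine Finset.card_image_le.trans ?_
        rw [Finset.card_product, ← Set.ncard_eq_toFinset_card _ (hQf x),
          ← Set.ncard_eq_toFinset_card _ (hQf y)]
      have h2 : (U.card : ℝ) ≤ ∑ y ∈ Y, ((QQ (d := d) (L := L) ℓ N0 m x).ncard : ℝ) *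
          ((QQ (d := d) (L := L) ℓ N0 m y).ncard : ℝ) := by exact_mod_cast h1
      refine h2.trans ?_
      rw [← nsmul_eq_mul, ← Finset.sum_const]
      refine Finset.sum_le_sum fun y _ => ?_
      exact mul_le_mul (hq x) (hq y) (Nat.cast_nonneg _) (by positivity)
    have hYc : (Y.card : ℝ) ≤ (2 * ((4 : ℝ) ^ (m + 1) * N0) + 1) ^ d := by
      have h1 := tball_card (d := d) (L := L) (4 ^ (m + 1) * N0) x
      push_cast at h1
      exact h1
    have hnc : ((QQ ℓ N0 (m + 1) x).ncard : ℝ) ≤ U.card := by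
      have h1 := Set.ncard_le_ncard hsub U.finite_toSet
      rw [Set.ncard_coe_finset] at h1
      exact_mod_cast h1
    have hkey : (36 * (4 : ℝ) ^ (m + 1) * (N0 : ℝ)) ^ d *
        (2 * ((4 : ℝ) ^ (m + 1) * N0) + 1) ^ d ≤ D * D := by
      rw [← mul_pow, hD, ← mul_pow]
      refine pow_le_pow_left₀ (by positivity) ?_ d
      have h4 : (1 : ℝ) ≤ (4 : ℝ) ^ m * N0 := by
        have h5 : (1 : ℝ) ≤ (4 : ℝ) ^ m := one_le_pow₀ (by norm_num)
        nlinarith
      have h6 : (4 : ℝ) ^ (m + 1) = 4 * (4 : ℝ) ^ m := by rw [pow_succ]; ring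
      rw [h6]
      set u : ℝ := (4 : ℝ) ^ m * N0 with hu
      have e1 : 36 * (4 * (4 : ℝ) ^ m) * (N0 : ℝ) * (2 * (4 * (4 : ℝ) ^ m * N0) + 1) =
          144 * u * (8 * u + 1) := by rw [hu]; ring
      have e2 : 36 * (4 : ℝ) ^ m * (N0 : ℝ) * (36 * (4 : ℝ) ^ m * (N0 : ℝ)) = 1296 * (u * u) := by
        rw [hu]; ring
      rw [e1, e2]
      nlinarith
    calc (36 * (4 : ℝ) ^ (m + 1) * (N0 : ℝ)) ^ d * ((QQ ℓ N0 (m + 1) x).ncard : ℝ)
        ≤ (36 * (4 : ℝ) ^ (m + 1) * (N0 : ℝ)) ^ d *
          ((2 * ((4 : ℝ) ^ (m + 1) * N0) + 1) ^ d * ((A / D) * (A / D))) := by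
          refine mul_le_mul_of_nonneg_left ?_ (by positivity)
          exact hnc.trans (hcU.trans (mul_le_mul_of_nonneg_right hYc (by positivity)))
      _ = ((36 * (4 : ℝ) ^ (m + 1) * (N0 : ℝ)) ^ d *
          (2 * ((4 : ℝ) ^ (m + 1) * N0) + 1) ^ d) * ((A / D) * (A / D)) := by ring
      _ ≤ (D * D) * ((A / D) * (A / D)) := mul_le_mul_of_nonneg_right hkey (by positivity)
      _ = A * A := by field_simp
      _ = _ := by
        rw [hA, pow_succ 2 m, pow_mul, pow_mul]
        ring

/-- induction: the number `c` of base point choices satisfies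
`c_(m+1) ≤ (2 * 4^(m+1) * N0 + 1)^d * c_m ^ 2`, and `(36 * 4^m * N0)^d * c_m ≤ (36 N0)^(d 2^m)` -/
theorem QQ_card {d L : ℕ} [NeZero L] (ℓ N0 : ℕ) (hN : 1 ≤ N0) (m : ℕ) (x : Tor d L) :
    (QQ ℓ N0 m x).Finite ∧
      ((QQ ℓ N0 m x).ncard : ℝ)
        ≤ ((36 * (N0 : ℝ)) ^ d) ^ (2 ^ m) * ((2 * (d : ℝ)) ^ ℓ) ^ (2 ^ m) := by
  obtain ⟨h1, h2⟩ := qdet_card_aux ℓ N0 hN m x
  refine ⟨h1, le_trans ?_ h2⟩
  have hN0 : (1 : ℝ) ≤ N0 := by exact_mod_cast hN
  have h3 : (1 : ℝ) ≤ 36 * (4 : ℝ) ^ m * (N0 : ℝ) := by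
    have h5 : (1 : ℝ) ≤ (4 : ℝ) ^ m := one_le_pow₀ (by norm_num)
    nlinarith
  have h4 : (1 : ℝ) ≤ (36 * (4 : ℝ) ^ m * (N0 : ℝ)) ^ d := one_le_pow₀ h3
  exact le_mul_of_one_le_left (Nat.cast_nonneg _) h4

end H82AT

end S_QDET

section S_QSEP

/-! MODULE QSEP: separation and Green sums of the multiscale families. -/

set_option autoImplicit false

namespace H82AT

open Finset

theorem qsep_stp {d L : ℕ} [NeZero L] (x : Tor d L) (a : Dir d) : tdist x (stp x a) ≤ 1 := by
  unfold stp
  split_ifs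
  · exact tdist_step x a.1
  · have h := tdist_step (x - Pi.single a.1 1) a.1
    rw [sub_add_cancel] at h
    rw [tdist_comm]
    exact h

theorem qsep_vts_length {d L : ℕ} (w : List (Dir d)) : ∀ x : Tor d L,
    (vts x w).length = w.length + 1 := by
  induction w with
  | nil => intro x; rfl
  | cons a w ih =>
    intro x
    simp only [vts, List.length_cons, ih]

theorem qsep_vts_dist {d L : ℕ} [NeZero L] (w : List (Dir d)) : ∀ x : Tor d L,
    ∀ v ∈ vts x w, tdist x v ≤ w.length := by
  induction w with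
  | nil =>
    intro x v hv
    simp only [vts, List.mem_singleton] at hv
    subst hv
    rw [tdist_self]
    exact Nat.zero_le _
  | cons a w ih =>
    intro x v hv
    simp only [vts, List.mem_cons] at hv
    rcases hv with hv | hv
    · subst hv
      rw [tdist_self]
      exact Nat.zero_le _
    · have h1 := ih (stp x a) v hv
      have h2 := tdist_tri x (stp x a) v
      have h3 := qsep_stp x a
      rw [List.length_cons]
      omega

theorem qsep_vtsq_append {d L : ℕ} (q1 q2 : List (Tor d L × List (Dir d))) :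
    vtsq (q1 ++ q2) = vtsq q1 ++ vtsq q2 := by
  unfold vtsq
  rw [List.flatMap_append]

theorem qsep_sum_le {α : Type*} (l : List α) (f : α → ℝ) (c : ℝ) (h : ∀ v ∈ l, f v ≤ c) :
    (l.map f).sum ≤ l.length * c := by
  induction l with
  | nil => simp
  | cons a l ih =>
    rw [List.map_cons, List.sum_cons, List.length_cons]
    have h1 := h a (by simp)
    have h2 := ih (fun v hv => h v (by simp [hv]))
    push_cast
    linarith

/-- cross sums of the Green function -/
noncomputable def qsepCross {d L : ℕ} [NeZero L] (l1 l2 : List (Tor d L)) : ℝ :=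
  (l1.map (fun v => (l2.map (fun w => |Gf (v - w)|)).sum)).sum

theorem qsep_cross_le {d L : ℕ} [NeZero L] (l1 l2 : List (Tor d L)) (c : ℝ)
    (h : ∀ v ∈ l1, ∀ w ∈ l2, |Gf (v - w)| ≤ c) :
    qsepCross l1 l2 ≤ l1.length * (l2.length * c) :=
  qsep_sum_le l1 _ _ fun v hv => qsep_sum_le l2 _ _ fun w hw => h v hv w hw

theorem qsep_gsum_append {d L : ℕ} [NeZero L] (l1 l2 : List (Tor d L)) :
    gsum (l1 ++ l2) = gsum l1 + gsum l2 + (qsepCross l1 l2 + qsepCross l2 l1) := by
  have h1 : ∀ (l k1 k2 : List (Tor d L)),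
      (l.map (fun v => ((k1 ++ k2).map (fun w => |Gf (v - w)|)).sum)).sum =
        qsepCross l k1 + qsepCross l k2 := by
    intro l k1 k2
    unfold qsepCross
    rw [← List.sum_map_add]
    congr 1
    refine List.map_congr_left fun v _ => ?_
    rw [List.map_append, List.sum_append]
  unfold gsum
  rw [List.map_append, List.sum_append, h1, h1]
  unfold qsepCross
  ring

theorem qsep_main {d L : ℕ} [NeZero L] (ℓ N0 : ℕ) (hℓ : 1 ≤ ℓ) (hN : ℓ ≤ N0) (B0 : ℝ)
    (gg : ℕ → ℝ)
    (h0 : ∀ (x : Tor d L) (w : List (Dir d)), w.length = ℓ → (vts x w).Nodup →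
      gsum (vts x w) ≤ B0)
    (hg : ∀ (h : ℕ) (z : Tor d L), 4 ^ h * N0 ≤ tdist 0 z → |Gf z| ≤ gg h)
    (m : ℕ) : ∀ (x : Tor d L) (q : List (Tor d L × List (Dir d))), q ∈ QQ ℓ N0 m x →
    (vtsq q).Nodup ∧ (vtsq q).length = 2 ^ m * (ℓ + 1) ∧ q.length = 2 ^ m ∧
      (∀ p ∈ q, p.2.length = ℓ) ∧
      gsum (vtsq q) ≤ 2 ^ m * (B0 + ∑ h ∈ Finset.range m, 2 ^ h * ((ℓ : ℝ) + 1) ^ 2 * gg h) ∧
      (∀ v ∈ vtsq q, 3 * tdist x v + 4 * N0 ≤ 4 * (4 ^ m * N0) + 3 * ℓ) := by
  induction m with
  | zero =>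
    rintro x q ⟨w, hw, hnd, rfl⟩
    have e : vtsq [(x, w)] = vts x w := by
      unfold vtsq
      simp
    rw [e]
    refine ⟨hnd, ?_, rfl, ?_, ?_, ?_⟩
    · rw [qsep_vts_length, hw]; simp
    · intro p hp
      rw [List.mem_singleton] at hp
      rw [hp]; exact hw
    · have := h0 x w hw hnd
      simpa using this
    · intro v hv
      have := qsep_vts_dist w x v hv
      rw [pow_zero, one_mul]
      omega
  | succ m ih =>
    rintro x q ⟨y, q1, q2, hxy, hq1, hq2, rfl⟩
    obtain ⟨a1, a2, a3, a4, a5, a6⟩ := ih x q1 hq1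
    obtain ⟨b1, b2, b3, b4, b5, b6⟩ := ih y q2 hq2
    have e4 : (4 : ℕ) ^ (m + 1) * N0 = 4 * (4 ^ m * N0) := by rw [pow_succ]; ring
    rw [e4] at hxy
    have hpow : N0 ≤ 4 ^ m * N0 := Nat.le_mul_of_pos_left N0 (by positivity)
    have hsep : ∀ v ∈ vtsq q1, ∀ w ∈ vtsq q2, 4 ^ m * N0 ≤ tdist v w := by
      intro v hv w hw
      have h1 := a6 v hv
      have h2 := b6 w hw
      have h3 := tdist_tri x v y
      have h4 := tdist_tri v w y
      rw [tdist_comm w y] at h4
      omega
    rw [qsep_vtsq_append]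
    refine ⟨?_, ?_, ?_, ?_, ?_, ?_⟩
    · rw [List.nodup_append]
      refine ⟨a1, b1, ?_⟩
      intro v hv w hw hvw
      subst hvw
      have := hsep v hv v hw
      rw [tdist_self] at this
      omega
    · rw [List.length_append, a2, b2, pow_succ]
      ring
    · rw [List.length_append, a3, b3, pow_succ]
      ring
    · intro p hp
      rw [List.mem_append] at hp
      rcases hp with hp | hp
      · exact a4 p hp
      · exact b4 p hp
    · rw [qsep_gsum_append]
      have h1 := qsep_cross_le (vtsq q1) (vtsq q2) (gg m) (by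
        intro v hv w hw
        apply hg
        rw [← tdist_sub, tdist_comm]
        exact hsep v hv w hw)
      have h2 := qsep_cross_le (vtsq q2) (vtsq q1) (gg m) (by
        intro v hv w hw
        apply hg
        rw [← tdist_sub]
        exact hsep w hw v hv)
      rw [a2, b2] at h1
      rw [a2, b2] at h2
      push_cast at h1 h2
      rw [Finset.sum_range_succ]
      calc gsum (vtsq q1) + gsum (vtsq q2) +
            (qsepCross (vtsq q1) (vtsq q2) + qsepCross (vtsq q2) (vtsq q1))
          ≤ 2 ^ m * (B0 + ∑ h ∈ Finset.range m, 2 ^ h * ((ℓ : ℝ) + 1) ^ 2 * gg h) +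
            2 ^ m * (B0 + ∑ h ∈ Finset.range m, 2 ^ h * ((ℓ : ℝ) + 1) ^ 2 * gg h) +
            (2 ^ m * ((ℓ : ℝ) + 1) * (2 ^ m * ((ℓ : ℝ) + 1) * gg m) +
              2 ^ m * ((ℓ : ℝ) + 1) * (2 ^ m * ((ℓ : ℝ) + 1) * gg m)) := by linarith
        _ = 2 ^ (m + 1) * (B0 + (∑ h ∈ Finset.range m, 2 ^ h * ((ℓ : ℝ) + 1) ^ 2 * gg h +
              2 ^ m * ((ℓ : ℝ) + 1) ^ 2 * gg m)) := by rw [pow_succ]; ring
    · intro v hv
      rw [List.mem_append] at hv
      rw [e4]
      rcases hv with hv | hv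
      · have := a6 v hv
        omega
      · have h1 := b6 v hv
        have h2 := tdist_tri x y v
        omega

/-- induction on `m`, together with: every vertex of `vtsq q` is within
`4 * (4^m - 1) / 3 * N0 + ℓ` of `x`; so vertices of the two halves are at distance
at least `4^m * N0`. -/
theorem Q_sep {d L : ℕ} [NeZero L] (ℓ N0 : ℕ) (hℓ : 1 ≤ ℓ) (hN : ℓ ≤ N0) (B0 : ℝ)
    (gg : ℕ → ℝ)
    (h0 : ∀ (x : Tor d L) (w : List (Dir d)), w.length = ℓ → (vts x w).Nodup →
      gsum (vts x w) ≤ B0)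
    (hg : ∀ (h : ℕ) (z : Tor d L), 4 ^ h * N0 ≤ tdist 0 z → |Gf z| ≤ gg h)
    (m : ℕ) (x : Tor d L) (q : List (Tor d L × List (Dir d))) (hq : q ∈ QQ ℓ N0 m x) :
    (vtsq q).Nodup ∧ (vtsq q).length = 2 ^ m * (ℓ + 1) ∧ q.length = 2 ^ m ∧
      (∀ p ∈ q, p.2.length = ℓ) ∧
      gsum (vtsq q) ≤ 2 ^ m * (B0 + ∑ h ∈ Finset.range m, 2 ^ h * ((ℓ : ℝ) + 1) ^ 2 * gg h) := by
  obtain ⟨a1, a2, a3, a4, a5, _⟩ := qsep_main ℓ N0 hℓ hN B0 gg h0 hg m x q hq
  exact ⟨a1, a2, a3, a4, a5⟩

end H82AT

end S_QSEP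

section S_SBP

/-! MODULE SBP: summation by parts on the torus. -/

set_option autoImplicit false

namespace H82AT

open Finset

/-- summation by parts on the torus -/
theorem sbp {d L : ℕ} [NeZero L] (f g : Tor d L → ℝ) :
    ∑ e : Tor d L × Fin d, (f e.1 - f (e.1 + Pi.single e.2 1))
        * (g e.1 - g (e.1 + Pi.single e.2 1))
      = 2 * d * ∑ x, f x * Lap g x := by
  rw [Fintype.sum_prod_type_right]
  have h1 : ∀ i : Fin d, ∑ x : Tor d L, (f x - f (x + Pi.single i 1))
        * (g x - g (x + Pi.single i 1))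
      = ∑ x : Tor d L, (2 * (f x * g x) - f x * (g (x + Pi.single i 1) + g (x - Pi.single i 1))) := by
    intro i
    have ha : ∑ x : Tor d L, f (x + Pi.single i 1) * g (x + Pi.single i 1)
        = ∑ x : Tor d L, f x * g x :=
      Equiv.sum_comp (Equiv.addRight (Pi.single i (1 : ZMod L) : Tor d L)) (fun x => f x * g x)
    have hb : ∑ x : Tor d L, f (x + Pi.single i 1) * g x
        = ∑ x : Tor d L, f x * g (x - Pi.single i 1) := by
      have h := Equiv.sum_comp (Equiv.addRight (Pi.single i (1 : ZMod L) : Tor d L))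
        (fun x => f x * g (x - Pi.single i 1))
      simp only [Equiv.coe_addRight, add_sub_cancel_right] at h
      exact h
    have : ∀ x : Tor d L, (f x - f (x + Pi.single i 1)) * (g x - g (x + Pi.single i 1))
        = f x * g x + f (x + Pi.single i 1) * g (x + Pi.single i 1)
          - f x * g (x + Pi.single i 1) - f (x + Pi.single i 1) * g x := fun x => by ring
    rw [Finset.sum_congr rfl (fun x _ => this x)]
    rw [Finset.sum_sub_distrib, Finset.sum_sub_distrib, Finset.sum_add_distrib, ha, hb,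
      ← Finset.sum_add_distrib, ← Finset.sum_sub_distrib, ← Finset.sum_sub_distrib]
    exact Finset.sum_congr rfl (fun x _ => by ring)
  rw [Finset.sum_congr rfl (fun i _ => h1 i), Finset.sum_comm, Finset.mul_sum]
  refine Finset.sum_congr rfl (fun x _ => ?_)
  rcases Nat.eq_zero_or_pos d with hd | hd
  · subst hd
    simp
  · have hd' : (0 : ℝ) < d := by exact_mod_cast hd
    unfold Lap avg
    rw [Finset.sum_sub_distrib, ← Finset.mul_sum, Finset.sum_const, Finset.card_univ,
      Fintype.card_fin, nsmul_eq_mul]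
    rw [← Finset.mul_sum]
    field_simp

theorem avg_symm {d L : ℕ} [NeZero L] (f g : Tor d L → ℝ) :
    ∑ x, f x * avg g x = ∑ x, avg f x * g x := by
  have h1 : ∀ i : Fin d, ∑ x : Tor d L, f x * (g (x + Pi.single i 1) + g (x - Pi.single i 1))
      = ∑ x : Tor d L, (f (x + Pi.single i 1) + f (x - Pi.single i 1)) * g x := by
    intro i
    have ha : ∑ x : Tor d L, f (x + Pi.single i 1) * g x
        = ∑ x : Tor d L, f x * g (x - Pi.single i 1) := by
      have h := Equiv.sum_comp (Equiv.addRight (Pi.single i (1 : ZMod L) : Tor d L))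
        (fun x => f x * g (x - Pi.single i 1))
      simp only [Equiv.coe_addRight, add_sub_cancel_right] at h
      exact h
    have hb : ∑ x : Tor d L, f (x - Pi.single i 1) * g x
        = ∑ x : Tor d L, f x * g (x + Pi.single i 1) := by
      have h := Equiv.sum_comp (Equiv.addRight (Pi.single i (1 : ZMod L) : Tor d L))
        (fun x => f (x - Pi.single i 1) * g x)
      simp only [Equiv.coe_addRight, add_sub_cancel_right] at h
      exact h.symm
    simp only [mul_add, add_mul, Finset.sum_add_distrib]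
    rw [ha, hb, add_comm]
  unfold avg
  have h2 : ∀ x : Tor d L, f x * ((∑ i : Fin d, (g (x + Pi.single i 1) + g (x - Pi.single i 1)))
      / (2 * d)) = (∑ i : Fin d, f x * (g (x + Pi.single i 1) + g (x - Pi.single i 1)))
      / (2 * d) := by
    intro x
    rw [← mul_div_assoc, Finset.mul_sum]
  have h3 : ∀ x : Tor d L, ((∑ i : Fin d, (f (x + Pi.single i 1) + f (x - Pi.single i 1)))
      / (2 * d)) * g x = (∑ i : Fin d, (f (x + Pi.single i 1) + f (x - Pi.single i 1)) * g x)
      / (2 * d) := by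
    intro x
    rw [div_mul_eq_mul_div, Finset.sum_mul]
  rw [Finset.sum_congr rfl (fun x _ => h2 x), Finset.sum_congr rfl (fun x _ => h3 x),
    ← Finset.sum_div, ← Finset.sum_div, Finset.sum_comm, Finset.sum_congr rfl (fun i _ => h1 i),
    Finset.sum_comm]

end H82AT

end S_SBP

section S_D2S

/-! MODULE D2S: squared norm of the average of an indicator. -/

set_option autoImplicit false

namespace H82AT

open Finset

/-- signed unit steps -/
def d2s_st {d L : ℕ} (a : Fin d × Bool) : Tor d L :=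
  if a.2 then Pi.single a.1 1 else - Pi.single a.1 1

theorem d2s_st_same {d L : ℕ} (a : Fin d × Bool) :
    (d2s_st a : Tor d L) a.1 = if a.2 then 1 else -1 := by
  unfold d2s_st
  by_cases h : a.2 = true
  · simp [h]
  · simp [h]

theorem d2s_st_ne {d L : ℕ} (a : Fin d × Bool) (i : Fin d) (h : i ≠ a.1) :
    (d2s_st a : Tor d L) i = 0 := by
  unfold d2s_st
  by_cases h2 : a.2 = true
  · simp [h2, h]
  · simp [h2, h]

theorem d2s_inj {d L : ℕ} (hL : 3 ≤ L) :
    Function.Injective (d2s_st : Fin d × Bool → Tor d L) := by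
  have f2 : Fact (2 < L) := ⟨hL⟩
  have f1 : Fact (1 < L) := ⟨by omega⟩
  have h1 : (-1 : ZMod L) ≠ 1 := ZMod.neg_one_ne_one
  intro a b hab
  have h2 := congrFun hab a.1
  rw [d2s_st_same] at h2
  have h3 : a.1 = b.1 := by
    by_contra hne
    rw [d2s_st_ne b a.1 hne] at h2
    by_cases h4 : a.2 = true
    · simp [h4] at h2
    · simp [h4] at h2
  rw [h3, d2s_st_same] at h2
  have h5 : a.2 = b.2 := by
    cases h6 : a.2 <;> cases h7 : b.2
    · rfl
    · exfalso
      simp [h6, h7] at h2
      exact h1 h2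
    · exfalso
      simp [h6, h7] at h2
      exact h1 h2.symm
    · rfl
  exact Prod.ext h3 h5

theorem d2s_avg {d L : ℕ} (f : Tor d L → ℝ) (x : Tor d L) :
    avg f x = (∑ a : Fin d × Bool, f (x + d2s_st a)) / (2 * d) := by
  unfold avg
  congr 1
  rw [Fintype.sum_prod_type]
  apply Finset.sum_congr rfl
  intro i _
  rw [Fintype.sum_bool]
  unfold d2s_st
  simp [sub_eq_add_neg]

theorem d2s_cross {d L : ℕ} [NeZero L] (y z : Tor d L) :
    ∑ x : Tor d L, (∑ a : Fin d × Bool, (if x + d2s_st a = y then (1 : ℝ) else 0))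
        * (∑ b : Fin d × Bool, (if x + d2s_st b = z then (1 : ℝ) else 0))
      = ((Finset.univ.filter (fun q : (Fin d × Bool) × (Fin d × Bool) =>
          y - d2s_st q.1 + d2s_st q.2 = z)).card : ℝ) := by
  have h1 : ∀ x : Tor d L, (∑ a : Fin d × Bool, (if x + d2s_st a = y then (1 : ℝ) else 0))
        * (∑ b : Fin d × Bool, (if x + d2s_st b = z then (1 : ℝ) else 0))
      = ∑ q : (Fin d × Bool) × (Fin d × Bool),
          (if x = y - d2s_st q.1 then (if y - d2s_st q.1 + d2s_st q.2 = z then (1 : ℝ) else 0)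
            else 0) := by
    intro x
    rw [Finset.sum_mul_sum]
    symm
    rw [Fintype.sum_prod_type]
    symm
    apply Finset.sum_congr rfl
    intro a _
    apply Finset.sum_congr rfl
    intro b _
    by_cases hx : x + d2s_st a = y
    · have hx2 : x = y - d2s_st a := by rw [← hx]; abel
      rw [if_pos hx, if_pos hx2, one_mul, ← hx2]
    · have hx2 : ¬ x = y - d2s_st a := by
        intro h
        apply hx
        rw [h]
        abel
      rw [if_neg hx, if_neg hx2, zero_mul]
  rw [Finset.sum_congr rfl (fun x _ => h1 x), Finset.sum_comm]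
  rw [Finset.card_filter]
  push_cast
  apply Finset.sum_congr rfl
  intro q _
  rw [Finset.sum_ite_eq' Finset.univ (y - d2s_st q.1) (fun _ => _)]
  simp

theorem d2s_card_diag {d L : ℕ} [NeZero L] (hL : 3 ≤ L) (y : Tor d L) :
    (Finset.univ.filter (fun q : (Fin d × Bool) × (Fin d × Bool) =>
          y - d2s_st q.1 + d2s_st q.2 = y)).card ≤ 2 * d := by
  have h : (Finset.univ.filter (fun q : (Fin d × Bool) × (Fin d × Bool) =>
          y - d2s_st q.1 + d2s_st q.2 = y)).card ≤ (Finset.univ : Finset (Fin d × Bool)).card := by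
    apply Finset.card_le_card_of_injOn Prod.fst
    · intro q _
      exact Finset.mem_coe.2 (Finset.mem_univ _)
    · intro q hq q' hq' hqq
      have h1 := (Finset.mem_filter.1 (Finset.mem_coe.1 hq)).2
      have h2 := (Finset.mem_filter.1 (Finset.mem_coe.1 hq')).2
      have h3 : (d2s_st q.2 : Tor d L) = d2s_st q'.2 := by
        have h4 : y - d2s_st q.1 + d2s_st q.2 = y - d2s_st q'.1 + d2s_st q'.2 := h1.trans h2.symm
        rw [hqq] at h4
        exact add_left_cancel h4
      exact Prod.ext hqq (d2s_inj hL h3)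
  simpa [Fintype.card_prod, mul_comm] using h

theorem d2s_card_off {d L : ℕ} [NeZero L] (hL : 3 ≤ L) (y z : Tor d L) (hyz : y ≠ z) :
    (Finset.univ.filter (fun q : (Fin d × Bool) × (Fin d × Bool) =>
          y - d2s_st q.1 + d2s_st q.2 = z)).card ≤ 4 := by
  classical
  obtain ⟨i, hi⟩ : ∃ i, y i ≠ z i := by
    by_contra hcon
    push Not at hcon
    exact hyz (funext hcon)
  set F := Finset.univ.filter (fun q : (Fin d × Bool) × (Fin d × Bool) =>
          y - d2s_st q.1 + d2s_st q.2 = z) with hF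
  have hmem : ∀ q, q ∈ F ↔ y - d2s_st q.1 + d2s_st q.2 = z := by
    intro q
    rw [hF, Finset.mem_filter]
    simp
  have hcard : ((Finset.univ : Finset (Fin d × Bool)).filter (fun a => a.1 = i)).card = 2 := by
    have : ((Finset.univ : Finset (Fin d × Bool)).filter (fun a => a.1 = i))
        = ({i} : Finset (Fin d)) ×ˢ (Finset.univ : Finset Bool) := by
      ext ⟨a, b⟩
      cases b <;> simp
    rw [this, Finset.card_product]
    simp
  have hsub : F ⊆ F.filter (fun q => q.1.1 = i) ∪ F.filter (fun q => q.2.1 = i) := by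
    intro q hq
    by_cases c1 : q.1.1 = i
    · exact Finset.mem_union_left _ (Finset.mem_filter.2 ⟨hq, c1⟩)
    · by_cases c2 : q.2.1 = i
      · exact Finset.mem_union_right _ (Finset.mem_filter.2 ⟨hq, c2⟩)
      · exfalso
        have h1 := (hmem q).1 hq
        have h2 := congrFun h1 i
        rw [Pi.add_apply, Pi.sub_apply, d2s_st_ne q.1 i (fun h => c1 h.symm),
          d2s_st_ne q.2 i (fun h => c2 h.symm), sub_zero, add_zero] at h2
        exact hi h2
  have hA : (F.filter (fun q => q.1.1 = i)).card ≤ 2 := by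
    rw [← hcard]
    apply Finset.card_le_card_of_injOn Prod.fst
    · intro q hq
      have h1 := Finset.mem_filter.1 (Finset.mem_coe.1 hq)
      exact Finset.mem_coe.2 (Finset.mem_filter.2 ⟨Finset.mem_univ _, h1.2⟩)
    · intro q hq q' hq' hqq
      have h1 := (hmem q).1 (Finset.mem_filter.1 (Finset.mem_coe.1 hq)).1
      have h2 := (hmem q').1 (Finset.mem_filter.1 (Finset.mem_coe.1 hq')).1
      have h4 : y - d2s_st q.1 + d2s_st q.2 = y - d2s_st q'.1 + d2s_st q'.2 := h1.trans h2.symm
      rw [hqq] at h4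
      exact Prod.ext hqq (d2s_inj hL (add_left_cancel h4))
  have hB : (F.filter (fun q => q.2.1 = i)).card ≤ 2 := by
    rw [← hcard]
    apply Finset.card_le_card_of_injOn Prod.snd
    · intro q hq
      have h1 := Finset.mem_filter.1 (Finset.mem_coe.1 hq)
      exact Finset.mem_coe.2 (Finset.mem_filter.2 ⟨Finset.mem_univ _, h1.2⟩)
    · intro q hq q' hq' hqq
      have h1 := (hmem q).1 (Finset.mem_filter.1 (Finset.mem_coe.1 hq)).1
      have h2 := (hmem q').1 (Finset.mem_filter.1 (Finset.mem_coe.1 hq')).1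
      have h4 : y - d2s_st q.1 + d2s_st q.2 = y - d2s_st q'.1 + d2s_st q'.2 := h1.trans h2.symm
      rw [hqq] at h4
      have h5 : (d2s_st q.1 : Tor d L) = d2s_st q'.1 :=
        sub_right_injective (add_right_cancel h4)
      exact Prod.ext (d2s_inj hL h5) hqq
  calc F.card ≤ (F.filter (fun q => q.1.1 = i) ∪ F.filter (fun q => q.2.1 = i)).card :=
        Finset.card_le_card hsub
    _ ≤ (F.filter (fun q => q.1.1 = i)).card + (F.filter (fun q => q.2.1 = i)).card :=
        Finset.card_union_le _ _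
    _ ≤ 4 := by omega

/-- `(1_S, D^2 1_S) = ‖D 1_S‖^2 ≤ n q`: two sites have at most 4 common neighbours
(ordered pairs of signed steps) -/
theorem D2_sum {d L n : ℕ} [NeZero L] (hd : 1 ≤ d) (hL : 3 ≤ L) (P : Fin n → Tor d L)
    (hP : Function.Injective P) :
    ∑ x, (avg (fun z => if z ∈ Set.range P then (1 : ℝ) else 0) x) ^ 2
      ≤ n * (1 / (2 * d) + n / (d : ℝ) ^ 2) := by
  classical
  have hd' : (0 : ℝ) < d := by exact_mod_cast hd
  have hone : ∀ z : Tor d L, (if z ∈ Set.range P then (1 : ℝ) else 0)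
      = ∑ i, (if z = P i then (1 : ℝ) else 0) := by
    intro z
    by_cases hz : z ∈ Set.range P
    · obtain ⟨i, hi⟩ := hz
      rw [if_pos ⟨i, hi⟩]
      rw [Finset.sum_eq_single i]
      · rw [if_pos hi.symm]
      · intro j _ hj
        rw [if_neg]
        intro h
        exact hj (hP (hi.trans h)).symm
      · intro h
        exact absurd (Finset.mem_univ i) h
    · rw [if_neg hz]
      symm
      apply Finset.sum_eq_zero
      intro i _
      rw [if_neg]
      intro h
      exact hz ⟨i, h.symm⟩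
  have havg : ∀ x : Tor d L, avg (fun z => if z ∈ Set.range P then (1 : ℝ) else 0) x
      = (∑ i, ∑ a : Fin d × Bool, (if x + d2s_st a = P i then (1 : ℝ) else 0)) / (2 * d) := by
    intro x
    rw [d2s_avg, Finset.sum_comm]
    congr 1
    apply Finset.sum_congr rfl
    intro a _
    exact hone _
  have hsq : ∀ x : Tor d L, (avg (fun z => if z ∈ Set.range P then (1 : ℝ) else 0) x) ^ 2
      = (∑ i, ∑ j, (∑ a : Fin d × Bool, (if x + d2s_st a = P i then (1 : ℝ) else 0))
          * (∑ b : Fin d × Bool, (if x + d2s_st b = P j then (1 : ℝ) else 0))) / (2 * d) ^ 2 := by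
    intro x
    rw [havg, div_pow, sq (∑ i, ∑ a : Fin d × Bool, _), Finset.sum_mul_sum]
  rw [Finset.sum_congr rfl (fun x _ => hsq x), ← Finset.sum_div, Finset.sum_comm]
  have hcomm : ∀ i, ∑ x : Tor d L, ∑ j,
        (∑ a : Fin d × Bool, (if x + d2s_st a = P i then (1 : ℝ) else 0))
          * (∑ b : Fin d × Bool, (if x + d2s_st b = P j then (1 : ℝ) else 0))
      ≤ 2 * d + n * 4 := by
    intro i
    rw [Finset.sum_comm]
    have h1 : ∀ j, ∑ x : Tor d L,
        (∑ a : Fin d × Bool, (if x + d2s_st a = P i then (1 : ℝ) else 0))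
          * (∑ b : Fin d × Bool, (if x + d2s_st b = P j then (1 : ℝ) else 0))
        ≤ (if j = i then (2 * d : ℝ) else 0) + 4 := by
      intro j
      rw [d2s_cross]
      by_cases hj : j = i
      · rw [if_pos hj, hj]
        have h2 := d2s_card_diag hL (P i)
        have h3 : ((Finset.univ.filter (fun q : (Fin d × Bool) × (Fin d × Bool) =>
          P i - d2s_st q.1 + d2s_st q.2 = P i)).card : ℝ) ≤ 2 * d := by exact_mod_cast h2
        linarith
      · rw [if_neg hj]
        have h2 := d2s_card_off hL (P i) (P j) (fun h => hj (hP h).symm)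
        have h3 : ((Finset.univ.filter (fun q : (Fin d × Bool) × (Fin d × Bool) =>
          P i - d2s_st q.1 + d2s_st q.2 = P j)).card : ℝ) ≤ 4 := by exact_mod_cast h2
        linarith
    refine (Finset.sum_le_sum (fun j _ => h1 j)).trans ?_
    rw [Finset.sum_add_distrib]
    simp
  have hfin := Finset.sum_le_sum (fun i (_ : i ∈ (Finset.univ : Finset (Fin n))) => hcomm i)
  rw [div_le_iff₀ (by positivity)]
  refine hfin.trans ?_
  rw [Finset.sum_const, Finset.card_univ, Fintype.card_fin, nsmul_eq_mul]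
  apply le_of_eq
  field_simp
  ring

end H82AT

end S_D2S
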