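import Mathlib
import Pool.Agent.H82.ATM.G0
import Pool.Agent.H82.ATM.G1
import Pool.Agent.H82.ATM.G2
import Pool.Agent.H82.ATM.G3

set_option autoImplicit false

/-! Ashkin-Teller critical points, part G4: this file joins several modules to save build time. -/

section S_TGA

/-! MODULE TGA: torus basics: spin vectors, Gibbs form. -/

set_option autoImplicit false

namespace H82AT

open Finset

private theorem tga_sg_sq (b : Bool) : sg b * sg b = 1 := by
  cases b <;> simp [sg]

/-- `⟨Sv c, Sv c'⟩ = (1+ε)/4 s s' + (1-ε)/4 t t' + (1-ε)/4 st s't'` -/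
theorem Sv_dot {ε : ℝ} (h0 : 0 ≤ ε) (h1 : ε ≤ 1) (c c' : Col) :
    ∑ j, Sv ε c j * Sv ε c' j = (1 + ε) / 4 * (sg c.1 * sg c'.1)
      + (1 - ε) / 4 * (sg c.2 * sg c'.2)
      + (1 - ε) / 4 * ((sg c.1 * sg c.2) * (sg c'.1 * sg c'.2)) := by
  have a1 : Real.sqrt (1 + ε) * Real.sqrt (1 + ε) = 1 + ε := Real.mul_self_sqrt (by linarith)
  have a2 : Real.sqrt (1 - ε) * Real.sqrt (1 - ε) = 1 - ε := Real.mul_self_sqrt (by linarith)
  rw [Fin.sum_univ_three]
  have e0 : Sv ε c 0 * Sv ε c' 0
      = (Real.sqrt (1 + ε) * Real.sqrt (1 + ε)) / 4 * (sg c.1 * sg c'.1) := by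
    simp only [Sv, Matrix.cons_val_zero]; ring
  have e1 : Sv ε c 1 * Sv ε c' 1
      = (Real.sqrt (1 - ε) * Real.sqrt (1 - ε)) / 4 * (sg c.2 * sg c'.2) := by
    simp only [Sv, Matrix.cons_val_one, Matrix.cons_val_zero]; ring
  have e2 : Sv ε c 2 * Sv ε c' 2
      = (Real.sqrt (1 - ε) * Real.sqrt (1 - ε)) / 4
        * ((sg c.1 * sg c.2) * (sg c'.1 * sg c'.2)) := by
    simp only [Sv, Matrix.cons_val]; ring
  rw [e0, e1, e2, a1, a2]

theorem Sv_sq {ε : ℝ} (h0 : 0 ≤ ε) (h1 : ε ≤ 1) (c : Col) :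
    ∑ j, (Sv ε c j) ^ 2 = (3 - ε) / 4 := by
  have h := Sv_dot h0 h1 c c
  have e : ∑ j, (Sv ε c j) ^ 2 = ∑ j, Sv ε c j * Sv ε c j :=
    Finset.sum_congr rfl fun j _ => sq _
  rw [e, h]
  have a := tga_sg_sq c.1
  have b := tga_sg_sq c.2
  have ab : (sg c.1 * sg c.2) * (sg c.1 * sg c.2) = 1 := by
    calc (sg c.1 * sg c.2) * (sg c.1 * sg c.2) = (sg c.1 * sg c.1) * (sg c.2 * sg c.2) := by ring
      _ = 1 := by rw [a, b]; ring
  rw [a, b, ab]
  ring

theorem Sv_sub {ε : ℝ} (h0 : 0 ≤ ε) (h1 : ε ≤ 1) (c c' : Col) :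
    ∑ j, (Sv ε c j - Sv ε c' j) ^ 2 = 2 * dl (1 - ε) 1 c c' := by
  have e : ∑ j, (Sv ε c j - Sv ε c' j) ^ 2
      = ∑ j, (Sv ε c j) ^ 2 + ∑ j, (Sv ε c' j) ^ 2 - 2 * ∑ j, Sv ε c j * Sv ε c' j := by
    rw [Finset.mul_sum, ← Finset.sum_add_distrib, ← Finset.sum_sub_distrib]
    refine Finset.sum_congr rfl fun j _ => ?_
    ring
  rw [e, Sv_sq h0 h1, Sv_sq h0 h1, Sv_dot h0 h1]
  obtain ⟨s, t⟩ := c
  obtain ⟨s', t'⟩ := c'
  cases s <;> cases t <;> cases s' <;> cases t' <;> simp [sg, dl] <;> ring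

theorem gw_pos {d L : ℕ} [NeZero L] (β ε : ℝ) (σ : Tor d L → Col) : 0 < gw β ε σ := by
  unfold gw
  exact Real.exp_pos _

/-- the joint expectation of a function of the colours is the Gibbs expectation -/
theorem EE_torus {d L : ℕ} [NeZero L] {β ε : ℝ} (h0 : 0 ≤ ε) (h1 : ε ≤ 1)
    (f : (Tor d L → Col) → ℝ) :
    (torGr d L).EE (pr β (1 - ε) 1) (fun _ σ => f σ) = GE β ε f := by
  rw [EE_col]
  have key : ∀ σ : Tor d L → Col,
      (∏ e, aw (pr β (1 - ε) 1) (σ ((torGr d L).s e)) (σ ((torGr d L).t e))) = gw β ε σ := by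
    intro σ
    unfold gw
    rw [Finset.mul_sum, Real.exp_sum]
    refine Finset.prod_congr rfl fun e _ => ?_
    rw [aw_pr, Sv_sub h0 h1]
    congr 1
    simp only [torGr]
    ring
  simp only [key]
  rfl

theorem GE_mono {d L : ℕ} [NeZero L] (β ε : ℝ) (f f' : (Tor d L → Col) → ℝ)
    (h : ∀ σ, f σ ≤ f' σ) : GE β ε f ≤ GE β ε f' := by
  unfold GE
  apply div_le_div_of_nonneg_right
  · exact Finset.sum_le_sum fun σ _ => mul_le_mul_of_nonneg_left (h σ) (gw_pos β ε σ).le
  · exact Finset.sum_nonneg fun σ _ => (gw_pos β ε σ).le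

theorem GE_add {d L : ℕ} [NeZero L] (β ε : ℝ) (f f' : (Tor d L → Col) → ℝ) :
    GE β ε (fun σ => f σ + f' σ) = GE β ε f + GE β ε f' := by
  unfold GE
  rw [← add_div, ← Finset.sum_add_distrib]
  congr 1
  exact Finset.sum_congr rfl fun σ _ => mul_add _ _ _

theorem GE_smul {d L : ℕ} [NeZero L] (β ε : ℝ) (c : ℝ) (f : (Tor d L → Col) → ℝ) :
    GE β ε (fun σ => c * f σ) = c * GE β ε f := by
  unfold GE
  rw [← mul_div_assoc, Finset.mul_sum]
  congr 1
  exact Finset.sum_congr rfl fun σ _ => by ring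

theorem GE_const {d L : ℕ} [NeZero L] (β ε : ℝ) (c : ℝ) :
    GE (d := d) (L := L) β ε (fun _ => c) = c := by
  unfold GE
  rw [← Finset.sum_mul]
  have hpos : 0 < ∑ σ, gw (d := d) (L := L) β ε σ :=
    Finset.sum_pos (fun σ _ => gw_pos β ε σ) Finset.univ_nonempty
  rw [mul_div_assoc, mul_comm, div_mul_cancel₀ _ hpos.ne']

theorem GE_sum {ι : Type} {d L : ℕ} [NeZero L] (β ε : ℝ) (s : Finset ι)
    (f : ι → (Tor d L → Col) → ℝ) :
    GE β ε (fun σ => ∑ i ∈ s, f i σ) = ∑ i ∈ s, GE β ε (f i) := by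
  unfold GE
  rw [← Finset.sum_div, Finset.sum_comm]
  congr 1
  exact Finset.sum_congr rfl fun σ _ => by rw [Finset.mul_sum]

end H82AT

end S_TGA

section S_TG

/-! MODULE TG: translation invariance of the torus measure. -/

set_option autoImplicit false

namespace H82AT

open Finset

/-- translations as embeddings of the torus graph -/
def tg_emb (d L : ℕ) (v : Tor d L) : Emb (torGr d L) (torGr d L) where
  fV x := x + v
  fE e := (e.1 + v, e.2)
  injV := fun x y h => add_right_cancel h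
  injE := by
    rintro ⟨x, i⟩ ⟨y, j⟩ h
    simp only [Prod.mk.injEq] at h
    rw [Prod.mk.injEq]
    exact ⟨add_right_cancel h.1, h.2⟩
  hs := fun e => rfl
  ht := by
    intro e
    show e.1 + v + Pi.single e.2 1 = e.1 + Pi.single e.2 1 + v
    abel

/-- translation invariance of the random-cluster measure of the torus -/
theorem phi_shift {d L : ℕ} [NeZero L] {p : Fin 3 → ℝ} (hp : ∀ i, 0 < p i) (v : Tor d L)
    (f : (Tor d L × Fin d → Fin 3) → ℝ) :
    (torGr d L).phi p (fun ω => f (fun e => ω (e.1 + v, e.2))) = (torGr d L).phi p f := by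
  have hsurj : Function.Surjective (tg_emb d L v).fE := by
    rintro ⟨x, i⟩
    refine ⟨(x - v, i), ?_⟩
    show (x - v + v, i) = (x, i)
    rw [sub_add_cancel]
  have h := phi_emb_eq (tg_emb d L v) hsurj hp (fun ω => f (fun e => ω (e.1 + v, e.2)))
  rw [← h]
  congr 1
  funext ω
  congr 1
  funext e
  exact embm_ext_apply (tg_emb d L v) ω e

theorem tg_adj {d L : ℕ} (v : Tor d L) (i : ℕ) (ω : Tor d L × Fin d → Fin 3) (x y : Tor d L) :
    (torGr d L).adj (lv (fun e : Tor d L × Fin d => ω (e.1 + v, e.2)) i) x y →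
      (torGr d L).adj (lv ω i) (x + v) (y + v) := by
  rintro ⟨e, he, h⟩
  refine ⟨(e.1 + v, e.2), he, ?_⟩
  have h1 : (torGr d L).s (e.1 + v, e.2) = (torGr d L).s e + v := rfl
  have h2 : (torGr d L).t (e.1 + v, e.2) = (torGr d L).t e + v := (tg_emb d L v).ht e
  rw [h1, h2]
  rcases h with ⟨h3, h4⟩ | ⟨h3, h4⟩
  · left; rw [h3, h4]; exact ⟨rfl, rfl⟩
  · right; rw [h3, h4]; exact ⟨rfl, rfl⟩

theorem tg_conn1 {d L : ℕ} (v : Tor d L) (i : ℕ) (ω : Tor d L × Fin d → Fin 3) (x y : Tor d L)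
    (h : (torGr d L).conn (lv (fun e : Tor d L × Fin d => ω (e.1 + v, e.2)) i) x y) :
    (torGr d L).conn (lv ω i) (x + v) (y + v) := by
  unfold Gr.conn at h ⊢
  induction h with
  | refl => exact Relation.ReflTransGen.refl
  | tail _ hab ih => exact ih.tail (tg_adj v i ω _ _ hab)

theorem tg_conn {d L : ℕ} (v : Tor d L) (i : ℕ) (ω : Tor d L × Fin d → Fin 3) (x y : Tor d L) :
    (torGr d L).conn (lv (fun e : Tor d L × Fin d => ω (e.1 + v, e.2)) i) x y ↔
      (torGr d L).conn (lv ω i) (x + v) (y + v) := by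
  constructor
  · exact tg_conn1 v i ω x y
  · intro h
    have h1 : ω = fun e : Tor d L × Fin d =>
        (fun e' : Tor d L × Fin d => ω (e'.1 + v, e'.2)) (e.1 + (-v), e.2) := by
      funext e
      show ω e = ω (e.1 + -v + v, e.2)
      rw [neg_add_cancel_right]
    rw [h1] at h
    have h2 := tg_conn1 (-v) i (fun e' : Tor d L × Fin d => ω (e'.1 + v, e'.2)) _ _ h
    rw [add_neg_cancel_right, add_neg_cancel_right] at h2
    exact h2

theorem phi_reach {d L : ℕ} [NeZero L] {p : Fin 3 → ℝ} (hp : ∀ i, 0 < p i) (i n : ℕ)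
    (x : Tor d L) :
    (torGr d L).phi p (fun ω => ind (reachT i n x ω))
      = (torGr d L).phi p (fun ω => ind (reachT i n 0 ω)) := by
  rw [← phi_shift hp x (fun ω => ind (reachT i n 0 ω))]
  congr 1
  funext ω
  congr 1
  apply propext
  unfold reachT rch
  constructor
  · rintro ⟨y, hy, hc⟩
    refine ⟨y - x, ?_, ?_⟩
    · rw [← tdist_sub]; exact hy
    · rw [tg_conn, zero_add, sub_add_cancel]
      exact hc
  · rintro ⟨y, hy, hc⟩
    refine ⟨y + x, ?_, ?_⟩
    · rw [tdist_sub, add_sub_cancel_right]; exact hy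
    · rw [tg_conn, zero_add] at hc
      exact hc

theorem phi_conn {d L : ℕ} [NeZero L] {p : Fin 3 → ℝ} (hp : ∀ i, 0 < p i) (i : ℕ)
    (x y : Tor d L) :
    (torGr d L).phi p (fun ω => ind ((torGr d L).conn (lv ω i) x y))
      = (torGr d L).phi p (fun ω => ind ((torGr d L).conn (lv ω i) 0 (y - x))) := by
  rw [← phi_shift hp x (fun ω => ind ((torGr d L).conn (lv ω i) 0 (y - x)))]
  congr 1
  funext ω
  congr 1
  apply propext
  rw [tg_conn, zero_add, sub_add_cancel]

end H82AT

end S_TG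

section S_ORD

/-! MODULE ORD: from order of the second component to type-2 connectivity. -/

set_option autoImplicit false

namespace H82AT

open Finset

theorem order_reach {d L : ℕ} [NeZero L] {β ε c : ℝ} (hβ : 0 < β) (h0 : 0 < ε) (h1 : ε < 1)
    (hc : 0 < c) (h : GE β ε (fun σ : Tor d L → Col => ind (|mt σ| ≤ c)) ≤ 3 / 4) (n : ℕ) :
    c ^ 2 / 4 - (2 * (n : ℝ) + 1) ^ d / (L : ℝ) ^ d
      ≤ (torGr d L).phi (pr β (1 - ε) 1) (fun ω => ind (reachT 2 n 0 ω)) := by
  have hLp : (0 : ℝ) < (L : ℝ) ^ d := by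
    have : (0 : ℝ) < L := by exact_mod_cast Nat.pos_of_ne_zero (NeZero.ne L)
    positivity
  have hpos : ∀ i, 0 < pr β (1 - ε) 1 i := fun i => pr_pos hβ (by linarith) (by linarith) i
  have hcard : (Fintype.card (Tor d L) : ℝ) = (L : ℝ) ^ d := by
    rw [Fintype.card_fun, ZMod.card, Fintype.card_fin]
    push_cast
    rfl
  set N : ℝ := (L : ℝ) ^ d with hN
  set φr : ℝ := (torGr d L).phi (pr β (1 - ε) 1) (fun ω => ind (reachT 2 n 0 ω)) with hφr
  set T : Tor d L → ℝ := fun z =>
    (torGr d L).phi (pr β (1 - ε) 1) (fun ω => ind ((torGr d L).conn (lv ω 2) 0 z)) with hT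
  -- lower bound for the second moment
  have hlow : c ^ 2 / 4 ≤ GE β ε (fun σ : Tor d L → Col => (mt σ) ^ 2) := by
    have hle : GE β ε (fun σ : Tor d L → Col => c ^ 2 + (-(c ^ 2)) * ind (|mt σ| ≤ c))
        ≤ GE β ε (fun σ : Tor d L → Col => (mt σ) ^ 2) := by
      refine GE_mono _ _ _ _ (fun σ => ?_)
      by_cases hm : |mt σ| ≤ c
      · rw [ind_true hm]
        nlinarith [sq_nonneg (mt σ)]
      · rw [ind_false hm, mul_zero, add_zero]
        push Not at hm
        rw [← sq_abs (mt σ)]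
        exact pow_le_pow_left₀ hc.le hm.le 2
    rw [GE_add, GE_smul, GE_const] at hle
    have hc2 : 0 ≤ c ^ 2 := sq_nonneg c
    nlinarith
  -- the second moment through connection probabilities
  have hpair : ∀ x y : Tor d L, GE β ε (fun σ : Tor d L → Col => sg (σ x).2 * sg (σ y).2)
      = T (y - x) := by
    intro x y
    rw [← EE_torus (d := d) (L := L) h0.le h1.le, EE_tt _ hpos, phi_conn hpos]
  have hexp : ∀ σ : Tor d L → Col, (mt σ) ^ 2
      = (1 / N ^ 2) * ∑ x : Tor d L, ∑ y : Tor d L, sg (σ x).2 * sg (σ y).2 := by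
    intro σ
    unfold mt
    rw [hcard, div_pow, sq (∑ x, sg (σ x).2), Finset.sum_mul_sum]
    ring
  have hsum : GE β ε (fun σ : Tor d L → Col => (mt σ) ^ 2)
      = (1 / N ^ 2) * ∑ x : Tor d L, ∑ y : Tor d L, T (y - x) := by
    simp only [hexp]
    rw [GE_smul, GE_sum]
    congr 1
    refine Finset.sum_congr rfl (fun x _ => ?_)
    rw [GE_sum]
    exact Finset.sum_congr rfl (fun y _ => hpair x y)
  have hshift : ∀ x : Tor d L, ∑ y : Tor d L, T (y - x) = ∑ z : Tor d L, T z := by
    intro x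
    exact Equiv.sum_comp (Equiv.subRight x) T
  have hsum2 : GE β ε (fun σ : Tor d L → Col => (mt σ) ^ 2) = (1 / N) * ∑ z : Tor d L, T z := by
    rw [hsum, Finset.sum_congr rfl (fun x _ => hshift x), Finset.sum_const, Finset.card_univ,
      nsmul_eq_mul, hcard]
    field_simp
  -- upper bound
  have hφ0 : 0 ≤ φr := by
    have := phi_le_phi (torGr d L) hpos (fun _ => (0 : ℝ)) (fun ω => ind (reachT 2 n 0 ω))
      (fun ω => ind_nonneg _)
    rw [phi_const _ hpos] at this
    exact this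
  have hTle : ∀ z : Tor d L, T z ≤ φr + ind (tdist 0 z ≤ n) := by
    intro z
    by_cases hz : tdist 0 z ≤ n
    · rw [ind_true hz]
      have : T z ≤ 1 := by
        have := phi_le_phi (torGr d L) hpos
          (fun ω => ind ((torGr d L).conn (lv ω 2) 0 z)) (fun _ => (1 : ℝ))
          (fun ω => ind_le_one _)
        rw [phi_const _ hpos] at this
        exact this
      linarith
    · rw [ind_false hz, add_zero]
      push Not at hz
      refine phi_le_phi (torGr d L) hpos _ _ (fun ω => ind_mono (fun hcn => ?_))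
      exact ⟨z, hz.le, hcn⟩
  have hball : ∑ z : Tor d L, ind (tdist 0 z ≤ n) ≤ (2 * (n : ℝ) + 1) ^ d := by
    refine le_trans (le_of_eq ?_) (tball_card n (0 : Tor d L))
    rw [Finset.card_filter]
    push_cast
    refine Finset.sum_congr rfl (fun z _ => ?_)
    by_cases hz : tdist 0 z ≤ n
    · rw [ind_true hz, if_pos hz]
    · rw [ind_false hz, if_neg hz]
  have hup : ∑ z : Tor d L, T z ≤ N * φr + (2 * (n : ℝ) + 1) ^ d := by
    refine le_trans (Finset.sum_le_sum (fun z _ => hTle z)) ?_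
    rw [Finset.sum_add_distrib, Finset.sum_const, Finset.card_univ, nsmul_eq_mul, hcard]
    linarith
  rw [hsum2] at hlow
  have h2 : (1 / N) * ∑ z : Tor d L, T z ≤ φr + (2 * (n : ℝ) + 1) ^ d / N := by
    rw [one_div, ← div_eq_inv_mul, div_le_iff₀ hLp, add_mul, div_mul_cancel₀ _ hLp.ne']
    linarith
  linarith

end H82AT

end S_ORD

section S_FOREST

/-! MODULE FOREST: expected number of open vertex-disjoint path families. -/

set_option autoImplicit false

namespace H82AT

open Finset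

/-! ### integrating out one colour -/

private def fo_equiv {V : Type} [DecidableEq V] (v : V) : ((V → Col) × Col) ≃ ((V → Col) × Col) where
  toFun z := (Function.update z.1 v z.2, z.1 v)
  invFun z := (Function.update z.1 v z.2, z.1 v)
  left_inv z := by
    rcases z with ⟨τ, c⟩
    simp
  right_inv z := by
    rcases z with ⟨τ, c⟩
    simp

private theorem fo_int {V : Type} [Fintype V] [DecidableEq V] (v : V) (F : (V → Col) → ℝ) :
    4 * ∑ τ, F τ = ∑ τ, ∑ c : Col, F (Function.update τ v c) := by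
  rw [← Fintype.sum_prod_type' (f := fun (τ : V → Col) (c : Col) => F (Function.update τ v c))]
  have h1 : ∑ z : (V → Col) × Col, F (Function.update z.1 v z.2)
      = ∑ z : (V → Col) × Col, F z.1 :=
    Fintype.sum_equiv (fo_equiv v) _ _ (fun z => rfl)
  rw [h1, Fintype.sum_prod_type]
  simp only [Finset.sum_const]
  rw [Finset.mul_sum]
  refine Finset.sum_congr rfl fun τ _ => ?_
  have : (Finset.univ : Finset Col).card = 4 := by simp
  rw [this]
  simp

/-- the function does not depend on the colour of `v` -/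
private def FoInd {V : Type} [DecidableEq V] (G : (V → Col) → ℝ) (v : V) : Prop :=
  ∀ τ c, G (Function.update τ v c) = G τ

private theorem fo_peel {V : Type} [Fintype V] [DecidableEq V] (x y : V) (hxy : x ≠ y)
    (G : (V → Col) → ℝ) (hG : FoInd G x) (k : Col → Col → ℝ) (s : ℝ)
    (hk : ∀ c', ∑ c, k c c' = s) :
    ∑ τ, G τ * k (τ x) (τ y) = s / 4 * ∑ τ, G τ := by
  have h := fo_int x (fun τ => G τ * k (τ x) (τ y))
  have h2 : ∑ τ : V → Col, ∑ c : Col, (G (Function.update τ x c) *
      k ((Function.update τ x c) x) ((Function.update τ x c) y)) = s * ∑ τ, G τ := by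
    rw [Finset.mul_sum]
    refine Finset.sum_congr rfl fun τ _ => ?_
    have h3 : ∀ c : Col, G (Function.update τ x c) *
      k ((Function.update τ x c) x) ((Function.update τ x c) y) = G τ * k c (τ y) := by
      intro c
      rw [hG, Function.update_self, Function.update_of_ne (Ne.symm hxy)]
    rw [Finset.sum_congr rfl (fun c _ => h3 c), ← Finset.mul_sum, hk, mul_comm]
  rw [h2] at h
  linarith

private theorem fo_cnt {V : Type} [Fintype V] [DecidableEq V] (x : V)
    (G : (V → Col) → ℝ) (hG : FoInd G x) (c0 : Col) :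
    ∑ τ, G τ * ind (τ x = c0) = 1 / 4 * ∑ τ, G τ := by
  have h := fo_int x (fun τ => G τ * ind (τ x = c0))
  have h2 : ∑ τ : V → Col, ∑ c : Col, (G (Function.update τ x c) *
      ind ((Function.update τ x c) x = c0)) = ∑ τ, G τ := by
    refine Finset.sum_congr rfl fun τ _ => ?_
    have h3 : ∀ c : Col, G (Function.update τ x c) *
      ind ((Function.update τ x c) x = c0) = G τ * ind (c = c0) := by
      intro c
      rw [hG, Function.update_self]
    rw [Finset.sum_congr rfl (fun c _ => h3 c), ← Finset.mul_sum]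
    rw [Finset.sum_eq_single c0 (fun b _ hb => ind_false hb) (fun h => absurd (Finset.mem_univ _) h),
      ind_true rfl, mul_one]
  rw [h2] at h
  linarith

/-! ### the kernel -/

/-- upper bound for the probability that an edge is open, given the colours -/
private noncomputable def fo_w (β ε : ℝ) (c c' : Col) : ℝ :=
  if c = c' then β else if c.1 = c'.1 then ε * β else 0

private theorem fo_w_symm (β ε : ℝ) (c c' : Col) : fo_w β ε c c' = fo_w β ε c' c := by
  unfold fo_w
  by_cases h : c = c'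
  · rw [if_pos h, if_pos h.symm]
  · rw [if_neg h, if_neg (Ne.symm h)]
    by_cases h' : c.1 = c'.1
    · rw [if_pos h', if_pos h'.symm]
    · rw [if_neg h', if_neg (Ne.symm h')]

private theorem fo_w_nonneg {β ε : ℝ} (hβ : 0 < β) (h0 : 0 < ε) (c c' : Col) :
    0 ≤ fo_w β ε c c' := by
  unfold fo_w
  split_ifs <;> positivity

private theorem fo_w_sum (β ε : ℝ) (c' : Col) : ∑ c, fo_w β ε c c' = (1 + ε) * β := by
  rcases c' with ⟨a, b⟩
  rw [Fintype.sum_prod_type]
  simp only [Fintype.sum_bool]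
  unfold fo_w
  cases a <;> cases b <;> simp <;> ring

private theorem fo_open {β ε : ℝ} (hβ : 0 < β) (h0 : 0 < ε) (h1 : ε < 1) (c c' : Col) :
    0 ≤ 1 - pr β (1 - ε) 1 0 / aw (pr β (1 - ε) 1) c c' ∧
      1 - pr β (1 - ε) 1 0 / aw (pr β (1 - ε) 1) c c' ≤ fo_w β ε c c' := by
  rw [aw_pr]
  have e0 : pr β (1 - ε) 1 0 = Real.exp (-(β * 1)) := rfl
  rw [e0, ← Real.exp_sub]
  set x : ℝ := β * (1 - dl (1 - ε) 1 c c') with hx
  have e1 : -(β * 1) - -(β * dl (1 - ε) 1 c c') = -x := by rw [hx]; ring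
  rw [e1]
  have hx0 : 0 ≤ x := by
    rw [hx]
    apply mul_nonneg hβ.le
    unfold dl
    split_ifs <;> linarith
  have hxw : x = fo_w β ε c c' := by
    rw [hx]
    unfold dl fo_w
    split_ifs <;> ring
  constructor
  · have : Real.exp (-x) ≤ 1 := by
      rw [← Real.exp_zero]
      exact Real.exp_le_exp.2 (by linarith)
    linarith
  · rw [← hxw]
    have := Real.add_one_le_exp (-x)
    linarith

/-! ### paths -/

section paths

variable {d L : ℕ}

private theorem fo_edg (x : Tor d L) (a : Dir d) :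
    ((torGr d L).s (edg x a) = x ∧ (torGr d L).t (edg x a) = stp x a) ∨
      ((torGr d L).s (edg x a) = stp x a ∧ (torGr d L).t (edg x a) = x) := by
  unfold edg stp torGr
  by_cases h : a.2 = true
  · left
    simp [h]
  · right
    simp [h]

private theorem fo_self_mem (x : Tor d L) (w : List (Dir d)) : x ∈ vts x w := by
  cases w <;> simp [vts]

private theorem fo_len (x : Tor d L) (w : List (Dir d)) : (vts x w).length = w.length + 1 := by
  induction w generalizing x with
  | nil => simp [vts]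
  | cons a w ih => simp [vts, ih]

private theorem fo_ends (x : Tor d L) (w : List (Dir d)) (e : Tor d L × Fin d)
    (he : e ∈ eds x w) : (torGr d L).s e ∈ vts x w ∧ (torGr d L).t e ∈ vts x w := by
  induction w generalizing x with
  | nil => simp [eds] at he
  | cons a w ih =>
    simp only [eds, List.mem_cons] at he
    simp only [vts, List.mem_cons]
    rcases he with rfl | he
    · rcases fo_edg x a with ⟨h1, h2⟩ | ⟨h1, h2⟩
      · rw [h1, h2]
        exact ⟨Or.inl rfl, Or.inr (fo_self_mem _ _)⟩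
      · rw [h1, h2]
        exact ⟨Or.inr (fo_self_mem _ _), Or.inl rfl⟩
    · exact ⟨Or.inr (ih _ he).1, Or.inr (ih _ he).2⟩

private theorem fo_endsq (q : List (Tor d L × List (Dir d))) (e : Tor d L × Fin d)
    (he : e ∈ edsq q) : (torGr d L).s e ∈ vtsq q ∧ (torGr d L).t e ∈ vtsq q := by
  unfold edsq at he
  unfold vtsq
  rw [List.mem_flatMap] at he
  obtain ⟨p, hp, he⟩ := he
  obtain ⟨h1, h2⟩ := fo_ends _ _ _ he
  exact ⟨List.mem_flatMap.2 ⟨p, hp, h1⟩, List.mem_flatMap.2 ⟨p, hp, h2⟩⟩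

private theorem fo_nodup (x : Tor d L) (w : List (Dir d)) (h : (vts x w).Nodup) :
    (eds x w).Nodup := by
  induction w generalizing x with
  | nil => simp [eds]
  | cons a w ih =>
    simp only [vts, List.nodup_cons] at h
    simp only [eds, List.nodup_cons]
    refine ⟨?_, ih _ h.2⟩
    intro he
    obtain ⟨h1, h2⟩ := fo_ends _ _ _ he
    rcases fo_edg x a with ⟨h3, h4⟩ | ⟨h3, h4⟩
    · rw [h3] at h1
      exact h.1 h1
    · rw [h4] at h2
      exact h.1 h2

private theorem fo_nodupq (q : List (Tor d L × List (Dir d))) (h : (vtsq q).Nodup) :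
    (edsq q).Nodup := by
  induction q with
  | nil => simp [edsq]
  | cons p q ih =>
    have e1 : vtsq (p :: q) = vts p.1 p.2 ++ vtsq q := by simp [vtsq]
    have e2 : edsq (p :: q) = eds p.1 p.2 ++ edsq q := by simp [edsq]
    rw [e1, List.nodup_append] at h
    rw [e2, List.nodup_append]
    refine ⟨fo_nodup _ _ h.1, ih h.2.1, ?_⟩
    intro a ha b hb hab
    subst hab
    exact h.2.2 _ (fo_ends _ _ _ ha).1 _ (fo_endsq _ _ hb).1 rfl

private theorem fo_lenq (ℓ : ℕ) (q : List (Tor d L × List (Dir d)))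
    (hw : ∀ p ∈ q, p.2.length = ℓ) : (vtsq q).length = q.length * (ℓ + 1) := by
  induction q with
  | nil => simp [vtsq]
  | cons p q ih =>
    have e1 : vtsq (p :: q) = vts p.1 p.2 ++ vtsq q := by simp [vtsq]
    rw [e1, List.length_append, fo_len, hw p (List.mem_cons_self ..),
      ih (fun p' hp' => hw p' (List.mem_cons_of_mem _ hp')), List.length_cons]
    ring

/-- weight of a list of edges -/
private noncomputable def fo_P (β ε : ℝ) (l : List (Tor d L × Fin d)) (τ : Tor d L → Col) : ℝ :=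
  (l.map (fun e => fo_w β ε (τ ((torGr d L).s e)) (τ ((torGr d L).t e)))).prod

private theorem fo_P_ind (β ε : ℝ) (l : List (Tor d L × Fin d)) (v : Tor d L)
    (h : ∀ e ∈ l, (torGr d L).s e ≠ v ∧ (torGr d L).t e ≠ v) : FoInd (fo_P β ε l) v := by
  intro τ c
  unfold fo_P
  congr 1
  apply List.map_congr_left
  intro e he
  rw [Function.update_of_ne (h e he).1, Function.update_of_ne (h e he).2]

private theorem fo_path [NeZero L] (β ε : ℝ) (x : Tor d L) (w : List (Dir d))
    (h : (vts x w).Nodup) (G : (Tor d L → Col) → ℝ) (hG : ∀ v ∈ vts x w, FoInd G v) :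
    ∑ τ, G τ * fo_P β ε (eds x w) τ = ((1 + ε) * β / 4) ^ w.length * ∑ τ, G τ := by
  induction w generalizing x with
  | nil => simp [eds, fo_P]
  | cons a w ih =>
    simp only [vts, List.nodup_cons] at h
    have hx : x ≠ stp x a := by
      intro hx
      apply h.1
      have := fo_self_mem (stp x a) w
      exact hx ▸ this
    have hG' : FoInd (fun τ => G τ * fo_P β ε (eds (stp x a) w) τ) x := by
      intro τ c
      have h1 := hG x (by simp [vts]) τ c
      have h2 := fo_P_ind β ε (eds (stp x a) w) x (by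
        intro e he
        obtain ⟨h3, h4⟩ := fo_ends _ _ _ he
        constructor
        · intro h5
          rw [h5] at h3
          exact h.1 h3
        · intro h5
          rw [h5] at h4
          exact h.1 h4) τ c
      simp only [h1, h2]
    have hpeel := fo_peel x (stp x a) hx _ hG' (fo_w β ε) ((1 + ε) * β) (fo_w_sum β ε)
    have e1 : ∀ τ : Tor d L → Col, G τ * fo_P β ε (eds x (a :: w)) τ
        = G τ * fo_P β ε (eds (stp x a) w) τ * fo_w β ε (τ x) (τ (stp x a)) := by
      intro τ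
      have e2 : fo_P β ε (eds x (a :: w)) τ
          = fo_w β ε (τ ((torGr d L).s (edg x a))) (τ ((torGr d L).t (edg x a))) *
            fo_P β ε (eds (stp x a) w) τ := by
        simp [fo_P, eds]
      rw [e2]
      rcases fo_edg x a with ⟨h3, h4⟩ | ⟨h3, h4⟩
      · rw [h3, h4]; ring
      · rw [h3, h4, fo_w_symm β ε (τ (stp x a)) (τ x)]; ring
    rw [Finset.sum_congr rfl (fun τ _ => e1 τ), hpeel,
      ih (stp x a) h.2 (fun v hv => hG v (by simp [vts, hv])), List.length_cons, pow_succ]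
    ring

private theorem fo_family [NeZero L] (β ε : ℝ) (ℓ : ℕ) (q : List (Tor d L × List (Dir d)))
    (hw : ∀ p ∈ q, p.2.length = ℓ) (hnd : (vtsq q).Nodup) :
    ∑ τ, fo_P β ε (edsq q) τ =
      (((1 + ε) * β / 4) ^ ℓ) ^ q.length * ∑ _τ : Tor d L → Col, (1 : ℝ) := by
  induction q with
  | nil => simp [edsq, fo_P]
  | cons p q ih =>
    have e1 : vtsq (p :: q) = vts p.1 p.2 ++ vtsq q := by simp [vtsq]
    have e2 : edsq (p :: q) = eds p.1 p.2 ++ edsq q := by simp [edsq]
    rw [e1, List.nodup_append] at hnd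
    have e3 : ∀ τ : Tor d L → Col, fo_P β ε (edsq (p :: q)) τ
        = fo_P β ε (edsq q) τ * fo_P β ε (eds p.1 p.2) τ := by
      intro τ
      rw [e2, mul_comm]
      simp [fo_P]
    rw [Finset.sum_congr rfl (fun τ _ => e3 τ), fo_path β ε p.1 p.2 hnd.1 _ (by
      intro v hv
      apply fo_P_ind
      intro e he
      obtain ⟨h3, h4⟩ := fo_endsq _ _ he
      exact ⟨fun h5 => hnd.2.2 v hv _ h3 h5.symm, fun h5 => hnd.2.2 v hv _ h4 h5.symm⟩),
      ih (fun p' hp' => hw p' (List.mem_cons_of_mem _ hp')) hnd.2.1, List.length_cons,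
      hw p (List.mem_cons_self ..), pow_succ]
    ring

/-- weight of the condition to agree with `σ` -/
private noncomputable def fo_Q (l : List (Tor d L)) (σ τ : Tor d L → Col) : ℝ :=
  (l.map (fun v => ind (τ v = σ v))).prod

private theorem fo_Q_eq (l : List (Tor d L)) (σ τ : Tor d L → Col) :
    fo_Q l σ τ = ind (∀ v ∈ l, σ v = τ v) := by
  induction l with
  | nil =>
    rw [ind_true (by simp)]
    simp [fo_Q]
  | cons a l ih =>
    have e : fo_Q (a :: l) σ τ = ind (τ a = σ a) * fo_Q l σ τ := by simp [fo_Q]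
    rw [e, ih, ← ind_and]
    congr 1
    apply propext
    simp only [List.mem_cons, forall_eq_or_imp]
    constructor
    · rintro ⟨h1, h2⟩
      exact ⟨h1.symm, h2⟩
    · rintro ⟨h1, h2⟩
      exact ⟨h1.symm, h2⟩

private theorem fo_Q_sum [NeZero L] (l : List (Tor d L)) (hl : l.Nodup) (σ : Tor d L → Col) :
    ∑ τ, fo_Q l σ τ = (1 / 4) ^ l.length * ∑ _τ : Tor d L → Col, (1 : ℝ) := by
  induction l with
  | nil => simp [fo_Q]
  | cons a l ih =>
    rw [List.nodup_cons] at hl
    have e : ∀ τ : Tor d L → Col, fo_Q (a :: l) σ τ = fo_Q l σ τ * ind (τ a = σ a) := by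
      intro τ
      rw [mul_comm]
      simp [fo_Q]
    rw [Finset.sum_congr rfl (fun τ _ => e τ), fo_cnt a _ (by
      intro τ c
      unfold fo_Q
      congr 1
      apply List.map_congr_left
      intro v hv
      have : v ≠ a := by
        rintro rfl
        exact hl.1 hv
      rw [Function.update_of_ne this]), ih hl.2, List.length_cons, pow_succ]
    ring

end paths

/-- Given the colours the edges are independent (`EE_open`; the edges of a vertex-disjoint
family are distinct), an edge is open with probability at most `β` (same colour), `ε β` (partners), `0`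
otherwise; sum over the colours `τ` of the vertices of the family, one path at a time:
`∑_τ ∏ a = (4 ((1+ε)β)^ℓ)^(number of paths)`. -/
theorem forest {d L : ℕ} [NeZero L] (hd : 1 ≤ d) (hL : 3 ≤ L) {β ε : ℝ} (hβ : 0 < β)
    (h0 : 0 < ε) (h1 : ε < 1) (ℓ : ℕ) (q : List (Tor d L × List (Dir d)))
    (hw : ∀ p ∈ q, p.2.length = ℓ) (hnd : (vtsq q).Nodup) (M : (Tor d L → Col) → Prop)
    (B : ℝ) (hB0 : 0 ≤ B)
    (hB : ∀ τ : Tor d L → Col, GE β ε (fun σ => ind ((∀ v ∈ vtsq q, σ v = τ v) ∧ M σ)) ≤ B) :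
    (torGr d L).EE (pr β (1 - ε) 1)
        (fun ω σ => ind ((∀ e ∈ edsq q, 1 ≤ ((ω e : Fin 3) : ℕ)) ∧ M σ))
      ≤ (4 * ((1 + ε) * β) ^ ℓ) ^ q.length * B := by
  classical
  have hp : ∀ i, 0 < pr β (1 - ε) 1 i := fun i => pr_pos hβ (by linarith) (by linarith) i
  -- the exact conditional probability
  set u : (Tor d L → Col) → ℝ := fun σ => ∏ e ∈ (edsq q).toFinset,
    (1 - pr β (1 - ε) 1 0 / aw (pr β (1 - ε) 1) (σ ((torGr d L).s e)) (σ ((torGr d L).t e)))
    with hu
  have s1 : (torGr d L).EE (pr β (1 - ε) 1)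
        (fun ω σ => ind ((∀ e ∈ edsq q, 1 ≤ ((ω e : Fin 3) : ℕ)) ∧ M σ))
      = GE β ε (fun σ => u σ * ind (M σ)) := by
    rw [← EE_torus h0.le h1.le]
    have := EE_open (torGr d L) hp (edsq q).toFinset (fun σ => ind (M σ))
    rw [← this]
    congr 1
    funext ω σ
    rw [← ind_and]
    congr 1
    apply propext
    simp only [List.mem_toFinset]
  rw [s1]
  have hu0 : ∀ σ, 0 ≤ u σ := fun σ => Finset.prod_nonneg fun e _ => (fo_open hβ h0 h1 _ _).1
  have hnde := fo_nodupq q hnd
  have huP : ∀ σ, u σ ≤ fo_P β ε (edsq q) σ := by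
    intro σ
    have e1 : fo_P β ε (edsq q) σ = ∏ e ∈ (edsq q).toFinset,
        fo_w β ε (σ ((torGr d L).s e)) (σ ((torGr d L).t e)) := by
      rw [List.prod_toFinset _ hnde]
      rfl
    rw [e1, hu]
    exact Finset.prod_le_prod (fun e _ => (fo_open hβ h0 h1 _ _).1)
      (fun e _ => (fo_open hβ h0 h1 _ _).2)
  -- `u` depends only on the colours of the vertices of the family
  have hudep : ∀ σ τ : Tor d L → Col, (∀ v ∈ vtsq q, σ v = τ v) → u σ = u τ := by
    intro σ τ hst
    rw [hu]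
    refine Finset.prod_congr rfl fun e he => ?_
    obtain ⟨h3, h4⟩ := fo_endsq q e (List.mem_toFinset.1 he)
    rw [hst _ h3, hst _ h4]
  set T : ℝ := ∑ _τ : Tor d L → Col, (1 : ℝ) with hT
  have hT0 : 0 < T := by
    rw [hT, Finset.sum_const, nsmul_eq_mul, mul_one]
    exact_mod_cast Finset.card_pos.2 ⟨fun _ => (true, true), Finset.mem_univ _⟩
  have hn0 : ∀ σ : Tor d L → Col, ∑ τ : Tor d L → Col, ind (∀ v ∈ vtsq q, σ v = τ v)
      = (1 / 4) ^ (vtsq q).length * T := by
    intro σ
    rw [← fo_Q_sum (vtsq q) hnd σ]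
    exact Finset.sum_congr rfl fun τ _ => (fo_Q_eq _ _ _).symm
  set n0 : ℝ := (1 / 4) ^ (vtsq q).length * T with hn0def
  have hn0pos : 0 < n0 := by positivity
  have s2 : n0 * GE β ε (fun σ => u σ * ind (M σ))
      = ∑ τ, u τ * GE β ε (fun σ => ind ((∀ v ∈ vtsq q, σ v = τ v) ∧ M σ)) := by
    have e1 : ∀ τ : Tor d L → Col, u τ * GE β ε (fun σ => ind ((∀ v ∈ vtsq q, σ v = τ v) ∧ M σ))
        = GE β ε (fun σ => u τ * ind ((∀ v ∈ vtsq q, σ v = τ v) ∧ M σ)) :=
      fun τ => (GE_smul β ε (u τ) _).symm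
    rw [Finset.sum_congr rfl (fun τ _ => e1 τ), ← GE_sum, ← GE_smul]
    congr 1
    funext σ
    have e2 : ∀ τ : Tor d L → Col, u τ * ind ((∀ v ∈ vtsq q, σ v = τ v) ∧ M σ)
        = (u σ * ind (M σ)) * ind (∀ v ∈ vtsq q, σ v = τ v) := by
      intro τ
      rw [ind_and]
      by_cases h : ∀ v ∈ vtsq q, σ v = τ v
      · rw [hudep σ τ h]; ring
      · rw [ind_false h]; ring
    rw [Finset.sum_congr rfl (fun τ _ => e2 τ), ← Finset.mul_sum, hn0 σ]
    ring
  have s3 : n0 * GE β ε (fun σ => u σ * ind (M σ)) ≤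
      ((((1 + ε) * β / 4) ^ ℓ) ^ q.length * T) * B := by
    rw [s2]
    calc ∑ τ, u τ * GE β ε (fun σ => ind ((∀ v ∈ vtsq q, σ v = τ v) ∧ M σ))
        ≤ ∑ τ, fo_P β ε (edsq q) τ * B := by
          apply Finset.sum_le_sum
          intro τ _
          calc u τ * GE β ε (fun σ => ind ((∀ v ∈ vtsq q, σ v = τ v) ∧ M σ)) ≤ u τ * B :=
                mul_le_mul_of_nonneg_left (hB τ) (hu0 τ)
            _ ≤ fo_P β ε (edsq q) τ * B := mul_le_mul_of_nonneg_right (huP τ) hB0
      _ = _ := by rw [← Finset.sum_mul, fo_family β ε ℓ q hw hnd]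
  have s4 : ((((1 + ε) * β / 4) ^ ℓ) ^ q.length * T) * B
      = n0 * ((4 * ((1 + ε) * β) ^ ℓ) ^ q.length * B) := by
    rw [hn0def, fo_lenq ℓ q hw]
    have e1 : (4 * ((1 + ε) * β) ^ ℓ) ^ q.length
        = 4 ^ (q.length * (ℓ + 1)) * (((1 + ε) * β / 4) ^ ℓ) ^ q.length := by
      rw [mul_comm q.length (ℓ + 1), pow_mul, ← mul_pow]
      congr 1
      rw [pow_succ, div_pow]
      field_simp
    rw [e1]
    have e2 : ((1 : ℝ) / 4) ^ (q.length * (ℓ + 1)) * 4 ^ (q.length * (ℓ + 1)) = 1 := by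
      rw [← mul_pow]; norm_num
    calc (((1 + ε) * β / 4) ^ ℓ) ^ q.length * T * B
        = (((1 : ℝ) / 4) ^ (q.length * (ℓ + 1)) * 4 ^ (q.length * (ℓ + 1))) *
          ((((1 + ε) * β / 4) ^ ℓ) ^ q.length * T * B) := by rw [e2, one_mul]
      _ = _ := by ring
  rw [s4] at s3
  exact le_of_mul_le_mul_left s3 hn0pos

end H82AT

end S_FOREST

section S_RPK

/-! MODULE RPK: Cauchy-Schwarz for the Gaussian kernel. -/

set_option autoImplicit false

namespace H82AT

open Finset

theorem rpk_pow {Z ι : Type} [Fintype Z] [Fintype ι] (W : Z → ℝ) (x : Z → ι → ℝ) (n : ℕ) :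
    0 ≤ ∑ u, ∑ v, W u * W v * (∑ i, x u i * x v i) ^ n := by
  have h : ∑ u, ∑ v, W u * W v * (∑ i, x u i * x v i) ^ n =
      ∑ p : Fin n → ι, (∑ u, W u * ∏ k, x u (p k)) ^ 2 := by
    have h1 : ∀ u v, W u * W v * (∑ i, x u i * x v i) ^ n =
        ∑ p : Fin n → ι, (W u * ∏ k, x u (p k)) * (W v * ∏ k, x v (p k)) := by
      intro u v
      rw [Fintype.sum_pow, Finset.mul_sum]
      refine Finset.sum_congr rfl fun p _ => ?_
      rw [Finset.prod_mul_distrib]
      ring
    simp_rw [h1]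
    have h2 : ∀ u, ∑ v, ∑ p : Fin n → ι, (W u * ∏ k, x u (p k)) * (W v * ∏ k, x v (p k)) =
        ∑ p : Fin n → ι, (W u * ∏ k, x u (p k)) * ∑ v, (W v * ∏ k, x v (p k)) := by
      intro u
      rw [Finset.sum_comm]
      refine Finset.sum_congr rfl fun p _ => ?_
      rw [Finset.mul_sum]
    simp_rw [h2]
    rw [Finset.sum_comm]
    refine Finset.sum_congr rfl fun p _ => ?_
    rw [← Finset.sum_mul, sq]
  rw [h]
  exact Finset.sum_nonneg fun p _ => sq_nonneg _

theorem rpk_exp {Z ι : Type} [Fintype Z] [Fintype ι] (c : ℝ) (hc : 0 ≤ c) (W : Z → ℝ)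
    (x : Z → ι → ℝ) :
    0 ≤ ∑ u, ∑ v, W u * W v * Real.exp (2 * c * ∑ i, x u i * x v i) := by
  have h1 : ∀ u v, HasSum (fun n : ℕ => W u * W v * ((2 * c * ∑ i, x u i * x v i) ^ n / n.factorial))
      (W u * W v * Real.exp (2 * c * ∑ i, x u i * x v i)) := by
    intro u v
    refine HasSum.mul_left _ ?_
    have := NormedSpace.expSeries_div_hasSum_exp (𝔸 := ℝ) (2 * c * ∑ i, x u i * x v i)
    rw [← Real.exp_eq_exp_ℝ] at this
    exact this
  have h2 : HasSum (fun n : ℕ => ∑ u, ∑ v, W u * W v *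
      ((2 * c * ∑ i, x u i * x v i) ^ n / n.factorial))
      (∑ u, ∑ v, W u * W v * Real.exp (2 * c * ∑ i, x u i * x v i)) :=
    hasSum_sum fun u _ => hasSum_sum fun v _ => h1 u v
  refine h2.nonneg fun n => ?_
  have h3 : ∑ u, ∑ v, W u * W v * ((2 * c * ∑ i, x u i * x v i) ^ n / n.factorial) =
      (2 * c) ^ n / n.factorial * ∑ u, ∑ v, W u * W v * (∑ i, x u i * x v i) ^ n := by
    rw [Finset.mul_sum]
    refine Finset.sum_congr rfl fun u _ => ?_
    rw [Finset.mul_sum]
    refine Finset.sum_congr rfl fun v _ => ?_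
    rw [mul_pow]
    ring
  rw [h3]
  exact mul_nonneg (by positivity) (rpk_pow W x n)

theorem rpk_psd {Z ι : Type} [Fintype Z] [Fintype ι] (c : ℝ) (hc : 0 ≤ c) (w : Z → ℝ)
    (x : Z → ι → ℝ) :
    0 ≤ ∑ u, ∑ v, w u * w v * Real.exp (-c * ∑ i, (x u i - x v i) ^ 2) := by
  have h := rpk_exp c hc (fun u => w u * Real.exp (-c * ∑ i, x u i ^ 2)) x
  refine le_of_le_of_eq h ?_
  refine Finset.sum_congr rfl fun u _ => Finset.sum_congr rfl fun v _ => ?_
  have e : -c * ∑ i, (x u i - x v i) ^ 2 = -c * ∑ i, x u i ^ 2 + -c * ∑ i, x v i ^ 2 +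
      2 * c * ∑ i, x u i * x v i := by
    simp only [Finset.mul_sum, ← Finset.sum_add_distrib]
    refine Finset.sum_congr rfl fun i _ => by ring
  rw [e, Real.exp_add, Real.exp_add]
  ring

/-- `exp(2c⟨a,b⟩) = ∑_n (2c)^n ⟨a,b⟩^n / n!` and `⟨a,b⟩^n = ∑_(w : Fin n → ι) ∏ a(w k) ∏ b(w k)`,
so the kernel is a countable sum of products; use Cauchy-Schwarz (discriminant argument:
the quadratic form `∑ (F - tG)(F - tG) k ≥ 0` on the disjoint union of the two point sets). -/
theorem gauss_cs {X Y ι : Type} [Fintype X] [Fintype Y] [Fintype ι] (c : ℝ) (hc : 0 ≤ c)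
    (F : X → ℝ) (G : Y → ℝ) (a : X → ι → ℝ) (b : Y → ι → ℝ) :
    (∑ u, ∑ v, F u * G v * Real.exp (-c * ∑ i, (a u i - b v i) ^ 2)) ^ 2
      ≤ (∑ u, ∑ v, F u * F v * Real.exp (-c * ∑ i, (a u i - a v i) ^ 2))
        * (∑ u, ∑ v, G u * G v * Real.exp (-c * ∑ i, (b u i - b v i) ^ 2)) := by
  set A := ∑ u, ∑ v, F u * F v * Real.exp (-c * ∑ i, (a u i - a v i) ^ 2) with hA
  set B := ∑ u, ∑ v, F u * G v * Real.exp (-c * ∑ i, (a u i - b v i) ^ 2) with hB
  set C := ∑ u, ∑ v, G u * G v * Real.exp (-c * ∑ i, (b u i - b v i) ^ 2) with hC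
  have key : ∀ t : ℝ, 0 ≤ C * (t * t) + 2 * B * t + A := by
    intro t
    have h := rpk_psd (Z := X ⊕ Y) (ι := ι) c hc (Sum.elim F (fun v => t * G v)) (Sum.elim a b)
    simp only [Fintype.sum_sum_type, Sum.elim_inl, Sum.elim_inr] at h
    refine le_of_le_of_eq h ?_
    have e1 : ∑ u, ∑ v, t * G u * F v * Real.exp (-c * ∑ i, (b u i - a v i) ^ 2) = t * B := by
      rw [hB, Finset.mul_sum, Finset.sum_comm]
      refine Finset.sum_congr rfl fun u _ => ?_
      rw [Finset.mul_sum]
      refine Finset.sum_congr rfl fun v _ => ?_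
      have : ∑ i, (b v i - a u i) ^ 2 = ∑ i, (a u i - b v i) ^ 2 :=
        Finset.sum_congr rfl fun i _ => by ring
      rw [this]
      ring
    have e2 : ∑ u, ∑ v, F u * (t * G v) * Real.exp (-c * ∑ i, (a u i - b v i) ^ 2) = t * B := by
      rw [hB, Finset.mul_sum]
      refine Finset.sum_congr rfl fun u _ => ?_
      rw [Finset.mul_sum]
      refine Finset.sum_congr rfl fun v _ => by ring
    have e3 : ∑ u, ∑ v, t * G u * (t * G v) * Real.exp (-c * ∑ i, (b u i - b v i) ^ 2) =
        t * t * C := by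
      rw [hC, Finset.mul_sum]
      refine Finset.sum_congr rfl fun u _ => ?_
      rw [Finset.mul_sum]
      refine Finset.sum_congr rfl fun v _ => by ring
    simp only [Finset.sum_add_distrib]
    rw [e1, e2, e3, ← hA]
    ring
  have h := discrim_le_zero key
  unfold discrim at h
  nlinarith [h]

end H82AT

end S_RPK

section S_RPT

/-! MODULE RPT: reflection step on the torus. -/

set_option autoImplicit false

namespace H82AT

open Finset

/-- number of edges carrying a nonzero value -/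
noncomputable def nz {d L : ℕ} [NeZero L] (h : Tor d L × Fin d → Fin 3 → ℝ) : ℕ := by
  classical
  exact (Finset.univ.filter (fun e => h e ≠ 0)).card

/-! ### abstract reflections -/

/-- a reflection of a finite graph -/
structure RptRefl {V E : Type} (s t : E → V) (P : V → Prop) (θ : V → V) (Θ : E → E)
    (pos : E → Prop) : Prop where
  inv : ∀ x, θ (θ x) = x
  side : ∀ x, P (θ x) ↔ ¬ P x
  einv : ∀ e, Θ (Θ e) = e
  posinv : ∀ e, pos (Θ e) ↔ pos e
  edge1 : ∀ e, pos e → s (Θ e) = θ (s e) ∧ t (Θ e) = θ (t e)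
  edge2 : ∀ e, ¬ pos e → s (Θ e) = θ (t e) ∧ t (Θ e) = θ (s e)
  cross : ∀ e, ¬ (P (s e) ↔ P (t e)) → t e = θ (s e)

section Abs

variable {V E : Type} {s t : E → V} {P : V → Prop} {θ : V → V} {Θ : E → E} {pos : E → Prop}

open Classical in
/-- gluing two halves of a configuration -/
noncomputable def rptGlue (R : RptRefl s t P θ Θ pos) (u v : {x // P x} → Col) (x : V) : Col :=
  if h : P x then u ⟨x, h⟩ else v ⟨θ x, (R.side x).mpr h⟩

theorem rptGlue_left (R : RptRefl s t P θ Θ pos) (u v w : {x // P x} → Col) {x : V} (h : P x) :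
    rptGlue R u v x = rptGlue R u w x := by
  unfold rptGlue
  rw [dif_pos h, dif_pos h]

theorem rptGlue_right (R : RptRefl s t P θ Θ pos) (u v w : {x // P x} → Col) {x : V} (h : ¬ P x) :
    rptGlue R u v x = rptGlue R w v x := by
  unfold rptGlue
  rw [dif_neg h, dif_neg h]

theorem rptGlue_refl (R : RptRefl s t P θ Θ pos) (u : {x // P x} → Col) (x : V) :
    rptGlue R u u (θ x) = rptGlue R u u x := by
  unfold rptGlue
  by_cases h : P x
  · have h' : ¬ P (θ x) := fun h2 => (R.side x).mp h2 h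
    rw [dif_pos h, dif_neg h']
    congr 1
    exact Subtype.ext (R.inv x)
  · have h' : P (θ x) := (R.side x).mpr h
    rw [dif_neg h, dif_pos h']

open Classical in
/-- configurations are pairs of configurations on the left half -/
noncomputable def rptEquiv (R : RptRefl s t P θ Θ pos) :
    (V → Col) ≃ ({x // P x} → Col) × ({x // P x} → Col) where
  toFun σ := (fun x => σ x, fun x => σ (θ x))
  invFun p := rptGlue R p.1 p.2
  left_inv := by
    intro σ
    funext x
    simp only [rptGlue]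
    by_cases h : P x
    · rw [dif_pos h]
    · rw [dif_neg h, R.inv]
  right_inv := by
    rintro ⟨u, v⟩
    refine Prod.ext ?_ ?_
    · funext x
      simp only [rptGlue, dif_pos x.2]
    · funext x
      have h : ¬ P (θ x) := fun h2 => (R.side x).mp h2 x.2
      simp only [rptGlue, dif_neg h, R.inv]

theorem rpt_sum (R : RptRefl s t P θ Θ pos) [Fintype V] [DecidableEq V] [Fintype {x // P x}]
    [DecidableEq {x // P x}] (f : (V → Col) → ℝ) :
    ∑ σ, f σ = ∑ u, ∑ v, f (rptGlue R u v) := by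
  rw [← Fintype.sum_prod_type']
  exact (Equiv.sum_comp (rptEquiv R).symm f).symm

/-- energy of an edge -/
noncomputable def rptT (s t : E → V) (S : Col → Fin 3 → ℝ) (h : E → Fin 3 → ℝ) (σ : V → Col)
    (e : E) : ℝ := ∑ j, (S (σ (s e)) j - S (σ (t e)) j + h e j) ^ 2

open Classical in
/-- energy of the edges inside the left half -/
noncomputable def rptL (R : RptRefl s t P θ Θ pos) [Fintype E] (S : Col → Fin 3 → ℝ)
    (h : E → Fin 3 → ℝ) (u : {x // P x} → Col) : ℝ :=
  ∑ e, if P (s e) ∧ P (t e) then rptT s t S h (rptGlue R u u) e else 0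

open Classical in
/-- energy of the edges inside the right half -/
noncomputable def rptR (R : RptRefl s t P θ Θ pos) [Fintype E] (S : Col → Fin 3 → ℝ)
    (h : E → Fin 3 → ℝ) (u : {x // P x} → Col) : ℝ :=
  ∑ e, if ¬ P (s e) ∧ ¬ P (t e) then rptT s t S h (rptGlue R u u) e else 0

open Classical in
/-- values at the crossing edges -/
noncomputable def rptA (R : RptRefl s t P θ Θ pos) (S : Col → Fin 3 → ℝ)
    (u : {x // P x} → Col) (i : E × Fin 3) : ℝ :=
  if (P (s i.1) ↔ P (t i.1)) then 0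
  else S (rptGlue R u u (if P (s i.1) then s i.1 else t i.1)) i.2

open Classical in
/-- shifts at the crossing edges -/
noncomputable def rptK (s t : E → V) (P : V → Prop) (h : E → Fin 3 → ℝ) (i : E × Fin 3) : ℝ :=
  if (P (s i.1) ↔ P (t i.1)) then 0 else (if P (s i.1) then 1 else -1) * h i.1 i.2

theorem rpt_point (R : RptRefl s t P θ Θ pos) (S : Col → Fin 3 → ℝ)
    (h : E → Fin 3 → ℝ) (u v : {x // P x} → Col) (e : E) [Decidable (P (s e) ∧ P (t e))]
    [Decidable (¬ P (s e) ∧ ¬ P (t e))] :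
    rptT s t S h (rptGlue R u v) e =
      (if P (s e) ∧ P (t e) then rptT s t S h (rptGlue R u u) e else 0) +
      (if ¬ P (s e) ∧ ¬ P (t e) then rptT s t S h (rptGlue R v v) e else 0) +
      ∑ j, (rptA R S u (e, j) - (rptA R S v (e, j) - rptK s t P h (e, j))) ^ 2 := by
  classical
  unfold rptA rptK
  by_cases h1 : P (s e) <;> by_cases h2 : P (t e)
  · rw [if_pos ⟨h1, h2⟩, if_neg (fun h3 => h3.1 h1)]
    simp only [h1, h2, if_true]
    simp only [sub_self, ne_eq, OfNat.ofNat_ne_zero, not_false_eq_true, zero_pow,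
      Finset.sum_const_zero, add_zero]
    unfold rptT
    rw [rptGlue_left R u v u h1, rptGlue_left R u v u h2]
  · have hx : t e = θ (s e) := R.cross e (by tauto)
    rw [if_neg (fun h3 => h2 h3.2), if_neg (fun h3 => h3.1 h1)]
    have hni : ¬ (P (s e) ↔ P (t e)) := by tauto
    simp only [if_neg hni, if_pos h1, zero_add]
    unfold rptT
    apply Finset.sum_congr rfl
    intro j _
    have e1 : rptGlue R u v (s e) = rptGlue R u u (s e) := rptGlue_left R u v u h1
    have e2 : rptGlue R u v (t e) = rptGlue R v v (s e) := by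
      rw [rptGlue_right R u v v h2, hx, rptGlue_refl]
    rw [e1, e2]
    ring
  · have hx : t e = θ (s e) := R.cross e (by tauto)
    rw [if_neg (fun h3 => h1 h3.1), if_neg (fun h3 => h3.2 h2)]
    have hni : ¬ (P (s e) ↔ P (t e)) := by tauto
    simp only [if_neg hni, if_neg h1, zero_add]
    unfold rptT
    apply Finset.sum_congr rfl
    intro j _
    have e1 : rptGlue R u v (t e) = rptGlue R u u (t e) := rptGlue_left R u v u h2
    have e2 : rptGlue R u v (s e) = rptGlue R v v (t e) := by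
      rw [rptGlue_right R u v v h1, hx, rptGlue_refl]
    rw [e1, e2]
    ring
  · rw [if_neg (fun h3 => h1 h3.1), if_pos ⟨h1, h2⟩]
    simp only [h1, h2, if_true]
    simp only [sub_self, ne_eq, OfNat.ofNat_ne_zero, not_false_eq_true, zero_pow,
      Finset.sum_const_zero, add_zero, zero_add]
    unfold rptT
    rw [rptGlue_right R u v v h1, rptGlue_right R u v v h2]

theorem rpt_energy (R : RptRefl s t P θ Θ pos) [Fintype E] (S : Col → Fin 3 → ℝ)
    (h : E → Fin 3 → ℝ) (u v : {x // P x} → Col) :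
    ∑ e, rptT s t S h (rptGlue R u v) e = rptL R S h u + rptR R S h v +
      ∑ i : E × Fin 3, (rptA R S u i - (rptA R S v i - rptK s t P h i)) ^ 2 := by
  classical
  rw [Fintype.sum_prod_type, rptL, rptR, ← Finset.sum_add_distrib, ← Finset.sum_add_distrib]
  apply Finset.sum_congr rfl
  intro e _
  exact rpt_point R S h u v e

/-- the partition function -/
noncomputable def rptZ [Fintype V] [DecidableEq V] [Fintype E] (s t : E → V) (c : ℝ)
    (S : Col → Fin 3 → ℝ) (h : E → Fin 3 → ℝ) : ℝ :=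
  ∑ σ : V → Col, Real.exp (-c * ∑ e, rptT s t S h σ e)

theorem rptZ_eq (R : RptRefl s t P θ Θ pos) [Fintype V] [DecidableEq V] [Fintype E]
    [Fintype {x // P x}] [DecidableEq {x // P x}] (c : ℝ) (S : Col → Fin 3 → ℝ)
    (h : E → Fin 3 → ℝ) :
    rptZ s t c S h = ∑ u, ∑ v, Real.exp (-c * rptL R S h u) * Real.exp (-c * rptR R S h v) *
      Real.exp (-c * ∑ i : E × Fin 3, (rptA R S u i - (rptA R S v i - rptK s t P h i)) ^ 2) := by
  unfold rptZ
  rw [rpt_sum R]
  apply Finset.sum_congr rfl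
  intro u _
  apply Finset.sum_congr rfl
  intro v _
  rw [rpt_energy, ← Real.exp_add, ← Real.exp_add]
  congr 1
  ring

open Classical in
/-- the sign of an edge -/
noncomputable def rptS (pos : E → Prop) (e : E) : ℝ := if pos e then 1 else -1

theorem rptT_refl (R : RptRefl s t P θ Θ pos) (S : Col → Fin 3 → ℝ) {h k : E → Fin 3 → ℝ}
    (u : {x // P x} → Col) (e : E) (hk : ∀ j, k (Θ e) j = rptS pos e * h e j) :
    rptT s t S k (rptGlue R u u) (Θ e) = rptT s t S h (rptGlue R u u) e := by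
  unfold rptT
  apply Finset.sum_congr rfl
  intro j _
  rw [hk j]
  unfold rptS
  by_cases hp : pos e
  · obtain ⟨e1, e2⟩ := R.edge1 e hp
    rw [e1, e2, rptGlue_refl, rptGlue_refl, if_pos hp]
    ring
  · obtain ⟨e1, e2⟩ := R.edge2 e hp
    rw [e1, e2, rptGlue_refl, rptGlue_refl, if_neg hp]
    ring

theorem rpt_side (R : RptRefl s t P θ Θ pos) (e : E) :
    ((P (s (Θ e)) ∧ P (t (Θ e))) ↔ (¬ P (s e) ∧ ¬ P (t e))) ∧
      ((¬ P (s (Θ e)) ∧ ¬ P (t (Θ e))) ↔ (P (s e) ∧ P (t e))) := by
  by_cases hp : pos e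
  · obtain ⟨e1, e2⟩ := R.edge1 e hp
    rw [e1, e2, R.side, R.side, not_not, not_not]
    exact ⟨Iff.rfl, Iff.rfl⟩
  · obtain ⟨e1, e2⟩ := R.edge2 e hp
    rw [e1, e2, R.side, R.side, not_not, not_not]
    exact ⟨and_comm, and_comm⟩

open Classical in
/-- left field: `h` on the left, reflected on the right, zero at the crossing edges -/
noncomputable def rptH1 (s t : E → V) (P : V → Prop) (Θ : E → E) (pos : E → Prop)
    (h : E → Fin 3 → ℝ) (e : E) (j : Fin 3) : ℝ :=
  if P (s e) ∧ P (t e) then h e j else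
    if ¬ P (s e) ∧ ¬ P (t e) then rptS pos e * h (Θ e) j else 0

open Classical in
/-- right field: `h` on the right, reflected on the left, zero at the crossing edges -/
noncomputable def rptH2 (s t : E → V) (P : V → Prop) (Θ : E → E) (pos : E → Prop)
    (h : E → Fin 3 → ℝ) (e : E) (j : Fin 3) : ℝ :=
  if ¬ P (s e) ∧ ¬ P (t e) then h e j else
    if P (s e) ∧ P (t e) then rptS pos e * h (Θ e) j else 0

theorem rptS_inv (R : RptRefl s t P θ Θ pos) (e : E) : rptS pos (Θ e) = rptS pos e := by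
  unfold rptS
  by_cases hp : pos e
  · rw [if_pos hp, if_pos ((R.posinv e).mpr hp)]
  · rw [if_neg hp, if_neg (fun h => hp ((R.posinv e).mp h))]

theorem rptH1_left (h : E → Fin 3 → ℝ) {e : E} (he : P (s e) ∧ P (t e)) :
    rptH1 s t P Θ pos h e = h e := by
  funext j
  unfold rptH1
  rw [if_pos he]

theorem rptH2_right (h : E → Fin 3 → ℝ) {e : E} (he : ¬ P (s e) ∧ ¬ P (t e)) :
    rptH2 s t P Θ pos h e = h e := by
  funext j
  unfold rptH2
  rw [if_pos he]

theorem rptH1_right (h : E → Fin 3 → ℝ) {e : E} (he : ¬ P (s e) ∧ ¬ P (t e)) (j : Fin 3) :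
    rptH1 s t P Θ pos h e j = rptS pos e * h (Θ e) j := by
  unfold rptH1
  rw [if_neg (fun h' => he.1 h'.1), if_pos he]

theorem rptH2_left (h : E → Fin 3 → ℝ) {e : E} (he : P (s e) ∧ P (t e)) (j : Fin 3) :
    rptH2 s t P Θ pos h e j = rptS pos e * h (Θ e) j := by
  unfold rptH2
  rw [if_neg (fun h' => h'.1 he.1), if_pos he]

theorem rptH1_cross (h : E → Fin 3 → ℝ) {e : E} (he : ¬ (P (s e) ↔ P (t e))) :
    rptH1 s t P Θ pos h e = 0 := by
  funext j
  unfold rptH1
  rw [if_neg (by tauto), if_neg (by tauto)]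
  rfl

theorem rptH2_cross (h : E → Fin 3 → ℝ) {e : E} (he : ¬ (P (s e) ↔ P (t e))) :
    rptH2 s t P Θ pos h e = 0 := by
  funext j
  unfold rptH2
  rw [if_neg (by tauto), if_neg (by tauto)]
  rfl

theorem rptH1_val (h : E → Fin 3 → ℝ) (e : E) : rptH1 s t P Θ pos h e = 0 ∨
    ∃ e', rptH1 s t P Θ pos h e = h e' ∨ rptH1 s t P Θ pos h e = - h e' := by
  by_cases c1 : P (s e) ∧ P (t e)
  · right
    exact ⟨e, Or.inl (rptH1_left h c1)⟩
  · by_cases c2 : ¬ P (s e) ∧ ¬ P (t e)
    · right
      refine ⟨Θ e, ?_⟩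
      by_cases c3 : pos e
      · left
        funext j
        rw [rptH1_right h c2, rptS, if_pos c3, one_mul]
      · right
        funext j
        rw [rptH1_right h c2, rptS, if_neg c3]
        simp
    · left
      exact rptH1_cross h (by tauto)

theorem rptH2_val (h : E → Fin 3 → ℝ) (e : E) : rptH2 s t P Θ pos h e = 0 ∨
    ∃ e', rptH2 s t P Θ pos h e = h e' ∨ rptH2 s t P Θ pos h e = - h e' := by
  by_cases c1 : ¬ P (s e) ∧ ¬ P (t e)
  · right
    exact ⟨e, Or.inl (rptH2_right h c1)⟩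
  · by_cases c2 : P (s e) ∧ P (t e)
    · right
      refine ⟨Θ e, ?_⟩
      by_cases c3 : pos e
      · left
        funext j
        rw [rptH2_left h c2, rptS, if_pos c3, one_mul]
      · right
        funext j
        rw [rptH2_left h c2, rptS, if_neg c3]
        simp
    · left
      exact rptH2_cross h (by tauto)

theorem rptL_H1 (R : RptRefl s t P θ Θ pos) [Fintype E] (S : Col → Fin 3 → ℝ)
    (h : E → Fin 3 → ℝ) (u : {x // P x} → Col) :
    rptL R S (rptH1 s t P Θ pos h) u = rptL R S h u := by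
  classical
  unfold rptL
  apply Finset.sum_congr rfl
  intro e _
  split_ifs with he
  · unfold rptT
    rw [rptH1_left h he]
  · rfl

theorem rptR_H2 (R : RptRefl s t P θ Θ pos) [Fintype E] (S : Col → Fin 3 → ℝ)
    (h : E → Fin 3 → ℝ) (u : {x // P x} → Col) :
    rptR R S (rptH2 s t P Θ pos h) u = rptR R S h u := by
  classical
  unfold rptR
  apply Finset.sum_congr rfl
  intro e _
  split_ifs with he
  · unfold rptT
    rw [rptH2_right h he]
  · rfl

theorem rptR_H1 (R : RptRefl s t P θ Θ pos) [Fintype E] (S : Col → Fin 3 → ℝ)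
    (h : E → Fin 3 → ℝ) (u : {x // P x} → Col) :
    rptR R S (rptH1 s t P Θ pos h) u = rptL R S h u := by
  classical
  unfold rptR rptL
  rw [← Equiv.sum_comp (Function.Involutive.toPerm Θ R.einv)]
  apply Finset.sum_congr rfl
  intro e _
  change (if ¬ P (s (Θ e)) ∧ ¬ P (t (Θ e)) then
    rptT s t S (rptH1 s t P Θ pos h) (rptGlue R u u) (Θ e) else 0) = _
  by_cases he : P (s e) ∧ P (t e)
  · have he' := (rpt_side R e).2.mpr he
    rw [if_pos he', if_pos he]
    apply rptT_refl R
    intro j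
    rw [rptH1_right h he', R.einv, rptS_inv R]
  · have he' : ¬ (¬ P (s (Θ e)) ∧ ¬ P (t (Θ e))) := fun h' => he ((rpt_side R e).2.mp h')
    rw [if_neg he', if_neg he]

theorem rptL_H2 (R : RptRefl s t P θ Θ pos) [Fintype E] (S : Col → Fin 3 → ℝ)
    (h : E → Fin 3 → ℝ) (u : {x // P x} → Col) :
    rptL R S (rptH2 s t P Θ pos h) u = rptR R S h u := by
  classical
  unfold rptR rptL
  rw [← Equiv.sum_comp (Function.Involutive.toPerm Θ R.einv)]
  apply Finset.sum_congr rfl
  intro e _
  change (if P (s (Θ e)) ∧ P (t (Θ e)) then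
    rptT s t S (rptH2 s t P Θ pos h) (rptGlue R u u) (Θ e) else 0) = _
  by_cases he : ¬ P (s e) ∧ ¬ P (t e)
  · have he' := (rpt_side R e).1.mpr he
    rw [if_pos he', if_pos he]
    apply rptT_refl R
    intro j
    rw [rptH2_left h he', R.einv, rptS_inv R]
  · have he' : ¬ (P (s (Θ e)) ∧ P (t (Θ e))) := fun h' => he ((rpt_side R e).1.mp h')
    rw [if_neg he', if_neg he]

theorem rptK_zero {h : E → Fin 3 → ℝ} (hh : ∀ e, ¬ (P (s e) ↔ P (t e)) → h e = 0)
    (i : E × Fin 3) : rptK s t P h i = 0 := by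
  classical
  unfold rptK
  split_ifs with h1
  · rfl
  · rw [hh _ h1]; simp
  · rw [hh _ h1]; simp

/-- the abstract reflection inequality -/
theorem rpt_abs (R : RptRefl s t P θ Θ pos) [Fintype V] [DecidableEq V] [Fintype E]
    {c : ℝ} (hc : 0 ≤ c) (S : Col → Fin 3 → ℝ) (h : E → Fin 3 → ℝ) :
    rptZ s t c S h ^ 2 ≤ rptZ s t c S (rptH1 s t P Θ pos h) *
      rptZ s t c S (rptH2 s t P Θ pos h) := by
  classical
  rw [rptZ_eq R, rptZ_eq R, rptZ_eq R]
  have key := gauss_cs (X := {x // P x} → Col) (Y := {x // P x} → Col) (ι := E × Fin 3) c hc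
    (fun u => Real.exp (-c * rptL R S h u)) (fun v => Real.exp (-c * rptR R S h v))
    (fun u => rptA R S u) (fun v i => rptA R S v i - rptK s t P h i)
  refine le_trans key (le_of_eq ?_)
  congr 1
  · apply Finset.sum_congr rfl
    intro u _
    apply Finset.sum_congr rfl
    intro v _
    rw [rptL_H1, rptR_H1]
    congr 2
    congr 1
    apply Finset.sum_congr rfl
    intro i _
    rw [rptK_zero (fun e he => rptH1_cross h he), sub_zero]
  · apply Finset.sum_congr rfl
    intro u _
    apply Finset.sum_congr rfl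
    intro v _
    rw [rptL_H2, rptR_H2]
    congr 2
    congr 1
    apply Finset.sum_congr rfl
    intro i _
    rw [rptK_zero (fun e he => rptH2_cross h he), sub_zero]
    ring

/-- counting nonzero values -/
theorem rpt_count (R : RptRefl s t P θ Θ pos) [Fintype E] [DecidableEq E]
    (h : E → Fin 3 → ℝ) (e0 : E) (he0 : h e0 ≠ 0) (hc0 : ¬ (P (s e0) ↔ P (t e0)))
    [DecidablePred fun e => rptH1 s t P Θ pos h e ≠ 0]
    [DecidablePred fun e => rptH2 s t P Θ pos h e ≠ 0] [DecidablePred fun e => h e ≠ 0] :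
    (univ.filter (fun e => rptH1 s t P Θ pos h e ≠ 0)).card +
      (univ.filter (fun e => rptH2 s t P Θ pos h e ≠ 0)).card <
      2 * (univ.filter (fun e => h e ≠ 0)).card := by
  classical
  let A := univ.filter (fun e => (P (s e) ∧ P (t e)) ∧ h e ≠ 0)
  let B := univ.filter (fun e => (¬ P (s e) ∧ ¬ P (t e)) ∧ h e ≠ 0)
  let A' := univ.filter (fun e => (¬ P (s e) ∧ ¬ P (t e)) ∧ h (Θ e) ≠ 0)
  let B' := univ.filter (fun e => (P (s e) ∧ P (t e)) ∧ h (Θ e) ≠ 0)
  have hinj : Function.Injective Θ := fun x y hxy => by rw [← R.einv x, hxy, R.einv y]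
  have hA' : A'.card ≤ A.card := by
    apply Finset.card_le_card_of_injOn Θ
    · intro e he
      simp only [A', A, Finset.coe_filter, Finset.mem_univ, true_and, Set.mem_ofPred_eq] at he ⊢
      exact ⟨(rpt_side R e).1.mpr he.1, he.2⟩
    · exact hinj.injOn
  have hB' : B'.card ≤ B.card := by
    apply Finset.card_le_card_of_injOn Θ
    · intro e he
      simp only [B', B, Finset.coe_filter, Finset.mem_univ, true_and, Set.mem_ofPred_eq] at he ⊢
      exact ⟨(rpt_side R e).2.mpr he.1, he.2⟩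
    · exact hinj.injOn
  have h1 : (univ.filter (fun e => rptH1 s t P Θ pos h e ≠ 0)).card ≤ A.card + A'.card := by
    refine le_trans (Finset.card_le_card ?_) (Finset.card_union_le A A')
    intro e he
    rw [Finset.mem_filter] at he
    rw [Finset.mem_union]
    by_cases c1 : P (s e) ∧ P (t e)
    · left
      rw [rptH1_left h c1] at he
      simp only [A, Finset.mem_filter]
      exact ⟨he.1, c1, he.2⟩
    · by_cases c2 : ¬ P (s e) ∧ ¬ P (t e)
      · right
        simp only [A', Finset.mem_filter]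
        refine ⟨he.1, c2, ?_⟩
        intro h0
        apply he.2
        funext j
        rw [rptH1_right h c2, h0]
        simp
      · exfalso
        exact he.2 (rptH1_cross h (by tauto))
  have h2 : (univ.filter (fun e => rptH2 s t P Θ pos h e ≠ 0)).card ≤ B.card + B'.card := by
    refine le_trans (Finset.card_le_card ?_) (Finset.card_union_le B B')
    intro e he
    rw [Finset.mem_filter] at he
    rw [Finset.mem_union]
    by_cases c1 : ¬ P (s e) ∧ ¬ P (t e)
    · left
      rw [rptH2_right h c1] at he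
      simp only [B, Finset.mem_filter]
      exact ⟨he.1, c1, he.2⟩
    · by_cases c2 : P (s e) ∧ P (t e)
      · right
        simp only [B', Finset.mem_filter]
        refine ⟨he.1, c2, ?_⟩
        intro h0
        apply he.2
        funext j
        rw [rptH2_left h c2, h0]
        simp
      · exfalso
        exact he.2 (rptH2_cross h (by tauto))
  have h3 : A.card + B.card + 1 ≤ (univ.filter (fun e => h e ≠ 0)).card := by
    have hd1 : Disjoint A B := by
      rw [Finset.disjoint_left]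
      intro e hA hB
      simp only [A, B, Finset.mem_filter] at hA hB
      exact hB.2.1.1 hA.2.1.1
    have hd2 : e0 ∉ A ∪ B := by
      intro hm
      rw [Finset.mem_union] at hm
      simp only [A, B, Finset.mem_filter] at hm
      apply hc0
      rcases hm with hm | hm
      · tauto
      · tauto
    rw [← Finset.card_union_of_disjoint hd1, ← Finset.card_insert_of_notMem hd2]
    apply Finset.card_le_card
    intro e he
    rw [Finset.mem_insert, Finset.mem_union] at he
    simp only [A, B, Finset.mem_filter] at he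
    rw [Finset.mem_filter]
    rcases he with he | he | he
    · rw [he]; exact ⟨Finset.mem_univ _, he0⟩
    · exact ⟨he.1, he.2.2⟩
    · exact ⟨he.1, he.2.2⟩
  omega

end Abs

/-! ### the torus -/

section Torus

variable {d L : ℕ} [NeZero L]

/-- the left half -/
def rptP (i0 : Fin d) (a : ZMod L) (x : Tor d L) : Prop := (x i0 - (a + 1)).val < L / 2

/-- the reflection of vertices -/
def rptTh (i0 : Fin d) (a : ZMod L) (x : Tor d L) : Tor d L :=
  Function.update x i0 (2 * a + 1 - x i0)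

/-- the reflection of edges -/
def rptTE (i0 : Fin d) (a : ZMod L) (e : Tor d L × Fin d) : Tor d L × Fin d :=
  if e.2 = i0 then (rptTh i0 a (e.1 + Pi.single e.2 1), e.2) else (rptTh i0 a e.1, e.2)

omit [NeZero L] in
theorem rptTh_inv (i0 : Fin d) (a : ZMod L) (x : Tor d L) : rptTh i0 a (rptTh i0 a x) = x := by
  unfold rptTh
  funext i
  by_cases h : i = i0
  · subst h; simp
  · simp [Function.update_of_ne h]

omit [NeZero L] in
theorem rptTh_add_ne (i0 : Fin d) (a : ZMod L) (x : Tor d L) {i : Fin d} (hi : i ≠ i0) :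
    rptTh i0 a (x + Pi.single i 1) = rptTh i0 a x + Pi.single i 1 := by
  unfold rptTh
  funext k
  by_cases h : k = i0
  · subst h
    simp [Pi.single_eq_of_ne hi.symm]
  · simp [Function.update_of_ne h]

omit [NeZero L] in
theorem rptTh_add_self (i0 : Fin d) (a : ZMod L) (x : Tor d L) :
    rptTh i0 a (x + Pi.single i0 1) + Pi.single i0 1 = rptTh i0 a x := by
  unfold rptTh
  funext k
  by_cases h : k = i0
  · subst h
    simp only [Function.update_self, Pi.add_apply, Pi.single_eq_same]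
    ring
  · simp [Function.update_of_ne h, Pi.single_eq_of_ne h]

theorem rpt_neg_val (w : ZMod L) : (-w - 1).val + w.val + 1 = L := by
  have hLpos : 0 < L := Nat.pos_of_ne_zero (NeZero.ne L)
  have h1 : w.val < L := ZMod.val_lt w
  have h2 : (-w - 1) = ((L - 1 - w.val : ℕ) : ZMod L) := by
    rw [Nat.cast_sub (by omega), Nat.cast_sub (by omega), ZMod.natCast_self, ZMod.natCast_val,
      ZMod.cast_id]
    push_cast
    ring
  rw [h2, ZMod.val_natCast, Nat.mod_eq_of_lt (by omega)]
  omega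

theorem rpt_succ_val (w : ZMod L) : (w.val + 1 < L ∧ (w + 1).val = w.val + 1) ∨
    (w.val + 1 = L ∧ w + 1 = 0) := by
  have hLpos : 0 < L := Nat.pos_of_ne_zero (NeZero.ne L)
  have h1 : w.val < L := ZMod.val_lt w
  have h2 : w + 1 = ((w.val + 1 : ℕ) : ZMod L) := by
    push_cast
    rw [ZMod.natCast_val, ZMod.cast_id]
  rcases Nat.lt_or_ge (w.val + 1) L with h | h
  · left
    refine ⟨h, ?_⟩
    rw [h2, ZMod.val_natCast, Nat.mod_eq_of_lt h]
  · right
    have h3 : w.val + 1 = L := by omega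
    refine ⟨h3, ?_⟩
    rw [h2, h3, ZMod.natCast_self]

theorem rpt_torus (hL : Even L) (i0 : Fin d) (a : ZMod L) :
    RptRefl (fun e : Tor d L × Fin d => e.1) (fun e => e.1 + Pi.single e.2 1) (rptP i0 a)
      (rptTh i0 a) (rptTE i0 a) (fun e => e.2 ≠ i0) := by
  have hLpos : 0 < L := Nat.pos_of_ne_zero (NeZero.ne L)
  obtain ⟨M, hM⟩ := hL
  have hM2 : L / 2 = M := by omega
  refine ⟨rptTh_inv i0 a, ?_, ?_, ?_, ?_, ?_, ?_⟩
  · intro x
    unfold rptP rptTh
    rw [Function.update_self, hM2]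
    have e1 : 2 * a + 1 - x i0 - (a + 1) = -(x i0 - (a + 1)) - 1 := by ring
    rw [e1]
    have := rpt_neg_val (x i0 - (a + 1))
    omega
  · rintro ⟨x, i⟩
    unfold rptTE
    by_cases h : i = i0
    · subst h
      simp only [if_true, rptTh_add_self, rptTh_inv]
    · simp only [if_neg h, rptTh_inv]
  · rintro ⟨x, i⟩
    unfold rptTE
    by_cases h : i = i0
    · subst h
      simp
    · simp [if_neg h]
  · rintro ⟨x, i⟩ h
    change i ≠ i0 at h
    unfold rptTE
    simp only [if_neg h, true_and]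
    exact (rptTh_add_ne i0 a x h).symm
  · rintro ⟨x, i⟩ h
    have h' : i = i0 := by
      by_contra hne
      exact h hne
    subst h'
    unfold rptTE
    simp only [if_true, true_and]
    exact rptTh_add_self i a x
  · rintro ⟨x, i⟩ h
    simp only at h ⊢
    by_cases hi : i = i0
    · subst hi
      unfold rptP at h
      rw [hM2] at h
      simp only [Pi.add_apply, Pi.single_eq_same] at h
      have e1 : x i + 1 - (a + 1) = (x i - (a + 1)) + 1 := by ring
      rw [e1] at h
      obtain ⟨w, hw⟩ : ∃ w, w = x i - (a + 1) := ⟨_, rfl⟩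
      rw [← hw] at h
      have hval : w + 1 = -w - 1 := by
        have hn := rpt_neg_val w
        have h1 : w.val < L := ZMod.val_lt w
        rcases rpt_succ_val w with ⟨h2, h3⟩ | ⟨h2, h3⟩
        · have h4 : w.val + 1 = M := by
            rw [h3] at h
            omega
          apply ZMod.val_injective L
          omega
        · have h5 : w = -1 := by
            have : w = (w + 1) - 1 := by ring
            rw [this, h3]; ring
          rw [h5]; ring
      unfold rptTh
      funext k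
      by_cases hk : k = i
      · subst hk
        simp only [Pi.add_apply, Pi.single_eq_same, Function.update_self]
        have h6 : x k + 1 = (w + 1) + (a + 1) := by rw [hw]; ring
        have h7 : 2 * a + 1 - x k = (-w - 1) + (a + 1) := by rw [hw]; ring
        rw [h6, h7, hval]
      · simp [Function.update_of_ne hk, Pi.single_eq_of_ne hk]
    · exfalso
      apply h
      unfold rptP
      simp [Pi.single_eq_of_ne (Ne.symm hi)]

end Torus

/-- Let `e0 = (x0, i0)`, `a = x0 i0`, `θ x = update x i0 (2a + 1 - x i0)`, left half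
`x i0 ∈ {a+1, ..., a + L/2}`. `h1` = `h` on the edges inside the left half, its reflection
(`h1 (θx, i) = h (x, i)` for `i ≠ i0`, `h1 (θ(x + e_i0), i0) = - h (x, i0)`) on the right half, `0` on
crossing edges; `h2` the same with the right half. -/
theorem rp_step {d L : ℕ} [NeZero L] (hL : Even L) {c : ℝ} (hc : 0 ≤ c)
    (S : Col → Fin 3 → ℝ) (h : Tor d L × Fin d → Fin 3 → ℝ) (e0 : Tor d L × Fin d)
    (he : h e0 ≠ 0) :
    ∃ h1 h2 : Tor d L × Fin d → Fin 3 → ℝ,
      Zh c S h ^ 2 ≤ Zh c S h1 * Zh c S h2 ∧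
      (∀ e, h1 e = 0 ∨ ∃ e', h1 e = h e' ∨ h1 e = - h e') ∧
      (∀ e, h2 e = 0 ∨ ∃ e', h2 e = h e' ∨ h2 e = - h e') ∧
      nz h1 + nz h2 < 2 * nz h := by
  classical
  obtain ⟨x0, i0⟩ := e0
  have R := rpt_torus (d := d) hL i0 (x0 i0)
  have hLpos : 0 < L := Nat.pos_of_ne_zero (NeZero.ne L)
  have hcross : ¬ (rptP i0 (x0 i0) x0 ↔ rptP i0 (x0 i0) (x0 + Pi.single i0 1)) := by
    obtain ⟨M, hM⟩ := hL
    have hM2 : L / 2 = M := by omega
    unfold rptP
    rw [hM2]
    simp only [Pi.add_apply, Pi.single_eq_same, sub_self, ZMod.val_zero]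
    have h1 := rpt_neg_val (0 : ZMod L)
    have e1 : x0 i0 - (x0 i0 + 1) = -0 - 1 := by ring
    rw [e1]
    rw [ZMod.val_zero] at h1
    omega
  refine ⟨rptH1 (fun e : Tor d L × Fin d => e.1) (fun e => e.1 + Pi.single e.2 1)
      (rptP i0 (x0 i0)) (rptTE i0 (x0 i0)) (fun e => e.2 ≠ i0) h,
    rptH2 (fun e : Tor d L × Fin d => e.1) (fun e => e.1 + Pi.single e.2 1)
      (rptP i0 (x0 i0)) (rptTE i0 (x0 i0)) (fun e => e.2 ≠ i0) h, ?_, ?_, ?_, ?_⟩
  · exact rpt_abs R hc S h
  · intro e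
    exact rptH1_val h e
  · intro e
    exact rptH2_val h e
  · unfold nz
    exact rpt_count R h (x0, i0) he hcross

end H82AT

end S_RPT

section S_GD

/-! MODULE GD: Gaussian domination from the reflection step. -/

set_option autoImplicit false

namespace H82AT

open Finset

theorem gd_Zh_pos {d L : ℕ} [NeZero L] (c : ℝ) (S : Col → Fin 3 → ℝ)
    (h : Tor d L × Fin d → Fin 3 → ℝ) : 0 < Zh c S h := by
  unfold Zh
  exact Finset.sum_pos (fun σ _ => Real.exp_pos _) Finset.univ_nonempty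

theorem gd_nz_zero {d L : ℕ} [NeZero L] (h : Tor d L × Fin d → Fin 3 → ℝ) (hn : nz h = 0) :
    h = 0 := by
  unfold nz at hn
  rw [Finset.card_eq_zero] at hn
  funext e
  by_contra hne
  have : e ∈ Finset.univ.filter (fun e => h e ≠ 0) := by
    rw [Finset.mem_filter]
    exact ⟨Finset.mem_univ _, hne⟩
  rw [hn] at this
  exact absurd this (Finset.notMem_empty e)

/-- all iterates take values in the finite set `{0} ∪ {± h e}`; take a maximiser of `Zh` over
the finite set of such fields with the least number of nonzero edges. -/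
theorem gauss_dom {d L : ℕ} [NeZero L] (hL : Even L) {c : ℝ} (hc : 0 ≤ c)
    (S : Col → Fin 3 → ℝ) (h : Tor d L × Fin d → Fin 3 → ℝ) :
    Zh c S h ≤ Zh (d := d) (L := L) c S 0 := by
  classical
  -- the finite set of values
  set A : Finset (Fin 3 → ℝ) :=
    insert 0 ((Finset.univ.image h) ∪ (Finset.univ.image (fun e => - h e))) with hA
  have hA0 : (0 : Fin 3 → ℝ) ∈ A := Finset.mem_insert_self _ _
  have hAneg : ∀ a ∈ A, -a ∈ A := by
    intro a ha
    rw [hA, Finset.mem_insert, Finset.mem_union, Finset.mem_image, Finset.mem_image] at ha ⊢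
    rcases ha with ha | ⟨e, _, he⟩ | ⟨e, _, he⟩
    · left; rw [ha, neg_zero]
    · right; right; exact ⟨e, Finset.mem_univ _, by rw [he]⟩
    · right; left; exact ⟨e, Finset.mem_univ _, by rw [← he, neg_neg]⟩
  have hAh : ∀ e, h e ∈ A := by
    intro e
    rw [hA, Finset.mem_insert, Finset.mem_union, Finset.mem_image]
    right; left; exact ⟨e, Finset.mem_univ _, rfl⟩
  set T : Finset (Tor d L × Fin d → Fin 3 → ℝ) := Fintype.piFinset (fun _ => A) with hT
  have hmem : ∀ f : Tor d L × Fin d → Fin 3 → ℝ, f ∈ T ↔ ∀ e, f e ∈ A := by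
    intro f
    rw [hT, Fintype.mem_piFinset]
  have hhT : h ∈ T := (hmem h).2 hAh
  -- a maximiser
  obtain ⟨f0, hf0T, hf0⟩ := Finset.exists_max_image T (fun f => Zh c S f) ⟨h, hhT⟩
  -- among the maximisers one with the least number of nonzero edges
  set T' : Finset (Tor d L × Fin d → Fin 3 → ℝ) := T.filter (fun f => Zh c S f = Zh c S f0)
    with hT'
  obtain ⟨f1, hf1T, hf1⟩ := Finset.exists_min_image T' (fun f => nz f)
    ⟨f0, Finset.mem_filter.2 ⟨hf0T, rfl⟩⟩
  have hf1T' := Finset.mem_filter.1 hf1T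
  have hmax : ∀ f ∈ T, Zh c S f ≤ Zh c S f1 := by
    intro f hf
    rw [hf1T'.2]
    exact hf0 f hf
  have hz : nz f1 = 0 := by
    by_contra hne
    have hex : ∃ e0, f1 e0 ≠ 0 := by
      by_contra hcon
      push Not at hcon
      apply hne
      unfold nz
      rw [Finset.card_eq_zero, Finset.filter_eq_empty_iff]
      intro e _ h'
      exact h' (hcon e)
    obtain ⟨e0, he0⟩ := hex
    obtain ⟨h1, h2, hZ, hv1, hv2, hn⟩ := rp_step hL hc S f1 e0 he0
    have hval : ∀ g : Tor d L × Fin d → Fin 3 → ℝ,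
        (∀ e, g e = 0 ∨ ∃ e', g e = f1 e' ∨ g e = - f1 e') → g ∈ T := by
      intro g hg
      rw [hmem]
      intro e
      rcases hg e with h0 | ⟨e', h0 | h0⟩
      · rw [h0]; exact hA0
      · rw [h0]; exact (hmem f1).1 hf1T'.1 e'
      · rw [h0]; exact hAneg _ ((hmem f1).1 hf1T'.1 e')
    have h1T := hval h1 hv1
    have h2T := hval h2 hv2
    have hp := gd_Zh_pos c S f1
    have hp1 := gd_Zh_pos c S h1
    have hp2 := gd_Zh_pos c S h2
    have hm1 := hmax h1 h1T
    have hm2 := hmax h2 h2T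
    have he1 : Zh c S h1 = Zh c S f1 := by
      refine le_antisymm hm1 ?_
      by_contra hlt
      push Not at hlt
      nlinarith [mul_lt_mul_of_pos_right hlt hp2, mul_le_mul_of_nonneg_left hm2 hp.le]
    have he2 : Zh c S h2 = Zh c S f1 := by
      refine le_antisymm hm2 ?_
      by_contra hlt
      push Not at hlt
      nlinarith [mul_lt_mul_of_pos_left hlt hp1, mul_le_mul_of_nonneg_right hm1 hp.le]
    have hn1 := hf1 h1 (Finset.mem_filter.2 ⟨h1T, he1.trans hf1T'.2⟩)
    have hn2 := hf1 h2 (Finset.mem_filter.2 ⟨h2T, he2.trans hf1T'.2⟩)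
    omega
  have hf10 := gd_nz_zero f1 hz
  have := hmax h hhT
  rw [hf10] at this
  exact this

end H82AT

end S_GD

section S_GDE

/-! MODULE GDE: exponential moments and second moments from Gaussian domination. -/

set_option autoImplicit false

namespace H82AT

open Finset

/-- expansion of the shifted energy -/
private theorem gde_energy {d L : ℕ} [NeZero L] {ε : ℝ}
    (u : Tor d L → Fin 3 → ℝ) (σ : Tor d L → Col) :
    ∑ e : Tor d L × Fin d, ∑ j,
      (Sv ε (σ e.1) j - Sv ε (σ (e.1 + Pi.single e.2 1)) j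
        + (u e.1 j - u (e.1 + Pi.single e.2 1) j)) ^ 2
    = (∑ e : Tor d L × Fin d, ∑ j,
        (Sv ε (σ e.1) j - Sv ε (σ (e.1 + Pi.single e.2 1)) j) ^ 2)
      + 2 * (2 * d * ∑ x, ∑ j, Sv ε (σ x) j * Lap (fun y => u y j) x)
      + 2 * d * ∑ x, ∑ j, u x j * Lap (fun y => u y j) x := by
  have h1 : ∀ j : Fin 3, ∑ e : Tor d L × Fin d,
      (Sv ε (σ e.1) j - Sv ε (σ (e.1 + Pi.single e.2 1)) j)
        * (u e.1 j - u (e.1 + Pi.single e.2 1) j)
      = 2 * d * ∑ x, Sv ε (σ x) j * Lap (fun y => u y j) x := fun j =>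
    sbp (fun x => Sv ε (σ x) j) (fun y => u y j)
  have h2 : ∀ j : Fin 3, ∑ e : Tor d L × Fin d,
      (u e.1 j - u (e.1 + Pi.single e.2 1) j)
        * (u e.1 j - u (e.1 + Pi.single e.2 1) j)
      = 2 * d * ∑ x, u x j * Lap (fun y => u y j) x := fun j =>
    sbp (fun x => u x j) (fun y => u y j)
  rw [Finset.sum_comm (s := (univ : Finset (Tor d L))) (t := (univ : Finset (Fin 3)))
    (f := fun x j => Sv ε (σ x) j * Lap (fun y => u y j) x),
    Finset.sum_comm (s := (univ : Finset (Tor d L))) (t := (univ : Finset (Fin 3)))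
    (f := fun x j => u x j * Lap (fun y => u y j) x)]
  rw [Finset.mul_sum, Finset.mul_sum, Finset.mul_sum]
  simp only [← h1, ← h2]
  rw [Finset.sum_comm (s := (univ : Finset (Tor d L × Fin d))) (t := (univ : Finset (Fin 3))),
    Finset.sum_comm (s := (univ : Finset (Tor d L × Fin d))) (t := (univ : Finset (Fin 3)))]
  rw [← Finset.sum_add_distrib, ← Finset.sum_add_distrib]
  refine Finset.sum_congr rfl fun j _ => ?_
  rw [Finset.mul_sum, ← Finset.sum_add_distrib, ← Finset.sum_add_distrib]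
  refine Finset.sum_congr rfl fun e _ => ?_
  ring

/-- `K = 2 d β`; take `h (x,i) = u x - u (x + e_i)` in `gauss_dom` with `c = β / 2` -/
theorem exp_bound {d L : ℕ} [NeZero L] (hL : Even L) {β ε : ℝ} (hβ : 0 ≤ β)
    (u : Tor d L → Fin 3 → ℝ) :
    GE β ε (fun σ => Real.exp (-(2 * d * β) * ∑ x, ∑ j, Sv ε (σ x) j
        * Lap (fun y => u y j) x))
      ≤ Real.exp ((2 * d * β) / 2 * ∑ x, ∑ j, u x j * Lap (fun y => u y j) x) := by
  have hg := gauss_dom (d := d) (L := L) hL (c := β / 2) (by linarith) (Sv ε)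
    (fun e j => u e.1 j - u (e.1 + Pi.single e.2 1) j)
  set Q : ℝ := ∑ x, ∑ j, u x j * Lap (fun y => u y j) x with hQ
  have hZ0 : Zh (d := d) (L := L) (β / 2) (Sv ε) 0 = ∑ σ, gw (d := d) (L := L) β ε σ := by
    unfold Zh gw
    refine Finset.sum_congr rfl fun σ _ => ?_
    simp
  have hZ : Zh (d := d) (L := L) (β / 2) (Sv ε)
      (fun e j => u e.1 j - u (e.1 + Pi.single e.2 1) j)
      = (∑ σ, gw (d := d) (L := L) β ε σ * Real.exp (-(2 * d * β) * ∑ x, ∑ j, Sv ε (σ x) j
        * Lap (fun y => u y j) x)) * Real.exp (-((2 * d * β) / 2 * Q)) := by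
    unfold Zh gw
    rw [Finset.sum_mul]
    refine Finset.sum_congr rfl fun σ _ => ?_
    rw [gde_energy, ← Real.exp_add, ← Real.exp_add]
    congr 1
    rw [← hQ]
    ring
  rw [hZ0, hZ] at hg
  have hpos : 0 < ∑ σ, gw (d := d) (L := L) β ε σ :=
    Finset.sum_pos (fun σ _ => gw_pos β ε σ) Finset.univ_nonempty
  unfold GE
  rw [div_le_iff₀ hpos]
  have he : Real.exp (-((2 * d * β) / 2 * Q)) * Real.exp ((2 * d * β) / 2 * Q) = 1 := by
    rw [← Real.exp_add]; simp
  have := mul_le_mul_of_nonneg_right hg (Real.exp_pos ((2 * d * β) / 2 * Q)).le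
  rw [mul_assoc, he, mul_one] at this
  rw [mul_comm (Real.exp _)]
  exact this

private theorem gde_cosh (x : ℝ) : 1 + x ^ 2 / 2 ≤ Real.cosh x := by
  have h1 : Real.cosh x = 1 + 2 * Real.sinh (x / 2) ^ 2 := by
    have := Real.cosh_two_mul (x / 2)
    rw [show 2 * (x / 2) = x by ring, Real.cosh_sq'] at this
    rw [this]; ring
  have h2 : (x / 2) ^ 2 ≤ Real.sinh (x / 2) ^ 2 := by
    rw [sq_le_sq, Real.abs_sinh]
    exact Real.self_le_sinh_iff.mpr (abs_nonneg _)
  rw [h1]
  nlinarith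

/-- elementary: `1 + a τ ≤ exp (b τ)` for all `τ ≥ 0` implies `a ≤ b` -/
private theorem gde_slope {a b : ℝ} (ha : 0 ≤ a) (h : ∀ t : ℝ, 1 + a * t ^ 2 ≤ Real.exp (b * t ^ 2)) :
    a ≤ b := by
  by_contra hab
  push Not at hab
  -- choose tau
  have key : ∀ τ : ℝ, 0 < τ → b * τ < 1 → a - b ≤ a * b * τ := by
    intro τ hτ hb
    have h1 := h (Real.sqrt τ)
    rw [Real.sq_sqrt hτ.le] at h1
    have h2 : Real.exp (b * τ) * (1 - b * τ) ≤ 1 := by
      have h3 : 1 - b * τ ≤ Real.exp (-(b * τ)) := by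
        have := Real.add_one_le_exp (-(b * τ)); linarith
      calc Real.exp (b * τ) * (1 - b * τ) ≤ Real.exp (b * τ) * Real.exp (-(b * τ)) :=
            mul_le_mul_of_nonneg_left h3 (Real.exp_pos _).le
        _ = 1 := by rw [← Real.exp_add]; simp
    have h4 : (1 + a * τ) * (1 - b * τ) ≤ 1 :=
      le_trans (mul_le_mul_of_nonneg_right h1 (by linarith)) h2
    have h5 : τ * (a - b) ≤ τ * (a * b * τ) := by nlinarith
    exact le_of_mul_le_mul_left h5 hτ
  rcases le_or_gt b 0 with hb | hb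
  · have := key 1 one_pos (by linarith)
    nlinarith [mul_nonneg ha (neg_nonneg.mpr hb)]
  · have ha' : 0 < a := lt_trans hb hab
    have hab' : 0 < a * b := mul_pos ha' hb
    have h1 := key ((a - b) / (2 * (a * b))) (by apply div_pos <;> linarith) (by
      have : b * ((a - b) / (2 * (a * b))) = (a - b) / (2 * a) := by
        field_simp
      rw [this, div_lt_one (by linarith)]
      linarith)
    have h2 : a * b * ((a - b) / (2 * (a * b))) = (a - b) / 2 := by
      field_simp
    rw [h2] at h1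
    linarith

private theorem gde_lap_smul {d L : ℕ} (t : ℝ) (v : Tor d L → ℝ) (x : Tor d L) :
    Lap (fun y => t * v y) x = t * Lap v x := by
  unfold Lap avg
  simp only [← mul_add, ← Finset.mul_sum]
  ring

private theorem gde_lap_zero {d L : ℕ} (x : Tor d L) :
    Lap (fun _ : Tor d L => (0 : ℝ)) x = 0 := by
  unfold Lap avg
  simp

/-- the exponential moment of a single component -/
private theorem gde_one {d L : ℕ} [NeZero L] (hL : Even L) {β ε : ℝ} (hβ : 0 ≤ β)
    (v : Tor d L → ℝ) (j : Fin 3) (t : ℝ) :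
    GE β ε (fun σ => Real.exp (-(2 * d * β * t * ∑ x, Sv ε (σ x) j * Lap v x)))
      ≤ Real.exp ((2 * d * β) / 2 * (t ^ 2 * ∑ x, v x * Lap v x)) := by
  have h := exp_bound (d := d) (L := L) hL (ε := ε) hβ
    (fun x i => if i = j then t * v x else 0)
  have e1 : ∀ (F : Tor d L → Fin 3 → ℝ) (x : Tor d L), ∑ i : Fin 3, F x i
      * Lap (fun y => if i = j then t * v y else 0) x = t * (F x j * Lap v x) := by
    intro F x
    rw [Finset.sum_eq_single j]
    · have : (fun y : Tor d L => if j = j then t * v y else 0) = fun y => t * v y := by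
        funext y; simp
      rw [this, gde_lap_smul]
      ring
    · intro i _ hi
      have : (fun y : Tor d L => if i = j then t * v y else 0) = fun _ => 0 := by
        funext y; simp [hi]
      rw [this, gde_lap_zero, mul_zero]
    · intro hj; exact absurd (Finset.mem_univ j) hj
  have e2 : ∀ σ : Tor d L → Col, -(2 * d * β) * ∑ x, ∑ i, Sv ε (σ x) i
        * Lap (fun y => if i = j then t * v y else 0) x
      = -(2 * d * β * t * ∑ x, Sv ε (σ x) j * Lap v x) := by
    intro σ
    rw [Finset.sum_congr rfl fun x _ => e1 (fun x i => Sv ε (σ x) i) x, ← Finset.mul_sum]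
    ring
  have e3 : ∑ x : Tor d L, ∑ i : Fin 3, (if i = j then t * v x else 0)
        * Lap (fun y => if i = j then t * v y else 0) x
      = t ^ 2 * ∑ x, v x * Lap v x := by
    rw [Finset.sum_congr rfl fun x _ => e1 (fun x i => if i = j then t * v x else 0) x,
      Finset.mul_sum]
    refine Finset.sum_congr rfl fun x _ => ?_
    simp
    ring
  simp only [e2] at h
  rw [e3] at h
  exact h

/-- second moment: `1 + t^2 a / 2 ≤ E cosh ≤ exp(t^2 c / 2)` for all `t` gives `a ≤ c` -/
theorem second_moment {d L : ℕ} [NeZero L] (hd : 1 ≤ d) (hL : Even L) {β ε : ℝ} (hβ : 0 < β)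
    (v : Tor d L → ℝ) (j : Fin 3) :
    GE β ε (fun σ => (∑ x, Sv ε (σ x) j * Lap v x) ^ 2)
      ≤ (∑ x, v x * Lap v x) / (2 * d * β) := by
  set Q : ℝ := ∑ x, v x * Lap v x with hQ
  set K : ℝ := 2 * d * β with hK
  have hd' : (1 : ℝ) ≤ d := by exact_mod_cast hd
  have hKpos : 0 < K := by rw [hK]; positivity
  set X : (Tor d L → Col) → ℝ := fun σ => ∑ x, Sv ε (σ x) j * Lap v x with hX
  have hmain : ∀ t : ℝ, 1 + (K ^ 2 * GE β ε (fun σ => X σ ^ 2) / 2) * t ^ 2
      ≤ Real.exp ((K * Q / 2) * t ^ 2) := by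
    intro t
    have h1 := gde_one (d := d) (L := L) hL (ε := ε) hβ.le v j t
    have h2 := gde_one (d := d) (L := L) hL (ε := ε) hβ.le v j (-t)
    have hcosh : GE β ε (fun σ => 1 + (K ^ 2 * t ^ 2 / 2) * X σ ^ 2)
        ≤ GE β ε (fun σ => (1 / 2) * (Real.exp (-(K * t * X σ))
          + Real.exp (-(K * (-t) * X σ)))) := by
      apply GE_mono
      intro σ
      have := gde_cosh (K * t * X σ)
      rw [Real.cosh_eq] at this
      have e : -(K * (-t) * X σ) = K * t * X σ := by ring
      rw [e]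
      nlinarith [this]
    rw [GE_add, GE_const, GE_smul, GE_smul, GE_add] at hcosh
    have e4 : (2 * (d : ℝ) * β) / 2 * (t ^ 2 * ∑ x, v x * Lap v x) = (K * Q / 2) * t ^ 2 := by
      rw [← hQ, ← hK]; ring
    have e5 : (2 * (d : ℝ) * β) / 2 * ((-t) ^ 2 * ∑ x, v x * Lap v x)
        = (K * Q / 2) * t ^ 2 := by
      rw [← hQ, ← hK]; ring
    rw [e4] at h1
    rw [e5] at h2
    have h1' : GE β ε (fun σ => Real.exp (-(K * t * X σ))) ≤ Real.exp ((K * Q / 2) * t ^ 2) := h1
    have h2' : GE β ε (fun σ => Real.exp (-(K * (-t) * X σ)))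
        ≤ Real.exp ((K * Q / 2) * t ^ 2) := h2
    have e6 : 1 + (K ^ 2 * GE β ε (fun σ => X σ ^ 2) / 2) * t ^ 2
        = 1 + K ^ 2 * t ^ 2 / 2 * GE β ε (fun σ => X σ ^ 2) := by ring
    rw [e6]
    linarith
  have hnn : 0 ≤ GE β ε (fun σ => X σ ^ 2) := by
    have := GE_mono (d := d) (L := L) β ε (fun _ => 0) (fun σ => X σ ^ 2) (fun σ => sq_nonneg _)
    rwa [GE_const] at this
  have := gde_slope (a := K ^ 2 * GE β ε (fun σ => X σ ^ 2) / 2) (b := K * Q / 2)
    (by positivity) hmain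
  rw [le_div_iff₀ hKpos]
  have h7 : K * (GE β ε (fun σ => X σ ^ 2) * K) ≤ K * Q := by nlinarith
  exact le_of_mul_le_mul_left h7 hKpos

end H82AT

end S_GDE
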