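import Mathlib
import Pool.Agent.H82.ATM.G0
import Pool.Agent.H82.ATM.G1
import Pool.Agent.H82.ATM.G2
import Pool.Agent.H82.ATM.G3
import Pool.Agent.H82.ATM.G4

set_option autoImplicit false

/-! Ashkin-Teller critical points, part G8: this file joins several modules to save build time. -/

section S_LOC

/-! MODULE LOC: connections in Z^d and in boxes; locality. -/

set_option autoImplicit false

namespace H82AT

open Finset

theorem lv_mono {E : Type} {ω ω' : E → Fin 3} (h : ω ≤ ω') (i : ℕ) : lv ω i ⊆ lv ω' i := by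
  intro e he
  have h1 : i ≤ (ω e : ℕ) := he
  have h2 : (ω e : ℕ) ≤ (ω' e : ℕ) := h e
  exact h1.trans h2

theorem loc_adj_mono {V E : Type} (g : Gr V E) {F F' : Set E} (h : F ⊆ F') {x y : V}
    (hc : g.adj F x y) : g.adj F' x y := by
  obtain ⟨e, he, h1⟩ := hc
  exact ⟨e, h he, h1⟩

theorem conn_mono {V E : Type} (g : Gr V E) {F F' : Set E} (h : F ⊆ F') {x y : V}
    (hc : g.conn F x y) : g.conn F' x y :=
  Relation.ReflTransGen.mono (fun _ _ hab => loc_adj_mono g h hab) _ _ hc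

theorem conn_symm {V E : Type} (g : Gr V E) {F : Set E} {x y : V} (hc : g.conn F x y) :
    g.conn F y x := by
  induction hc with
  | refl => exact Relation.ReflTransGen.refl
  | tail _ hbc ih =>
    obtain ⟨e, he, h1⟩ := hbc
    exact Relation.ReflTransGen.head ⟨e, he, h1.symm⟩ ih

theorem reachZ_mono {d : ℕ} (i n : ℕ) (x : Vx d) :
    Monotone (fun ω : Ed d → Fin 3 => ind (reachZ i n x ω)) := by
  intro ω ω' h
  apply ind_mono
  rintro ⟨y, hy, hc⟩
  exact ⟨y, hy, conn_mono _ (lv_mono h i) hc⟩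

theorem loc_coord_le {d : ℕ} (x y : Vx d) (j : Fin d) : (x j - y j).natAbs ≤ zdist x y :=
  Finset.single_le_sum (f := fun i => (x i - y i).natAbs) (fun _ _ => Nat.zero_le _)
    (Finset.mem_univ j)

theorem loc_single_le {d : ℕ} (i j : Fin d) :
    0 ≤ (Pi.single i 1 : Vx d) j ∧ (Pi.single i 1 : Vx d) j ≤ 1 := by
  by_cases h : j = i
  · subst h; simp
  · simp [h]

theorem loc_edge_mem {d : ℕ} (n : ℕ) (x y y' : Vx d) (hy : zdist x y < n) (e : Ed d)
    (he : ((ZGr d).s e = y ∧ (ZGr d).t e = y') ∨ ((ZGr d).s e = y' ∧ (ZGr d).t e = y)) :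
    e ∈ (Finset.Icc (fun j => x j - (n : ℤ)) (fun j => x j + (n : ℤ)) ×ˢ
      (Finset.univ : Finset (Fin d))) := by
  obtain ⟨v, i⟩ := e
  rw [Finset.mem_product]
  refine ⟨?_, Finset.mem_univ _⟩
  rw [Finset.mem_Icc, Pi.le_def, Pi.le_def]
  have h0 : ∀ j, (x j - y j).natAbs < n := fun j => lt_of_le_of_lt (loc_coord_le x y j) hy
  rcases he with ⟨h1, _⟩ | ⟨_, h1⟩
  · have h2 : v = y := h1
    subst h2
    constructor <;> intro j <;> have := h0 j <;> dsimp only <;> omega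
  · have h2 : v + Pi.single i 1 = y := h1
    have h3 : ∀ j, v j + (Pi.single i 1 : Vx d) j = y j := fun j => congrFun h2 j
    constructor <;> intro j <;> have := h0 j <;> have h4 := h3 j <;>
      have h5 := loc_single_le i j <;> dsimp only <;> omega

theorem loc_aux {d : ℕ} (i n : ℕ) (x : Vx d) (ω ω' : Ed d → Fin 3)
    (h : ∀ e ∈ (Finset.Icc (fun j => x j - (n : ℤ)) (fun j => x j + (n : ℤ)) ×ˢ
      (Finset.univ : Finset (Fin d))), ω e = ω' e) (hr : reachZ i n x ω) : reachZ i n x ω' := by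
  obtain ⟨y, hy, hc⟩ := hr
  have key : ∀ y, (ZGr d).conn (lv ω i) x y → reachZ i n x ω' ∨
      ((ZGr d).conn (lv ω' i) x y ∧ zdist x y < n) := by
    intro y hc
    induction hc with
    | refl =>
      by_cases hn : n = 0
      · left
        exact ⟨x, by omega, Relation.ReflTransGen.refl⟩
      · right
        refine ⟨Relation.ReflTransGen.refl, ?_⟩
        have : zdist x x = 0 := by simp [zdist]
        omega
    | @tail b c _ hbc ih =>
      rcases ih with ih | ⟨ih1, ih2⟩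
      · exact Or.inl ih
      · obtain ⟨e, he, h1⟩ := hbc
        have hmem := loc_edge_mem n x b c ih2 e h1
        have he' : e ∈ lv ω' i := by
          have h2 : i ≤ (ω e : ℕ) := he
          rw [h e hmem] at h2
          exact h2
        have hc' : (ZGr d).conn (lv ω' i) x c := Relation.ReflTransGen.tail ih1 ⟨e, he', h1⟩
        by_cases hn : n ≤ zdist x c
        · exact Or.inl ⟨c, hn, hc'⟩
        · exact Or.inr ⟨hc', not_le.mp hn⟩
  rcases key y hc with h1 | ⟨_, h1⟩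
  · exact h1
  · omega

/-- the reach event only depends on the edges near `x` (stop a path at its first exit) -/
theorem reachZ_local {d : ℕ} (i n : ℕ) (x : Vx d) :
    ∃ F : Finset (Ed d), ∀ ω ω' : Ed d → Fin 3, (∀ e ∈ F, ω e = ω' e) →
      (reachZ i n x ω ↔ reachZ i n x ω') :=
  ⟨_, fun ω ω' h => ⟨loc_aux i n x ω ω' h, loc_aux i n x ω' ω (fun e he => (h e he).symm)⟩⟩

theorem toEd_inj {d : ℕ} {a b : Vx d} : Function.Injective (BE.toEd (d := d) (a := a) (b := b)) := by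
  intro e e' h
  simp only [BE.toEd, Prod.mk.injEq] at h
  apply Subtype.ext
  apply Prod.ext
  · exact Subtype.ext h.1
  · exact h.2

theorem mem_range_toEd {d : ℕ} {a b : Vx d} (e : Ed d) :
    e ∈ Set.range (BE.toEd (d := d) (a := a) (b := b)) ↔
      e.1 ∈ Finset.Icc a b ∧ e.1 + Pi.single e.2 1 ∈ Finset.Icc a b := by
  constructor
  · rintro ⟨f, rfl⟩
    exact ⟨f.1.1.2, f.2⟩
  · rintro ⟨h1, h2⟩
    exact ⟨⟨(⟨e.1, h1⟩, e.2), h2⟩, rfl⟩

theorem loc_bext_toEd {d : ℕ} {a b : Vx d} (ω : BE d a b → Fin 3) (e : BE d a b) :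
    bext ω e.toEd = ω e := toEd_inj.extend_apply ω _ e

theorem loc_bext_out {d : ℕ} {a b : Vx d} (ω : BE d a b → Fin 3) (e : Ed d)
    (h : ¬ ∃ f : BE d a b, f.toEd = e) : bext ω e = 0 := Function.extend_apply' ω _ e h

theorem bext_mono {d : ℕ} {a b : Vx d} : Monotone (bext (d := d) (a := a) (b := b)) := by
  intro ω ω' h e
  by_cases hr : ∃ f : BE d a b, f.toEd = e
  · obtain ⟨f, rfl⟩ := hr
    rw [loc_bext_toEd, loc_bext_toEd]
    exact h f
  · rw [loc_bext_out ω e hr, loc_bext_out ω' e hr]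

/-- connections in the box as a graph -/
theorem conn_bext {d : ℕ} {a b : Vx d} (i : ℕ) (hi : 1 ≤ i) (ω : BE d a b → Fin 3)
    (x : BV d a b) (y : Vx d) :
    (ZGr d).conn (lv (bext ω) i) x.1 y ↔
      ∃ h : y ∈ Finset.Icc a b, (boxGr d a b).conn (lv ω i) x ⟨y, h⟩ := by
  constructor
  · intro hc
    induction hc with
    | refl => exact ⟨x.2, Relation.ReflTransGen.refl⟩
    | @tail u v _ huv ih =>
      obtain ⟨hu, hcu⟩ := ih
      obtain ⟨e, he, h1⟩ := huv
      have he1 : i ≤ (bext ω e : ℕ) := he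
      have hr : ∃ f : BE d a b, f.toEd = e := by
        by_contra hr
        rw [loc_bext_out ω e hr] at he1
        simp at he1
        omega
      obtain ⟨f, rfl⟩ := hr
      rw [loc_bext_toEd] at he1
      rcases h1 with ⟨h1, h2⟩ | ⟨h1, h2⟩
      · have h3 : (f.1.1 : Vx d) = u := h1
        have h4 : (f.1.1 : Vx d) + Pi.single f.1.2 1 = v := h2
        have hv : v ∈ Finset.Icc a b := by rw [← h4]; exact f.2
        refine ⟨hv, Relation.ReflTransGen.tail hcu ⟨f, he1, Or.inl ⟨Subtype.ext h3, Subtype.ext h4⟩⟩⟩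
      · have h3 : (f.1.1 : Vx d) = v := h1
        have h4 : (f.1.1 : Vx d) + Pi.single f.1.2 1 = u := h2
        have hv : v ∈ Finset.Icc a b := by rw [← h3]; exact f.1.1.2
        refine ⟨hv, Relation.ReflTransGen.tail hcu ⟨f, he1, Or.inr ⟨Subtype.ext h3, Subtype.ext h4⟩⟩⟩
  · rintro ⟨h, hc⟩
    have h1 := Relation.ReflTransGen.lift (p := (ZGr d).adj (lv (bext ω) i))
      (r := (boxGr d a b).adj (lv ω i))
      (fun v : BV d a b => (v : Vx d)) (fun u v huv => by
        obtain ⟨f, hf, h1⟩ := huv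
        refine ⟨f.toEd, ?_, ?_⟩
        · change i ≤ (bext ω f.toEd : ℕ)
          rw [loc_bext_toEd]
          exact hf
        · rcases h1 with ⟨h1, h2⟩ | ⟨h1, h2⟩
          · exact Or.inl ⟨congrArg Subtype.val h1, congrArg Subtype.val h2⟩
          · exact Or.inr ⟨congrArg Subtype.val h1, congrArg Subtype.val h2⟩) _ _ hc
    exact h1

end H82AT

end S_LOC

section S_LOB

/-! MODULE LOB: boxes of Z^d: monotonicity in the box, translations. -/

set_option autoImplicit false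

namespace H82AT

open Finset

theorem lob_bext_toEd {d : ℕ} {a b : Vx d} (ω : BE d a b → Fin 3) (e : BE d a b) :
    bext ω e.toEd = ω e := toEd_inj.extend_apply _ _ _

theorem lob_bext_out {d : ℕ} {a b : Vx d} (ω : BE d a b → Fin 3) (e : Ed d)
    (h : e ∉ Set.range (BE.toEd (d := d) (a := a) (b := b))) : bext ω e = 0 :=
  Function.extend_apply' _ _ _ h

theorem lob_ext_apply {V E V' E' : Type} {g : Gr V E} {g' : Gr V' E'} (m : Emb g g')
    (ω : E → Fin 3) (e : E) : m.ext ω (m.fE e) = ω e := m.injE.extend_apply _ _ _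

theorem lob_ext_out {V E V' E' : Type} {g : Gr V E} {g' : Gr V' E'} (m : Emb g g')
    (ω : E → Fin 3) (e : E') (h : e ∉ Set.range m.fE) : m.ext ω e = 0 :=
  Function.extend_apply' _ _ _ h

/-- inclusion of boxes -/
def lobEmb {d : ℕ} {a b a' b' : Vx d} (hab : Finset.Icc a b ⊆ Finset.Icc a' b') :
    Emb (boxGr d a b) (boxGr d a' b') where
  fV v := ⟨v.1, hab v.2⟩
  fE e := ⟨(⟨e.1.1.1, hab e.1.1.2⟩, e.1.2), hab e.2⟩
  injV := by
    intro v w h
    simp only [Subtype.mk.injEq] at h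
    exact Subtype.ext h
  injE := by
    intro e e' h
    have h1 := congrArg BE.toEd h
    exact toEd_inj h1
  hs e := rfl
  ht e := rfl

theorem lob_bext_ext {d : ℕ} {a b a' b' : Vx d} (hab : Finset.Icc a b ⊆ Finset.Icc a' b')
    (ω : BE d a b → Fin 3) : bext ((lobEmb hab).ext ω) = bext ω := by
  funext e
  by_cases h : e ∈ Set.range (BE.toEd (d := d) (a := a) (b := b))
  · obtain ⟨e0, rfl⟩ := h
    rw [lob_bext_toEd]
    have h1 : e0.toEd = ((lobEmb hab).fE e0).toEd := rfl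
    rw [h1, lob_bext_toEd, lob_ext_apply]
  · rw [lob_bext_out ω e h]
    by_cases h' : e ∈ Set.range (BE.toEd (d := d) (a := a') (b := b'))
    · obtain ⟨e1, rfl⟩ := h'
      rw [lob_bext_toEd]
      apply lob_ext_out
      rintro ⟨e2, rfl⟩
      exact h ⟨e2, rfl⟩
    · rw [lob_bext_out _ e h']

/-- translation of boxes -/
def lobShift {d : ℕ} (a b v : Vx d) : Emb (boxGr d a b) (boxGr d (a + v) (b + v)) where
  fV x := ⟨x.1 + v, by
    have h := Finset.mem_Icc.1 x.2
    exact Finset.mem_Icc.2 ⟨add_le_add_left h.1 v, add_le_add_left h.2 v⟩⟩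
  fE e := ⟨(⟨e.1.1.1 + v, by
    have h := Finset.mem_Icc.1 e.1.1.2
    exact Finset.mem_Icc.2 ⟨add_le_add_left h.1 v, add_le_add_left h.2 v⟩⟩, e.1.2), by
    have h := Finset.mem_Icc.1 e.2
    have e1 : (e.1.1.1 + v : Vx d) + Pi.single e.1.2 1 =
      ((e.1.1.1 : Vx d) + Pi.single e.1.2 1) + v := by abel
    change (e.1.1.1 + v : Vx d) + Pi.single e.1.2 1 ∈ Finset.Icc (a + v) (b + v)
    rw [e1]
    exact Finset.mem_Icc.2 ⟨add_le_add_left h.1 v, add_le_add_left h.2 v⟩⟩
  injV := by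
    intro x y h
    have h1 : x.1 + v = y.1 + v := congrArg Subtype.val h
    exact Subtype.ext (add_right_cancel h1)
  injE := by
    intro e e' h
    have h1 := congrArg BE.toEd h
    unfold BE.toEd at h1
    simp only [Prod.mk.injEq] at h1
    apply toEd_inj
    unfold BE.toEd
    exact Prod.ext (add_right_cancel h1.1) h1.2
  hs e := rfl
  ht e := by
    apply Subtype.ext
    change (e.1.1.1 + v : Vx d) + Pi.single e.1.2 1 = ((e.1.1.1 : Vx d) + Pi.single e.1.2 1) + v
    abel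

theorem lobShift_toEd {d : ℕ} (a b v : Vx d) (e : BE d a b) :
    ((lobShift a b v).fE e).toEd = (e.toEd.1 + v, e.toEd.2) := rfl

theorem lobShift_surj {d : ℕ} (a b v : Vx d) : Function.Surjective (lobShift a b v).fE := by
  intro e
  have h1 := Finset.mem_Icc.1 e.1.1.2
  have h2 := Finset.mem_Icc.1 e.2
  have m1 : (e.1.1.1 - v : Vx d) ∈ Finset.Icc a b :=
    Finset.mem_Icc.2 ⟨le_sub_iff_add_le.2 h1.1, sub_le_iff_le_add.2 h1.2⟩
  have m2 : (e.1.1.1 - v : Vx d) + Pi.single e.1.2 1 ∈ Finset.Icc a b := by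
    have e1 : (e.1.1.1 - v : Vx d) + Pi.single e.1.2 1 =
      ((e.1.1.1 : Vx d) + Pi.single e.1.2 1) - v := by abel
    rw [e1]
    exact Finset.mem_Icc.2 ⟨le_sub_iff_add_le.2 h2.1, sub_le_iff_le_add.2 h2.2⟩
  refine ⟨⟨(⟨e.1.1.1 - v, m1⟩, e.1.2), m2⟩, ?_⟩
  apply toEd_inj
  rw [lobShift_toEd]
  unfold BE.toEd
  simp

theorem lob_bext_shift {d : ℕ} (a b v : Vx d) (ω : BE d a b → Fin 3) :
    bext ((lobShift a b v).ext ω) = fun e => bext ω (e.1 - v, e.2) := by
  funext e
  by_cases h : e ∈ Set.range (BE.toEd (d := d) (a := a + v) (b := b + v))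
  · obtain ⟨e0, rfl⟩ := h
    obtain ⟨e1, rfl⟩ := lobShift_surj a b v e0
    rw [lob_bext_toEd, lob_ext_apply, lobShift_toEd]
    simp only [add_sub_cancel_right]
    rw [Prod.mk.eta, lob_bext_toEd]
  · rw [lob_bext_out _ e h, lob_bext_out]
    rintro ⟨e0, h0⟩
    apply h
    refine ⟨(lobShift a b v).fE e0, ?_⟩
    rw [lobShift_toEd, h0]
    simp

theorem phiB_mono_box {d : ℕ} {a b a' b' : Vx d}
    (hab : Finset.Icc a b ⊆ Finset.Icc a' b') {p p' : Fin 3 → ℝ}
    (hp : ∀ i, 0 < p i) (hp' : ∀ i, 0 < p' i) (h : RL p p') (f : (Ed d → Fin 3) → ℝ)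
    (hf : Monotone f) : phiB d a b p f ≤ phiB d a' b' p' f := by
  have h1 := phi_emb_mono (lobEmb hab) hp hp' h (fun ω => f (bext ω)) (hf.comp bext_mono)
  simp only [lob_bext_ext] at h1
  exact h1

theorem phiB_shift {d : ℕ} (a b v : Vx d) {p : Fin 3 → ℝ} (hp : ∀ i, 0 < p i)
    (f : (Ed d → Fin 3) → ℝ) :
    phiB d (a + v) (b + v) p f = phiB d a b p (fun ω => f (fun e => ω (e.1 - v, e.2))) := by
  have h1 := phi_emb_eq (lobShift a b v) (lobShift_surj a b v) hp (fun ω => f (bext ω))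
  simp only [lob_bext_shift] at h1
  exact h1.symm

theorem lob_conn_shift {d : ℕ} (v : Vx d) (F F' : Set (Ed d))
    (h : ∀ e ∈ F, (e.1 + v, e.2) ∈ F') {x y : Vx d} (hc : (ZGr d).conn F x y) :
    (ZGr d).conn F' (x + v) (y + v) := by
  unfold Gr.conn at hc ⊢
  refine Relation.ReflTransGen.lift (r := (ZGr d).adj F) (p := (ZGr d).adj F')
    (fun u => u + v) ?_ _ _ hc
  rintro u w ⟨e, he, he2⟩
  refine ⟨(e.1 + v, e.2), h e he, ?_⟩
  have h2 : (ZGr d).s (e.1 + v, e.2) = (ZGr d).s e + v := rfl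
  have h3 : (ZGr d).t (e.1 + v, e.2) = (ZGr d).t e + v := by
    change e.1 + v + Pi.single e.2 1 = e.1 + Pi.single e.2 1 + v
    abel
  rcases he2 with ⟨h4, h5⟩ | ⟨h4, h5⟩
  · left
    rw [h2, h3, h4, h5]
    exact ⟨rfl, rfl⟩
  · right
    rw [h2, h3, h4, h5]
    exact ⟨rfl, rfl⟩

theorem lob_reach_shift {d : ℕ} (v x : Vx d) (i n : ℕ) (ω : Ed d → Fin 3) :
    reachZ i n (x + v) (fun e => ω (e.1 - v, e.2)) ↔ reachZ i n x ω := by
  constructor
  · rintro ⟨y, hy, hc⟩
    refine ⟨y - v, ?_, ?_⟩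
    · refine hy.trans (le_of_eq ?_)
      unfold zdist
      refine Finset.sum_congr rfl fun j _ => ?_
      congr 1
      simp only [Pi.add_apply, Pi.sub_apply]
      ring
    · have h1 := lob_conn_shift (-v) (lv (fun e : Ed d => ω (e.1 - v, e.2)) i) (lv ω i) (by
        intro e he
        change i ≤ ((ω (e.1 + -v, e.2) : Fin 3) : ℕ)
        rw [← sub_eq_add_neg]
        exact he) hc
      have e1 : x + v + -v = x := by abel
      have e2 : y + -v = y - v := by abel
      rw [e1, e2] at h1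
      exact h1
  · rintro ⟨y, hy, hc⟩
    refine ⟨y + v, ?_, ?_⟩
    · refine hy.trans (le_of_eq ?_)
      unfold zdist
      refine Finset.sum_congr rfl fun j _ => ?_
      congr 1
      simp only [Pi.add_apply]
      ring
    · refine lob_conn_shift v (lv ω i) (lv (fun e : Ed d => ω (e.1 - v, e.2)) i) ?_ hc
      intro e he
      change i ≤ ((ω (e.1 + v - v, e.2) : Fin 3) : ℕ)
      rw [add_sub_cancel_right]
      exact he

theorem phiB_reach_shift {d : ℕ} (a b v x : Vx d) {p : Fin 3 → ℝ} (hp : ∀ i, 0 < p i)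
    (i n : ℕ) :
    phiB d (a + v) (b + v) p (fun ω => ind (reachZ i n (x + v) ω))
      = phiB d a b p (fun ω => ind (reachZ i n x ω)) := by
  rw [phiB_shift a b v hp]
  simp only [lob_reach_shift]

theorem phiB_cond {d : ℕ} {a b a' b' : Vx d}
    (hab : Finset.Icc a b ⊆ Finset.Icc a' b') {p : Fin 3 → ℝ}
    (hp : ∀ i, 0 < p i) (f h : (Ed d → Fin 3) → ℝ) (hf : Monotone f) (h0 : ∀ ω, 0 ≤ h ω)
    (hh : ∀ ω ω' : Ed d → Fin 3,
      (∀ e, ¬ (e.1 ∈ Finset.Icc a b ∧ e.1 + Pi.single e.2 1 ∈ Finset.Icc a b) → ω e = ω' e) →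
      h ω = h ω') :
    phiB d a b p f * phiB d a' b' p h ≤ phiB d a' b' p (fun ω => f ω * h ω) := by
  have h1 := phi_emb_cond (lobEmb hab) hp (fun ω => f (bext ω)) (fun ω => h (bext ω))
    (hf.comp bext_mono) (fun ω => h0 _) (by
      intro ω ω' hω
      apply hh
      intro e he
      by_cases h' : e ∈ Set.range (BE.toEd (d := d) (a := a') (b := b'))
      · obtain ⟨e1, rfl⟩ := h'
        rw [lob_bext_toEd, lob_bext_toEd]
        apply hω
        rintro ⟨e2, rfl⟩
        apply he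
        exact (mem_range_toEd (a := a) (b := b) e2.toEd).1 ⟨e2, rfl⟩
      · rw [lob_bext_out _ e h', lob_bext_out _ e h'])
  simp only [lob_bext_ext] at h1
  exact h1

theorem Perc_mono {d : ℕ} {p p' : Fin 3 → ℝ} (hp : ∀ i, 0 < p i) (hp' : ∀ i, 0 < p' i)
    (h : RL p p') (i : ℕ) (hP : Perc d p i) : Perc d p' i := by
  obtain ⟨θ, hθ, hP⟩ := hP
  refine ⟨θ, hθ, fun n => ?_⟩
  obtain ⟨a, b, x, hx⟩ := hP n
  refine ⟨a, b, x, hx.trans ?_⟩
  exact phiB_mono_box (Finset.Subset.refl _) hp hp' h _ (reachZ_mono i n x)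

theorem Perc_two_one {d : ℕ} {p : Fin 3 → ℝ} (hp : ∀ i, 0 < p i) (hP : Perc d p 2) :
    Perc d p 1 := by
  obtain ⟨θ, hθ, hP⟩ := hP
  refine ⟨θ, hθ, fun n => ?_⟩
  obtain ⟨a, b, x, hx⟩ := hP n
  refine ⟨a, b, x, hx.trans ?_⟩
  apply phi_le_phi _ hp
  intro ω
  apply ind_mono
  rintro ⟨y, hy, hc⟩
  refine ⟨y, hy, conn_mono _ ?_ hc⟩
  intro e he
  have h2 : 2 ≤ ((bext ω e : Fin 3) : ℕ) := he
  have h1 : 1 ≤ ((bext ω e : Fin 3) : ℕ) := by omega
  exact h1

end H82AT

end S_LOB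

section S_TEMB

/-! MODULE TEMB: boxes inside the torus. -/

set_option autoImplicit false

namespace H82AT

open Finset

/-- reduction mod L -/
def castT {d : ℕ} (L : ℕ) (x : Vx d) : Tor d L := fun i => ((x i : ℤ) : ZMod L)

theorem temb_cast_add {d : ℕ} (L : ℕ) (x : Vx d) (i : Fin d) :
    castT L (x + Pi.single i 1) = castT L x + Pi.single i 1 := by
  funext j
  unfold castT
  by_cases h : j = i
  · subst h
    simp
  · simp [h]

theorem temb_inj {L : ℕ} {x y : ℤ} (hx : 0 ≤ x) (hxL : x < L) (hy : 0 ≤ y) (hyL : y < L)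
    (h : (x : ZMod L) = (y : ZMod L)) : x = y := by
  rw [ZMod.intCast_eq_intCast_iff] at h
  have h1 : x % (L : ℤ) = y % (L : ℤ) := h
  rwa [Int.emod_eq_of_lt hx hxL, Int.emod_eq_of_lt hy hyL] at h1

theorem temb_cast_inj {d L : ℕ} {x y : Vx d} (hx : x ∈ Finset.Icc (0 : Vx d) (fun _ => (L : ℤ) - 1))
    (hy : y ∈ Finset.Icc (0 : Vx d) (fun _ => (L : ℤ) - 1)) (h : castT L x = castT L y) : x = y := by
  funext i
  have h1 := (Finset.mem_Icc.1 hx).1 i
  have h2 := (Finset.mem_Icc.1 hx).2 i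
  have h3 := (Finset.mem_Icc.1 hy).1 i
  have h4 := (Finset.mem_Icc.1 hy).2 i
  simp only [Pi.zero_apply] at h1 h2 h3 h4
  exact temb_inj h1 (by omega) h3 (by omega) (congrFun h i)

/-- the cut embedding -/
def tembCut (d L : ℕ) [NeZero L] : Emb (boxGr d 0 (fun _ => (L : ℤ) - 1)) (torGr d L) where
  fV v := castT L v.1
  fE e := (castT L (e.1.1 : Vx d), e.1.2)
  injV := by
    intro v w h
    exact Subtype.ext (temb_cast_inj v.2 w.2 h)
  injE := by
    intro e e' h
    simp only [Prod.mk.injEq] at h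
    apply Subtype.ext
    apply Prod.ext
    · exact Subtype.ext (temb_cast_inj e.1.1.2 e'.1.1.2 h.1)
    · exact h.2
  hs e := rfl
  ht e := (temb_cast_add L _ _).symm

theorem temb_surj {d L : ℕ} [NeZero L] (y : Tor d L) :
    ∃ x ∈ Finset.Icc (0 : Vx d) (fun _ => (L : ℤ) - 1), castT L x = y := by
  refine ⟨fun i => ((y i).val : ℤ), ?_, ?_⟩
  · rw [Finset.mem_Icc]
    constructor
    · intro i
      exact Int.natCast_nonneg _
    · intro i
      have := ZMod.val_lt (y i)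
      simp only
      omega
  · funext i
    unfold castT
    simp

theorem temb_slice {d L : ℕ} [NeZero L] (i : Fin d) (c : ZMod L) :
    (Finset.univ.filter (fun x : Tor d L => x i = c)).card = L ^ (d - 1) := by
  have h : Finset.univ.filter (fun x : Tor d L => x i = c) =
      Fintype.piFinset (fun j : Fin d => if j = i then ({c} : Finset (ZMod L)) else Finset.univ) := by
    ext x
    simp only [Finset.mem_filter, Finset.mem_univ, true_and, Fintype.mem_piFinset]
    constructor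
    · intro hx j
      by_cases hj : j = i
      · subst hj
        simp [hx]
      · simp [hj]
    · intro hx
      have := hx i
      simpa using this
  rw [h, Fintype.card_piFinset]
  have h2 : ∀ j : Fin d, (if j = i then ({c} : Finset (ZMod L)) else Finset.univ).card =
      if j = i then 1 else L := by
    intro j
    by_cases hj : j = i
    · simp [hj]
    · simp [hj, ZMod.card]
  simp only [h2]
  rw [Finset.prod_ite]
  simp only [Finset.prod_const_one, one_mul, Finset.prod_const]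
  congr 1
  have h3 : (Finset.univ.filter (fun j : Fin d => ¬ j = i)) = Finset.univ.erase i := by
    ext j
    simp
  rw [h3, Finset.card_erase_of_mem (Finset.mem_univ i), Finset.card_univ, Fintype.card_fin]

theorem exists_cut (d L : ℕ) [NeZero L] :
    ∃ m : Emb (boxGr d 0 (fun _ => (L : ℤ) - 1)) (torGr d L),
      (∀ v, m.fV v = castT L v.1) ∧ (∀ e, m.fE e = (castT L (e.1.1 : Vx d), e.1.2)) ∧
      Function.Bijective m.fV ∧
      (Fintype.card (Tor d L × Fin d) : ℝ)
        - Fintype.card (BE d (0 : Vx d) (fun _ => (L : ℤ) - 1)) ≤ d * (L : ℝ) ^ (d - 1) := by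
  classical
  refine ⟨tembCut d L, fun v => rfl, fun e => rfl, ⟨(tembCut d L).injV, ?_⟩, ?_⟩
  · intro y
    obtain ⟨x, hx, hxy⟩ := temb_surj y
    exact ⟨⟨x, hx⟩, hxy⟩
  · have h1 : Fintype.card (Tor d L × Fin d) ≤
        Fintype.card (BE d (0 : Vx d) (fun _ => (L : ℤ) - 1)) +
        (Finset.univ.filter (fun e : Tor d L × Fin d =>
          e.1 e.2 = (((L : ℤ) - 1 : ℤ) : ZMod L))).card := by
      have h2 : (Finset.univ : Finset (Tor d L × Fin d)) ⊆
          (Finset.univ.image (tembCut d L).fE) ∪ Finset.univ.filter (fun e : Tor d L × Fin d =>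
          e.1 e.2 = (((L : ℤ) - 1 : ℤ) : ZMod L)) := by
        rintro ⟨y, i⟩ _
        obtain ⟨x, hx, hxy⟩ := temb_surj y
        rw [Finset.mem_union, Finset.mem_image, Finset.mem_filter]
        by_cases hi : x i = (L : ℤ) - 1
        · right
          refine ⟨Finset.mem_univ _, ?_⟩
          simp only
          rw [← hxy, ← hi]
          rfl
        · left
          have hx2 : x + Pi.single i 1 ∈ Finset.Icc (0 : Vx d) (fun _ => (L : ℤ) - 1) := by
            rw [Finset.mem_Icc] at hx ⊢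
            constructor
            · intro j
              have h3 := hx.1 j
              simp only [Pi.zero_apply, Pi.add_apply] at h3 ⊢
              by_cases hj : j = i
              · subst hj
                simp only [Pi.single_eq_same]
                omega
              · rw [Pi.single_eq_of_ne hj]
                omega
            · intro j
              have h3 := hx.2 j
              simp only [Pi.add_apply] at h3 ⊢
              by_cases hj : j = i
              · subst hj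
                simp only [Pi.single_eq_same]
                omega
              · rw [Pi.single_eq_of_ne hj]
                omega
          refine ⟨⟨(⟨x, hx⟩, i), hx2⟩, Finset.mem_univ _, ?_⟩
          change (castT L x, i) = (y, i)
          rw [hxy]
      have h3 := Finset.card_le_card h2
      refine (le_of_eq (Finset.card_univ).symm).trans (h3.trans ?_)
      refine (Finset.card_union_le _ _).trans ?_
      have h4 : (Finset.univ.image (tembCut d L).fE).card ≤
          Fintype.card (BE d (0 : Vx d) (fun _ => (L : ℤ) - 1)) := Finset.card_image_le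
      omega
    have h2 : (Finset.univ.filter (fun e : Tor d L × Fin d =>
          e.1 e.2 = (((L : ℤ) - 1 : ℤ) : ZMod L))).card = d * L ^ (d - 1) := by
      have h3 : Finset.univ.filter (fun e : Tor d L × Fin d =>
          e.1 e.2 = (((L : ℤ) - 1 : ℤ) : ZMod L)) =
          Finset.univ.biUnion (fun i : Fin d => (Finset.univ.filter (fun x : Tor d L =>
            x i = (((L : ℤ) - 1 : ℤ) : ZMod L))).image (fun x => (x, i))) := by
        ext ⟨y, i⟩
        simp only [Finset.mem_filter, Finset.mem_univ, true_and, Finset.mem_biUnion,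
          Finset.mem_image, Prod.mk.injEq]
        constructor
        · intro h
          exact ⟨i, y, h, rfl, rfl⟩
        · rintro ⟨j, z, hz, rfl, rfl⟩
          exact hz
      rw [h3, Finset.card_biUnion]
      · have h4 : ∀ i ∈ (Finset.univ : Finset (Fin d)), ((Finset.univ.filter (fun x : Tor d L =>
            x i = (((L : ℤ) - 1 : ℤ) : ZMod L))).image (fun x => (x, i))).card = L ^ (d - 1) := by
          intro i _
          rw [Finset.card_image_of_injective _ (fun x y h => (Prod.mk.inj h).1), temb_slice]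
        rw [Finset.sum_congr rfl h4, Finset.sum_const, Finset.card_univ, Fintype.card_fin,
          smul_eq_mul]
      · intro i _ j _ hij
        rw [Function.onFun, Finset.disjoint_left]
        rintro ⟨y, k⟩ h5 h6
        simp only [Finset.mem_image, Prod.mk.injEq] at h5 h6
        obtain ⟨_, _, _, h5⟩ := h5
        obtain ⟨_, _, _, h6⟩ := h6
        exact hij (h5.trans h6.symm)
    rw [h2] at h1
    have h5 : (Fintype.card (Tor d L × Fin d) : ℝ) ≤
        Fintype.card (BE d (0 : Vx d) (fun _ => (L : ℤ) - 1)) + d * (L : ℝ) ^ (d - 1) := by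
      exact_mod_cast h1
    linarith

theorem temb_shift_mem {d M R : ℕ} [NeZero R] (b : Fin d → Fin R) {v : Vx d}
    (hv : v ∈ Finset.Icc (0 : Vx d) (fun _ => (M : ℤ) - 1)) :
    (fun i => v i + (M : ℤ) * ((b i : ℕ) : ℤ)) ∈
      Finset.Icc (0 : Vx d) (fun _ => ((M * R : ℕ) : ℤ) - 1) := by
  rw [Finset.mem_Icc] at hv ⊢
  constructor
  · intro i
    have h := hv.1 i
    simp only [Pi.zero_apply] at h ⊢
    positivity
  · intro i
    have h := hv.2 i
    have h2 : ((b i : ℕ) : ℤ) + 1 ≤ R := by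
      have := (b i).2
      omega
    simp only at h ⊢
    push_cast
    have h3 : (M : ℤ) * (((b i : ℕ) : ℤ) + 1) ≤ M * R :=
      mul_le_mul_of_nonneg_left h2 (by positivity)
    nlinarith

theorem temb_shift_inj {d M R : ℕ} [NeZero M] (b b' : Fin d → Fin R) {v v' : Vx d}
    (hv : v ∈ Finset.Icc (0 : Vx d) (fun _ => (M : ℤ) - 1))
    (hv' : v' ∈ Finset.Icc (0 : Vx d) (fun _ => (M : ℤ) - 1))
    (h : (fun i => v i + (M : ℤ) * ((b i : ℕ) : ℤ)) = (fun i => v' i + (M : ℤ) * ((b' i : ℕ) : ℤ))) :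
    b = b' ∧ v = v' := by
  have key : ∀ i, v i = v' i ∧ ((b i : ℕ) : ℤ) = ((b' i : ℕ) : ℤ) := by
    intro i
    have h0 : v i + (M : ℤ) * ((b i : ℕ) : ℤ) = v' i + (M : ℤ) * ((b' i : ℕ) : ℤ) := congrFun h i
    have h1 := (Finset.mem_Icc.1 hv).1 i
    have h2 := (Finset.mem_Icc.1 hv).2 i
    have h3 := (Finset.mem_Icc.1 hv').1 i
    have h4 := (Finset.mem_Icc.1 hv').2 i
    simp only [Pi.zero_apply] at h1 h2 h3 h4
    have hM : (0 : ℤ) < M := by
      have := NeZero.pos M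
      exact_mod_cast this
    have e1 : (v i + (M : ℤ) * ((b i : ℕ) : ℤ)) % M = v i := by
      rw [Int.add_mul_emod_self_left]
      exact Int.emod_eq_of_lt h1 (by omega)
    have e2 : (v' i + (M : ℤ) * ((b' i : ℕ) : ℤ)) % M = v' i := by
      rw [Int.add_mul_emod_self_left]
      exact Int.emod_eq_of_lt h3 (by omega)
    have e3 : v i = v' i := by rw [← e1, ← e2, h0]
    refine ⟨e3, ?_⟩
    rw [e3] at h0
    have h5 : (M : ℤ) * ((b i : ℕ) : ℤ) = (M : ℤ) * ((b' i : ℕ) : ℤ) := by linarith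
    exact mul_left_cancel₀ hM.ne' h5
  constructor
  · funext i
    apply Fin.ext
    exact_mod_cast (key i).2
  · funext i
    exact (key i).1

theorem exists_blk (d M R : ℕ) [NeZero M] [NeZero R] [NeZero (M * R)] :
    ∃ m : Emb ((boxGr d 0 (fun _ => (M : ℤ) - 1)).copies (Fin d → Fin R)) (torGr d (M * R)),
      (∀ b v, m.fV (b, v) = castT (M * R) (fun i => v.1 i + M * ((b i : ℕ) : ℤ))) ∧
      (∀ b e, m.fE (b, e)
        = (castT (M * R) (fun i => (e.1.1 : Vx d) i + M * ((b i : ℕ) : ℤ)), e.1.2)) := by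
  refine ⟨⟨fun q => castT (M * R) (fun i => q.2.1 i + M * ((q.1 i : ℕ) : ℤ)),
    fun q => (castT (M * R) (fun i => (q.2.1.1 : Vx d) i + M * ((q.1 i : ℕ) : ℤ)), q.2.1.2),
    ?_, ?_, ?_, ?_⟩, fun b v => rfl, fun b e => rfl⟩
  · rintro ⟨b, v⟩ ⟨b', v'⟩ h
    simp only at h
    have h1 := temb_cast_inj (temb_shift_mem b v.2) (temb_shift_mem b' v'.2) h
    obtain ⟨h2, h3⟩ := temb_shift_inj b b' v.2 v'.2 h1
    rw [h2, Subtype.ext h3]
  · rintro ⟨b, e⟩ ⟨b', e'⟩ h
    simp only [Prod.mk.injEq] at h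
    have h1 := temb_cast_inj (temb_shift_mem b e.1.1.2) (temb_shift_mem b' e'.1.1.2) h.1
    obtain ⟨h2, h3⟩ := temb_shift_inj b b' e.1.1.2 e'.1.1.2 h1
    have h4 : e = e' := Subtype.ext (Prod.ext (Subtype.ext h3) h.2)
    rw [h2, h4]
  · rintro ⟨b, e⟩
    rfl
  · rintro ⟨b, e⟩
    change castT (M * R) (fun i => (e.1.1 : Vx d) i + M * ((b i : ℕ) : ℤ)) + Pi.single e.1.2 1 =
      castT (M * R) (fun i => ((e.1.1 : Vx d) + Pi.single e.1.2 1 : Vx d) i +
        M * ((b i : ℕ) : ℤ))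
    rw [← temb_cast_add]
    congr 1
    funext i
    simp only [Pi.add_apply]
    ring

theorem temb_abs_le {L : ℕ} [NeZero L] (z : ℤ) :
    ((z : ZMod L)).valMinAbs.natAbs ≤ z.natAbs := by
  apply ZMod.natAbs_min_of_le_div_two L
  · exact ZMod.coe_valMinAbs _
  · exact ZMod.natAbs_valMinAbs_le _

theorem tdist_cast_le {d : ℕ} (L : ℕ) [NeZero L] (x y : Vx d) :
    tdist (castT L x) (castT L y) ≤ zdist x y := by
  unfold tdist zdist castT
  refine Finset.sum_le_sum fun i _ => ?_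
  have h := temb_abs_le (L := L) (x i - y i)
  push_cast at h
  exact h

theorem tdist_cast_eq {d : ℕ} (L : ℕ) [NeZero L] (x y : Vx d)
    (h : ∀ i, 2 * (x i - y i).natAbs ≤ L) :
    tdist (castT L x) (castT L y) = zdist x y := by
  unfold tdist zdist castT
  refine Finset.sum_congr rfl fun i _ => ?_
  apply le_antisymm
  · have h1 := temb_abs_le (L := L) (x i - y i)
    push_cast at h1
    exact h1
  · apply ZMod.natAbs_min_of_le_div_two L
    · rw [ZMod.coe_valMinAbs]
      push_cast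
      rfl
    · have := h i
      omega

end H82AT

end S_TEMB

section S_LLN

/-! MODULE LLN: exponential law of large numbers for the density of far-reaching vertices. -/

set_option autoImplicit false

namespace H82AT

open Finset

/-- fraction of far-reaching vertices in the block -/
noncomputable def llnF (d M n : ℕ) (ω : BE d (0 : Vx d) (fun _ => (M : ℤ) - 1) → Fin 3) : ℝ :=
  1 / (M : ℝ) ^ d *
    ∑ v ∈ Finset.Icc (0 : Vx d) (fun _ => (M : ℤ) - 1), ind (reachZ 1 n v (bext ω))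

theorem lln_card_Icc (d M : ℕ) : (Finset.Icc (0 : Vx d) (fun _ => (M : ℤ) - 1)).card = M ^ d := by
  rw [Pi.card_Icc]
  simp

theorem llnF_nonneg (d M n : ℕ) (ω : BE d (0 : Vx d) (fun _ => (M : ℤ) - 1) → Fin 3) :
    0 ≤ llnF d M n ω := by
  unfold llnF
  apply mul_nonneg (by positivity)
  exact Finset.sum_nonneg fun v _ => ind_nonneg _

theorem llnF_le_one (d M n : ℕ) (hM : 0 < M)
    (ω : BE d (0 : Vx d) (fun _ => (M : ℤ) - 1) → Fin 3) : llnF d M n ω ≤ 1 := by
  unfold llnF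
  have h1 : ∑ v ∈ Finset.Icc (0 : Vx d) (fun _ => (M : ℤ) - 1), ind (reachZ 1 n v (bext ω)) ≤
      ∑ v ∈ Finset.Icc (0 : Vx d) (fun _ => (M : ℤ) - 1), (1 : ℝ) :=
    Finset.sum_le_sum fun v _ => ind_le_one _
  rw [Finset.sum_const, lln_card_Icc, nsmul_eq_mul, mul_one] at h1
  push_cast at h1
  have hM' : (0 : ℝ) < (M : ℝ) ^ d := by positivity
  rw [one_div, inv_mul_le_iff₀ hM', mul_one]
  exact h1

theorem lln_block {d : ℕ} {p : Fin 3 → ℝ} (hp : ∀ i, 0 < p i) {θ : ℝ} (n : ℕ) (a b x : Vx d)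
    (hθ : θ ≤ phiB d a b p (fun ω => ind (reachZ 1 n x ω))) (hθ0 : 0 ≤ θ) :
    ∃ M : ℕ, 0 < M ∧ Even M ∧
      3 / 4 * θ ≤ (boxGr d 0 (fun _ => (M : ℤ) - 1)).phi p (llnF d M n) := by
  obtain ⟨r, hr⟩ : ∃ r : ℕ, r = ∑ i, ((a i - x i).natAbs + (b i - x i).natAbs) := ⟨_, rfl⟩
  have hri : ∀ i, (a i - x i).natAbs + (b i - x i).natAbs ≤ r := by
    intro i
    rw [hr]
    exact Finset.single_le_sum (f := fun i => (a i - x i).natAbs + (b i - x i).natAbs)
      (fun _ _ => Nat.zero_le _) (Finset.mem_univ i)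
  obtain ⟨M, hM⟩ : ∃ M : ℕ, M = 8 * ((r + 1) * (d + 1)) := ⟨_, rfl⟩
  have hM0 : 0 < M := by rw [hM]; positivity
  have hMr : 8 * (r * d) ≤ M := by
    rw [hM]
    have : r * d ≤ (r + 1) * (d + 1) := Nat.mul_le_mul (by omega) (by omega)
    omega
  have hMr2 : 2 * r ≤ M := by
    rw [hM]
    have : r ≤ (r + 1) * (d + 1) := by
      calc r ≤ r + 1 := by omega
        _ = (r + 1) * 1 := by ring
        _ ≤ (r + 1) * (d + 1) := Nat.mul_le_mul le_rfl (by omega)
    omega
  refine ⟨M, hM0, ?_, ?_⟩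
  · rw [hM]
    exact ⟨4 * ((r + 1) * (d + 1)), by ring⟩
  have hMR : (0 : ℝ) < M := by exact_mod_cast hM0
  have hphi : (boxGr d 0 (fun _ => (M : ℤ) - 1)).phi p (llnF d M n) =
      1 / (M : ℝ) ^ d * ∑ v ∈ Finset.Icc (0 : Vx d) (fun _ => (M : ℤ) - 1),
        phiB d 0 (fun _ => (M : ℤ) - 1) p (fun ω => ind (reachZ 1 n v ω)) := by
    unfold llnF phiB
    rw [phi_smul, phi_sum]
  have hnn : ∀ v : Vx d, 0 ≤ phiB d 0 (fun _ => (M : ℤ) - 1) p (fun ω => ind (reachZ 1 n v ω)) := by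
    intro v
    unfold phiB
    have h1 := phi_le_phi (boxGr d 0 (fun _ => (M : ℤ) - 1)) hp (fun _ => 0)
      (fun ω => ind (reachZ 1 n v (bext ω))) (fun ω => ind_nonneg _)
    rw [phi_const _ hp] at h1
    exact h1
  have hsub : Finset.Icc (fun _ => (r : ℤ) : Vx d) (fun _ => (M : ℤ) - 1 - r) ⊆
      Finset.Icc (0 : Vx d) (fun _ => (M : ℤ) - 1) := by
    intro v hv
    rw [Finset.mem_Icc] at hv ⊢
    constructor
    · intro i
      have := hv.1 i
      simp only [Pi.zero_apply] at this ⊢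
      omega
    · intro i
      have := hv.2 i
      simp only at this ⊢
      omega
  have hgood : ∀ v ∈ Finset.Icc (fun _ => (r : ℤ) : Vx d) (fun _ => (M : ℤ) - 1 - r),
      θ ≤ phiB d 0 (fun _ => (M : ℤ) - 1) p (fun ω => ind (reachZ 1 n v ω)) := by
    intro v hv
    rw [Finset.mem_Icc] at hv
    have h1 := phiB_reach_shift a b (v - x) x hp 1 n
    have h2 : Finset.Icc (a + (v - x)) (b + (v - x)) ⊆
        Finset.Icc (0 : Vx d) (fun _ => (M : ℤ) - 1) := by
      intro w hw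
      rw [Finset.mem_Icc] at hw ⊢
      constructor
      · intro i
        have e1 := hw.1 i
        have e2 := hv.1 i
        have e3 := hri i
        simp only [Pi.zero_apply, Pi.add_apply, Pi.sub_apply] at e1 e2 ⊢
        omega
      · intro i
        have e1 := hw.2 i
        have e2 := hv.2 i
        have e3 := hri i
        simp only [Pi.add_apply, Pi.sub_apply] at e1 e2 ⊢
        omega
    have h3 := phiB_mono_box h2 hp hp (RL_refl p) (fun ω => ind (reachZ 1 n (x + (v - x)) ω))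
      (reachZ_mono 1 n _)
    rw [h1] at h3
    have e : x + (v - x) = v := by abel
    rw [e] at h3
    exact hθ.trans h3
  have hcard : (Finset.Icc (fun _ => (r : ℤ) : Vx d) (fun _ => (M : ℤ) - 1 - r)).card =
      (M - 2 * r) ^ d := by
    rw [Pi.card_Icc]
    simp only [Int.card_Icc, Finset.prod_const, Finset.card_univ, Fintype.card_fin]
    congr 1
    omega
  have hsum : ((M - 2 * r : ℕ) : ℝ) ^ d * θ ≤
      ∑ v ∈ Finset.Icc (0 : Vx d) (fun _ => (M : ℤ) - 1),
        phiB d 0 (fun _ => (M : ℤ) - 1) p (fun ω => ind (reachZ 1 n v ω)) := by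
    calc ((M - 2 * r : ℕ) : ℝ) ^ d * θ
        = ∑ v ∈ Finset.Icc (fun _ => (r : ℤ) : Vx d) (fun _ => (M : ℤ) - 1 - r), θ := by
          rw [Finset.sum_const, hcard, nsmul_eq_mul]
          push_cast
          rfl
      _ ≤ ∑ v ∈ Finset.Icc (fun _ => (r : ℤ) : Vx d) (fun _ => (M : ℤ) - 1 - r),
          phiB d 0 (fun _ => (M : ℤ) - 1) p (fun ω => ind (reachZ 1 n v ω)) :=
          Finset.sum_le_sum hgood
      _ ≤ _ := Finset.sum_le_sum_of_subset_of_nonneg hsub (fun v _ _ => hnn v)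
  have hbern : 3 / 4 * (M : ℝ) ^ d ≤ ((M - 2 * r : ℕ) : ℝ) ^ d := by
    rw [Nat.cast_sub hMr2]
    push_cast
    have hMr' : 8 * ((r : ℝ) * d) ≤ M := by exact_mod_cast hMr
    have hMr2' : 2 * (r : ℝ) ≤ M := by exact_mod_cast hMr2
    have h1 : (M : ℝ) - 2 * r = M * (1 + -(2 * r / M)) := by
      field_simp
      ring
    rw [h1, mul_pow, mul_comm (3 / 4 : ℝ)]
    apply mul_le_mul_of_nonneg_left _ (by positivity)
    have h2 : (2 * (r : ℝ) / M) ≤ 1 := by
      rw [div_le_one hMR]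
      exact hMr2'
    have h3 := one_add_mul_le_pow (a := -(2 * (r : ℝ) / M)) (by linarith) d
    refine le_trans ?_ h3
    have h4 : (d : ℝ) * (2 * (r : ℝ) / M) ≤ 1 / 4 := by
      rw [mul_div_assoc', div_le_iff₀ hMR]
      linarith
    linarith
  rw [hphi]
  calc 3 / 4 * θ = 1 / (M : ℝ) ^ d * ((3 / 4 * (M : ℝ) ^ d) * θ) := by
        field_simp
    _ ≤ 1 / (M : ℝ) ^ d * (((M - 2 * r : ℕ) : ℝ) ^ d * θ) := by gcongr
    _ ≤ _ := by gcongr

/-- elementary inequality -/
theorem lln_exp_le {F : ℝ} (h0 : 0 ≤ F) (h1 : F ≤ 1) : Real.exp (-F) ≤ 1 - F / 2 := by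
  have h2 : 1 + F ≤ Real.exp F := by linarith [Real.add_one_le_exp F]
  have h3 : Real.exp (-F) ≤ 1 / (1 + F) := by
    rw [Real.exp_neg, ← one_div]
    exact one_div_le_one_div_of_le (by linarith) h2
  refine h3.trans ?_
  rw [div_le_iff₀ (by linarith)]
  nlinarith

/-- exponential moment of one block -/
theorem lln_factor {V E : Type} [Finite V] [Fintype E] [DecidableEq E] (g : Gr V E)
    {p : Fin 3 → ℝ} (hp : ∀ i, 0 < p i) {θ : ℝ} (F : (E → Fin 3) → ℝ)
    (h0 : ∀ ω, 0 ≤ F ω) (h1 : ∀ ω, F ω ≤ 1) (h : 3 / 4 * θ ≤ g.phi p F) :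
    g.phi p (fun ω => Real.exp (θ / 4 - F ω)) ≤ Real.exp (-(θ / 8)) := by
  calc g.phi p (fun ω => Real.exp (θ / 4 - F ω))
      ≤ g.phi p (fun ω => Real.exp (θ / 4) + (-(Real.exp (θ / 4) / 2)) * F ω) := by
        apply phi_le_phi g hp
        intro ω
        have h2 := lln_exp_le (h0 ω) (h1 ω)
        rw [sub_eq_add_neg, Real.exp_add]
        have h3 := mul_le_mul_of_nonneg_left h2 (Real.exp_pos (θ / 4)).le
        linarith
    _ = Real.exp (θ / 4) + (-(Real.exp (θ / 4) / 2)) * g.phi p F := by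
        rw [phi_add g p (fun _ => Real.exp (θ / 4)), phi_const g hp, phi_smul]
    _ ≤ Real.exp (θ / 4) * (1 + -(3 / 8 * θ)) := by
        have := mul_le_mul_of_nonneg_left h (by positivity : 0 ≤ Real.exp (θ / 4) / 2)
        linarith
    _ ≤ Real.exp (θ / 4) * Real.exp (-(3 / 8 * θ)) := by
        apply mul_le_mul_of_nonneg_left _ (Real.exp_pos _).le
        linarith [Real.add_one_le_exp (-(3 / 8 * θ))]
    _ = Real.exp (-(θ / 8)) := by
        rw [← Real.exp_add]
        congr 1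
        ring

theorem lln_conn_map {V E V' E' : Type} {g : Gr V E} {g' : Gr V' E'} (φ : V → V')
    (F : Set E) (F' : Set E')
    (h : ∀ e ∈ F, ∃ e' ∈ F', g'.s e' = φ (g.s e) ∧ g'.t e' = φ (g.t e)) {x y : V}
    (hc : g.conn F x y) : g'.conn F' (φ x) (φ y) := by
  unfold Gr.conn at hc ⊢
  refine Relation.ReflTransGen.lift (r := g.adj F) (p := g'.adj F') φ ?_ _ _ hc
  rintro u v ⟨e, he, he2⟩
  obtain ⟨e', he', h1, h2⟩ := h e he
  refine ⟨e', he', ?_⟩
  rcases he2 with ⟨h3, h4⟩ | ⟨h3, h4⟩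
  · left
    rw [h1, h2, h3, h4]
    exact ⟨rfl, rfl⟩
  · right
    rw [h1, h2, h3, h4]
    exact ⟨rfl, rfl⟩

theorem lln_reachT_mono {d L : ℕ} (i n : ℕ) (x : Tor d L) :
    Monotone (fun ω : Tor d L × Fin d → Fin 3 => ind (reachT i n x ω)) := by
  intro ω ω' h
  apply ind_mono
  rintro ⟨y, hy, hc⟩
  exact ⟨y, hy, conn_mono _ (lv_mono h i) hc⟩

/-- block reaching implies torus reaching -/
theorem lln_reach {d M R n : ℕ} [NeZero (M * R)] (hR : 2 ≤ R)
    (m : Emb ((boxGr d 0 (fun _ => (M : ℤ) - 1)).copies (Fin d → Fin R)) (torGr d (M * R)))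
    (hV : ∀ b v, m.fV (b, v) = castT (M * R) (fun i => v.1 i + M * ((b i : ℕ) : ℤ)))
    (ω : (Fin d → Fin R) × BE d (0 : Vx d) (fun _ => (M : ℤ) - 1) → Fin 3)
    (b : Fin d → Fin R) (v : BV d (0 : Vx d) (fun _ => (M : ℤ) - 1))
    (h : reachZ 1 n v.1 (bext (fun e => ω (b, e)))) :
    reachT 1 n (m.fV (b, v)) (m.ext ω) := by
  obtain ⟨y, hy, hc⟩ := h
  rw [conn_bext 1 le_rfl] at hc
  obtain ⟨hyI, hc⟩ := hc
  refine ⟨m.fV (b, ⟨y, hyI⟩), ?_, ?_⟩
  · rw [hV, hV, tdist_cast_eq]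
    · refine hy.trans (le_of_eq ?_)
      unfold zdist
      refine Finset.sum_congr rfl fun i _ => ?_
      congr 1
      simp only
      ring
    · intro i
      have h1 := (Finset.mem_Icc.1 v.2).1 i
      have h2 := (Finset.mem_Icc.1 v.2).2 i
      have h3 := (Finset.mem_Icc.1 hyI).1 i
      have h4 := (Finset.mem_Icc.1 hyI).2 i
      simp only [Pi.zero_apply] at h1 h2 h3 h4 ⊢
      have h5 : 2 * (v.1 i + (M : ℤ) * ((b i : ℕ) : ℤ) - (y i + (M : ℤ) * ((b i : ℕ) : ℤ))).natAbs ≤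
          2 * M := by
        omega
      refine h5.trans ?_
      rw [mul_comm]
      exact Nat.mul_le_mul le_rfl hR
  · refine lln_conn_map (fun u => m.fV (b, u)) _ _ ?_ hc
    intro e he
    refine ⟨m.fE (b, e), ?_, ?_, ?_⟩
    · have h1 : m.ext ω (m.fE (b, e)) = ω (b, e) := m.injE.extend_apply _ _ _
      change 1 ≤ ((m.ext ω (m.fE (b, e)) : Fin 3) : ℕ)
      rw [h1]
      exact he
    · exact m.hs (b, e)
    · exact m.ht (b, e)

theorem lln {d : ℕ} (hd : 1 ≤ d) {a J1 J2 : ℝ} (ha : 0 < a) (h1 : 0 < J1) (h2 : J1 < J2)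
    (hP : Perc d (pr a J1 J2) 1) :
    ∃ θ : ℝ, 0 < θ ∧ ∀ n : ℕ, ∃ M : ℕ, 0 < M ∧ Even M ∧ ∃ R0 : ℕ, ∀ R : ℕ, R0 ≤ R →
      ∀ [NeZero (M * R)], ∀ β : ℝ, a ≤ β →
        (torGr d (M * R)).phi (pr β J1 J2)
          (fun ω => ind ((∑ x, ind (reachT 1 n x ω)) < θ * ((M : ℝ) * R) ^ d)) ≤ 1 / 8 := by
  obtain ⟨θ', hθ', hP⟩ := hP
  refine ⟨θ' / 4, by positivity, ?_⟩
  intro n
  obtain ⟨a', b', x', hab⟩ := hP n
  have hpa : ∀ i, 0 < pr a J1 J2 i := pr_pos ha h1 h2
  obtain ⟨M, hM0, hMe, hblk⟩ := lln_block hpa n a' b' x' hab hθ'.le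
  refine ⟨M, hM0, hMe, max 2 (⌈8 * Real.log 8 / θ'⌉₊ + 1), ?_⟩
  intro R hR inst β hβ
  have hR2 : 2 ≤ R := (le_max_left _ _).trans hR
  have hRl : 8 * Real.log 8 / θ' ≤ R := by
    have h3 : ⌈8 * Real.log 8 / θ'⌉₊ + 1 ≤ R := (le_max_right _ _).trans hR
    have h4 := Nat.le_ceil (8 * Real.log 8 / θ')
    have h5 : ((⌈8 * Real.log 8 / θ'⌉₊ : ℕ) : ℝ) ≤ R := by exact_mod_cast (by omega)
    linarith
  have : NeZero M := ⟨hM0.ne'⟩
  have : NeZero R := ⟨by omega⟩
  obtain ⟨m, hV, hE⟩ := exists_blk d M R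
  have hβ0 : 0 < β := lt_of_lt_of_le ha hβ
  have hpβ : ∀ i, 0 < pr β J1 J2 i := pr_pos hβ0 h1 h2
  have hMR : (0 : ℝ) < M := by exact_mod_cast hM0
  have hRR : (0 : ℝ) < R := by exact_mod_cast (by omega : 0 < R)
  -- the decreasing function
  obtain ⟨f, hf⟩ : ∃ f : (Tor d (M * R) × Fin d → Fin 3) → ℝ, f = fun ω =>
      Real.exp (θ' / 4 * (R : ℝ) ^ d - 1 / (M : ℝ) ^ d * ∑ x, ind (reachT 1 n x ω)) := ⟨_, rfl⟩
  have hfanti : Monotone (fun ω => - f ω) := by
    intro ω ω' h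
    simp only [neg_le_neg_iff]
    rw [hf]
    apply Real.exp_le_exp.2
    have : ∑ x, ind (reachT 1 n x ω) ≤ ∑ x, ind (reachT 1 n x ω') :=
      Finset.sum_le_sum fun x _ => lln_reachT_mono 1 n x h
    have h3 := mul_le_mul_of_nonneg_left this (by positivity : 0 ≤ 1 / (M : ℝ) ^ d)
    linarith
  have hstep1 : (torGr d (M * R)).phi (pr β J1 J2)
      (fun ω => ind ((∑ x, ind (reachT 1 n x ω)) < θ' / 4 * ((M : ℝ) * R) ^ d)) ≤
      (torGr d (M * R)).phi (pr β J1 J2) f := by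
    apply phi_le_phi _ hpβ
    intro ω
    by_cases hc : (∑ x, ind (reachT 1 n x ω)) < θ' / 4 * ((M : ℝ) * R) ^ d
    · rw [ind_true hc, hf]
      apply Real.one_le_exp
      rw [mul_pow] at hc
      have h3 : 1 / (M : ℝ) ^ d * ∑ x, ind (reachT 1 n x ω) ≤
          1 / (M : ℝ) ^ d * (θ' / 4 * ((M : ℝ) ^ d * (R : ℝ) ^ d)) := by gcongr
      have h4 : 1 / (M : ℝ) ^ d * (θ' / 4 * ((M : ℝ) ^ d * (R : ℝ) ^ d)) = θ' / 4 * (R : ℝ) ^ d := by
        field_simp
      linarith
    · rw [ind_false hc, hf]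
      exact (Real.exp_pos _).le
  have hstep2 : (torGr d (M * R)).phi (pr β J1 J2) f ≤
      ((boxGr d 0 (fun _ => (M : ℤ) - 1)).copies (Fin d → Fin R)).phi (pr a J1 J2)
        (fun ω => f (m.ext ω)) := by
    have h3 := phi_emb_mono m hpa hpβ (pr_RL ha hβ h1 h2) (fun ω => - f ω) hfanti
    have e1 : (fun ω => - f (m.ext ω)) = fun ω => (-1) * f (m.ext ω) := by
      funext ω; ring
    have e2 : (fun ω => - f ω) = fun ω => (-1) * f ω := by
      funext ω; ring
    rw [e1, e2, phi_smul, phi_smul] at h3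
    linarith
  have hstep3 : ((boxGr d 0 (fun _ => (M : ℤ) - 1)).copies (Fin d → Fin R)).phi (pr a J1 J2)
        (fun ω => f (m.ext ω)) ≤
      ((boxGr d 0 (fun _ => (M : ℤ) - 1)).copies (Fin d → Fin R)).phi (pr a J1 J2)
        (fun ω => ∏ b : Fin d → Fin R, Real.exp (θ' / 4 - llnF d M n (fun e => ω (b, e)))) := by
    apply phi_le_phi _ hpa
    intro ω
    rw [← Real.exp_sum, hf]
    apply Real.exp_le_exp.2
    rw [Finset.sum_sub_distrib, Finset.sum_const, Finset.card_univ, Fintype.card_fun,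
      Fintype.card_fin, Fintype.card_fin, nsmul_eq_mul]
    push_cast
    have h3 : ∑ b : Fin d → Fin R, llnF d M n (fun e => ω (b, e)) ≤
        1 / (M : ℝ) ^ d * ∑ x, ind (reachT 1 n x (m.ext ω)) := by
      unfold llnF
      rw [← Finset.mul_sum]
      apply mul_le_mul_of_nonneg_left _ (by positivity)
      calc ∑ b : Fin d → Fin R, ∑ v ∈ Finset.Icc (0 : Vx d) (fun _ => (M : ℤ) - 1),
            ind (reachZ 1 n v (bext (fun e => ω (b, e))))
          = ∑ b : Fin d → Fin R, ∑ v : BV d (0 : Vx d) (fun _ => (M : ℤ) - 1),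
            ind (reachZ 1 n v.1 (bext (fun e => ω (b, e)))) := by
            refine Finset.sum_congr rfl fun b _ => ?_
            exact (Finset.sum_coe_sort (Finset.Icc (0 : Vx d) (fun _ => (M : ℤ) - 1))
              (fun v => ind (reachZ 1 n v (bext (fun e => ω (b, e)))))).symm
        _ ≤ ∑ b : Fin d → Fin R, ∑ v : BV d (0 : Vx d) (fun _ => (M : ℤ) - 1),
            ind (reachT 1 n (m.fV (b, v)) (m.ext ω)) := by
            refine Finset.sum_le_sum fun b _ => Finset.sum_le_sum fun v _ => ?_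
            exact ind_mono (lln_reach hR2 m hV ω b v)
        _ = ∑ q : (Fin d → Fin R) × BV d (0 : Vx d) (fun _ => (M : ℤ) - 1),
            ind (reachT 1 n (m.fV q) (m.ext ω)) := (Fintype.sum_prod_type' _).symm
        _ = ∑ x ∈ Finset.univ.map ⟨m.fV, m.injV⟩, ind (reachT 1 n x (m.ext ω)) := by
            rw [Finset.sum_map]
            rfl
        _ ≤ _ := Finset.sum_le_sum_of_subset_of_nonneg (Finset.subset_univ _)
            (fun x _ _ => ind_nonneg _)
    linarith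
  have hstep4 : ((boxGr d 0 (fun _ => (M : ℤ) - 1)).copies (Fin d → Fin R)).phi (pr a J1 J2)
        (fun ω => ∏ b : Fin d → Fin R, Real.exp (θ' / 4 - llnF d M n (fun e => ω (b, e)))) ≤
      Real.exp (-(θ' / 8)) ^ (R ^ d) := by
    rw [phi_copies (boxGr d 0 (fun _ => (M : ℤ) - 1)) hpa
      (fun _ ω => Real.exp (θ' / 4 - llnF d M n ω)), Finset.prod_const, Finset.card_univ,
      Fintype.card_fun, Fintype.card_fin, Fintype.card_fin]
    apply pow_le_pow_left₀
    · have h3 := phi_le_phi (boxGr d 0 (fun _ => (M : ℤ) - 1)) hpa (fun _ => 0)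
        (fun ω => Real.exp (θ' / 4 - llnF d M n ω)) (fun ω => (Real.exp_pos _).le)
      rw [phi_const _ hpa] at h3
      exact h3
    · exact lln_factor _ hpa (llnF d M n) (llnF_nonneg d M n) (llnF_le_one d M n hM0) hblk
  refine (hstep1.trans (hstep2.trans (hstep3.trans hstep4))).trans ?_
  rw [← Real.exp_nat_mul]
  have h5 : (R : ℝ) ≤ ((R ^ d : ℕ) : ℝ) := by
    have : R ≤ R ^ d := Nat.le_self_pow (by omega) R
    exact_mod_cast this
  rw [div_le_iff₀ hθ'] at hRl
  have h6 : Real.log 8 ≤ ((R ^ d : ℕ) : ℝ) * (θ' / 8) := by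
    have := mul_le_mul_of_nonneg_right h5 (by positivity : 0 ≤ θ' / 8)
    linarith
  calc Real.exp (((R ^ d : ℕ) : ℝ) * -(θ' / 8)) ≤ Real.exp (-Real.log 8) := by
        apply Real.exp_le_exp.2
        linarith
    _ = 1 / 8 := by
        rw [Real.exp_neg, Real.exp_log (by norm_num)]
        norm_num

end H82AT

end S_LLN

section S_TR

/-! MODULE TR: transfer of type-2 connectivity from the torus to free boundary conditions. -/

set_option autoImplicit false

namespace H82AT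

open Finset

/-- edges near `x` -/
noncomputable def nearE {d L : ℕ} [NeZero L] (n : ℕ) (x : Tor d L) : Finset (Tor d L × Fin d) :=
  Finset.univ.filter (fun e => tdist x e.1 < n ∨ tdist x (e.1 + Pi.single e.2 1) < n)

theorem tr_local_aux {d L : ℕ} [NeZero L] (n : ℕ) (x y : Tor d L)
    (F F' : Set (Tor d L × Fin d)) (h : ∀ e ∈ nearE n x, e ∈ F → e ∈ F')
    (hc : (torGr d L).conn F x y) :
    (∃ z, n ≤ tdist x z ∧ (torGr d L).conn F' x z) ∨ (torGr d L).conn F' x y := by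
  induction hc with
  | refl => exact Or.inr Relation.ReflTransGen.refl
  | @tail y z hxy hyz ih =>
    rcases ih with ih | ih
    · exact Or.inl ih
    · by_cases hn : n ≤ tdist x y
      · exact Or.inl ⟨y, hn, ih⟩
      · right
        obtain ⟨e, heF, he⟩ := hyz
        have hne : e ∈ nearE n x := by
          unfold nearE
          rw [Finset.mem_filter]
          refine ⟨Finset.mem_univ _, ?_⟩
          rcases he with he | he
          · left
            have h1 : e.1 = y := he.1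
            rw [h1]; omega
          · right
            have h1 : e.1 + Pi.single e.2 1 = y := he.2
            rw [h1]; omega
        exact ih.tail ⟨e, h e hne heF, he⟩

/-- the reach event depends only on the near edges (first exit) -/
theorem reachT_local {d L : ℕ} [NeZero L] (i n : ℕ) (x : Tor d L)
    (ω ω' : Tor d L × Fin d → Fin 3) (h : ∀ e ∈ nearE n x, ω e = ω' e) :
    reachT i n x ω ↔ reachT i n x ω' := by
  have key : ∀ ω ω' : Tor d L × Fin d → Fin 3, (∀ e ∈ nearE n x, ω e = ω' e) →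
      reachT i n x ω → reachT i n x ω' := by
    intro ω ω' h hr
    obtain ⟨y, hy, hc⟩ := hr
    have h' : ∀ e ∈ nearE n x, e ∈ lv ω i → e ∈ lv ω' i := by
      intro e he hl
      have h1 : i ≤ (ω e : ℕ) := hl
      rw [h e he] at h1
      exact h1
    rcases tr_local_aux n x y _ _ h' hc with h1 | h1
    · exact h1
    · exact ⟨y, hy, h1⟩
  exact ⟨key ω ω' h, key ω' ω (fun e he => (h e he).symm)⟩

/-- each edge is near at most `2 (2n+1)^d` vertices -/
theorem nearE_count {d L : ℕ} [NeZero L] (n : ℕ) (e : Tor d L × Fin d) :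
    ((Finset.univ.filter (fun x : Tor d L => e ∈ nearE n x)).card : ℝ)
      ≤ 2 * (2 * (n : ℝ) + 1) ^ d := by
  classical
  have hsub : Finset.univ.filter (fun x : Tor d L => e ∈ nearE n x) ⊆
      Finset.univ.filter (fun x : Tor d L => tdist e.1 x ≤ n) ∪
      Finset.univ.filter (fun x : Tor d L => tdist (e.1 + Pi.single e.2 1) x ≤ n) := by
    intro x hx
    rw [Finset.mem_filter] at hx
    have hx2 := hx.2
    unfold nearE at hx2
    rw [Finset.mem_filter] at hx2
    rw [Finset.mem_union, Finset.mem_filter, Finset.mem_filter]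
    rcases hx2.2 with h | h
    · left
      refine ⟨Finset.mem_univ _, ?_⟩
      rw [tdist_comm]; omega
    · right
      refine ⟨Finset.mem_univ _, ?_⟩
      rw [tdist_comm]; omega
  have h1 := tball_card n e.1
  have h2 := tball_card n (e.1 + Pi.single e.2 1)
  have h3 := (Finset.card_le_card hsub).trans (Finset.card_union_le _ _)
  have h4 : ((Finset.univ.filter (fun x : Tor d L => e ∈ nearE n x)).card : ℝ) ≤
      ((Finset.univ.filter (fun x : Tor d L => tdist e.1 x ≤ n)).card : ℝ) +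
      ((Finset.univ.filter (fun x : Tor d L => tdist (e.1 + Pi.single e.2 1) x ≤ n)).card : ℝ) := by
    exact_mod_cast h3
  linarith

theorem tr_conn_box {d L : ℕ} [NeZero L]
    (m : Emb (boxGr d 0 (fun _ => (L : ℤ) - 1)) (torGr d L))
    (ω : BE d 0 (fun _ => (L : ℤ) - 1) → Fin 3) (v : BV d 0 (fun _ => (L : ℤ) - 1))
    (y : Tor d L) (hc : (torGr d L).conn (lv (m.ext ω) 2) (m.fV v) y) :
    ∃ w : BV d 0 (fun _ => (L : ℤ) - 1), y = m.fV w ∧
      (ZGr d).conn (lv (bext ω) 2) v.1 w.1 := by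
  induction hc with
  | refl => exact ⟨v, rfl, Relation.ReflTransGen.refl⟩
  | @tail y z hxy hyz ih =>
    obtain ⟨w, hw, hcw⟩ := ih
    obtain ⟨e, heF, he⟩ := hyz
    have hr : ∃ e0, m.fE e0 = e := by
      by_contra hcon
      have h0 : m.ext ω e = 0 := by
        unfold Emb.ext
        rw [Function.extend_apply' _ _ _ hcon]
      have h1 : 2 ≤ (m.ext ω e : ℕ) := heF
      rw [h0] at h1
      simp at h1
    obtain ⟨e0, rfl⟩ := hr
    have hval : 2 ≤ (ω e0 : ℕ) := by
      have h1 : 2 ≤ (m.ext ω (m.fE e0) : ℕ) := heF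
      unfold Emb.ext at h1
      rw [m.injE.extend_apply] at h1
      exact h1
    have hmem : BE.toEd e0 ∈ lv (bext ω) 2 := by
      show 2 ≤ (bext ω (BE.toEd e0) : ℕ)
      unfold bext
      rw [toEd_inj.extend_apply]
      exact hval
    rcases he with ⟨h1, h2⟩ | ⟨h1, h2⟩
    · rw [m.hs] at h1
      rw [m.ht] at h2
      refine ⟨(boxGr d 0 (fun _ => (L : ℤ) - 1)).t e0, h2.symm, ?_⟩
      have h3 : (boxGr d 0 (fun _ => (L : ℤ) - 1)).s e0 = w := m.injV (h1.trans hw)
      refine hcw.tail ⟨BE.toEd e0, hmem, Or.inl ⟨?_, ?_⟩⟩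
      · rw [← h3]; rfl
      · rfl
    · rw [m.hs] at h1
      rw [m.ht] at h2
      refine ⟨(boxGr d 0 (fun _ => (L : ℤ) - 1)).s e0, h1.symm, ?_⟩
      have h3 : (boxGr d 0 (fun _ => (L : ℤ) - 1)).t e0 = w := m.injV (h2.trans hw)
      refine hcw.tail ⟨BE.toEd e0, hmem, Or.inr ⟨?_, ?_⟩⟩
      · rfl
      · rw [← h3]; rfl

theorem tr_reachT_mono {d L : ℕ} (i n : ℕ) (x : Tor d L)
    (ω ω' : Tor d L × Fin d → Fin 3) (h : ω ≤ ω') (hr : reachT i n x ω) : reachT i n x ω' := by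
  obtain ⟨y, hy, hc⟩ := hr
  exact ⟨y, hy, conn_mono _ (lv_mono h i) hc⟩

theorem transfer {d : ℕ} (hd : 1 ≤ d) {J1 J2 a b c : ℝ} (h1 : 0 < J1) (h2 : J1 < J2)
    (ha : 0 < a) (hab : a < b) (hc : 0 < c)
    (h : ∀ n L0 : ℕ, ∃ L : ℕ, L0 ≤ L ∧ ∃ _ : NeZero L, ∀ β : ℝ, a ≤ β → β ≤ b →
      c ≤ (torGr d L).phi (pr β J1 J2) (fun ω => ind (reachT 2 n 0 ω))) :
    Perc d (pr b J1 J2) 2 := by
  classical
  refine ⟨c / 2, by positivity, fun n => ?_⟩
  set C0 : ℝ := 3 / J1 * (J2 * (1 + a / (b - a))) + 2 with hC0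
  have hba : 0 < b - a := by linarith
  have hJ2 : 0 < J2 := by linarith
  have hC0pos : 0 < C0 := by positivity
  set K : ℝ := 2 * (2 * (n : ℝ) + 1) ^ d * (C0 * d) with hK
  have hK0 : 0 ≤ K := by positivity
  obtain ⟨L0, hL0⟩ := exists_nat_gt (2 * K / c)
  obtain ⟨L, hL, hne, hβall⟩ := h n L0
  have hLpos : (0 : ℝ) < L := by
    have := NeZero.ne L
    positivity
  obtain ⟨m, hmV, hmE, hbij, hcard⟩ := exists_cut d L
  obtain ⟨β, haβ, hβb, hmv⟩ := mvt_gen m hbij h1 h2 ha hab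
  have hβ : 0 < β := by linarith
  have hp : ∀ i, 0 < pr β J1 J2 i := pr_pos hβ h1 h2
  have hpb : ∀ i, 0 < pr b J1 J2 i := pr_pos (by linarith) h1 h2
  set p := pr β J1 J2 with hpdef
  -- difference of edge marginals
  set D : Tor d L × Fin d → ℝ := fun e => (torGr d L).phi p (fun ω => ((ω e : ℕ) : ℝ))
        - (boxGr d 0 (fun _ => (L : ℤ) - 1)).phi p (fun ω => ((m.ext ω e : ℕ) : ℝ)) with hD
  have hD0 : ∀ e, 0 ≤ D e := by
    intro e
    have hm : Monotone (fun ω : Tor d L × Fin d → Fin 3 => ((ω e : ℕ) : ℝ)) := by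
      intro ω ω' hle
      have h3 : (ω e : ℕ) ≤ (ω' e : ℕ) := hle e
      show ((ω e : ℕ) : ℝ) ≤ ((ω' e : ℕ) : ℝ)
      exact_mod_cast h3
    have := phi_emb_mono m hp hp (RL_refl p) _ hm
    rw [hD]
    show 0 ≤ (torGr d L).phi p (fun ω => ((ω e : ℕ) : ℝ)) - (boxGr d 0 (fun _ => (L : ℤ) - 1)).phi p (fun ω => ((m.ext ω e : ℕ) : ℝ))
    linarith
  have hDin : ∀ e0, D (m.fE e0) ≤ 3 / J1 *
      ((boxGr d 0 (fun _ => (L : ℤ) - 1)).EE p (fun _ σ => dl J1 J2 (σ ((boxGr d 0 (fun _ => (L : ℤ) - 1)).s e0)) (σ ((boxGr d 0 (fun _ => (L : ℤ) - 1)).t e0)))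
        - (torGr d L).EE p (fun _ σ => dl J1 J2 (σ ((torGr d L).s (m.fE e0))) (σ ((torGr d L).t (m.fE e0))))) := by
    intro e0
    have h3 := edge_compare m hβ h1 h2 e0
    have h4 : (fun ω : BE d 0 (fun _ => (L : ℤ) - 1) → Fin 3 => ((m.ext ω (m.fE e0) : ℕ) : ℝ))
        = fun ω => ((ω e0 : ℕ) : ℝ) := by
      funext ω
      unfold Emb.ext
      rw [m.injE.extend_apply]
    have h5 : D (m.fE e0) = (torGr d L).phi p (fun ω => ((ω (m.fE e0) : ℕ) : ℝ))
        - (boxGr d 0 (fun _ => (L : ℤ) - 1)).phi p (fun ω => ((ω e0 : ℕ) : ℝ)) := by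
      rw [hD]
      show (torGr d L).phi p (fun ω => ((ω (m.fE e0) : ℕ) : ℝ))
        - (boxGr d 0 (fun _ => (L : ℤ) - 1)).phi p (fun ω => ((m.ext ω (m.fE e0) : ℕ) : ℝ)) = _
      rw [h4]
    rw [h5]
    exact h3
  have hD2 : ∀ e, D e ≤ 2 := by
    intro e
    have h3 : (torGr d L).phi p (fun ω => ((ω e : ℕ) : ℝ)) ≤ (torGr d L).phi p (fun _ => 2) := by
      apply phi_le_phi (torGr d L) hp
      intro ω
      have : (ω e : ℕ) ≤ 2 := by
        have := (ω e).isLt
        omega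
      exact_mod_cast this
    rw [phi_const (torGr d L) hp] at h3
    have h4 : (boxGr d 0 (fun _ => (L : ℤ) - 1)).phi p (fun _ => 0) ≤ (boxGr d 0 (fun _ => (L : ℤ) - 1)).phi p (fun ω => ((m.ext ω e : ℕ) : ℝ)) := by
      apply phi_le_phi (boxGr d 0 (fun _ => (L : ℤ) - 1)) hp
      intro ω
      positivity
    rw [phi_const (boxGr d 0 (fun _ => (L : ℤ) - 1)) hp] at h4
    rw [hD]
    show (torGr d L).phi p (fun ω => ((ω e : ℕ) : ℝ)) - (boxGr d 0 (fun _ => (L : ℤ) - 1)).phi p (fun ω => ((m.ext ω e : ℕ) : ℝ)) ≤ 2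
    linarith
  -- sum of D
  have hcut0 : (0 : ℝ) ≤ (Fintype.card (Tor d L × Fin d) : ℝ)
        - Fintype.card (BE d (0 : Vx d) (fun _ => (L : ℤ) - 1)) := by
    have := Fintype.card_le_of_injective m.fE m.injE
    have h3 : (Fintype.card (BE d (0 : Vx d) (fun _ => (L : ℤ) - 1)) : ℝ) ≤
      (Fintype.card (Tor d L × Fin d) : ℝ) := by exact_mod_cast this
    linarith
  set cut : ℝ := (Fintype.card (Tor d L × Fin d) : ℝ)
        - Fintype.card (BE d (0 : Vx d) (fun _ => (L : ℤ) - 1)) with hcutdef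
  have hDsum : ∑ e, D e ≤ C0 * cut := by
    have hsplit : ∑ e, D e = ∑ e ∈ Finset.univ.image m.fE, D e
        + ∑ e ∈ (Finset.univ.image m.fE)ᶜ, D e := (Finset.sum_add_sum_compl _ _).symm
    have hA : ∑ e ∈ Finset.univ.image m.fE, D e = ∑ e0, D (m.fE e0) :=
      Finset.sum_image (fun x _ y _ hxy => m.injE hxy)
    have hB : ∑ e0, D (m.fE e0) ≤ 3 / J1 * (J2 * (1 + a / (b - a)) * cut) := by
      calc ∑ e0, D (m.fE e0) ≤ ∑ e0, 3 / J1 *
          ((boxGr d 0 (fun _ => (L : ℤ) - 1)).EE p (fun _ σ => dl J1 J2 (σ ((boxGr d 0 (fun _ => (L : ℤ) - 1)).s e0)) (σ ((boxGr d 0 (fun _ => (L : ℤ) - 1)).t e0)))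
            - (torGr d L).EE p (fun _ σ => dl J1 J2 (σ ((torGr d L).s (m.fE e0))) (σ ((torGr d L).t (m.fE e0))))) :=
            Finset.sum_le_sum (fun e0 _ => hDin e0)
        _ = 3 / J1 * ∑ e0, ((boxGr d 0 (fun _ => (L : ℤ) - 1)).EE p (fun _ σ => dl J1 J2 (σ ((boxGr d 0 (fun _ => (L : ℤ) - 1)).s e0)) (σ ((boxGr d 0 (fun _ => (L : ℤ) - 1)).t e0)))
            - (torGr d L).EE p (fun _ σ => dl J1 J2 (σ ((torGr d L).s (m.fE e0))) (σ ((torGr d L).t (m.fE e0))))) := by
            rw [Finset.mul_sum]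
        _ ≤ 3 / J1 * (J2 * (1 + a / (b - a)) * cut) :=
            mul_le_mul_of_nonneg_left hmv (by positivity)
    have hC : ∑ e ∈ (Finset.univ.image m.fE)ᶜ, D e ≤ 2 * cut := by
      have hcc : ((Finset.univ.image m.fE)ᶜ.card : ℝ) = cut := by
        rw [Finset.card_compl, Nat.cast_sub (Finset.card_le_univ _),
          Finset.card_image_of_injective _ m.injE, Finset.card_univ]
      calc ∑ e ∈ (Finset.univ.image m.fE)ᶜ, D e ≤ ∑ e ∈ (Finset.univ.image m.fE)ᶜ, (2 : ℝ) :=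
            Finset.sum_le_sum (fun e _ => hD2 e)
        _ = ((Finset.univ.image m.fE)ᶜ.card : ℝ) * 2 := by
            rw [Finset.sum_const, nsmul_eq_mul]
        _ = 2 * cut := by rw [hcc]; ring
    rw [hsplit, hA, hC0]
    nlinarith [hB, hC]
  -- sum over vertices
  have hx : ∀ x : Tor d L, c - (boxGr d 0 (fun _ => (L : ℤ) - 1)).phi p (fun ω => ind (reachT 2 n x (m.ext ω)))
      ≤ ∑ e ∈ nearE n x, D e := by
    intro x
    have h3 := local_compare m hp (nearE n x) (reachT 2 n x)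
      (fun ω ω' hle hr => tr_reachT_mono 2 n x ω ω' hle hr)
      (fun ω ω' heq => reachT_local 2 n x ω ω' heq)
    have h4 := phi_reach (L := L) (d := d) hp 2 n x
    have h5 := hβall β haβ.le hβb.le
    rw [← h4] at h5
    rw [hD]
    linarith
  have hsum : ∑ x : Tor d L, (c - (boxGr d 0 (fun _ => (L : ℤ) - 1)).phi p (fun ω => ind (reachT 2 n x (m.ext ω))))
      ≤ 2 * (2 * (n : ℝ) + 1) ^ d * (C0 * cut) := by
    calc ∑ x : Tor d L, (c - (boxGr d 0 (fun _ => (L : ℤ) - 1)).phi p (fun ω => ind (reachT 2 n x (m.ext ω))))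
        ≤ ∑ x : Tor d L, ∑ e ∈ nearE n x, D e := Finset.sum_le_sum (fun x _ => hx x)
      _ = ∑ e, ∑ x ∈ Finset.univ.filter (fun x : Tor d L => e ∈ nearE n x), D e := by
          apply Finset.sum_comm'
          intro x y
          simp
      _ = ∑ e, ((Finset.univ.filter (fun x : Tor d L => e ∈ nearE n x)).card : ℝ) * D e := by
          apply Finset.sum_congr rfl
          intro e _
          rw [Finset.sum_const, nsmul_eq_mul]
      _ ≤ ∑ e, (2 * (2 * (n : ℝ) + 1) ^ d) * D e := by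
          apply Finset.sum_le_sum
          intro e _
          exact mul_le_mul_of_nonneg_right (nearE_count n e) (hD0 e)
      _ = (2 * (2 * (n : ℝ) + 1) ^ d) * ∑ e, D e := by rw [Finset.mul_sum]
      _ ≤ 2 * (2 * (n : ℝ) + 1) ^ d * (C0 * cut) :=
          mul_le_mul_of_nonneg_left hDsum (by positivity)
  -- a good vertex
  have hgood : ∃ x : Tor d L, c / 2 ≤ (boxGr d 0 (fun _ => (L : ℤ) - 1)).phi p (fun ω => ind (reachT 2 n x (m.ext ω))) := by
    by_contra hcon
    push Not at hcon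
    have h3 : ∑ x : Tor d L, c / 2 ≤
        ∑ x : Tor d L, (c - (boxGr d 0 (fun _ => (L : ℤ) - 1)).phi p (fun ω => ind (reachT 2 n x (m.ext ω)))) := by
      apply Finset.sum_le_sum
      intro x _
      have := hcon x
      linarith
    rw [Finset.sum_const, nsmul_eq_mul, Finset.card_univ] at h3
    have hcT : (Fintype.card (Tor d L) : ℝ) = (L : ℝ) ^ d := by
      simp [ZMod.card]
    rw [hcT] at h3
    have h4 : (L : ℝ) ^ d * (c / 2) ≤ K * (L : ℝ) ^ (d - 1) := by
      calc (L : ℝ) ^ d * (c / 2) ≤ 2 * (2 * (n : ℝ) + 1) ^ d * (C0 * cut) := h3.trans hsum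
        _ ≤ 2 * (2 * (n : ℝ) + 1) ^ d * (C0 * (d * (L : ℝ) ^ (d - 1))) := by
            apply mul_le_mul_of_nonneg_left _ (by positivity)
            exact mul_le_mul_of_nonneg_left hcard hC0pos.le
        _ = K * (L : ℝ) ^ (d - 1) := by rw [hK]; ring
    have h5 : (L : ℝ) ^ d = L * (L : ℝ) ^ (d - 1) := by
      rw [← pow_succ']
      congr 1
      omega
    rw [h5] at h4
    have h6 : (0 : ℝ) < (L : ℝ) ^ (d - 1) := by positivity
    have h7 : (L : ℝ) * (c / 2) ≤ K := by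
      by_contra h8
      push Not at h8
      have := mul_lt_mul_of_pos_right h8 h6
      nlinarith
    have h8 : 2 * K / c < L := lt_of_lt_of_le hL0 (by exact_mod_cast hL)
    rw [div_lt_iff₀ hc] at h8
    linarith
  obtain ⟨x, hx2⟩ := hgood
  obtain ⟨v, hv⟩ := hbij.2 x
  refine ⟨0, (fun _ => (L : ℤ) - 1), v.1, ?_⟩
  have hstep1 : (boxGr d 0 (fun _ => (L : ℤ) - 1)).phi p (fun ω => ind (reachT 2 n x (m.ext ω)))
      ≤ (boxGr d 0 (fun _ => (L : ℤ) - 1)).phi p (fun ω => ind (reachZ 2 n v.1 (bext ω))) := by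
    apply phi_le_phi (boxGr d 0 (fun _ => (L : ℤ) - 1)) hp
    intro ω
    apply ind_mono
    rintro ⟨y, hy, hcy⟩
    rw [← hv] at hcy
    obtain ⟨w, hw, hcw⟩ := tr_conn_box m ω v y hcy
    refine ⟨w.1, ?_, hcw⟩
    have h3 := tdist_cast_le L v.1 w.1
    rw [← hmV v, ← hmV w, ← hw, hv] at h3
    omega
  have hstep2 : (boxGr d 0 (fun _ => (L : ℤ) - 1)).phi p (fun ω => ind (reachZ 2 n v.1 (bext ω)))
      ≤ (boxGr d 0 (fun _ => (L : ℤ) - 1)).phi (pr b J1 J2) (fun ω => ind (reachZ 2 n v.1 (bext ω))) := by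
    apply phi_mono_p (boxGr d 0 (fun _ => (L : ℤ) - 1)) hp hpb (pr_RL hβ hβb.le h1 h2)
    intro ω ω' hle
    exact reachZ_mono 2 n v.1 (bext_mono hle)
  exact hx2.trans (hstep1.trans hstep2)

end H82AT

end S_TR
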