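import Mathlib
import Pool.Agent.H82.ATM.G0
import Pool.Agent.H82.ATM.G8

set_option autoImplicit false

/-! Ashkin-Teller critical points, part G10: this file joins several modules to save build time. -/

section S_WLD

/-! Definition of weak limits (complete file, no proofs needed). -/

set_option autoImplicit false

namespace H82AT

open MeasureTheory Filter Topology

/-- `μ` is a weak limit of the box measures along some sequence of boxes increasing to Z^d -/
def IsWL (d : ℕ) (p : Fin 3 → ℝ) (μ : Measure (Ed d → Fin 3)) : Prop :=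
  IsProbabilityMeasure μ ∧ ∃ a b : ℕ → Vx d,
    (∀ x : Vx d, ∀ᶠ n in atTop, x ∈ Finset.Icc (a n) (b n)) ∧
    ∀ (F : Finset (Ed d)) (η : Ed d → Fin 3),
      Tendsto (fun n => phiB d (a n) (b n) p (fun ω => ind (∀ e ∈ F, ω e = η e))) atTop
        (𝓝 (μ.real {ω | ∀ e ∈ F, ω e = η e}))

/-- functions of finitely many edges -/
def Loc {d : ℕ} (f : (Ed d → Fin 3) → ℝ) : Prop :=
  ∃ F : Finset (Ed d), ∀ ω ω' : Ed d → Fin 3, (∀ e ∈ F, ω e = ω' e) → f ω = f ω'

end H82AT

end S_WLD

section S_WLF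

/-! MODULE WLF: basic facts on weak limits. -/

set_option autoImplicit false

namespace H82AT

open MeasureTheory Filter Topology

/-- extension of a pattern by zero -/
noncomputable def wlf_ex {d : ℕ} (F : Finset (Ed d)) (η : ↥F → Fin 3) : Ed d → Fin 3 := by
  classical
  exact fun e => if h : e ∈ F then η ⟨e, h⟩ else 0

theorem wlf_ex_mem {d : ℕ} (F : Finset (Ed d)) (η : ↥F → Fin 3) {e : Ed d} (h : e ∈ F) :
    wlf_ex F η e = η ⟨e, h⟩ := by
  classical
  unfold wlf_ex
  simp [h]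

theorem wlf_expand {d : ℕ} {f : (Ed d → Fin 3) → ℝ} (F : Finset (Ed d))
    (hF : ∀ ω ω' : Ed d → Fin 3, (∀ e ∈ F, ω e = ω' e) → f ω = f ω') (ω : Ed d → Fin 3) :
    f ω = ∑ η : ↥F → Fin 3, f (wlf_ex F η) * ind (∀ e ∈ F, ω e = wlf_ex F η e) := by
  classical
  rw [Finset.sum_eq_single (fun e : ↥F => ω e.1)]
  · have h1 : ∀ e ∈ F, ω e = wlf_ex F (fun e : ↥F => ω e.1) e := by
      intro e he
      rw [wlf_ex_mem F _ he]
    rw [ind_true h1, mul_one]
    exact hF _ _ h1
  · intro η _ hη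
    rw [ind_false, mul_zero]
    intro h
    apply hη
    funext e
    rw [h e.1 e.2, wlf_ex_mem F η e.2]
  · intro h
    exact absurd (Finset.mem_univ _) h

theorem wlf_meas {d : ℕ} (F : Finset (Ed d)) (η : Ed d → Fin 3) :
    MeasurableSet {ω : Ed d → Fin 3 | ∀ e ∈ F, ω e = η e} := by
  have : {ω : Ed d → Fin 3 | ∀ e ∈ F, ω e = η e} = ⋂ e ∈ F, {ω : Ed d → Fin 3 | ω e = η e} := by
    ext ω
    simp
  rw [this]
  apply Finset.measurableSet_biInter
  intro e _
  have h1 : Measurable (fun ω : Ed d → Fin 3 => ω e) := measurable_pi_apply e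
  exact h1 (measurableSet_singleton (η e))

theorem wlf_ind_eq {d : ℕ} (F : Finset (Ed d)) (η : Ed d → Fin 3) :
    (fun ω : Ed d → Fin 3 => ind (∀ e ∈ F, ω e = η e))
      = Set.indicator {ω : Ed d → Fin 3 | ∀ e ∈ F, ω e = η e} (fun _ => (1 : ℝ)) := by
  funext ω
  by_cases h : ∀ e ∈ F, ω e = η e
  · rw [ind_true h, Set.indicator_of_mem (show ω ∈ {ω : Ed d → Fin 3 | ∀ e ∈ F, ω e = η e} from h)]
  · rw [ind_false h,
      Set.indicator_of_notMem (show ω ∉ {ω : Ed d → Fin 3 | ∀ e ∈ F, ω e = η e} from h)]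

theorem wlf_ind_integrable {d : ℕ} (F : Finset (Ed d)) (η : Ed d → Fin 3)
    (μ : Measure (Ed d → Fin 3)) [IsProbabilityMeasure μ] :
    Integrable (fun ω : Ed d → Fin 3 => ind (∀ e ∈ F, ω e = η e)) μ := by
  rw [wlf_ind_eq]
  exact (integrable_const (1 : ℝ)).indicator (wlf_meas F η)

theorem wlf_ind_integral {d : ℕ} (F : Finset (Ed d)) (η : Ed d → Fin 3)
    (μ : Measure (Ed d → Fin 3)) [IsProbabilityMeasure μ] :
    ∫ ω, ind (∀ e ∈ F, ω e = η e) ∂μ = μ.real {ω | ∀ e ∈ F, ω e = η e} := by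
  have h := wlf_ind_eq F η
  rw [h, integral_indicator (wlf_meas F η)]
  simp

theorem loc_integrable {d : ℕ} {f : (Ed d → Fin 3) → ℝ} (hf : Loc f)
    (μ : Measure (Ed d → Fin 3)) [IsProbabilityMeasure μ] : Integrable f μ := by
  classical
  obtain ⟨F, hF⟩ := hf
  have h1 : f = fun ω => ∑ η : ↥F → Fin 3,
      f (wlf_ex F η) * ind (∀ e ∈ F, ω e = wlf_ex F η e) := by
    funext ω
    exact wlf_expand F hF ω
  rw [h1]
  apply integrable_finsetSum
  intro η _
  exact (wlf_ind_integrable F _ μ).const_mul _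

theorem wlf_phiB_expand {d : ℕ} {p : Fin 3 → ℝ} {f : (Ed d → Fin 3) → ℝ} (F : Finset (Ed d))
    (hF : ∀ ω ω' : Ed d → Fin 3, (∀ e ∈ F, ω e = ω' e) → f ω = f ω') (a b : Vx d) :
    phiB d a b p f = ∑ η : ↥F → Fin 3,
      f (wlf_ex F η) * phiB d a b p (fun ω => ind (∀ e ∈ F, ω e = wlf_ex F η e)) := by
  classical
  unfold phiB Gr.phi
  simp only [← mul_div_assoc]
  rw [← Finset.sum_div]
  congr 1
  simp only [Finset.mul_sum]
  rw [Finset.sum_comm]
  apply Finset.sum_congr rfl
  intro ω _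
  rw [wlf_expand F hF (bext ω), Finset.mul_sum]
  apply Finset.sum_congr rfl
  intro η _
  ring

/-- a local function is a finite linear combination of cylinder indicators -/
theorem wl_tendsto {d : ℕ} {p : Fin 3 → ℝ} {μ : Measure (Ed d → Fin 3)} (hμ : IsWL d p μ) :
    ∃ a b : ℕ → Vx d, (∀ x : Vx d, ∀ᶠ n in atTop, x ∈ Finset.Icc (a n) (b n)) ∧
      ∀ f : (Ed d → Fin 3) → ℝ, Loc f →
        Tendsto (fun n => phiB d (a n) (b n) p f) atTop (𝓝 (∫ ω, f ω ∂μ)) := by
  classical
  obtain ⟨hprob, a, b, hab, hlim⟩ := hμ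
  refine ⟨a, b, hab, ?_⟩
  intro f hf
  obtain ⟨F, hF⟩ := hf
  have h1 : ∫ ω, f ω ∂μ = ∑ η : ↥F → Fin 3,
      f (wlf_ex F η) * μ.real {ω | ∀ e ∈ F, ω e = wlf_ex F η e} := by
    calc ∫ ω, f ω ∂μ = ∫ ω, ∑ η : ↥F → Fin 3,
          f (wlf_ex F η) * ind (∀ e ∈ F, ω e = wlf_ex F η e) ∂μ := by
          congr 1
          funext ω
          exact wlf_expand F hF ω
      _ = ∑ η : ↥F → Fin 3, ∫ ω, f (wlf_ex F η) * ind (∀ e ∈ F, ω e = wlf_ex F η e) ∂μ := by
          apply integral_finsetSum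
          intro η _
          exact (wlf_ind_integrable F _ μ).const_mul _
      _ = _ := by
          apply Finset.sum_congr rfl
          intro η _
          rw [integral_const_mul, wlf_ind_integral]
  rw [h1]
  have h2 : (fun n => phiB d (a n) (b n) p f) = fun n => ∑ η : ↥F → Fin 3,
      f (wlf_ex F η) * phiB d (a n) (b n) p (fun ω => ind (∀ e ∈ F, ω e = wlf_ex F η e)) := by
    funext n
    exact wlf_phiB_expand F hF (a n) (b n)
  rw [h2]
  apply tendsto_finsetSum
  intro η _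
  exact (hlim F (wlf_ex F η)).const_mul _

theorem wlf_sub {d : ℕ} {a b : ℕ → Vx d}
    (hab : ∀ x : Vx d, ∀ᶠ n in atTop, x ∈ Finset.Icc (a n) (b n)) (a' b' : Vx d) :
    ∀ᶠ n in atTop, Finset.Icc a' b' ⊆ Finset.Icc (a n) (b n) := by
  filter_upwards [hab a', hab b'] with n h1 h2
  intro x hx
  rw [Finset.mem_Icc] at *
  exact ⟨h1.1.trans hx.1, hx.2.trans h2.2⟩

theorem wl_ge {d : ℕ} {p : Fin 3 → ℝ} (hp : ∀ i, 0 < p i) {μ : Measure (Ed d → Fin 3)}
    (hμ : IsWL d p μ) (f : (Ed d → Fin 3) → ℝ) (hf : Monotone f) (hl : Loc f) (a b : Vx d) :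
    phiB d a b p f ≤ ∫ ω, f ω ∂μ := by
  obtain ⟨a', b', hab, hlim⟩ := wl_tendsto hμ
  refine ge_of_tendsto (hlim f hl) ?_
  filter_upwards [wlf_sub hab a b] with n hn
  exact phiB_mono_box hn hp hp (fun i j _ => by rw [mul_comm]) f hf

theorem wl_le {d : ℕ} {p : Fin 3 → ℝ} {μ : Measure (Ed d → Fin 3)}
    (hμ : IsWL d p μ) (f : (Ed d → Fin 3) → ℝ) (hl : Loc f) (C : ℝ)
    (hC : ∀ a b : Vx d, phiB d a b p f ≤ C) : ∫ ω, f ω ∂μ ≤ C := by
  obtain ⟨a', b', _, hlim⟩ := wl_tendsto hμ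
  exact le_of_tendsto' (hlim f hl) (fun n => hC _ _)

/-- conditional lower bound in the limit, for local functions off the box -/
theorem wl_cond {d : ℕ} {p : Fin 3 → ℝ} (hp : ∀ i, 0 < p i) {μ : Measure (Ed d → Fin 3)}
    (hμ : IsWL d p μ) (a b : Vx d) (f h : (Ed d → Fin 3) → ℝ) (hf : Monotone f)
    (hfl : Loc f) (h0 : ∀ ω, 0 ≤ h ω) (hhl : Loc h)
    (hh : ∀ ω ω' : Ed d → Fin 3,
      (∀ e, ¬ (e.1 ∈ Finset.Icc a b ∧ e.1 + Pi.single e.2 1 ∈ Finset.Icc a b) → ω e = ω' e) →
      h ω = h ω') :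
    phiB d a b p f * ∫ ω, h ω ∂μ ≤ ∫ ω, f ω * h ω ∂μ := by
  classical
  obtain ⟨a', b', hab, hlim⟩ := wl_tendsto hμ
  have hfh : Loc (fun ω => f ω * h ω) := by
    obtain ⟨F, hF⟩ := hfl
    obtain ⟨H, hH⟩ := hhl
    refine ⟨F ∪ H, ?_⟩
    intro ω ω' hω
    have e1 := hF ω ω' (fun e he => hω e (Finset.mem_union_left _ he))
    have e2 := hH ω ω' (fun e he => hω e (Finset.mem_union_right _ he))
    simp only [e1, e2]
  refine le_of_tendsto_of_tendsto ((hlim h hhl).const_mul (phiB d a b p f))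
    (hlim _ hfh) ?_
  filter_upwards [wlf_sub hab a b] with n hn
  exact phiB_cond hn hp f h hf h0 hh

end H82AT

end S_WLF

section S_WLE

/-! MODULE WLE: existence of the weak limit. -/

set_option autoImplicit false

namespace H82AT

open MeasureTheory Filter Topology

/-- the random-cluster measure of a box, as a measure on configurations on Z^d -/
noncomputable def wleM (d : ℕ) (p : Fin 3 → ℝ) (a b : Vx d) : Measure (Ed d → Fin 3) :=
  ∑ ω : BE d a b → Fin 3, ENNReal.ofReal ((boxGr d a b).W p ω / ∑ ω', (boxGr d a b).W p ω') •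
    Measure.dirac (bext ω)

theorem wle_nonneg {d : ℕ} {p : Fin 3 → ℝ} (hp : ∀ i, 0 < p i) (a b : Vx d)
    (ω : BE d a b → Fin 3) : 0 ≤ (boxGr d a b).W p ω / ∑ ω', (boxGr d a b).W p ω' :=
  div_nonneg (W_pos _ hp ω).le (Finset.sum_nonneg fun ω' _ => (W_pos _ hp ω').le)

theorem wle_apply {d : ℕ} {p : Fin 3 → ℝ} (hp : ∀ i, 0 < p i) (a b : Vx d)
    (A : Set (Ed d → Fin 3)) (hA : MeasurableSet A) :
    wleM d p a b A = ENNReal.ofReal (phiB d a b p (fun ω => ind (ω ∈ A))) := by
  unfold wleM phiB Gr.phi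
  rw [Measure.finsetSum_apply, Finset.sum_div, ENNReal.ofReal_sum_of_nonneg]
  · refine Finset.sum_congr rfl fun ω _ => ?_
    rw [Measure.smul_apply, Measure.dirac_apply' _ hA, smul_eq_mul, mul_div_right_comm,
      ENNReal.ofReal_mul (wle_nonneg hp a b ω)]
    congr 1
    beta_reduce
    by_cases h : bext ω ∈ A
    · rw [Set.indicator_of_mem h, ind_true h]; simp
    · rw [Set.indicator_of_notMem h, ind_false h]; simp
  · intro ω _
    rw [mul_div_right_comm]
    exact mul_nonneg (wle_nonneg hp a b ω) (ind_nonneg _)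

theorem wle_prob {d : ℕ} {p : Fin 3 → ℝ} (hp : ∀ i, 0 < p i) (a b : Vx d) :
    IsProbabilityMeasure (wleM d p a b) := by
  constructor
  rw [wle_apply hp a b _ MeasurableSet.univ]
  have h1 : phiB d a b p (fun ω => ind (ω ∈ (Set.univ : Set (Ed d → Fin 3)))) = 1 := by
    unfold phiB Gr.phi
    have h2 : ∀ ω : BE d a b → Fin 3, ind (bext ω ∈ (Set.univ : Set (Ed d → Fin 3))) = 1 :=
      fun ω => ind_true (Set.mem_univ _)
    simp only [h2, mul_one]
    exact div_self (Finset.sum_pos (fun ω _ => W_pos _ hp ω) ⟨fun _ => 0, Finset.mem_univ _⟩).ne'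
  rw [h1, ENNReal.ofReal_one]

theorem wle_clopen {d : ℕ} (F : Finset (Ed d)) (η : Ed d → Fin 3) :
    IsClopen {ω : Ed d → Fin 3 | ∀ e ∈ F, ω e = η e} := by
  have h : {ω : Ed d → Fin 3 | ∀ e ∈ F, ω e = η e} =
      ⋂ e ∈ F, (fun ω : Ed d → Fin 3 => ω e) ⁻¹' {η e} := by
    ext ω
    simp
  rw [h]
  exact isClopen_biInter_finset fun e _ => (isClopen_discrete _).preimage (continuous_apply e)

/-- compactness of the space of probability measures on the compact metrizable space
`Ed d → Fin 3` (Mathlib Prokhorov), or Riesz-Markov, applied to the boxes `[-n, n]^d` -/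
theorem wl_exists {d : ℕ} {p : Fin 3 → ℝ} (hp : ∀ i, 0 < p i) :
    ∃ μ : Measure (Ed d → Fin 3), IsWL d p μ := by
  let a : ℕ → Vx d := fun n _ => -(n : ℤ)
  let b : ℕ → Vx d := fun n _ => (n : ℤ)
  let μs : ℕ → ProbabilityMeasure (Ed d → Fin 3) := fun n => ⟨wleM d p (a n) (b n), wle_prob hp _ _⟩
  obtain ⟨μ, φ, hφ, hμ⟩ := CompactSpace.tendsto_subseq μs
  refine ⟨μ, inferInstance, fun n => a (φ n), fun n => b (φ n), ?_, ?_⟩
  · intro x
    have h1 : ∀ᶠ n in atTop, x ∈ Finset.Icc (a n) (b n) := by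
      filter_upwards [eventually_ge_atTop (∑ i, (x i).natAbs)] with n hn
      rw [Finset.mem_Icc]
      have h2 : ∀ i, (x i).natAbs ≤ n := fun i =>
        (Finset.single_le_sum (f := fun i => (x i).natAbs) (fun j _ => Nat.zero_le _)
          (Finset.mem_univ i)).trans hn
      constructor
      · intro i
        have := h2 i
        simp only [a]
        omega
      · intro i
        have := h2 i
        simp only [b]
        omega
    exact hφ.tendsto_atTop.eventually h1
  · intro F η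
    have hcl := wle_clopen F η
    have h1 := ProbabilityMeasure.tendsto_measure_of_isClopen_of_tendsto hμ hcl
    have h2 := (NNReal.continuous_coe.tendsto _).comp h1
    have h3 : ∀ n, phiB d (a n) (b n) p (fun ω => ind (∀ e ∈ F, ω e = η e)) =
        ((μs n {ω : Ed d → Fin 3 | ∀ e ∈ F, ω e = η e} : NNReal) : ℝ) := by
      intro n
      have h4 := wle_apply hp (a n) (b n) _ hcl.isOpen.measurableSet
      have h5 : 0 ≤ phiB d (a n) (b n) p
          (fun ω => ind (ω ∈ {ω : Ed d → Fin 3 | ∀ e ∈ F, ω e = η e})) := by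
        unfold phiB Gr.phi
        exact div_nonneg (Finset.sum_nonneg fun ω _ => mul_nonneg (W_pos _ hp ω).le (ind_nonneg _))
          (Finset.sum_nonneg fun ω' _ => (W_pos _ hp ω').le)
      change _ = (wleM d p (a n) (b n) {ω : Ed d → Fin 3 | ∀ e ∈ F, ω e = η e}).toReal
      rw [h4, ENNReal.toReal_ofReal h5]
      rfl
    simp only [h3]
    exact h2

end H82AT

end S_WLE

section S_ZOM

/-! MODULE ZOM: conditional lower bound for measurable sets. -/

set_option autoImplicit false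

namespace H82AT

open MeasureTheory Filter Topology

/-- sets depending on finitely many edges are measurable -/
theorem zom_meas {d : ℕ} (D : Set (Ed d → Fin 3)) (F : Finset (Ed d))
    (h : ∀ ω ω' : Ed d → Fin 3, (∀ e ∈ F, ω e = ω' e) → (ω ∈ D ↔ ω' ∈ D)) : MeasurableSet D := by
  let r : (Ed d → Fin 3) → (F → Fin 3) := fun ω e => ω e.1
  have hr : Measurable r := measurable_pi_lambda _ fun e => measurable_pi_apply _
  have hD : D = r ⁻¹' (r '' D) := by
    ext ω
    constructor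
    · intro hω
      exact ⟨ω, hω, rfl⟩
    · rintro ⟨ω', hω', he⟩
      exact (h ω' ω (fun e he' => congrFun he ⟨e, he'⟩)).1 hω'
  rw [hD]
  exact hr (Set.toFinite _).measurableSet

theorem zom_int {d : ℕ} {μ : Measure (Ed d → Fin 3)} [IsProbabilityMeasure μ]
    {D : Set (Ed d → Fin 3)} (hD : MeasurableSet D) : ∫ ω, ind (ω ∈ D) ∂μ = μ.real D := by
  have h1 : (fun ω => ind (ω ∈ D)) = D.indicator (fun _ => (1 : ℝ)) := by
    funext ω
    by_cases h : ω ∈ D
    · rw [ind_true h, Set.indicator_of_mem h]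
    · rw [ind_false h, Set.indicator_of_notMem h]
  rw [h1, integral_indicator_const _ hD]
  simp

/-- exhaustion by finite sets -/
theorem zom_exh (d : ℕ) : ∃ F : ℕ → Finset (Ed d), Monotone F ∧
    ∀ I : Finset (Ed d), ∃ n, I ⊆ F n := by
  classical
  let _ : Encodable (Ed d) := Encodable.ofCountable _
  let F : ℕ → Finset (Ed d) := fun n =>
    (Finset.range n).biUnion (fun k => (Encodable.decode (α := Ed d) k).toFinset)
  have hF : Monotone F := by
    intro m n hmn
    exact Finset.biUnion_subset_biUnion_of_subset_left _ (Finset.range_mono hmn)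
  refine ⟨F, hF, fun I => ?_⟩
  induction I using Finset.induction_on with
  | empty => exact ⟨0, Finset.empty_subset _⟩
  | insert e I _ ih =>
    obtain ⟨n, hn⟩ := ih
    refine ⟨max n (Encodable.encode e + 1), ?_⟩
    rw [Finset.insert_subset_iff]
    constructor
    · apply hF (le_max_right _ _)
      rw [Finset.mem_biUnion]
      exact ⟨Encodable.encode e, Finset.mem_range.2 (Nat.lt_succ_self _), by
        simp [Encodable.encodek]⟩
    · exact hn.trans (hF (le_max_left _ _))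

/-- the conditional bound for local sets off the box, as measures -/
theorem zom_loc {d : ℕ} {p : Fin 3 → ℝ} (hp : ∀ i, 0 < p i) {μ : Measure (Ed d → Fin 3)}
    (hμ : IsWL d p μ) (a b : Vx d) (A : Set (Ed d → Fin 3))
    (hA : ∀ ω ω', ω ≤ ω' → ω ∈ A → ω' ∈ A) (hAl : Loc (fun ω => ind (ω ∈ A)))
    (D : Set (Ed d → Fin 3)) (F : Finset (Ed d))
    (hD : ∀ ω ω' : Ed d → Fin 3, (∀ e ∈ F, ω e = ω' e) → (ω ∈ D ↔ ω' ∈ D))
    (hh : ∀ ω ω' : Ed d → Fin 3,
      (∀ e, ¬ (e.1 ∈ Finset.Icc a b ∧ e.1 + Pi.single e.2 1 ∈ Finset.Icc a b) → ω e = ω' e) →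
      (ω ∈ D ↔ ω' ∈ D)) :
    ENNReal.ofReal (phiB d a b p (fun ω => ind (ω ∈ A))) * μ D ≤ μ (A ∩ D) := by
  have := hμ.1
  have hind : ∀ (P Q : Prop), ind P = ind Q → (P → Q) := by
    intro P Q h hP
    by_contra hQ
    rw [ind_true hP, ind_false hQ] at h
    exact one_ne_zero h
  obtain ⟨G, hG⟩ := hAl
  have hAm : MeasurableSet A := zom_meas A G fun ω ω' h =>
    ⟨hind _ _ (hG ω ω' h), hind _ _ (hG ω ω' h).symm⟩
  have hDm : MeasurableSet D := zom_meas D F hD
  have h1 := wl_cond hp hμ a b (fun ω => ind (ω ∈ A)) (fun ω => ind (ω ∈ D))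
    (fun ω ω' h => ind_mono (hA ω ω' h)) ⟨G, hG⟩ (fun ω => ind_nonneg _)
    ⟨F, fun ω ω' h => congrArg ind (propext (hD ω ω' h))⟩
    (fun ω ω' h => congrArg ind (propext (hh ω ω' h)))
  have h2 : (fun ω : Ed d → Fin 3 => ind (ω ∈ A) * ind (ω ∈ D)) =
      fun ω => ind (ω ∈ A ∩ D) := by
    funext ω
    rw [← ind_and]
    rfl
  rw [h2, zom_int hDm, zom_int (hAm.inter hDm)] at h1
  have hc : 0 ≤ μ.real D := measureReal_nonneg
  rw [Measure.real, Measure.real] at h1
  calc ENNReal.ofReal (phiB d a b p (fun ω => ind (ω ∈ A))) * μ D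
      = ENNReal.ofReal (phiB d a b p (fun ω => ind (ω ∈ A))) * ENNReal.ofReal (μ D).toReal := by
        rw [ENNReal.ofReal_toReal (measure_ne_top μ D)]
    _ = ENNReal.ofReal (phiB d a b p (fun ω => ind (ω ∈ A)) * (μ D).toReal) := by
        rw [ENNReal.ofReal_mul' (by positivity)]
    _ ≤ ENNReal.ofReal ((μ (A ∩ D)).toReal) := ENNReal.ofReal_le_ofReal h1
    _ = μ (A ∩ D) := ENNReal.ofReal_toReal (measure_ne_top μ _)

/-- extension of `wl_cond` to all measurable sets `B` that do not depend on the edges of the box: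
clopen cylinders, then open sets by monotone limits, then outer regularity
(of the image measures on the configurations off the box) -/
theorem wl_cond_meas {d : ℕ} {p : Fin 3 → ℝ} (hp : ∀ i, 0 < p i) {μ : Measure (Ed d → Fin 3)}
    (hμ : IsWL d p μ) (a b : Vx d) (A : Set (Ed d → Fin 3))
    (hA : ∀ ω ω', ω ≤ ω' → ω ∈ A → ω' ∈ A) (hAl : Loc (fun ω => ind (ω ∈ A)))
    (B : Set (Ed d → Fin 3)) (hB : MeasurableSet B)
    (hh : ∀ ω ω' : Ed d → Fin 3,
      (∀ e, ¬ (e.1 ∈ Finset.Icc a b ∧ e.1 + Pi.single e.2 1 ∈ Finset.Icc a b) → ω e = ω' e) →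
      (ω ∈ B ↔ ω' ∈ B)) :
    phiB d a b p (fun ω => ind (ω ∈ A)) * μ.real B ≤ μ.real (A ∩ B) := by
  classical
  have := hμ.1
  set c := phiB d a b p (fun ω => ind (ω ∈ A)) with hc
  have hind : ∀ (P Q : Prop), ind P = ind Q → (P → Q) := by
    intro P Q h hP
    by_contra hQ
    rw [ind_true hP, ind_false hQ] at h
    exact one_ne_zero h
  have hAm : MeasurableSet A := by
    obtain ⟨G, hG⟩ := hAl
    exact zom_meas A G fun ω ω' h => ⟨hind _ _ (hG ω ω' h), hind _ _ (hG ω ω' h).symm⟩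
  -- erase the box
  let bx : Ed d → Prop := fun e => e.1 ∈ Finset.Icc a b ∧ e.1 + Pi.single e.2 1 ∈ Finset.Icc a b
  let P : (Ed d → Fin 3) → (Ed d → Fin 3) := fun ω e => if bx e then 0 else ω e
  have hPc : Continuous P := by
    refine continuous_pi fun e => ?_
    by_cases he : bx e
    · simp only [P, he, if_true]
      exact continuous_const
    · simp only [P, he, if_false]
      exact continuous_apply e
  have hPoff : ∀ ω e, ¬ bx e → P ω e = ω e := fun ω e he => by simp only [P, he, if_false]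
  have hPeq : ∀ ω ω' : Ed d → Fin 3, (∀ e, ¬ bx e → ω e = ω' e) → P ω = P ω' := by
    intro ω ω' h
    funext e
    by_cases he : bx e
    · simp only [P, he, if_true]
    · simp only [P, he, if_false]
      exact h e he
  have hBP : ∀ ω, P ω ∈ B ↔ ω ∈ B := fun ω => hh _ _ fun e he => hPoff ω e he
  -- open sets
  have hopen : ∀ U : Set (Ed d → Fin 3), IsOpen U →
      ENNReal.ofReal c * μ (P ⁻¹' U) ≤ μ (A ∩ P ⁻¹' U) := by
    intro U hU
    set V := P ⁻¹' U with hV
    have hVo : IsOpen V := hU.preimage hPc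
    have hVoff : ∀ ω ω' : Ed d → Fin 3, (∀ e, ¬ bx e → ω e = ω' e) → (ω ∈ V ↔ ω' ∈ V) := by
      intro ω ω' h
      rw [hV, Set.mem_preimage, Set.mem_preimage, hPeq ω ω' h]
    obtain ⟨F, hFm, hF⟩ := zom_exh d
    let Vn : ℕ → Set (Ed d → Fin 3) := fun n => {ω | ∀ ω', (∀ e ∈ F n, ω' e = ω e) → ω' ∈ V}
    have hVnm : Monotone Vn := by
      intro m n hmn ω hω ω' h
      exact hω ω' fun e he => h e (hFm hmn he)
    have hVnU : ⋃ n, Vn n = V := by
      apply Set.Subset.antisymm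
      · intro ω hω
        obtain ⟨n, hn⟩ := Set.mem_iUnion.1 hω
        exact hn ω fun _ _ => rfl
      · intro ω hω
        obtain ⟨I, u, hu, hI⟩ := isOpen_pi_iff.1 hVo ω hω
        obtain ⟨n, hn⟩ := hF I
        refine Set.mem_iUnion.2 ⟨n, fun ω' h => hI ?_⟩
        intro e he
        rw [h e (hn he)]
        exact (hu e he).2
    have hVnloc : ∀ n, ∀ ω ω' : Ed d → Fin 3, (∀ e ∈ F n, ω e = ω' e) →
        (ω ∈ Vn n ↔ ω' ∈ Vn n) := by
      intro n ω ω' h
      constructor
      · intro hω ω'' h''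
        exact hω ω'' fun e he => (h'' e he).trans (h e he).symm
      · intro hω ω'' h''
        exact hω ω'' fun e he => (h'' e he).trans (h e he)
    have hVnoff' : ∀ n, ∀ ω ω' : Ed d → Fin 3, (∀ e, ¬ bx e → ω e = ω' e) →
        ω ∈ Vn n → ω' ∈ Vn n := by
      intro n ω ω₁ h hω ω' h'
      let ω'' : Ed d → Fin 3 := fun e => if bx e then ω e else ω' e
      have h1 : ω'' ∈ V := by
        apply hω
        intro e he
        by_cases hb : bx e
        · simp only [ω'', hb, if_true]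
        · simp only [ω'', hb, if_false]
          rw [h' e he, h e hb]
      refine (hVoff ω'' ω' fun e hb => ?_).1 h1
      simp only [ω'', hb, if_false]
    have hVnoff : ∀ n, ∀ ω ω' : Ed d → Fin 3, (∀ e, ¬ bx e → ω e = ω' e) →
        (ω ∈ Vn n ↔ ω' ∈ Vn n) := fun n ω ω' h =>
      ⟨hVnoff' n ω ω' h, hVnoff' n ω' ω fun e he => (h e he).symm⟩
    have hle : ∀ n, ENNReal.ofReal c * μ (Vn n) ≤ μ (A ∩ Vn n) := fun n =>
      zom_loc hp hμ a b A hA hAl (Vn n) (F n) (hVnloc n) (hVnoff n)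
    have ht1 : Tendsto (fun n => ENNReal.ofReal c * μ (Vn n)) atTop
        (𝓝 (ENNReal.ofReal c * μ V)) := by
      apply ENNReal.Tendsto.const_mul _ (Or.inr ENNReal.ofReal_ne_top)
      have := tendsto_measure_iUnion_atTop (μ := μ) hVnm
      rwa [hVnU] at this
    refine le_of_tendsto' ht1 fun n => (hle n).trans ?_
    apply measure_mono
    apply Set.inter_subset_inter_right
    rw [← hVnU]
    exact Set.subset_iUnion _ n
  -- measurable sets
  have hmain : ENNReal.ofReal c * μ B ≤ μ (A ∩ B) := by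
    let ν : Measure (Ed d → Fin 3) := (μ.restrict A).map P
    have hν : ∀ C : Set (Ed d → Fin 3), MeasurableSet C → ν C = μ (A ∩ P ⁻¹' C) := by
      intro C hC
      rw [Measure.map_apply hPc.measurable hC, Measure.restrict_apply (hPc.measurable hC),
        Set.inter_comm]
    have : IsFiniteMeasure ν := by
      infer_instance
    apply ENNReal.le_of_forall_pos_le_add
    intro ε hε _
    obtain ⟨U, hUB, hUo, hU⟩ := Set.exists_isOpen_le_add B ν (ε := (ε : ENNReal))
      (by exact_mod_cast hε.ne')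
    have hBU : B ⊆ P ⁻¹' U := fun ω hω => hUB ((hBP ω).2 hω)
    have hPB : P ⁻¹' B = B := by
      ext ω
      exact hBP ω
    calc ENNReal.ofReal c * μ B ≤ ENNReal.ofReal c * μ (P ⁻¹' U) := by gcongr
      _ ≤ μ (A ∩ P ⁻¹' U) := hopen U hUo
      _ = ν U := (hν U hUo.measurableSet).symm
      _ ≤ ν B + ε := hU
      _ = μ (A ∩ B) + ε := by rw [hν B hB, hPB]
  by_cases hc0 : 0 ≤ c
  · have h1 := ENNReal.toReal_mono (measure_ne_top μ _) hmain
    rw [ENNReal.toReal_mul, ENNReal.toReal_ofReal hc0] at h1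
    exact h1
  · have h1 : c * μ.real B ≤ 0 := mul_nonpos_of_nonpos_of_nonneg (by linarith) measureReal_nonneg
    exact h1.trans measureReal_nonneg

end H82AT

end S_ZOM

section S_ZOI

/-! MODULE ZOI: infinite clusters. -/

set_option autoImplicit false

namespace H82AT

open MeasureTheory Filter Topology

theorem zoi_ball_finite {d : ℕ} (n : ℕ) (x : Vx d) : {y : Vx d | zdist x y < n}.Finite := by
  apply (Finset.finite_toSet
    (Finset.Icc (fun j => x j - (n : ℤ)) (fun j => x j + (n : ℤ)))).subset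
  intro y hy
  have hy' : zdist x y < n := hy
  have h0 : ∀ j, (x j - y j).natAbs < n := fun j => lt_of_le_of_lt (loc_coord_le x y j) hy'
  rw [Finset.mem_coe, Finset.mem_Icc, Pi.le_def, Pi.le_def]
  constructor <;> intro j <;> have := h0 j <;> omega

/-- infinite clusters and far-reaching events -/
theorem infinite_iff {d : ℕ} (i : ℕ) (x : Vx d) (ω : Ed d → Fin 3) :
    {y | (ZGr d).conn (lv ω i) x y}.Infinite ↔ ∀ n, reachZ i n x ω := by
  constructor
  · intro h n
    by_contra hn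
    apply h
    apply (zoi_ball_finite n x).subset
    intro y hy
    by_contra hyn
    exact hn ⟨y, not_lt.mp hyn, hy⟩
  · intro h hfin
    obtain ⟨n, hn⟩ := (hfin.image (fun y => zdist x y)).bddAbove
    obtain ⟨y, hy, hc⟩ := h (n + 1)
    have h1 : zdist x y ≤ n := hn ⟨y, hc, rfl⟩
    omega

/-- existence of an infinite cluster does not depend on finitely many edges -/
theorem inf_tail {d : ℕ} (i : ℕ) (F : Finset (Ed d)) (ω ω' : Ed d → Fin 3)
    (h : ∀ e, e ∉ F → ω e = ω' e) (hx : ∃ x, {y | (ZGr d).conn (lv ω i) x y}.Infinite) :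
    ∃ x, {y | (ZGr d).conn (lv ω' i) x y}.Infinite := by
  classical
  obtain ⟨x, hx⟩ := hx
  by_contra hno
  apply hx
  set VF : Finset (Vx d) := insert x (F.image (ZGr d).s ∪ F.image (ZGr d).t) with hVF
  have key : ∀ y, (ZGr d).conn (lv ω i) x y → ∃ v ∈ VF, (ZGr d).conn (lv ω' i) v y := by
    intro y hc
    induction hc with
    | refl => exact ⟨x, Finset.mem_insert_self _ _, Relation.ReflTransGen.refl⟩
    | @tail b c _ hbc ih =>
      obtain ⟨v, hv, hvb⟩ := ih
      obtain ⟨e, he, h1⟩ := hbc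
      by_cases heF : e ∈ F
      · refine ⟨c, ?_, Relation.ReflTransGen.refl⟩
        apply Finset.mem_insert_of_mem
        rw [Finset.mem_union]
        rcases h1 with ⟨_, h2⟩ | ⟨h2, _⟩
        · exact Or.inr (Finset.mem_image.mpr ⟨e, heF, h2⟩)
        · exact Or.inl (Finset.mem_image.mpr ⟨e, heF, h2⟩)
      · refine ⟨v, hv, Relation.ReflTransGen.tail hvb ⟨e, ?_, h1⟩⟩
        have h2 : i ≤ (ω e : ℕ) := he
        rw [h e heF] at h2
        exact h2
  have hfin : (⋃ v ∈ VF, {y | (ZGr d).conn (lv ω' i) v y}).Finite := by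
    apply VF.finite_toSet.biUnion
    intro v _
    by_contra hv
    exact hno ⟨v, hv⟩
  apply hfin.subset
  intro y hy
  obtain ⟨v, hv, hc⟩ := key y hy
  exact Set.mem_biUnion (Finset.mem_coe.mpr hv) hc

end H82AT

end S_ZOI

section S_ZO

/-! MODULE ZO: zero-one law for infinite clusters in weak limits. -/

set_option autoImplicit false

namespace H82AT

open MeasureTheory Filter Topology

/-- a set of configurations which only depends on finitely many edges is measurable -/
theorem zo_meas_of_local {d : ℕ} (A : Set (Ed d → Fin 3)) (F : Finset (Ed d))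
    (h : ∀ ω ω' : Ed d → Fin 3, (∀ e ∈ F, ω e = ω' e) → (ω ∈ A ↔ ω' ∈ A)) : MeasurableSet A := by
  have hr : Measurable (fun (ω : Ed d → Fin 3) (e : F) => ω e) :=
    measurable_pi_lambda _ (fun e => measurable_pi_apply _)
  have hA : A = (fun (ω : Ed d → Fin 3) (e : F) => ω e) ⁻¹'
      ((fun (ω : Ed d → Fin 3) (e : F) => ω e) '' A) := by
    ext ω
    constructor
    · intro hω
      exact ⟨ω, hω, rfl⟩
    · rintro ⟨ω', hω', e⟩
      refine (h ω' ω ?_).mp hω'
      intro x hx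
      exact congrFun e ⟨x, hx⟩
  rw [hA]
  exact hr (Set.Finite.measurableSet (Set.toFinite _))

theorem zo_meas_reach {d : ℕ} (i n : ℕ) (x : Vx d) :
    MeasurableSet {ω : Ed d → Fin 3 | reachZ i n x ω} := by
  obtain ⟨F, hF⟩ := reachZ_local i n x
  exact zo_meas_of_local _ F hF

theorem zo_inf_eq {d : ℕ} (i : ℕ) (x : Vx d) :
    {ω : Ed d → Fin 3 | {y | (ZGr d).conn (lv ω i) x y}.Infinite} =
      ⋂ n, {ω : Ed d → Fin 3 | reachZ i n x ω} := by
  ext ω
  rw [Set.mem_iInter]
  exact infinite_iff i x ω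

theorem zo_meas_inf {d : ℕ} (i : ℕ) (x : Vx d) :
    MeasurableSet {ω : Ed d → Fin 3 | {y | (ZGr d).conn (lv ω i) x y}.Infinite} := by
  rw [zo_inf_eq]
  exact MeasurableSet.iInter (fun n => zo_meas_reach i n x)

theorem zo_reach_anti {d : ℕ} (i : ℕ) (x : Vx d) :
    Antitone (fun n => {ω : Ed d → Fin 3 | reachZ i n x ω}) := by
  intro m n hmn ω hω
  obtain ⟨y, hy, hc⟩ := hω
  exact ⟨y, hmn.trans hy, hc⟩

theorem wl_inf {d : ℕ} {p : Fin 3 → ℝ} (hp : ∀ i, 0 < p i) {μ : Measure (Ed d → Fin 3)}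
    (hμ : IsWL d p μ) (i : ℕ) (hi : 1 ≤ i) (hP : Perc d p i) :
    ∀ᵐ ω ∂μ, ∃ x, {y | (ZGr d).conn (lv ω i) x y}.Infinite := by
  have := hμ.1
  obtain ⟨θ, hθ, hPn⟩ := hP
  set B : Set (Ed d → Fin 3) := {ω | ∃ x, {y | (ZGr d).conn (lv ω i) x y}.Infinite}ᶜ with hB
  have hBm : MeasurableSet B := by
    apply MeasurableSet.compl
    have : {ω : Ed d → Fin 3 | ∃ x, {y | (ZGr d).conn (lv ω i) x y}.Infinite} =
        ⋃ x : Vx d, {ω : Ed d → Fin 3 | {y | (ZGr d).conn (lv ω i) x y}.Infinite} := by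
      ext ω; simp
    rw [this]
    exact MeasurableSet.iUnion (fun x => zo_meas_inf i x)
  -- the decreasing events
  set A : ℕ → Set (Ed d → Fin 3) := fun n => {ω | reachZ i n 0 ω} with hA
  have key : ∀ n, θ * μ.real B ≤ μ.real (A n ∩ B) := by
    intro n
    obtain ⟨a, b, x, hx⟩ := hPn n
    have h1 : θ ≤ phiB d (a + (-x)) (b + (-x)) p (fun ω => ind (reachZ i n 0 ω)) := by
      have h2 := phiB_reach_shift a b (-x) x hp i n
      rw [add_neg_cancel] at h2
      rw [h2]
      exact hx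
    have h3 := wl_cond_meas hp hμ (a + (-x)) (b + (-x)) (A n)
      (fun ω ω' hle hω => by
        obtain ⟨y, hy, hc⟩ := hω
        exact ⟨y, hy, conn_mono _ (lv_mono hle i) hc⟩)
      (by
        obtain ⟨F, hF⟩ := reachZ_local i n (0 : Vx d)
        refine ⟨F, fun ω ω' h => ?_⟩
        have h4 := hF ω ω' h
        change ind (reachZ i n 0 ω) = ind (reachZ i n 0 ω')
        by_cases h5 : reachZ i n 0 ω
        · rw [ind_true h5, ind_true (h4.mp h5)]
        · rw [ind_false h5, ind_false (fun h6 => h5 (h4.mpr h6))])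
      B hBm
      (by
        intro ω ω' h
        set F : Finset (Ed d) := (Finset.Icc (a + (-x)) (b + (-x))) ×ˢ Finset.univ with hFd
        have h' : ∀ e, e ∉ F → ω e = ω' e := by
          intro e he
          apply h
          rintro ⟨h7, _⟩
          apply he
          rw [hFd, Finset.mem_product]
          exact ⟨h7, Finset.mem_univ _⟩
        rw [hB, Set.mem_compl_iff, Set.mem_compl_iff, not_iff_not]
        exact ⟨inf_tail i F ω ω' h', inf_tail i F ω' ω (fun e he => (h' e he).symm)⟩)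
    refine le_trans ?_ h3
    exact mul_le_mul_of_nonneg_right h1 measureReal_nonneg
  have hAm : ∀ n, MeasurableSet (A n ∩ B) := fun n => (zo_meas_reach i n 0).inter hBm
  have hlim : Tendsto (fun n => μ.real (A n ∩ B)) atTop (𝓝 (μ.real (⋂ n, (A n ∩ B)))) := by
    have h1 : Tendsto (fun n => μ (A n ∩ B)) atTop (𝓝 (μ (⋂ n, (A n ∩ B)))) := by
      apply tendsto_measure_iInter_atTop (fun n => (hAm n).nullMeasurableSet)
      · intro m n hmn ω hω
        exact ⟨zo_reach_anti i 0 hmn hω.1, hω.2⟩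
      · exact ⟨0, measure_ne_top _ _⟩
    exact (ENNReal.tendsto_toReal (measure_ne_top _ _)).comp h1
  have hempty : (⋂ n, (A n ∩ B)) = ∅ := by
    rw [Set.eq_empty_iff_forall_notMem]
    intro ω hω
    rw [Set.mem_iInter] at hω
    have h1 : {y | (ZGr d).conn (lv ω i) 0 y}.Infinite :=
      (infinite_iff i 0 ω).mpr (fun n => (hω n).1)
    exact (hω 0).2 ⟨0, h1⟩
  rw [hempty] at hlim
  have h0 : θ * μ.real B ≤ 0 := by
    have := ge_of_tendsto hlim (Eventually.of_forall key)
    simpa using this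
  have hB0 : μ.real B = 0 := by
    have h1 : 0 ≤ μ.real B := measureReal_nonneg
    nlinarith
  have hB1 : μ B = 0 := by
    rwa [measureReal_eq_zero_iff] at hB0
  exact hB1

theorem wl_fin {d : ℕ} {p : Fin 3 → ℝ} (hp : ∀ i, 0 < p i) {μ : Measure (Ed d → Fin 3)}
    (hμ : IsWL d p μ) (i : ℕ) (hi : 1 ≤ i) (hP : ¬ Perc d p i) :
    ∀ᵐ ω ∂μ, ∀ x, ¬ {y | (ZGr d).conn (lv ω i) x y}.Infinite := by
  have := hμ.1
  rw [ae_all_iff]
  intro x
  have hsmall : ∀ θ : ℝ, 0 < θ →
      μ.real {ω : Ed d → Fin 3 | {y | (ZGr d).conn (lv ω i) x y}.Infinite} ≤ θ := by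
    intro θ hθ
    have h1 : ∃ n, ∀ a b x' : Vx d, phiB d a b p (fun ω => ind (reachZ i n x' ω)) < θ := by
      by_contra hcon
      push Not at hcon
      exact hP ⟨θ, hθ, hcon⟩
    obtain ⟨n, hn⟩ := h1
    have hloc : Loc (fun ω : Ed d → Fin 3 => ind (reachZ i n x ω)) := by
      obtain ⟨F, hF⟩ := reachZ_local i n x
      refine ⟨F, fun ω ω' h => ?_⟩
      have h4 := hF ω ω' h
      change ind (reachZ i n x ω) = ind (reachZ i n x ω')
      by_cases h5 : reachZ i n x ω
      · rw [ind_true h5, ind_true (h4.mp h5)]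
      · rw [ind_false h5, ind_false (fun h6 => h5 (h4.mpr h6))]
    have h2 := wl_le hμ _ hloc θ (fun a b => (hn a b x).le)
    have h3 : ∫ ω, ind (reachZ i n x ω) ∂μ = μ.real {ω : Ed d → Fin 3 | reachZ i n x ω} := by
      have h4 : (fun ω : Ed d → Fin 3 => ind (reachZ i n x ω)) =
          ({ω : Ed d → Fin 3 | reachZ i n x ω}).indicator (fun _ => (1 : ℝ)) := by
        funext ω
        by_cases h5 : reachZ i n x ω
        · rw [ind_true h5, Set.indicator_of_mem (show ω ∈ {ω | reachZ i n x ω} from h5)]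
        · rw [ind_false h5, Set.indicator_of_notMem (show ¬ ω ∈ {ω | reachZ i n x ω} from h5)]
      rw [h4, integral_indicator (zo_meas_reach i n x), integral_const]
      simp [Measure.real]
    rw [h3] at h2
    refine le_trans (measureReal_mono ?_) h2
    intro ω hω
    exact (infinite_iff i x ω).mp hω n
  have hzero : μ.real {ω : Ed d → Fin 3 | {y | (ZGr d).conn (lv ω i) x y}.Infinite} = 0 := by
    apply le_antisymm _ measureReal_nonneg
    exact le_of_forall_gt_imp_ge_of_dense (fun θ hθ => hsmall θ hθ)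
  have h0 : μ {ω : Ed d → Fin 3 | {y | (ZGr d).conn (lv ω i) x y}.Infinite} = 0 := by
    rwa [measureReal_eq_zero_iff] at hzero
  rw [ae_iff]
  simpa using h0

end H82AT

end S_ZO
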