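import Mathlib
import Pool.Agent.H82.ATM.G0
import Pool.Agent.H82.ATM.G3
import Pool.Agent.H82.ATM.G4

set_option autoImplicit false

/-! Ashkin-Teller critical points, part G5: this file joins several modules to save build time. -/

section S_FOU

/-! MODULE FOU: characters on the torus, orthogonality, powers of the averaging operator. -/

set_option autoImplicit false

namespace H82AT

open Finset

theorem fou_re {L : ℕ} [NeZero L] (a : ZMod L) : ch a = (ZMod.stdAddChar a : ℂ).re := by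
  rw [ZMod.stdAddChar_apply, ZMod.toCircle_apply]
  have h : (2 * (Real.pi : ℂ) * Complex.I * (a.val : ℂ) / (L : ℂ))
      = ((2 * Real.pi * (a.val : ℝ) / L : ℝ) : ℂ) * Complex.I := by
    push_cast
    ring
  rw [h, Complex.exp_ofReal_mul_I_re]
  rfl

theorem fou_norm {L : ℕ} [NeZero L] (a : ZMod L) : (ZMod.stdAddChar (-a) : ℂ)
    = (starRingEnd ℂ) (ZMod.stdAddChar a : ℂ) := by
  rw [← AddChar.inv_apply_eq_conj]
  exact AddChar.map_neg_eq_inv _ _

theorem fou_map_sum {L : ℕ} [NeZero L] {ι : Type} (ψ : AddChar (ZMod L) ℂ) (s : Finset ι)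
    (f : ι → ZMod L) : ψ (∑ i ∈ s, f i) = ∏ i ∈ s, ψ (f i) := by
  classical
  induction s using Finset.induction_on with
  | empty => simp
  | insert a s ha ih => rw [Finset.sum_insert ha, Finset.prod_insert ha, AddChar.map_add_eq_mul, ih]

theorem ch_zero {L : ℕ} [NeZero L] : ch (0 : ZMod L) = 1 := by
  rw [fou_re]
  simp

theorem ch_neg {L : ℕ} [NeZero L] (a : ZMod L) : ch (-a) = ch a := by
  rw [fou_re, fou_re, fou_norm]
  simp

theorem ch_le_one {L : ℕ} (a : ZMod L) : ch a ≤ 1 := Real.cos_le_one _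

theorem neg_one_le_ch {L : ℕ} (a : ZMod L) : -1 ≤ ch a := Real.neg_one_le_cos _

theorem ch_lt_one {L : ℕ} [NeZero L] (a : ZMod L) (ha : a ≠ 0) : ch a < 1 := by
  have hL : (0 : ℝ) < L := by exact_mod_cast Nat.pos_of_ne_zero (NeZero.ne L)
  have h1 : 0 < a.val := Nat.pos_of_ne_zero (fun h => ha ((ZMod.val_eq_zero a).1 h))
  have h1' : (0 : ℝ) < (a.val : ℝ) := by exact_mod_cast h1
  have h2 : (a.val : ℝ) < L := by exact_mod_cast ZMod.val_lt a
  have hpi := Real.pi_pos
  have h3 : 0 < 2 * Real.pi * (a.val : ℝ) / L := by positivity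
  have h4 : 2 * Real.pi * (a.val : ℝ) / L < 2 * Real.pi := by
    rw [div_lt_iff₀ hL]
    exact mul_lt_mul_of_pos_left h2 (by positivity)
  refine lt_of_le_of_ne (ch_le_one a) ?_
  intro h
  have h5 := (Real.cos_eq_one_iff_of_lt_of_lt (by linarith) h4).1 h
  linarith

theorem ch_add_sub {L : ℕ} [NeZero L] (a b : ZMod L) : ch (a + b) + ch (a - b) = 2 * ch a * ch b := by
  rw [fou_re, fou_re, fou_re, fou_re, sub_eq_add_neg, AddChar.map_add_eq_mul,
    AddChar.map_add_eq_mul, fou_norm b]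
  simp only [Complex.mul_re, Complex.conj_re, Complex.conj_im]
  ring

theorem ch_sum_one {L : ℕ} [NeZero L] (x : ZMod L) :
    ∑ k : ZMod L, ch (k * x) = if x = 0 then (L : ℝ) else 0 := by
  have h := AddChar.sum_mulShift x (ZMod.isPrimitive_stdAddChar L)
  have h2 := congrArg Complex.re h
  rw [Complex.re_sum] at h2
  simp only [fou_re]
  rw [h2]
  by_cases hx : x = 0
  · simp [hx]
  · simp [hx]

theorem fou_sumC {L : ℕ} [NeZero L] (x : ZMod L) :
    ∑ k : ZMod L, (ZMod.stdAddChar (k * x) : ℂ) = if x = 0 then (L : ℂ) else 0 := by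
  have h := AddChar.sum_mulShift x (ZMod.isPrimitive_stdAddChar L)
  rw [h]
  by_cases hx : x = 0
  · simp [hx]
  · simp [hx]

theorem ch_orth {d L : ℕ} [NeZero L] (x : Tor d L) :
    ∑ k : Tor d L, ch (∑ i, k i * x i) = if x = 0 then (L : ℝ) ^ d else 0 := by
  have h : ∑ k : Tor d L, (ZMod.stdAddChar (∑ i, k i * x i) : ℂ)
      = if x = 0 then (L : ℂ) ^ d else 0 := by
    have h1 : ∀ k : Tor d L, (ZMod.stdAddChar (∑ i, k i * x i) : ℂ)
        = ∏ i, (ZMod.stdAddChar (k i * x i) : ℂ) := by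
      intro k
      exact fou_map_sum _ _ _
    simp only [h1]
    rw [← Fintype.prod_sum (fun (i : Fin d) (j : ZMod L) => (ZMod.stdAddChar (j * x i) : ℂ))]
    simp only [fou_sumC]
    by_cases hx : x = 0
    · simp [hx]
    · rw [if_neg hx]
      obtain ⟨i, hi⟩ : ∃ i, x i ≠ 0 := by
        by_contra hcon
        push Not at hcon
        exact hx (funext hcon)
      exact Finset.prod_eq_zero (Finset.mem_univ i) (if_neg hi)
  have h2 := congrArg Complex.re h
  rw [Complex.re_sum] at h2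
  simp only [fou_re]
  rw [h2]
  by_cases hx : x = 0
  · rw [if_pos hx, if_pos hx]
    have : ((L : ℂ) ^ d) = (((L : ℝ) ^ d : ℝ) : ℂ) := by push_cast; rfl
    rw [this, Complex.ofReal_re]
  · rw [if_neg hx, if_neg hx]
    rfl

theorem Dh_le_one {d L : ℕ} (k : Tor d L) : Dh k ≤ 1 := by
  unfold Dh
  rcases Nat.eq_zero_or_pos d with hd | hd
  · subst hd
    simp
  · have hd' : (0 : ℝ) < d := by exact_mod_cast hd
    rw [div_le_one hd']
    calc ∑ i, ch (k i) ≤ ∑ _i : Fin d, (1 : ℝ) := Finset.sum_le_sum (fun i _ => ch_le_one _)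
      _ = d := by simp

theorem neg_one_le_Dh {d L : ℕ} (k : Tor d L) : -1 ≤ Dh k := by
  unfold Dh
  rcases Nat.eq_zero_or_pos d with hd | hd
  · subst hd
    simp
  · have hd' : (0 : ℝ) < d := by exact_mod_cast hd
    rw [le_div_iff₀ hd']
    calc (-1 : ℝ) * d = ∑ _i : Fin d, (-1 : ℝ) := by simp
      _ ≤ ∑ i, ch (k i) := Finset.sum_le_sum (fun i _ => neg_one_le_ch _)

theorem Dh_lt_one {d L : ℕ} [NeZero L] (k : Tor d L) (hk : k ≠ 0) : Dh k < 1 := by
  obtain ⟨i, hi⟩ : ∃ i, k i ≠ 0 := by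
    by_contra hcon
    push Not at hcon
    exact hk (funext hcon)
  have hd : 0 < d := Nat.pos_of_ne_zero (fun h => by subst h; exact i.elim0)
  have hd' : (0 : ℝ) < d := by exact_mod_cast hd
  unfold Dh
  rw [div_lt_one hd']
  calc ∑ i, ch (k i) < ∑ _i : Fin d, (1 : ℝ) :=
        Finset.sum_lt_sum (fun i _ => ch_le_one _) ⟨i, Finset.mem_univ i, ch_lt_one _ hi⟩
    _ = d := by simp

theorem fou_shift_add {d L : ℕ} (k y x : Tor d L) (j : Fin d) :
    ∑ i, k i * ((x + (Pi.single j 1 : Tor d L)) i - y i) = (∑ i, k i * (x i - y i)) + k j := by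
  have h : ∀ i, k i * ((x + (Pi.single j 1 : Tor d L)) i - y i)
      = k i * (x i - y i) + (if i = j then k j else 0) := by
    intro i
    by_cases hij : i = j
    · subst hij
      simp only [Pi.add_apply, Pi.single_eq_same, if_true]
      ring
    · simp only [Pi.add_apply, Pi.single_eq_of_ne hij, if_neg hij]
      ring
  rw [Finset.sum_congr rfl (fun i _ => h i), Finset.sum_add_distrib]
  simp

theorem fou_shift_sub {d L : ℕ} (k y x : Tor d L) (j : Fin d) :
    ∑ i, k i * ((x - (Pi.single j 1 : Tor d L)) i - y i) = (∑ i, k i * (x i - y i)) - k j := by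
  have h : ∀ i, k i * ((x - (Pi.single j 1 : Tor d L)) i - y i)
      = k i * (x i - y i) - (if i = j then k j else 0) := by
    intro i
    by_cases hij : i = j
    · subst hij
      simp only [Pi.sub_apply, Pi.single_eq_same, if_true]
      ring
    · simp only [Pi.sub_apply, Pi.single_eq_of_ne hij, if_neg hij]
      ring
  rw [Finset.sum_congr rfl (fun i _ => h i), Finset.sum_sub_distrib]
  simp

theorem avg_ch {d L : ℕ} [NeZero L] (k y x : Tor d L) :
    avg (fun z : Tor d L => ch (∑ i, k i * (z i - y i))) x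
      = Dh k * ch (∑ i, k i * (x i - y i)) := by
  unfold avg Dh
  beta_reduce
  have h : ∀ j : Fin d, ch (∑ i, k i * ((x + (Pi.single j 1 : Tor d L)) i - y i))
      + ch (∑ i, k i * ((x - (Pi.single j 1 : Tor d L)) i - y i))
      = 2 * ch (∑ i, k i * (x i - y i)) * ch (k j) := by
    intro j
    rw [fou_shift_add, fou_shift_sub, ch_add_sub]
  rw [Finset.sum_congr rfl (fun j _ => h j), ← Finset.mul_sum]
  rcases Nat.eq_zero_or_pos d with hd | hd
  · subst hd
    simp
  · have hd' : (d : ℝ) ≠ 0 := by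
      have : (0 : ℝ) < d := by exact_mod_cast hd
      exact this.ne'
    field_simp

/-- linearity of the averaging operator -/
theorem fou_avg_sum {d L : ℕ} {ι : Type} (s : Finset ι) (c : ι → ℝ) (f : ι → Tor d L → ℝ)
    (x : Tor d L) :
    avg (fun z => ∑ k ∈ s, c k * f k z) x = ∑ k ∈ s, c k * avg (f k) x := by
  unfold avg
  simp only [← Finset.sum_add_distrib]
  rw [Finset.sum_comm, Finset.sum_div]
  apply Finset.sum_congr rfl
  intro k _
  rw [mul_div_assoc', Finset.mul_sum]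
  congr 1
  apply Finset.sum_congr rfl
  intro i _
  ring

/-- `D^r δ_y`, `r`-fold average of the delta function -/
theorem iter_delta {d L : ℕ} [NeZero L] (hd : 1 ≤ d) (r : ℕ) (y x : Tor d L) :
    (avg^[r] (fun z : Tor d L => if z = y then (1 : ℝ) else 0)) x
      = (∑ k : Tor d L, (Dh k) ^ r * ch (∑ i, k i * (x i - y i))) / (L : ℝ) ^ d := by
  have hL : (L : ℝ) ^ d ≠ 0 := by
    have : (0 : ℝ) < L := by exact_mod_cast Nat.pos_of_ne_zero (NeZero.ne L)
    positivity
  induction r generalizing x with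
  | zero =>
    simp only [Function.iterate_zero, id_eq, pow_zero, one_mul]
    have h := ch_orth (fun i => x i - y i)
    rw [h]
    by_cases hxy : x = y
    · subst hxy
      have : (fun i => x i - x i) = (0 : Tor d L) := by
        funext i; simp
      rw [this]
      simp [hL]
    · have : (fun i => x i - y i) ≠ (0 : Tor d L) := by
        intro h0
        apply hxy
        funext i
        have := congrFun h0 i
        simpa [sub_eq_zero] using this
      rw [if_neg hxy, if_neg this]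
      simp
  | succ r ih =>
    rw [Function.iterate_succ_apply']
    have h1 : (avg^[r] (fun z : Tor d L => if z = y then (1 : ℝ) else 0))
        = fun z => ∑ k : Tor d L, ((Dh k) ^ r / (L : ℝ) ^ d)
            * ch (∑ i, k i * (z i - y i)) := by
      funext z
      rw [ih z, Finset.sum_div]
      apply Finset.sum_congr rfl
      intro k _
      ring
    rw [h1, fou_avg_sum, Finset.sum_div]
    apply Finset.sum_congr rfl
    intro k _
    rw [avg_ch]
    ring

end H82AT

end S_FOU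

section S_GRF

/-! MODULE GRF: basic properties of the Green function. -/

set_option autoImplicit false

namespace H82AT

open Finset

theorem grf_Lpos {d L : ℕ} [NeZero L] : (0 : ℝ) < (L : ℝ) ^ d := by
  have : (0 : ℝ) < L := by exact_mod_cast Nat.pos_of_ne_zero (NeZero.ne L)
  positivity

theorem Gf_sum {d L : ℕ} [NeZero L] : ∑ x : Tor d L, Gf x = 0 := by
  unfold Gf
  rw [← Finset.sum_div, Finset.sum_comm]
  rw [div_eq_zero_iff]
  left
  apply Finset.sum_eq_zero
  intro k hk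
  rw [← Finset.sum_div, div_eq_zero_iff]
  left
  have h := ch_orth (d := d) k
  rw [if_neg (Finset.ne_of_mem_erase hk)] at h
  rw [← h]
  apply Finset.sum_congr rfl
  intro x _
  congr 1
  apply Finset.sum_congr rfl
  intro i _
  ring

theorem Gf_neg {d L : ℕ} [NeZero L] (x : Tor d L) : Gf (-x) = Gf x := by
  unfold Gf
  congr 1
  apply Finset.sum_congr rfl
  intro k _
  have : (∑ i, k i * (-x) i) = -∑ i, k i * x i := by
    rw [← Finset.sum_neg_distrib]
    apply Finset.sum_congr rfl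
    intro i _
    rw [Pi.neg_apply]
    ring
  rw [this, ch_neg]

theorem grf_form {d L : ℕ} [NeZero L] (y : Tor d L) :
    (fun z : Tor d L => Gf (z - y)) = fun z =>
      ∑ k ∈ (Finset.univ : Finset (Tor d L)).erase 0,
        (1 / ((1 - Dh k) * (L : ℝ) ^ d)) * ch (∑ i, k i * (z i - y i)) := by
  funext z
  unfold Gf
  rw [Finset.sum_div]
  apply Finset.sum_congr rfl
  intro k _
  rw [div_div, div_eq_mul_inv, one_div, mul_comm]
  rfl

theorem grf_avg {d L : ℕ} [NeZero L] (y : Tor d L) (x : Tor d L) :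
    avg (fun z : Tor d L => Gf (z - y)) x =
      ∑ k ∈ (Finset.univ : Finset (Tor d L)).erase 0,
        (Dh k / ((1 - Dh k) * (L : ℝ) ^ d)) * ch (∑ i, k i * (x i - y i)) := by
  rw [grf_form, fou_avg_sum]
  apply Finset.sum_congr rfl
  intro k _
  rw [avg_ch]
  ring

theorem Lap_Gf {d L : ℕ} [NeZero L] (hd : 1 ≤ d) (y x : Tor d L) :
    Lap (fun z : Tor d L => Gf (z - y)) x = (if x = y then 1 else 0) - 1 / (L : ℝ) ^ d := by
  have hLd := (grf_Lpos (d := d) (L := L))
  unfold Lap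
  rw [grf_avg, grf_form]
  beta_reduce
  rw [← Finset.sum_sub_distrib]
  have h : ∀ k ∈ (Finset.univ : Finset (Tor d L)).erase 0,
      (1 / ((1 - Dh k) * (L : ℝ) ^ d)) * ch (∑ i, k i * (x i - y i))
        - (Dh k / ((1 - Dh k) * (L : ℝ) ^ d)) * ch (∑ i, k i * (x i - y i))
      = ch (∑ i, k i * (x i - y i)) / (L : ℝ) ^ d := by
    intro k hk
    have h1 : (1 - Dh k) ≠ 0 := by
      have := Dh_lt_one k (Finset.ne_of_mem_erase hk)
      linarith
    field_simp
  rw [Finset.sum_congr rfl h, ← Finset.sum_div]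
  have h2 := ch_orth (fun i => x i - y i)
  rw [← Finset.add_sum_erase _ _ (Finset.mem_univ (0 : Tor d L))] at h2
  have h3 : ch (∑ i, (0 : Tor d L) i * (x i - y i)) = 1 := by
    simp [ch_zero]
  rw [h3] at h2
  have h4 : ∑ k ∈ (Finset.univ : Finset (Tor d L)).erase 0, ch (∑ i, k i * (x i - y i))
      = (if (fun i => x i - y i) = (0 : Tor d L) then (L : ℝ) ^ d else 0) - 1 := by
    rw [← h2]; ring
  rw [h4, sub_div]
  congr 1
  by_cases hxy : x = y
  · subst hxy
    have : (fun i => x i - x i) = (0 : Tor d L) := by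
      funext i; simp
    rw [this]
    simp [hLd.ne']
  · have : (fun i => x i - y i) ≠ (0 : Tor d L) := by
      intro h0
      apply hxy
      funext i
      have := congrFun h0 i
      simpa [sub_eq_zero] using this
    rw [if_neg hxy, if_neg this]
    simp

/-- `avg avg G (0) = RR 2` -/
theorem avg_avg_Gf {d L : ℕ} [NeZero L] (hd : 1 ≤ d) (y : Tor d L) :
    avg (avg (fun z : Tor d L => Gf (z - y))) y = RR d L 2 := by
  have h : avg (fun z : Tor d L => Gf (z - y)) = fun x =>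
      ∑ k ∈ (Finset.univ : Finset (Tor d L)).erase 0,
        (Dh k / ((1 - Dh k) * (L : ℝ) ^ d)) * ch (∑ i, k i * (x i - y i)) := by
    funext x
    exact grf_avg y x
  rw [h, fou_avg_sum]
  unfold RR
  rw [Finset.sum_div]
  apply Finset.sum_congr rfl
  intro k _
  rw [avg_ch]
  have h3 : ch (∑ i, k i * (y i - y i)) = 1 := by
    simp [ch_zero]
  rw [h3, mul_one, div_div]
  ring

end H82AT

end S_GRF

section S_FAR

/-! MODULE FAR: bounds of the Green function by telescoping. -/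

set_option autoImplicit false

namespace H82AT

open Finset

theorem far_Dh_zero {d L : ℕ} [NeZero L] (hd : 1 ≤ d) : Dh (0 : Tor d L) = 1 := by
  unfold Dh
  simp only [Pi.zero_apply, ch_zero, Finset.sum_const, Finset.card_univ, Fintype.card_fin,
    nsmul_eq_mul, mul_one]
  have : (d : ℝ) ≠ 0 := by
    have : (1 : ℝ) ≤ d := by exact_mod_cast hd
    linarith
  exact div_self this

theorem far_N_pos (d L : ℕ) [NeZero L] : (0 : ℝ) < (L : ℝ) ^ d := by
  have : (0 : ℝ) < L := by exact_mod_cast Nat.pos_of_ne_zero (NeZero.ne L)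
  positivity

theorem far_avg_nonneg {d L : ℕ} (f : Tor d L → ℝ) (hf : ∀ x, 0 ≤ f x) (x : Tor d L) :
    0 ≤ avg f x := by
  unfold avg
  apply div_nonneg
  · exact Finset.sum_nonneg (fun i _ => add_nonneg (hf _) (hf _))
  · positivity

theorem far_iter_nonneg {d L : ℕ} (f : Tor d L → ℝ) (hf : ∀ x, 0 ≤ f x) (r : ℕ) (x : Tor d L) :
    0 ≤ (avg^[r] f) x := by
  induction r generalizing x with
  | zero => exact hf x
  | succ r ih =>
    rw [Function.iterate_succ_apply']
    exact far_avg_nonneg _ ih x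

theorem far_abs_ch {L : ℕ} (a : ZMod L) : |ch a| ≤ 1 := abs_le.2 ⟨neg_one_le_ch a, ch_le_one a⟩

/-- telescoping with `D` : `1/(1-D) = 1 + D + D^2 + D^3 + D^4/(1-D)` -/
theorem Gf_exp4 {d L : ℕ} [NeZero L] (hd : 1 ≤ d) (x y : Tor d L) :
    |Gf (x - y)| ≤ (∑ r ∈ Finset.range 4,
        (avg^[r] (fun z : Tor d L => if z = y then (1 : ℝ) else 0)) x)
      + 4 / (L : ℝ) ^ d + RR d L 4 := by
  have hN := far_N_pos d L
  set c : Tor d L → ℝ := fun k => ch (∑ i, k i * (x i - y i)) with hc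
  have hc0 : c 0 = 1 := by
    simp only [hc, Pi.zero_apply, zero_mul, Finset.sum_const_zero, ch_zero]
  have hD0 := far_Dh_zero (d := d) (L := L) hd
  have e1 : ∀ r : ℕ, ∑ k ∈ (Finset.univ : Finset (Tor d L)).erase 0, (Dh k) ^ r * c k =
      (L : ℝ) ^ d * (avg^[r] (fun z : Tor d L => if z = y then (1 : ℝ) else 0)) x - 1 := by
    intro r
    rw [iter_delta hd r y x, mul_div_cancel₀ _ hN.ne']
    have h1 := Finset.add_sum_erase (Finset.univ : Finset (Tor d L))
      (fun k => (Dh k) ^ r * c k) (Finset.mem_univ 0)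
    rw [← h1]
    simp only [hD0, hc0, one_pow, mul_one]
    ring
  have e2 : Gf (x - y) = (∑ r ∈ Finset.range 4,
      ((avg^[r] (fun z : Tor d L => if z = y then (1 : ℝ) else 0)) x - 1 / (L : ℝ) ^ d)) +
      (∑ k ∈ (Finset.univ : Finset (Tor d L)).erase 0, (Dh k) ^ 4 * c k / (1 - Dh k)) /
        (L : ℝ) ^ d := by
    have h1 : ∀ r, (avg^[r] (fun z : Tor d L => if z = y then (1 : ℝ) else 0)) x -
        1 / (L : ℝ) ^ d =
        (∑ k ∈ (Finset.univ : Finset (Tor d L)).erase 0, (Dh k) ^ r * c k) / (L : ℝ) ^ d := by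
      intro r
      rw [e1 r]
      field_simp
    simp only [h1]
    rw [← Finset.sum_div, ← add_div]
    unfold Gf
    congr 1
    rw [Finset.sum_comm, ← Finset.sum_add_distrib]
    refine Finset.sum_congr rfl (fun k hk => ?_)
    have hk0 : k ≠ 0 := (Finset.mem_erase.1 hk).1
    have h2 : (1 - Dh k) ≠ 0 := by
      have := Dh_lt_one k hk0
      linarith
    have h3 : ch (∑ i, k i * (x - y) i) = c k := rfl
    rw [h3]
    simp only [Finset.sum_range_succ, Finset.sum_range_zero]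
    field_simp
    ring
  rw [e2]
  have h5 : |(∑ k ∈ (Finset.univ : Finset (Tor d L)).erase 0, (Dh k) ^ 4 * c k / (1 - Dh k)) /
        (L : ℝ) ^ d| ≤ RR d L 4 := by
    unfold RR
    rw [abs_div, abs_of_pos hN]
    apply div_le_div_of_nonneg_right _ hN.le
    refine (Finset.abs_sum_le_sum_abs _ _).trans (Finset.sum_le_sum (fun k hk => ?_))
    have hk0 : k ≠ 0 := (Finset.mem_erase.1 hk).1
    have h2 : 0 < 1 - Dh k := by
      have := Dh_lt_one k hk0
      linarith
    rw [abs_div, abs_of_pos h2]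
    apply div_le_div_of_nonneg_right _ h2.le
    rw [abs_mul, abs_of_nonneg (by positivity : (0 : ℝ) ≤ (Dh k) ^ 4)]
    exact mul_le_of_le_one_right (by positivity) (far_abs_ch _)
  have h6 : |∑ r ∈ Finset.range 4,
      ((avg^[r] (fun z : Tor d L => if z = y then (1 : ℝ) else 0)) x - 1 / (L : ℝ) ^ d)| ≤
      (∑ r ∈ Finset.range 4,
        (avg^[r] (fun z : Tor d L => if z = y then (1 : ℝ) else 0)) x) + 4 / (L : ℝ) ^ d := by
    refine (Finset.abs_sum_le_sum_abs _ _).trans ?_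
    have h7 : (∑ r ∈ Finset.range 4,
        (avg^[r] (fun z : Tor d L => if z = y then (1 : ℝ) else 0)) x) + 4 / (L : ℝ) ^ d =
        ∑ r ∈ Finset.range 4,
        ((avg^[r] (fun z : Tor d L => if z = y then (1 : ℝ) else 0)) x + 1 / (L : ℝ) ^ d) := by
      rw [Finset.sum_add_distrib]
      congr 1
      simp
      ring
    rw [h7]
    refine Finset.sum_le_sum (fun r _ => ?_)
    have h8 : 0 ≤ (avg^[r] (fun z : Tor d L => if z = y then (1 : ℝ) else 0)) x := by
      apply far_iter_nonneg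
      intro z
      split_ifs <;> norm_num
    have h9 : 0 ≤ 1 / (L : ℝ) ^ d := by positivity
    rw [abs_le]
    constructor <;> linarith
  calc |_ + _| ≤ _ := abs_add_le _ _
    _ ≤ _ := add_le_add h6 h5

/-- the lazy walk -/
noncomputable def far_lz {d L : ℕ} (f : Tor d L → ℝ) (x : Tor d L) : ℝ := (f x + avg f x) / 2

theorem far_lz_apply {d L : ℕ} (f : Tor d L → ℝ) (x : Tor d L) :
    far_lz f x = (f x + avg f x) / 2 := rfl

theorem far_avg_lin {d L : ℕ} {ι : Type} (s : Finset ι) (a : ι → ℝ) (φ : ι → Tor d L → ℝ)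
    (N : ℝ) (x : Tor d L) :
    avg (fun z => (∑ k ∈ s, a k * φ k z) / N) x = (∑ k ∈ s, a k * avg (φ k) x) / N := by
  unfold avg
  have h1 : ∀ i : Fin d, (∑ k ∈ s, a k * φ k (x + Pi.single i 1)) / N +
      (∑ k ∈ s, a k * φ k (x - Pi.single i 1)) / N =
      ∑ k ∈ s, a k * (φ k (x + Pi.single i 1) + φ k (x - Pi.single i 1)) / N := by
    intro i
    rw [Finset.sum_div, Finset.sum_div, ← Finset.sum_add_distrib]
    refine Finset.sum_congr rfl (fun k _ => ?_)
    ring
  rw [Finset.sum_congr rfl (fun i _ => h1 i), Finset.sum_comm, Finset.sum_div, Finset.sum_div]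
  refine Finset.sum_congr rfl (fun k _ => ?_)
  rw [← Finset.sum_div, ← Finset.mul_sum]
  ring

theorem far_lz_iter {d L : ℕ} [NeZero L] (i : ℕ) (x : Tor d L) :
    (far_lz^[i] (fun z : Tor d L => if z = 0 then (1 : ℝ) else 0)) x =
      (∑ k : Tor d L, ((1 + Dh k) / 2) ^ i * ch (∑ j, k j * x j)) / (L : ℝ) ^ d := by
  have hN := far_N_pos d L
  induction i generalizing x with
  | zero =>
    simp only [Function.iterate_zero, id_eq, pow_zero, one_mul]
    rw [ch_orth]
    split_ifs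
    · rw [div_self hN.ne']
    · rw [zero_div]
  | succ i ih =>
    rw [Function.iterate_succ_apply']
    have hfun : (far_lz^[i] (fun z : Tor d L => if z = 0 then (1 : ℝ) else 0)) =
        fun z => (∑ k : Tor d L, ((1 + Dh k) / 2) ^ i * (fun k z => ch (∑ j, k j * z j)) k z) /
          (L : ℝ) ^ d := funext ih
    rw [hfun, far_lz_apply, far_avg_lin, ← add_div, ← Finset.sum_add_distrib, div_right_comm, Finset.sum_div]
    congr 1
    refine Finset.sum_congr rfl (fun k _ => ?_)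
    have h1 : avg (fun z : Tor d L => ch (∑ j, k j * z j)) x = Dh k * ch (∑ j, k j * x j) := by
      have h2 := avg_ch k 0 x
      simpa using h2
    rw [h1, pow_succ]
    ring

theorem far_supp {d L : ℕ} [NeZero L] (i : ℕ) (x : Tor d L) (h : i < tdist 0 x) :
    (far_lz^[i] (fun z : Tor d L => if z = 0 then (1 : ℝ) else 0)) x = 0 := by
  induction i generalizing x with
  | zero =>
    simp only [Function.iterate_zero, id_eq]
    rw [if_neg]
    rintro rfl
    rw [tdist_self] at h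
    exact lt_irrefl _ h
  | succ i ih =>
    rw [Function.iterate_succ_apply', far_lz_apply, ih x (by omega)]
    have h0 : avg (far_lz^[i] (fun z : Tor d L => if z = 0 then (1 : ℝ) else 0)) x = 0 := by
      unfold avg
      have h1 : ∀ j : Fin d, (far_lz^[i] (fun z : Tor d L => if z = 0 then (1 : ℝ) else 0))
          (x + Pi.single j 1) +
          (far_lz^[i] (fun z : Tor d L => if z = 0 then (1 : ℝ) else 0)) (x - Pi.single j 1) =
          0 := by
        intro j
        have h2 := tdist_step x j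
        have h3 := tdist_step (x - Pi.single j 1) j
        rw [sub_add_cancel] at h3
        have h4 := tdist_tri 0 (x + Pi.single j 1) x
        have h5 := tdist_tri 0 (x - Pi.single j 1) x
        rw [tdist_comm (x + Pi.single j 1) x] at h4
        rw [ih _ (by omega), ih _ (by omega), add_zero]
      rw [Finset.sum_congr rfl (fun j _ => h1 j), Finset.sum_const_zero, zero_div]
    rw [h0]
    norm_num

theorem far_pow (t : ℝ) (h0 : 0 ≤ t) (h1 : t ≤ 1) (r : ℕ) :
    t ^ r * (1 - t) ≤ 1 / (r + 1) := by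
  have hr : (0 : ℝ) < r + 1 := by positivity
  rw [le_div_iff₀ hr]
  have h2 : ((r : ℝ) + 1) * t ^ r ≤ ∑ i ∈ Finset.range (r + 1), t ^ i := by
    have : ∑ i ∈ Finset.range (r + 1), t ^ r ≤ ∑ i ∈ Finset.range (r + 1), t ^ i := by
      refine Finset.sum_le_sum (fun i hi => ?_)
      exact pow_le_pow_of_le_one h0 h1 (by
        have := Finset.mem_range.1 hi
        omega)
    simpa using this
  have h3 : (∑ i ∈ Finset.range (r + 1), t ^ i) * (1 - t) = 1 - t ^ (r + 1) := by
    have := geom_sum_mul t (r + 1)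
    linarith
  have h4 : 0 ≤ t ^ (r + 1) := by positivity
  calc t ^ r * (1 - t) * (r + 1) = ((r : ℝ) + 1) * t ^ r * (1 - t) := by ring
    _ ≤ (∑ i ∈ Finset.range (r + 1), t ^ i) * (1 - t) :=
        mul_le_mul_of_nonneg_right h2 (by linarith)
    _ ≤ 1 := by rw [h3]; linarith

/-- telescoping with the lazy walk `(1 + D)/2`, whose `i`-th power vanishes at distance `> i` -/
theorem Gf_far {d L : ℕ} [NeZero L] (hd : 1 ≤ d) (r : ℕ) (x : Tor d L)
    (h : r ≤ tdist 0 x) :
    |Gf x| ≤ r / (2 * (L : ℝ) ^ d) + 2 * MM d L / (r + 1) := by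
  have hN := far_N_pos d L
  set c : Tor d L → ℝ := fun k => ch (∑ i, k i * x i) with hc
  have hc0 : c 0 = 1 := by
    simp only [hc, Pi.zero_apply, zero_mul, Finset.sum_const_zero, ch_zero]
  have hD0 := far_Dh_zero (d := d) (L := L) hd
  have e1 : ∀ i : ℕ, i < r →
      ∑ k ∈ (Finset.univ : Finset (Tor d L)).erase 0, ((1 + Dh k) / 2) ^ i * c k = -1 := by
    intro i hi
    have h1 := far_lz_iter i x
    rw [far_supp i x (by omega)] at h1
    have h2 : ∑ k : Tor d L, ((1 + Dh k) / 2) ^ i * c k = 0 := by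
      have h3 := h1.symm
      rw [div_eq_zero_iff] at h3
      rcases h3 with h3 | h3
      · exact h3
      · exact absurd h3 hN.ne'
    have h4 := Finset.add_sum_erase (Finset.univ : Finset (Tor d L))
      (fun k => ((1 + Dh k) / 2) ^ i * c k) (Finset.mem_univ 0)
    have h5 : ((1 + Dh (0 : Tor d L)) / 2) ^ i * c 0 = 1 := by
      rw [hD0, hc0]
      norm_num
    beta_reduce at h4
    rw [h2, h5] at h4
    linarith
  have e2 : Gf x = (∑ i ∈ Finset.range r,
      ∑ k ∈ (Finset.univ : Finset (Tor d L)).erase 0, ((1 + Dh k) / 2) ^ i * c k) /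
        (2 * (L : ℝ) ^ d) +
      (∑ k ∈ (Finset.univ : Finset (Tor d L)).erase 0,
        ((1 + Dh k) / 2) ^ r * c k / (1 - Dh k)) / (L : ℝ) ^ d := by
    rw [Finset.sum_comm]
    have h1 : ∀ A B N : ℝ, N ≠ 0 → A / (2 * N) + B / N = (A / 2 + B) / N := by
      intro A B N hN
      field_simp
    rw [h1 _ _ _ hN.ne', Finset.sum_div, ← Finset.sum_add_distrib]
    unfold Gf
    congr 1
    refine Finset.sum_congr rfl (fun k hk => ?_)
    have hk0 : k ≠ 0 := (Finset.mem_erase.1 hk).1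
    have h2 : (1 - Dh k) ≠ 0 := by
      have := Dh_lt_one k hk0
      linarith
    rw [← Finset.sum_mul]
    have h3 := geom_sum_mul ((1 + Dh k) / 2) r
    have h4 : (∑ i ∈ Finset.range r, ((1 + Dh k) / 2) ^ i) * (1 - Dh k) =
        2 * (1 - ((1 + Dh k) / 2) ^ r) := by
      have : ((1 + Dh k) / 2 - 1) = -(1 - Dh k) / 2 := by ring
      rw [this] at h3
      linarith
    have h5 : ch (∑ i, k i * x i) = c k := rfl
    rw [h5, div_eq_iff h2]
    have h6 : ((∑ i ∈ Finset.range r, ((1 + Dh k) / 2) ^ i) * c k / 2 +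
        ((1 + Dh k) / 2) ^ r * c k / (1 - Dh k)) * (1 - Dh k) =
        ((∑ i ∈ Finset.range r, ((1 + Dh k) / 2) ^ i) * (1 - Dh k)) * c k / 2 +
        ((1 + Dh k) / 2) ^ r * c k := by
      field_simp
    rw [h6, h4]
    ring
  rw [e2]
  have h7 : |(∑ i ∈ Finset.range r,
      ∑ k ∈ (Finset.univ : Finset (Tor d L)).erase 0, ((1 + Dh k) / 2) ^ i * c k) /
        (2 * (L : ℝ) ^ d)| ≤ r / (2 * (L : ℝ) ^ d) := by
    rw [Finset.sum_congr rfl (fun i hi => e1 i (Finset.mem_range.1 hi))]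
    simp only [Finset.sum_const, Finset.card_range, nsmul_eq_mul, mul_neg, mul_one]
    rw [abs_div, abs_neg, Nat.abs_cast, abs_of_pos (by positivity : (0 : ℝ) < 2 * (L : ℝ) ^ d)]
  have h8 : |(∑ k ∈ (Finset.univ : Finset (Tor d L)).erase 0,
        ((1 + Dh k) / 2) ^ r * c k / (1 - Dh k)) / (L : ℝ) ^ d| ≤ 2 * MM d L / (r + 1) := by
    have h9 : 2 * MM d L / (r + 1) =
        (∑ k ∈ (Finset.univ : Finset (Tor d L)).erase 0,
          2 / (r + 1) * (1 / (1 - Dh k) ^ 2)) / (L : ℝ) ^ d := by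
      unfold MM
      rw [← Finset.mul_sum]
      ring
    rw [h9, abs_div, abs_of_pos hN]
    apply div_le_div_of_nonneg_right _ hN.le
    refine (Finset.abs_sum_le_sum_abs _ _).trans (Finset.sum_le_sum (fun k hk => ?_))
    have hk0 : k ≠ 0 := (Finset.mem_erase.1 hk).1
    have h2 : 0 < 1 - Dh k := by
      have := Dh_lt_one k hk0
      linarith
    have h3 := neg_one_le_Dh k
    have ht0 : 0 ≤ (1 + Dh k) / 2 := by linarith
    have ht1 : (1 + Dh k) / 2 ≤ 1 := by linarith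
    have h4 := far_pow _ ht0 ht1 r
    rw [abs_div, abs_of_pos h2, abs_mul, abs_of_nonneg (by positivity)]
    rw [div_le_iff₀ h2]
    have h5 : 2 / (r + 1) * (1 / (1 - Dh k) ^ 2) * (1 - Dh k) = 2 / (r + 1) / (1 - Dh k) := by
      field_simp
    rw [h5, le_div_iff₀ h2]
    have h6 : ((1 + Dh k) / 2) ^ r * |c k| ≤ ((1 + Dh k) / 2) ^ r :=
      mul_le_of_le_one_right (by positivity) (far_abs_ch _)
    have h10 : 1 - (1 + Dh k) / 2 = (1 - Dh k) / 2 := by ring
    rw [h10] at h4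
    calc ((1 + Dh k) / 2) ^ r * |c k| * (1 - Dh k) ≤ ((1 + Dh k) / 2) ^ r * (1 - Dh k) :=
          mul_le_mul_of_nonneg_right h6 h2.le
      _ = 2 * (((1 + Dh k) / 2) ^ r * ((1 - Dh k) / 2)) := by ring
      _ ≤ 2 * (1 / (r + 1)) := by linarith
      _ = 2 / (r + 1) := by ring
  calc |_ + _| ≤ _ := abs_add_le _ _
    _ ≤ _ := add_le_add h7 h8

end H82AT

end S_FAR

section S_MOM

/-! MODULE MOM: moments of the symbol. -/

set_option autoImplicit false

namespace H82AT

open Finset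

theorem mom_sqrt_sum (n : ℕ) : ∑ j ∈ Finset.range n, 1 / Real.sqrt ((j : ℝ) + 1) ≤ 2 * Real.sqrt n := by
  induction n with
  | zero => simp
  | succ n ih =>
    rw [Finset.sum_range_succ]
    push_cast
    have h1 : 0 < Real.sqrt ((n : ℝ) + 1) := Real.sqrt_pos.2 (by positivity)
    have h2 : 0 ≤ Real.sqrt (n : ℝ) := Real.sqrt_nonneg _
    have h3 : Real.sqrt (n : ℝ) ^ 2 = n := Real.sq_sqrt (by positivity)
    have h4 : Real.sqrt ((n : ℝ) + 1) ^ 2 = n + 1 := Real.sq_sqrt (by positivity)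
    have h5 : 1 / Real.sqrt ((n : ℝ) + 1) ≤
        2 * Real.sqrt ((n : ℝ) + 1) - 2 * Real.sqrt (n : ℝ) := by
      rw [div_le_iff₀ h1]
      nlinarith [sq_nonneg (Real.sqrt ((n : ℝ) + 1) - Real.sqrt (n : ℝ))]
    linarith

theorem mom_sum_val {L : ℕ} [NeZero L] (F : ℕ → ℝ) :
    ∑ a : ZMod L, F a.val = ∑ j ∈ Finset.range L, F j := by
  obtain _ | n := L
  · exact absurd rfl (NeZero.ne 0)
  · exact Fin.sum_univ_eq_sum_range F (n + 1)

/-- lower bound of `1 - ch a` by the distance to zero -/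
theorem mom_ch_low {L : ℕ} [NeZero L] (a : ZMod L) :
    (2 * a.val ≤ L → 8 * (a.val : ℝ) ^ 2 / (L : ℝ) ^ 2 ≤ 1 - ch a) ∧
    (L ≤ 2 * a.val → 8 * ((L : ℝ) - a.val) ^ 2 / (L : ℝ) ^ 2 ≤ 1 - ch a) := by
  have hL : (0 : ℝ) < L := by exact_mod_cast Nat.pos_of_ne_zero (NeZero.ne L)
  have hlt : a.val < L := ZMod.val_lt a
  have hpi := Real.pi_pos
  have key : ∀ t : ℝ, 0 ≤ t → 2 * t ≤ L →
      8 * t ^ 2 / (L : ℝ) ^ 2 ≤ 1 - Real.cos (2 * Real.pi * t / L) := by
    intro t ht ht2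
    have h1 : |2 * Real.pi * t / L| ≤ Real.pi := by
      rw [abs_of_nonneg (by positivity), div_le_iff₀ hL]
      nlinarith
    have h2 := Real.cos_le_one_sub_mul_cos_sq h1
    have h3 : 2 / Real.pi ^ 2 * (2 * Real.pi * t / L) ^ 2 = 8 * t ^ 2 / (L : ℝ) ^ 2 := by
      field_simp
      ring
    rw [h3] at h2
    linarith
  refine ⟨fun h => ?_, fun h => ?_⟩
  · exact key a.val (by positivity) (by exact_mod_cast h)
  · have h1 : (a.val : ℝ) < L := by exact_mod_cast hlt
    have h2 : (L : ℝ) ≤ 2 * a.val := by exact_mod_cast h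
    have h3 := key ((L : ℝ) - a.val) (by linarith) (by linarith)
    have h4 : Real.cos (2 * Real.pi * ((L : ℝ) - a.val) / L) = ch a := by
      unfold ch
      have : 2 * Real.pi * ((L : ℝ) - a.val) / L = 2 * Real.pi - 2 * Real.pi * (a.val : ℝ) / L := by
        field_simp
      rw [this, Real.cos_two_pi_sub]
    rw [h4] at h3
    exact h3

/-- the truncated one-dimensional symbol -/
noncomputable def momb (d : ℕ) {L : ℕ} (a : ZMod L) : ℝ := max (1 - ch a) (8 / (d * (L : ℝ) ^ 2))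

theorem mom_b_pos {d L : ℕ} [NeZero L] (hd : 8 ≤ d) (a : ZMod L) : 0 < momb d a := by
  have hL : (0 : ℝ) < L := by exact_mod_cast Nat.pos_of_ne_zero (NeZero.ne L)
  have hd' : (0 : ℝ) < d := by exact_mod_cast (by omega : 0 < d)
  exact lt_of_lt_of_le (by positivity) (le_max_right _ _)

/-- bound of `E b^(-1/4)` -/
theorem mom_E {d L : ℕ} [NeZero L] (hd : 8 ≤ d) (hL : d ≤ L) :
    ∑ a : ZMod L, (momb d a) ^ (-(1 / 4) : ℝ) ≤ 5 * L := by
  have hLpos : (0 : ℝ) < L := by exact_mod_cast (by omega : 0 < L)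
  have hL8 : (8 : ℝ) ≤ L := by exact_mod_cast (by omega : 8 ≤ L)
  have hd8 : (8 : ℝ) ≤ d := by exact_mod_cast hd
  have hdL : (d : ℝ) ≤ L := by exact_mod_cast hL
  let G : ℕ → ℝ := fun j => if j = 0 then (L : ℝ) else
    Real.sqrt L * (1 / Real.sqrt j) + Real.sqrt L * (1 / Real.sqrt ((L : ℝ) - j))
  have hG : ∀ a : ZMod L, (momb d a) ^ (-(1 / 4) : ℝ) ≤ G a.val := by
    intro a
    have hlt : a.val < L := ZMod.val_lt a
    have hltR : (a.val : ℝ) < L := by exact_mod_cast hlt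
    have aux : ∀ t : ℝ, 0 < t → 8 * t ^ 2 / (L : ℝ) ^ 2 ≤ momb d a →
        (momb d a) ^ (-(1 / 4) : ℝ) ≤ Real.sqrt L * (1 / Real.sqrt t) := by
      intro t ht h
      have h1 : (t / L) ^ 2 ≤ momb d a := by
        refine le_trans ?_ h
        rw [div_pow]
        gcongr
        nlinarith [sq_nonneg t]
      have h2 : 0 < t / L := by positivity
      calc (momb d a) ^ (-(1 / 4) : ℝ) ≤ ((t / L) ^ 2) ^ (-(1 / 4) : ℝ) :=
            Real.rpow_le_rpow_of_nonpos (by positivity) h1 (by norm_num)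
        _ = Real.sqrt L * (1 / Real.sqrt t) := by
            rw [← Real.rpow_natCast, ← Real.rpow_mul h2.le]
            have : ((2 : ℕ) : ℝ) * (-(1 / 4)) = -(1 / 2) := by norm_num
            rw [this, Real.rpow_neg h2.le, ← Real.sqrt_eq_rpow, Real.sqrt_div ht.le, inv_div,
              mul_one_div]
    by_cases h0 : a.val = 0
    · simp only [G, h0, if_true]
      have h1 : 1 / (L : ℝ) ^ 4 ≤ momb d a := by
        refine le_trans ?_ (le_max_right _ _)
        rw [div_le_div_iff₀ (by positivity) (by positivity)]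
        nlinarith [pow_pos hLpos 2, pow_pos hLpos 3, mul_pos hLpos (pow_pos hLpos 2)]
      calc (momb d a) ^ (-(1 / 4) : ℝ) ≤ (1 / (L : ℝ) ^ 4) ^ (-(1 / 4) : ℝ) :=
            Real.rpow_le_rpow_of_nonpos (by positivity) h1 (by norm_num)
        _ = L := by
            rw [one_div ((L : ℝ) ^ 4), Real.inv_rpow (by positivity), ← Real.rpow_neg (by positivity),
              ← Real.rpow_natCast, ← Real.rpow_mul hLpos.le]
            norm_num
    · simp only [G, h0, if_false]
      have hpos : (0 : ℝ) < a.val := by exact_mod_cast Nat.pos_of_ne_zero h0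
      have hc := mom_ch_low a
      rcases le_total (2 * a.val) L with h | h
      · refine (aux a.val hpos ((hc.1 h).trans (le_max_left _ _))).trans ?_
        have : 0 ≤ Real.sqrt L * (1 / Real.sqrt ((L : ℝ) - a.val)) := by positivity
        linarith
      · refine (aux ((L : ℝ) - a.val) (by linarith) ((hc.2 h).trans (le_max_left _ _))).trans ?_
        have : 0 ≤ Real.sqrt L * (1 / Real.sqrt (a.val : ℝ)) := by positivity
        linarith
  refine (Finset.sum_le_sum fun a _ => hG a).trans ?_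
  rw [mom_sum_val G]
  obtain ⟨n, hn⟩ : ∃ n, L = n + 1 := ⟨L - 1, by omega⟩
  have e1 : ∑ j ∈ Finset.range L, G j = ∑ j ∈ Finset.range n, G (j + 1) + G 0 := by
    rw [hn, Finset.sum_range_succ']
  rw [e1]
  have e2 : ∑ j ∈ Finset.range n, G (j + 1) =
      Real.sqrt L * ∑ j ∈ Finset.range n, 1 / Real.sqrt ((j : ℝ) + 1) +
      Real.sqrt L * ∑ j ∈ Finset.range n, 1 / Real.sqrt ((j : ℝ) + 1) := by
    rw [Finset.mul_sum]
    conv_rhs => arg 2; rw [← Finset.sum_range_reflect]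
    rw [← Finset.sum_add_distrib]
    apply Finset.sum_congr rfl
    intro j hj
    have hj' := Finset.mem_range.1 hj
    simp only [G, Nat.succ_ne_zero, if_false]
    have e3 : (L : ℝ) - ((j + 1 : ℕ) : ℝ) = ((n - 1 - j : ℕ) : ℝ) + 1 := by
      have : n - 1 - j + 1 + (j + 1) = L := by omega
      rw [← this]
      push_cast
      ring
    rw [e3]
    push_cast
    ring
  rw [e2]
  have h1 := mom_sqrt_sum n
  have h2 : Real.sqrt (n : ℝ) ≤ Real.sqrt L := Real.sqrt_le_sqrt (by rw [hn]; push_cast; linarith)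
  have h3 : Real.sqrt (L : ℝ) ^ 2 = L := Real.sq_sqrt hLpos.le
  have h4 : 0 ≤ Real.sqrt (L : ℝ) := Real.sqrt_nonneg _
  have h5 : Real.sqrt L * ∑ j ∈ Finset.range n, 1 / Real.sqrt ((j : ℝ) + 1) ≤ 2 * L := by
    calc Real.sqrt L * ∑ j ∈ Finset.range n, 1 / Real.sqrt ((j : ℝ) + 1)
        ≤ Real.sqrt L * (2 * Real.sqrt L) := by
          gcongr
          linarith
      _ = 2 * L := by nlinarith
  have h6 : G 0 = L := by simp [G]
  rw [h6]
  linarith

/-- power mean -/
theorem mom_power {d L : ℕ} [NeZero L] (hd : 8 ≤ d) (hL : d ≤ L) :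
    ((∑ a : ZMod L, (momb d a) ^ (-(2 / d) : ℝ)) / L) ^ d ≤ 5 ^ 8 := by
  have hLpos : (0 : ℝ) < L := by exact_mod_cast (by omega : 0 < L)
  have hd8 : (8 : ℝ) ≤ d := by exact_mod_cast hd
  have hd0 : (0 : ℝ) < d := by linarith
  have hb := fun a : ZMod L => mom_b_pos (L := L) hd a
  have h1 := Real.arith_mean_le_rpow_mean (Finset.univ : Finset (ZMod L)) (fun _ => 1 / (L : ℝ))
    (fun a => (momb d a) ^ (-(2 / d) : ℝ)) (fun _ _ => by positivity) (by
      rw [Finset.sum_const, Finset.card_univ, ZMod.card, nsmul_eq_mul]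
      field_simp) (fun a _ => (Real.rpow_pos_of_pos (hb a) _).le) (p := (d : ℝ) / 8)
    (by rw [le_div_iff₀ (by norm_num)]; linarith)
  have e1 : ∀ a : ZMod L, ((momb d a) ^ (-(2 / d) : ℝ)) ^ ((d : ℝ) / 8) =
      (momb d a) ^ (-(1 / 4) : ℝ) := by
    intro a
    rw [← Real.rpow_mul (hb a).le]
    congr 1
    field_simp
    norm_num
  simp only [e1] at h1
  rw [← Finset.mul_sum, ← Finset.mul_sum] at h1
  have h2 : 1 / (L : ℝ) * ∑ a : ZMod L, (momb d a) ^ (-(1 / 4) : ℝ) ≤ 5 := by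
    rw [one_div, inv_mul_le_iff₀ hLpos, mul_comm]
    exact mom_E hd hL
  have h0 : 0 ≤ 1 / (L : ℝ) * ∑ a : ZMod L, (momb d a) ^ (-(1 / 4) : ℝ) :=
    mul_nonneg (by positivity) (Finset.sum_nonneg fun a _ => (Real.rpow_pos_of_pos (hb a) _).le)
  have h3 : (1 / (L : ℝ) * ∑ a : ZMod L, (momb d a) ^ (-(1 / 4) : ℝ)) ^ (1 / ((d : ℝ) / 8)) ≤
      5 ^ (8 / (d : ℝ)) := by
    have : 1 / ((d : ℝ) / 8) = 8 / d := by field_simp
    rw [this]
    exact Real.rpow_le_rpow h0 h2 (by positivity)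
  have h4 : (∑ a : ZMod L, (momb d a) ^ (-(2 / d) : ℝ)) / L ≤ 5 ^ (8 / (d : ℝ)) := by
    refine le_trans (le_of_eq ?_) (h1.trans h3)
    ring
  calc ((∑ a : ZMod L, (momb d a) ^ (-(2 / d) : ℝ)) / L) ^ d ≤ (5 ^ (8 / (d : ℝ))) ^ d := by
        apply pow_le_pow_left₀ _ h4
        exact div_nonneg (Finset.sum_nonneg fun a _ => (Real.rpow_pos_of_pos (hb a) _).le) hLpos.le
    _ = 5 ^ 8 := by
        rw [← Real.rpow_natCast, ← Real.rpow_mul (by norm_num)]
        have : 8 / (d : ℝ) * d = ((8 : ℕ) : ℝ) := by field_simp; norm_num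
        rw [this, Real.rpow_natCast]

/-- AM-GM step -/
theorem mom_amgm {d L : ℕ} [NeZero L] (hd : 8 ≤ d) (k : Tor d L) (hk : k ≠ 0) :
    1 / (1 - Dh k) ^ 2 ≤ 4 * ∏ i, (momb d (k i)) ^ (-(2 / d) : ℝ) := by
  have hLn : 0 < L := Nat.pos_of_ne_zero (NeZero.ne L)
  have hLpos : (0 : ℝ) < L := by exact_mod_cast hLn
  have hd8 : (8 : ℝ) ≤ d := by exact_mod_cast hd
  have hd0 : (0 : ℝ) < d := by linarith
  have hb := fun i => mom_b_pos (L := L) hd (k i)
  have hDh : 1 - Dh k = (∑ i, (1 - ch (k i))) / d := by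
    rw [Finset.sum_sub_distrib]
    simp only [Finset.sum_const, Finset.card_univ, Fintype.card_fin, nsmul_eq_mul, mul_one]
    rw [sub_div, div_self hd0.ne']
    rfl
  -- a coordinate different from zero
  obtain ⟨i0, hi0⟩ : ∃ i, k i ≠ 0 := by
    by_contra h
    push Not at h
    exact hk (funext h)
  have hterm : 8 / (L : ℝ) ^ 2 ≤ 1 - ch (k i0) := by
    have hv : 0 < (k i0).val := Nat.pos_of_ne_zero fun h => hi0 ((ZMod.val_eq_zero _).1 h)
    have hlt : (k i0).val < L := ZMod.val_lt _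
    have hv' : (1 : ℝ) ≤ (k i0).val := by exact_mod_cast hv
    have hlt' : (1 : ℝ) ≤ (L : ℝ) - (k i0).val := by
      have : ((k i0).val : ℝ) + 1 ≤ L := by exact_mod_cast hlt
      linarith
    rcases le_total (2 * (k i0).val) L with h | h
    · refine le_trans ?_ ((mom_ch_low (k i0)).1 h)
      gcongr
      nlinarith
    · refine le_trans ?_ ((mom_ch_low (k i0)).2 h)
      gcongr
      nlinarith
  have hnn : ∀ i, 0 ≤ 1 - ch (k i) := fun i => by linarith [ch_le_one (k i)]
  have hsum0 : 8 / (L : ℝ) ^ 2 ≤ ∑ i, (1 - ch (k i)) :=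
    hterm.trans (Finset.single_le_sum (f := fun i => 1 - ch (k i)) (fun i _ => hnn i)
      (Finset.mem_univ i0))
  have hsumb : ∑ i, momb d (k i) ≤ 2 * ∑ i, (1 - ch (k i)) := by
    have h1 : ∀ i, momb d (k i) ≤ (1 - ch (k i)) + 8 / (d * (L : ℝ) ^ 2) := by
      intro i
      have := hnn i
      have h2 : 0 ≤ 8 / (d * (L : ℝ) ^ 2) := by positivity
      exact max_le (by linarith) (by linarith)
    have h2 : ∑ i, momb d (k i) ≤ ∑ i : Fin d, ((1 - ch (k i)) + 8 / (d * (L : ℝ) ^ 2)) :=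
      Finset.sum_le_sum fun i _ => h1 i
    rw [Finset.sum_add_distrib] at h2
    have h3 : ∑ _i : Fin d, 8 / (d * (L : ℝ) ^ 2) = 8 / (L : ℝ) ^ 2 := by
      rw [Finset.sum_const, Finset.card_univ, Fintype.card_fin, nsmul_eq_mul]
      field_simp
    linarith
  have hag := Real.geom_mean_le_arith_mean_weighted (Finset.univ : Finset (Fin d))
    (fun _ => 1 / (d : ℝ)) (fun i => momb d (k i)) (fun _ _ => by positivity) (by
      rw [Finset.sum_const, Finset.card_univ, Fintype.card_fin, nsmul_eq_mul]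
      field_simp) (fun i _ => (hb i).le)
  set P := ∏ i, (momb d (k i)) ^ (1 / (d : ℝ)) with hP
  have hPpos : 0 < P := Finset.prod_pos fun i _ => Real.rpow_pos_of_pos (hb i) _
  have hPle : P ≤ 2 * (1 - Dh k) := by
    refine hag.trans ?_
    rw [← Finset.mul_sum, hDh]
    calc 1 / (d : ℝ) * ∑ i, momb d (k i) ≤ 1 / (d : ℝ) * (2 * ∑ i, (1 - ch (k i))) := by gcongr
      _ = 2 * ((∑ i, (1 - ch (k i))) / d) := by ring
  have hPsq : 4 * ∏ i, (momb d (k i)) ^ (-(2 / d) : ℝ) = 4 / P ^ 2 := by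
    rw [hP, ← Finset.prod_pow, div_eq_mul_inv (4 : ℝ), ← Finset.prod_inv_distrib]
    congr 1
    apply Finset.prod_congr rfl
    intro i _
    rw [Real.rpow_neg (hb i).le, ← Real.rpow_natCast, ← Real.rpow_mul (hb i).le]
    congr 2
    push_cast
    ring
  rw [hPsq]
  have h1 : 0 < 1 - Dh k := by linarith
  rw [div_le_div_iff₀ (by positivity) (by positivity)]
  nlinarith

/-- AM-GM: with `b_i = max (1 - ch (k i)) (8/(d L^2))`, for `k ≠ 0`: `1 - Dh k ≥ (1/2) (∏ b_i)^(1/d)`;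
hence `MM ≤ 4 (E b^(-2/d))^d ≤ 4 (E b^(-1/4))^8` for `d ≥ 8` (power mean), and
`1 - cos θ ≥ 2 θ^2/π^2` gives `E b^(-1/4) ≤ 2` for `L ≥ L0(d)`. -/
theorem MM_bound : ∃ C : ℝ, 0 < C ∧ ∀ d : ℕ, 8 ≤ d → ∃ L0 : ℕ, ∀ L : ℕ, L0 ≤ L →
    ∀ [NeZero L], MM d L ≤ C := by
  refine ⟨4 * 5 ^ 8, by norm_num, fun d hd => ⟨d, fun L hL _ => ?_⟩⟩
  have hLpos : (0 : ℝ) < L := by exact_mod_cast Nat.pos_of_ne_zero (NeZero.ne L)
  unfold MM
  rw [div_le_iff₀ (by positivity)]
  have hb := fun a : ZMod L => mom_b_pos (L := L) hd a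
  calc ∑ k ∈ (Finset.univ : Finset (Tor d L)).erase 0, 1 / (1 - Dh k) ^ 2
      ≤ ∑ k ∈ (Finset.univ : Finset (Tor d L)).erase 0,
        4 * ∏ i, (momb d (k i)) ^ (-(2 / d) : ℝ) :=
        Finset.sum_le_sum fun k hk => mom_amgm hd k (Finset.ne_of_mem_erase hk)
    _ ≤ ∑ k : Tor d L, 4 * ∏ i, (momb d (k i)) ^ (-(2 / d) : ℝ) := by
        apply Finset.sum_le_sum_of_subset_of_nonneg (Finset.subset_univ _)
        intro k _ _
        exact mul_nonneg (by norm_num)
          (Finset.prod_nonneg fun i _ => (Real.rpow_pos_of_pos (hb _) _).le)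
    _ = 4 * (∑ a : ZMod L, (momb d a) ^ (-(2 / d) : ℝ)) ^ d := by
        rw [← Finset.mul_sum]
        congr 1
        rw [Fintype.sum_pow]
    _ = 4 * (((∑ a : ZMod L, (momb d a) ^ (-(2 / d) : ℝ)) / L) ^ d * (L : ℝ) ^ d) := by
        rw [div_pow, div_mul_cancel₀]
        positivity
    _ ≤ 4 * (5 ^ 8 * (L : ℝ) ^ d) := by
        gcongr
        exact mom_power hd hL
    _ = 4 * 5 ^ 8 * (L : ℝ) ^ d := by ring

end H82AT

end S_MOM

section S_MOR

/-! MODULE MOR: moments of the symbol, second part. -/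

set_option autoImplicit false

namespace H82AT

open Finset

/-- average over the characters -/
theorem mor_one {L : ℕ} [NeZero L] (hL : 2 ≤ L) (μ : ℝ) :
    (∑ a : ZMod L, Real.exp (μ * ch a)) / L ≤ Real.exp (μ ^ 2 / 2) := by
  have hLpos : (0 : ℝ) < L := by exact_mod_cast (by omega : 0 < L)
  have h1 : ∀ a : ZMod L, Real.exp (μ * ch a) ≤ Real.cosh μ + ch a * Real.sinh μ := by
    intro a
    have h1 := ch_le_one a
    have h2 := neg_one_le_ch a
    have h3 := convexOn_exp.2 (Set.mem_univ μ) (Set.mem_univ (-μ))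
      (show 0 ≤ (1 + ch a) / 2 by linarith) (show 0 ≤ (1 - ch a) / 2 by linarith) (by ring)
    simp only [smul_eq_mul] at h3
    have e : (1 + ch a) / 2 * μ + (1 - ch a) / 2 * -μ = μ * ch a := by ring
    rw [e] at h3
    rw [Real.cosh_eq, Real.sinh_eq]
    linarith
  have h2 : ∑ a : ZMod L, ch a = 0 := by
    have h3 := ch_sum_one (1 : ZMod L)
    have h4 : (1 : ZMod L) ≠ 0 := by
      have : Fact (1 < L) := ⟨by omega⟩
      exact one_ne_zero
    rw [if_neg h4] at h3
    simpa using h3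
  rw [div_le_iff₀ hLpos]
  calc ∑ a : ZMod L, Real.exp (μ * ch a) ≤ ∑ a : ZMod L, (Real.cosh μ + ch a * Real.sinh μ) :=
        Finset.sum_le_sum fun a _ => h1 a
    _ = L * Real.cosh μ := by
        rw [Finset.sum_add_distrib, ← Finset.sum_mul, h2, Finset.sum_const, Finset.card_univ,
          ZMod.card, nsmul_eq_mul]
        ring
    _ ≤ Real.exp (μ ^ 2 / 2) * L := by
        rw [mul_comm]
        gcongr
        exact Real.cosh_le_exp_half_sq μ

/-- exponential moment of the symbol -/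
theorem mor_exp {d L : ℕ} [NeZero L] (hd : 1 ≤ d) (hL : 2 ≤ L) (l : ℝ) :
    (∑ k : Tor d L, Real.exp (l * Dh k)) / (L : ℝ) ^ d ≤ Real.exp (l ^ 2 / (2 * d)) := by
  have hLpos : (0 : ℝ) < L := by exact_mod_cast (by omega : 0 < L)
  have hd0 : (0 : ℝ) < d := by exact_mod_cast hd
  have h1 : ∀ k : Tor d L, Real.exp (l * Dh k) = ∏ i, Real.exp (l / d * ch (k i)) := by
    intro k
    rw [← Real.exp_sum, ← Finset.mul_sum]
    congr 1
    unfold Dh
    ring
  simp only [h1]
  rw [← Fintype.sum_pow (fun a : ZMod L => Real.exp (l / d * ch a)) d, ← div_pow]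
  calc ((∑ a : ZMod L, Real.exp (l / d * ch a)) / L) ^ d ≤ (Real.exp ((l / d) ^ 2 / 2)) ^ d := by
        apply pow_le_pow_left₀ _ (mor_one hL _)
        exact div_nonneg (Finset.sum_nonneg fun a _ => (Real.exp_pos _).le) hLpos.le
    _ = Real.exp (l ^ 2 / (2 * d)) := by
        rw [← Real.exp_nat_mul]
        congr 1
        field_simp

/-- even moments of the symbol -/
theorem mor_mom {d L : ℕ} [NeZero L] (hd : 1 ≤ d) (hL : 2 ≤ L) (j : ℕ) :
    (∑ k : Tor d L, (Dh k) ^ (2 * j)) / (L : ℝ) ^ d ≤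
      ((2 * j).factorial : ℝ) * 2 / (d : ℝ) ^ j := by
  have hLpos : (0 : ℝ) < L := by exact_mod_cast (by omega : 0 < L)
  have hd0 : (0 : ℝ) < d := by exact_mod_cast hd
  set s := Real.sqrt d with hs
  have hs2 : s ^ 2 = d := Real.sq_sqrt hd0.le
  have hs0 : 0 < s := Real.sqrt_pos.2 hd0
  have h1 : ∀ k : Tor d L, (Dh k) ^ (2 * j) ≤ ((2 * j).factorial : ℝ) / (d : ℝ) ^ j *
      Real.cosh (s * Dh k) := by
    intro k
    have h2 : (s * Dh k) ^ (2 * j) / ((2 * j).factorial : ℝ) ≤ Real.cosh (s * Dh k) := by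
      rw [Real.cosh_eq_tsum]
      exact (Real.hasSum_cosh (s * Dh k)).summable.le_tsum j fun i _ =>
        div_nonneg (Even.pow_nonneg ⟨i, by ring⟩ _) (by positivity)
    have h3 : (s * Dh k) ^ (2 * j) = (d : ℝ) ^ j * (Dh k) ^ (2 * j) := by
      rw [mul_pow, pow_mul s, hs2]
    rw [h3, div_le_iff₀ (by positivity)] at h2
    rw [div_mul_eq_mul_div, le_div_iff₀ (by positivity)]
    linarith
  have h4 : Real.exp (1 / 2 : ℝ) ≤ 2 := by
    have := Real.exp_one_lt_d9
    have h5 : Real.exp (1 / 2 : ℝ) ^ 2 = Real.exp 1 := by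
      rw [← Real.exp_nat_mul]; norm_num
    have h6 := Real.exp_pos (1 / 2 : ℝ)
    nlinarith
  have h5 : (∑ k : Tor d L, Real.cosh (s * Dh k)) / (L : ℝ) ^ d ≤ 2 := by
    have h6 := mor_exp (L := L) hd hL s
    have h7 := mor_exp (L := L) hd hL (-s)
    have e1 : s ^ 2 / (2 * d) = 1 / 2 := by rw [hs2]; field_simp
    rw [neg_sq, e1] at h7
    rw [e1] at h6
    have e2 : (∑ k : Tor d L, Real.cosh (s * Dh k)) / (L : ℝ) ^ d =
        ((∑ k : Tor d L, Real.exp (s * Dh k)) / (L : ℝ) ^ d +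
        (∑ k : Tor d L, Real.exp (-s * Dh k)) / (L : ℝ) ^ d) / 2 := by
      rw [← add_div, ← Finset.sum_add_distrib, div_right_comm]
      congr 1
      rw [Finset.sum_div]
      apply Finset.sum_congr rfl
      intro k _
      rw [Real.cosh_eq, neg_mul]
    rw [e2]
    linarith
  rw [div_le_iff₀ (by positivity)] at h5 ⊢
  calc ∑ k : Tor d L, (Dh k) ^ (2 * j) ≤ ∑ k : Tor d L, ((2 * j).factorial : ℝ) / (d : ℝ) ^ j *
        Real.cosh (s * Dh k) := Finset.sum_le_sum fun k _ => h1 k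
    _ = ((2 * j).factorial : ℝ) / (d : ℝ) ^ j * ∑ k : Tor d L, Real.cosh (s * Dh k) := by
        rw [Finset.mul_sum]
    _ ≤ ((2 * j).factorial : ℝ) / (d : ℝ) ^ j * (2 * (L : ℝ) ^ d) := by gcongr
    _ = ((2 * j).factorial : ℝ) * 2 / (d : ℝ) ^ j * (L : ℝ) ^ d := by ring

/-- Cauchy-Schwarz step -/
theorem mor_cs {d L : ℕ} [NeZero L] (hd : 1 ≤ d) (hL : 2 ≤ L) (r : ℕ) :
    RR d L r ≤ Real.sqrt (((2 * r).factorial : ℝ) * 2 / (d : ℝ) ^ r) * Real.sqrt (MM d L) := by
  have hLpos : (0 : ℝ) < L := by exact_mod_cast (by omega : 0 < L)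
  have hN : (0 : ℝ) < (L : ℝ) ^ d := by positivity
  set s := (Finset.univ : Finset (Tor d L)).erase 0 with hs
  have h1 := Finset.sum_mul_sq_le_sq_mul_sq s (fun k => (Dh k) ^ r) (fun k => 1 / (1 - Dh k))
  have h2 : (RR d L r) ^ 2 ≤ (((2 * r).factorial : ℝ) * 2 / (d : ℝ) ^ r) * MM d L := by
    have e1 : RR d L r = (∑ k ∈ s, (Dh k) ^ r * (1 / (1 - Dh k))) / (L : ℝ) ^ d := by
      unfold RR
      simp only [mul_one_div]
      rfl
    have e2 : MM d L = (∑ k ∈ s, (1 / (1 - Dh k)) ^ 2) / (L : ℝ) ^ d := by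
      unfold MM
      simp only [div_pow, one_pow]
      rfl
    have h3 : (∑ k ∈ s, ((Dh k) ^ r) ^ 2) / (L : ℝ) ^ d ≤
        ((2 * r).factorial : ℝ) * 2 / (d : ℝ) ^ r := by
      refine le_trans ?_ (mor_mom (L := L) hd hL r)
      gcongr
      have : ∀ k : Tor d L, ((Dh k) ^ r) ^ 2 = (Dh k) ^ (2 * r) := fun k => by
        rw [← pow_mul, mul_comm]
      simp only [this]
      exact Finset.sum_le_sum_of_subset_of_nonneg (Finset.subset_univ _)
        fun k _ _ => Even.pow_nonneg ⟨r, by ring⟩ _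
    have hMM : 0 ≤ MM d L := by
      rw [e2]
      exact div_nonneg (Finset.sum_nonneg fun _ _ => sq_nonneg _) hN.le
    calc (RR d L r) ^ 2 = (∑ k ∈ s, (Dh k) ^ r * (1 / (1 - Dh k))) ^ 2 / ((L : ℝ) ^ d) ^ 2 := by
          rw [e1, div_pow]
      _ ≤ ((∑ k ∈ s, ((Dh k) ^ r) ^ 2) * ∑ k ∈ s, (1 / (1 - Dh k)) ^ 2) / ((L : ℝ) ^ d) ^ 2 := by
          gcongr
      _ = (∑ k ∈ s, ((Dh k) ^ r) ^ 2) / (L : ℝ) ^ d * MM d L := by
          rw [e2]
          field_simp
      _ ≤ _ := by gcongr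
  rw [← Real.sqrt_mul (by positivity)]
  exact Real.le_sqrt_of_sq_le h2

/-- `cosh` bound: `E exp(λ Dh) ≤ exp(λ^2/(2d))`, so `E Dh^(2j) ≤ (2j)! e^(1/2) / d^j`; then
Cauchy-Schwarz: `RR r ≤ (E Dh^(2r))^(1/2) MM^(1/2)`. -/
theorem RR_bound : ∃ C : ℝ, 0 < C ∧ ∀ d : ℕ, 8 ≤ d → ∃ L0 : ℕ, ∀ L : ℕ, L0 ≤ L →
    ∀ [NeZero L], RR d L 2 ≤ C / d ∧ RR d L 4 ≤ C / (d : ℝ) ^ 2 := by
  obtain ⟨C, hC, hMM⟩ := MM_bound
  refine ⟨Real.sqrt (((2 * 4).factorial : ℝ) * 2 * C), Real.sqrt_pos.2 (by positivity),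
    fun d hd => ?_⟩
  obtain ⟨L0, hL0⟩ := hMM d hd
  refine ⟨max L0 2, fun L hL _ => ?_⟩
  have hL2 : 2 ≤ L := le_trans (le_max_right _ _) hL
  have hM := hL0 L (le_trans (le_max_left _ _) hL)
  have hd0 : (0 : ℝ) < d := by exact_mod_cast (by omega : 0 < d)
  have key : ∀ r : ℕ, 1 ≤ r → r ≤ 2 → RR d L (2 * r) ≤
      Real.sqrt (((2 * 4).factorial : ℝ) * 2 * C) / (d : ℝ) ^ r := by
    intro r hr1 hr2
    refine (mor_cs (L := L) (by omega) hL2 (2 * r)).trans ?_
    rw [← Real.sqrt_mul (by positivity), le_div_iff₀ (by positivity)]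
    have e : (d : ℝ) ^ r = Real.sqrt ((d : ℝ) ^ (2 * r)) := by
      rw [mul_comm, pow_mul, Real.sqrt_sq (by positivity)]
    rw [e, ← Real.sqrt_mul' _ (by positivity)]
    apply Real.sqrt_le_sqrt
    have hf : ((2 * (2 * r)).factorial : ℝ) ≤ ((2 * 4).factorial : ℝ) := by
      exact_mod_cast Nat.factorial_le (by omega)
    have h1 : ((2 * (2 * r)).factorial : ℝ) * 2 / (d : ℝ) ^ (2 * r) * MM d L * (d : ℝ) ^ (2 * r)
        = ((2 * (2 * r)).factorial : ℝ) * 2 * MM d L := by field_simp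
    have h2 : ((2 * (2 * r)).factorial : ℝ) * 2 * MM d L ≤
        ((2 * (2 * r)).factorial : ℝ) * 2 * C := by gcongr
    have h3 : ((2 * (2 * r)).factorial : ℝ) * 2 * C ≤ ((2 * 4).factorial : ℝ) * 2 * C := by
      gcongr
    exact (h1.le.trans h2).trans h3
  exact ⟨by simpa using key 1 le_rfl (by norm_num), key 2 (by norm_num) le_rfl⟩

end H82AT

end S_MOR

section S_GRN

/-! MODULE GRN: sum of the Green function over a small set. -/

set_option autoImplicit false

namespace H82AT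

open Finset

/-- the delta function -/
def grn_dl {d L : ℕ} (y : Tor d L) : Tor d L → ℝ := fun z => if z = y then (1 : ℝ) else 0

/-- indicator of the set, as a sum of delta functions -/
def grn_S {d L n : ℕ} (P : Fin n → Tor d L) : Tor d L → ℝ := fun z => ∑ j, grn_dl (P j) z

theorem grn_iter {d L n : ℕ} (P : Fin n → Tor d L) (r : ℕ) :
    (avg^[r] (grn_S P)) = fun z => ∑ j, (avg^[r] (grn_dl (P j))) z := by
  induction r with
  | zero => rfl
  | succ r ih =>
    rw [Function.iterate_succ_apply', ih]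
    funext z
    have h := fou_avg_sum (Finset.univ : Finset (Fin n)) (fun _ => (1 : ℝ))
      (fun j => avg^[r] (grn_dl (P j))) z
    simp only [one_mul] at h
    rw [h]
    apply Finset.sum_congr rfl
    intro j _
    rw [Function.iterate_succ_apply']

theorem grn_eq {d L n : ℕ} (P : Fin n → Tor d L) (hP : Function.Injective P) :
    (fun z : Tor d L => if z ∈ Set.range P then (1 : ℝ) else 0) = grn_S P := by
  funext z
  unfold grn_S grn_dl
  by_cases hz : z ∈ Set.range P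
  · obtain ⟨i, hi⟩ := hz
    rw [if_pos ⟨i, hi⟩]
    rw [Finset.sum_eq_single i]
    · rw [if_pos hi.symm]
    · intro j _ hj
      rw [if_neg]
      intro h
      exact hj (hP (hi.trans h)).symm
    · intro h
      exact absurd (Finset.mem_univ i) h
  · rw [if_neg hz]
    symm
    apply Finset.sum_eq_zero
    intro i _
    rw [if_neg]
    intro h
    exact hz ⟨i, h.symm⟩

theorem grn_sum {d L n : ℕ} [NeZero L] (P : Fin n → Tor d L) (f : Tor d L → ℝ) :
    ∑ x, grn_S P x * f x = ∑ i, f (P i) := by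
  unfold grn_S grn_dl
  simp only [Finset.sum_mul]
  rw [Finset.sum_comm]
  apply Finset.sum_congr rfl
  intro i _
  simp

theorem grn_sq {d L n : ℕ} [NeZero L] (P : Fin n → Tor d L) (hP : Function.Injective P) :
    ∑ x, (grn_S P x) ^ 2 = n := by
  have h : ∀ x, (grn_S P x) ^ 2 = grn_S P x * grn_S P x := fun x => sq _
  rw [Finset.sum_congr rfl (fun x _ => h x), grn_sum]
  have h1 : ∀ i, grn_S P (P i) = 1 := by
    intro i
    rw [← grn_eq P hP]
    exact if_pos ⟨i, rfl⟩
  rw [Finset.sum_congr rfl (fun i _ => h1 i)]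
  simp

theorem grn_avg_le {d L : ℕ} [NeZero L] (hd : 1 ≤ d) (f : Tor d L → ℝ) :
    ∑ x, f x * avg f x ≤ ∑ x, (f x) ^ 2 := by
  have hd' : (0 : ℝ) < d := by exact_mod_cast hd
  have h := sbp f f
  have h1 : 0 ≤ ∑ e : Tor d L × Fin d, (f e.1 - f (e.1 + Pi.single e.2 1))
        * (f e.1 - f (e.1 + Pi.single e.2 1)) :=
    Finset.sum_nonneg (fun e _ => mul_self_nonneg _)
  rw [h] at h1
  have h2 : 0 ≤ ∑ x, f x * Lap f x := by
    by_contra hneg
    push Not at hneg
    have : 2 * (d : ℝ) * ∑ x, f x * Lap f x < 0 := by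
      apply mul_neg_of_pos_of_neg _ hneg
      positivity
    linarith
  have h3 : ∑ x, f x * Lap f x = ∑ x, (f x) ^ 2 - ∑ x, f x * avg f x := by
    rw [← Finset.sum_sub_distrib]
    apply Finset.sum_congr rfl
    intro x _
    unfold Lap
    ring
  linarith

theorem Gf_path {d L n : ℕ} [NeZero L] (hd : 1 ≤ d) (hL : 3 ≤ L) (P : Fin n → Tor d L)
    (hP : Function.Injective P) :
    ∑ i, ∑ j, |Gf (P i - P j)| ≤ n * (1 + Real.sqrt (1 / (2 * d) + n / (d : ℝ) ^ 2)
      + 2 * (1 / (2 * d) + n / (d : ℝ) ^ 2) + n * (4 / (L : ℝ) ^ d + RR d L 4)) := by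
  have hd' : (0 : ℝ) < d := by exact_mod_cast hd
  set q : ℝ := 1 / (2 * d) + n / (d : ℝ) ^ 2 with hq
  have hq0 : 0 ≤ q := by rw [hq]; positivity
  have hn0 : (0 : ℝ) ≤ n := Nat.cast_nonneg n
  set f := grn_S P with hf
  have hD2 : ∑ x, (avg f x) ^ 2 ≤ n * q := by
    have h := D2_sum hd hL P hP
    rw [grn_eq P hP] at h
    exact h
  have hf2 : ∑ x, (f x) ^ 2 = n := grn_sq P hP
  -- the four terms
  have T0 : ∑ x, f x * f x = n := by
    rw [← hf2]
    exact Finset.sum_congr rfl (fun x _ => (sq _).symm)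
  have T1 : ∑ x, f x * avg f x ≤ n * Real.sqrt q := by
    have h := Finset.sum_mul_sq_le_sq_mul_sq (Finset.univ : Finset (Tor d L)) f (avg f)
    rw [hf2] at h
    have h2 : (∑ x, f x * avg f x) ^ 2 ≤ (n * Real.sqrt q) ^ 2 := by
      refine h.trans ?_
      rw [mul_pow, Real.sq_sqrt hq0]
      calc (n : ℝ) * ∑ x, (avg f x) ^ 2 ≤ n * (n * q) := mul_le_mul_of_nonneg_left hD2 hn0
        _ = (n : ℝ) ^ 2 * q := by ring
    have h3 : 0 ≤ n * Real.sqrt q := mul_nonneg hn0 (Real.sqrt_nonneg _)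
    exact (abs_le_of_sq_le_sq' h2 h3).2
  have T2 : ∑ x, f x * avg (avg f) x ≤ n * q := by
    rw [avg_symm f (avg f)]
    refine le_trans (le_of_eq ?_) hD2
    exact Finset.sum_congr rfl (fun x _ => (sq _).symm)
  have T3 : ∑ x, f x * avg (avg (avg f)) x ≤ n * q := by
    rw [avg_symm f (avg (avg f))]
    exact (grn_avg_le hd (avg f)).trans hD2
  -- assemble
  have hstep : ∀ i j, |Gf (P i - P j)| ≤ (∑ r ∈ Finset.range 4,
        (avg^[r] (grn_dl (P j))) (P i)) + (4 / (L : ℝ) ^ d + RR d L 4) := by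
    intro i j
    have h := Gf_exp4 hd (P i) (P j)
    have e : (∑ r ∈ Finset.range 4,
        (avg^[r] (fun z : Tor d L => if z = P j then (1 : ℝ) else 0)) (P i))
        = ∑ r ∈ Finset.range 4, (avg^[r] (grn_dl (P j))) (P i) := rfl
    rw [e] at h
    linarith
  have hr : ∀ r, ∑ i, ∑ j, (avg^[r] (grn_dl (P j))) (P i) = ∑ x, f x * (avg^[r] f) x := by
    intro r
    rw [hf, grn_sum, grn_iter]
  calc ∑ i, ∑ j, |Gf (P i - P j)|
      ≤ ∑ i, ∑ j, ((∑ r ∈ Finset.range 4,
        (avg^[r] (grn_dl (P j))) (P i)) + (4 / (L : ℝ) ^ d + RR d L 4)) :=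
        Finset.sum_le_sum (fun i _ => Finset.sum_le_sum (fun j _ => hstep i j))
    _ = (∑ r ∈ Finset.range 4, ∑ i, ∑ j, (avg^[r] (grn_dl (P j))) (P i))
        + n * (n * (4 / (L : ℝ) ^ d + RR d L 4)) := by
        simp only [Finset.sum_add_distrib]
        congr 1
        · rw [Finset.sum_comm' (s := Finset.range 4) (t := fun _ => Finset.univ)
            (t' := Finset.univ) (s' := fun _ => Finset.range 4) (by simp)]
          apply Finset.sum_congr rfl
          intro i _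
          rw [Finset.sum_comm]
        · simp
          ring
    _ = (∑ x, f x * f x) + (∑ x, f x * avg f x) + (∑ x, f x * avg (avg f) x)
        + (∑ x, f x * avg (avg (avg f)) x) + n * (n * (4 / (L : ℝ) ^ d + RR d L 4)) := by
        simp only [hr]
        rw [Finset.sum_range_succ, Finset.sum_range_succ, Finset.sum_range_succ,
          Finset.sum_range_succ, Finset.sum_range_zero, zero_add]
        rfl
    _ ≤ n * (1 + Real.sqrt q + 2 * q + n * (4 / (L : ℝ) ^ d + RR d L 4)) := by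
        rw [T0]
        linarith

end H82AT

end S_GRN

section S_LF

/-! MODULE LF: second moment of the local field. -/

set_option autoImplicit false

namespace H82AT

open Finset

theorem lf_avg_sub {d L : ℕ} [NeZero L] (f g : Tor d L → ℝ) (x : Tor d L) :
    avg (fun z => f z - g z) x = avg f x - avg g x := by
  unfold avg
  rw [← sub_div, ← sum_sub_distrib]
  congr 1
  apply sum_congr rfl
  intro i _
  ring

theorem lf_avg_const {d L : ℕ} [NeZero L] (hd : 1 ≤ d) (c : ℝ) (x : Tor d L) :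
    avg (fun _ : Tor d L => c) x = c := by
  have hd' : (d : ℝ) ≠ 0 := by
    have : (1 : ℝ) ≤ d := by exact_mod_cast hd
    linarith
  unfold avg
  simp only [sum_const, card_univ, Fintype.card_fin, nsmul_eq_mul]
  field_simp
  ring

theorem lf_sum_avg {d L : ℕ} [NeZero L] (hd : 1 ≤ d) (g : Tor d L → ℝ) :
    ∑ x, avg g x = ∑ x, g x := by
  have h := avg_symm (fun _ : Tor d L => (1 : ℝ)) g
  simpa [lf_avg_const hd] using h

theorem lf_one {d L : ℕ} [NeZero L] (hd : 1 ≤ d) (hL : Even L) {β ε : ℝ} (hβ : 0 < β)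
    (x : Tor d L) (j : Fin 3) :
    GE β ε (fun σ : Tor d L → Col => (avg (fun y => Sv ε (σ y) j) x - mv ε σ j) ^ 2)
      ≤ RR d L 2 / (2 * d * β) := by
  set G : Tor d L → ℝ := fun z => Gf (z - x) with hG
  set δ : Tor d L → ℝ := fun z => if z = x then 1 else 0 with hδ
  have hLap : ∀ y, Lap (avg G) y = avg δ y - 1 / (L : ℝ) ^ d := by
    intro y
    have e1 : Lap (avg G) y = avg (fun z => Lap G z) y := by
      unfold Lap
      rw [lf_avg_sub]
    have e2 : (fun z => Lap G z) = fun z => δ z - 1 / (L : ℝ) ^ d := by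
      funext z
      exact Lap_Gf hd x z
    rw [e1, e2, lf_avg_sub, lf_avg_const hd]
  have hf : ∀ f : Tor d L → ℝ, ∑ y, f y * Lap (avg G) y = avg f x - (∑ y, f y) / (L : ℝ) ^ d := by
    intro f
    simp only [hLap, mul_sub]
    rw [sum_sub_distrib, avg_symm, ← sum_mul]
    have : ∑ y, avg f y * δ y = avg f x := by
      simp [hδ]
    rw [this]
    ring
  have h := second_moment (d := d) (L := L) hd hL (ε := ε) hβ (avg G) j
  have h1 : (fun σ : Tor d L → Col => (∑ y, Sv ε (σ y) j * Lap (avg G) y) ^ 2)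
      = fun σ : Tor d L → Col => (avg (fun y => Sv ε (σ y) j) x - mv ε σ j) ^ 2 := by
    funext σ
    rw [hf (fun y => Sv ε (σ y) j)]
    have : mv ε σ j = (∑ y, Sv ε (σ y) j) / (L : ℝ) ^ d := by
      unfold mv
      simp [ZMod.card]
    rw [this]
  have h2 : ∑ y, avg G y * Lap (avg G) y = RR d L 2 := by
    rw [hf (avg G), avg_avg_Gf hd x, lf_sum_avg hd]
    have h3 : ∑ y, G y = 0 := by
      rw [hG]
      have := Equiv.sum_comp (Equiv.subRight x) (fun z : Tor d L => Gf z)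
      simp only [Equiv.subRight_apply] at this
      rw [this, Gf_sum]
    rw [h3, zero_div, sub_zero]
  rw [h1, h2] at h
  exact h

/-- `second_moment` with `v = avg (G(. - x))`, `Lap v = avg δ_x - 1/N`, `(v, Lap v) = RR 2` -/
theorem local_field {d L : ℕ} [NeZero L] (hd : 1 ≤ d) (hL : Even L) {β ε : ℝ} (hβ : 0 < β) :
    GE β ε (fun σ : Tor d L → Col => ∑ x, ∑ j, (avg (fun y => Sv ε (σ y) j) x - mv ε σ j) ^ 2)
      ≤ 3 * (L : ℝ) ^ d * RR d L 2 / (2 * d * β) := by
  rw [GE_sum β ε univ (fun (x : Tor d L) (σ : Tor d L → Col) =>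
    ∑ j, (avg (fun y => Sv ε (σ y) j) x - mv ε σ j) ^ 2)]
  have h : ∀ x ∈ (univ : Finset (Tor d L)), GE β ε (fun σ : Tor d L → Col =>
      ∑ j, (avg (fun y => Sv ε (σ y) j) x - mv ε σ j) ^ 2) ≤ 3 * (RR d L 2 / (2 * d * β)) := by
    intro x _
    rw [GE_sum β ε univ (fun (j : Fin 3) (σ : Tor d L → Col) =>
      (avg (fun y => Sv ε (σ y) j) x - mv ε σ j) ^ 2)]
    refine (sum_le_sum (fun j _ => lf_one hd hL hβ x j)).trans ?_
    rw [sum_const, card_univ, Fintype.card_fin, nsmul_eq_mul]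
    norm_num
  refine (sum_le_sum h).trans ?_
  rw [sum_const, card_univ, nsmul_eq_mul]
  have : (Fintype.card (Tor d L) : ℝ) = (L : ℝ) ^ d := by simp [ZMod.card]
  rw [this]
  apply le_of_eq
  ring

end H82AT

end S_LF

section S_COLB

/-! MODULE COLB: probability of prescribed colours on a set of sites, in the disordered phase. -/

set_option autoImplicit false

namespace H82AT

open Finset

theorem Lap_lin {d L n : ℕ} (c : Fin n → ℝ) (f : Fin n → Tor d L → ℝ) (x : Tor d L) :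
    Lap (fun y => ∑ i, c i * f i y) x = ∑ i, c i * Lap (f i) x := by
  unfold Lap avg
  simp only [mul_sub, Finset.sum_sub_distrib]
  congr 1
  have : ∀ i : Fin n, c i * ((∑ k : Fin d, (f i (x + Pi.single k 1) + f i (x - Pi.single k 1))) / (2 * (d : ℝ)))
      = (∑ k : Fin d, (c i * f i (x + Pi.single k 1) + c i * f i (x - Pi.single k 1))) / (2 * (d : ℝ)) := by
    intro i
    rw [← mul_div_assoc, Finset.mul_sum]
    congr 1
    exact Finset.sum_congr rfl fun k _ => by ring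
  rw [Finset.sum_congr rfl fun i _ => this i, ← Finset.sum_div, Finset.sum_comm]
  congr 1
  apply Finset.sum_congr rfl
  intro k _
  rw [Finset.sum_add_distrib]

/-- `exp_bound` with `u x = - ∑ i, G(x - P i) Sv (τ i)`; on the event the exponent is at least
`K n (|S|^2 - ε0 |S|)`, `|S|^2 = (3 - ε)/4`, and `(u, Lap u) = ∑∑ G(P i - P j) ⟨S,S⟩ ≤ |S|^2 n (1 + η)`. -/
theorem col_bound {d L n : ℕ} [NeZero L] (hd : 1 ≤ d) (hL : Even L) {β ε η ε0 : ℝ}
    (hβ : 0 < β) (h0 : 0 ≤ ε) (h1 : ε ≤ 1) (he0 : 0 ≤ ε0) (P : Fin n → Tor d L)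
    (hP : Function.Injective P) (τ : Fin n → Col)
    (hG : ∑ i, ∑ j, |Gf (P i - P j)| ≤ n * (1 + η)) :
    GE β ε (fun σ : Tor d L → Col => ind ((∀ i, σ (P i) = τ i) ∧ m2 ε σ ≤ ε0 ^ 2))
      ≤ Real.exp (-(2 * d * β * n * ((3 - ε) / 8 * (1 - η) - ε0 * Real.sqrt ((3 - ε) / 4)))) := by
  set K : ℝ := 2 * d * β with hK
  have hK0 : 0 ≤ K := by positivity
  have hs : 0 ≤ (3 - ε) / 4 := by linarith
  set u : Tor d L → Fin 3 → ℝ := fun x j => ∑ i, (-(Sv ε (τ i) j)) * Gf (x - P i) with hu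
  have hLap : ∀ x j, Lap (fun y => u y j) x =
      ∑ i, (-(Sv ε (τ i) j)) * ((if x = P i then 1 else 0) - 1 / (L : ℝ) ^ d) := by
    intro x j
    rw [hu]
    rw [Lap_lin (fun i => -(Sv ε (τ i) j)) (fun i y => Gf (y - P i)) x]
    apply Finset.sum_congr rfl
    intro i _
    rw [Lap_Gf hd]
  have hcard : (Fintype.card (Tor d L) : ℝ) = (L : ℝ) ^ d := by
    simp [ZMod.card]
  have hLpos : (0 : ℝ) < (L : ℝ) ^ d := by
    have : (0 : ℝ) < L := by exact_mod_cast Nat.pos_of_ne_zero (NeZero.ne L)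
    positivity
  -- the pairing with any field
  have hpair : ∀ (w : Tor d L → ℝ) (j : Fin 3), ∑ x, w x * Lap (fun y => u y j) x =
      ∑ i, (-(Sv ε (τ i) j)) * (w (P i) - (∑ x, w x) / (L : ℝ) ^ d) := by
    intro w j
    have : ∀ x, w x * Lap (fun y => u y j) x =
        ∑ i, (-(Sv ε (τ i) j)) * (w x * (if x = P i then 1 else 0) - w x / (L : ℝ) ^ d) := by
      intro x
      rw [hLap, Finset.mul_sum]
      apply Finset.sum_congr rfl
      intro i _
      ring
    rw [Finset.sum_congr rfl fun x _ => this x, Finset.sum_comm]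
    apply Finset.sum_congr rfl
    intro i _
    rw [← Finset.mul_sum, Finset.sum_sub_distrib, ← Finset.sum_div]
    congr 2
    simp
  -- exponent on the left
  have hleft : ∀ σ : Tor d L → Col, -K * ∑ x, ∑ j, Sv ε (σ x) j * Lap (fun y => u y j) x =
      K * ∑ i, (∑ j, Sv ε (τ i) j * Sv ε (σ (P i)) j - ∑ j, Sv ε (τ i) j * mv ε σ j) := by
    intro σ
    rw [Finset.sum_comm]
    rw [Finset.sum_congr rfl fun j _ => hpair (fun x => Sv ε (σ x) j) j, Finset.sum_comm,
      neg_mul, ← mul_neg, ← Finset.sum_neg_distrib]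
    congr 1
    apply Finset.sum_congr rfl
    intro i _
    rw [← Finset.sum_neg_distrib, ← Finset.sum_sub_distrib]
    apply Finset.sum_congr rfl
    intro j _
    rw [mv, hcard]
    ring
  -- the right-hand side
  have hright : ∑ x, ∑ j, u x j * Lap (fun y => u y j) x ≤ (3 - ε) / 4 * (n * (1 + η)) := by
    rw [Finset.sum_comm]
    have h2 : ∀ j, ∑ x, u x j * Lap (fun y => u y j) x =
        ∑ i, ∑ k, Sv ε (τ i) j * Sv ε (τ k) j * Gf (P i - P k) := by
      intro j
      rw [hpair (fun x => u x j) j]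
      have h3 : ∑ x, u x j = 0 := by
        rw [hu]
        simp only
        rw [Finset.sum_comm]
        apply Finset.sum_eq_zero
        intro i _
        rw [← Finset.mul_sum]
        have : ∑ x : Tor d L, Gf (x - P i) = ∑ x : Tor d L, Gf x :=
          Equiv.sum_comp (Equiv.subRight (P i)) (fun x => Gf x)
        rw [this, Gf_sum, mul_zero]
      apply Finset.sum_congr rfl
      intro i _
      rw [h3, zero_div, sub_zero, hu]
      simp only
      rw [Finset.mul_sum]
      apply Finset.sum_congr rfl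
      intro k _
      ring
    rw [Finset.sum_congr rfl fun j _ => h2 j, Finset.sum_comm]
    have h4 : ∀ i, ∑ j, ∑ k, Sv ε (τ i) j * Sv ε (τ k) j * Gf (P i - P k) ≤
        (3 - ε) / 4 * ∑ k, |Gf (P i - P k)| := by
      intro i
      rw [Finset.sum_comm, Finset.mul_sum]
      apply Finset.sum_le_sum
      intro k _
      rw [← Finset.sum_mul]
      have h5 : |∑ j, Sv ε (τ i) j * Sv ε (τ k) j| ≤ (3 - ε) / 4 := by
        rw [abs_le]
        have hi := Sv_sq h0 h1 (τ i)
        have hk := Sv_sq h0 h1 (τ k)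
        rw [Fin.sum_univ_three] at hi hk ⊢
        constructor
        · nlinarith [sq_nonneg (Sv ε (τ i) 0 + Sv ε (τ k) 0), sq_nonneg (Sv ε (τ i) 1 + Sv ε (τ k) 1),
            sq_nonneg (Sv ε (τ i) 2 + Sv ε (τ k) 2)]
        · nlinarith [sq_nonneg (Sv ε (τ i) 0 - Sv ε (τ k) 0), sq_nonneg (Sv ε (τ i) 1 - Sv ε (τ k) 1),
            sq_nonneg (Sv ε (τ i) 2 - Sv ε (τ k) 2)]
      calc (∑ j, Sv ε (τ i) j * Sv ε (τ k) j) * Gf (P i - P k)
          ≤ |(∑ j, Sv ε (τ i) j * Sv ε (τ k) j) * Gf (P i - P k)| := le_abs_self _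
        _ = |∑ j, Sv ε (τ i) j * Sv ε (τ k) j| * |Gf (P i - P k)| := abs_mul _ _
        _ ≤ (3 - ε) / 4 * |Gf (P i - P k)| := mul_le_mul_of_nonneg_right h5 (abs_nonneg _)
    refine le_trans (Finset.sum_le_sum fun i _ => h4 i) ?_
    rw [← Finset.mul_sum]
    exact mul_le_mul_of_nonneg_left hG hs
  -- exponent on the event
  have hev : ∀ σ : Tor d L → Col, (∀ i, σ (P i) = τ i) ∧ m2 ε σ ≤ ε0 ^ 2 →
      K * (n * ((3 - ε) / 4 - ε0 * Real.sqrt ((3 - ε) / 4))) ≤
        -K * ∑ x, ∑ j, Sv ε (σ x) j * Lap (fun y => u y j) x := by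
    rintro σ ⟨h2, h3⟩
    rw [hleft]
    apply mul_le_mul_of_nonneg_left _ hK0
    have h6 : ∀ i, (3 - ε) / 4 - ε0 * Real.sqrt ((3 - ε) / 4) ≤
        ∑ j, Sv ε (τ i) j * Sv ε (σ (P i)) j - ∑ j, Sv ε (τ i) j * mv ε σ j := by
      intro i
      have h7 : ∑ j, Sv ε (τ i) j * Sv ε (σ (P i)) j = (3 - ε) / 4 := by
        rw [h2 i, ← Sv_sq h0 h1 (τ i)]
        apply Finset.sum_congr rfl
        intro j _
        ring
      have h8 : ∑ j, Sv ε (τ i) j * mv ε σ j ≤ ε0 * Real.sqrt ((3 - ε) / 4) := by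
        have h9 := Finset.sum_mul_sq_le_sq_mul_sq Finset.univ (fun j => Sv ε (τ i) j) (fun j => mv ε σ j)
        rw [Sv_sq h0 h1 (τ i)] at h9
        have h10 : (∑ j, Sv ε (τ i) j * mv ε σ j) ^ 2 ≤ (ε0 * Real.sqrt ((3 - ε) / 4)) ^ 2 := by
          rw [mul_pow, Real.sq_sqrt hs, mul_comm]
          refine le_trans h9 ?_
          exact mul_le_mul_of_nonneg_left h3 hs
        exact abs_le_of_sq_le_sq' h10 (by positivity) |>.2
      rw [h7]
      linarith
    calc (n : ℝ) * ((3 - ε) / 4 - ε0 * Real.sqrt ((3 - ε) / 4)) =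
        ∑ _i : Fin n, ((3 - ε) / 4 - ε0 * Real.sqrt ((3 - ε) / 4)) := by
          rw [Finset.sum_const, Finset.card_univ, Fintype.card_fin, nsmul_eq_mul]
      _ ≤ _ := Finset.sum_le_sum fun i _ => h6 i
  -- conclusion
  have hexp := exp_bound hL (ε := ε) hβ.le u
  rw [← hK] at hexp
  set c : ℝ := K * (n * ((3 - ε) / 4 - ε0 * Real.sqrt ((3 - ε) / 4))) with hc
  have h11 : GE β ε (fun σ : Tor d L → Col => ind ((∀ i, σ (P i) = τ i) ∧ m2 ε σ ≤ ε0 ^ 2)) ≤
      GE β ε (fun σ : Tor d L → Col => Real.exp (-c) *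
        Real.exp (-K * ∑ x, ∑ j, Sv ε (σ x) j * Lap (fun y => u y j) x)) := by
    apply GE_mono
    intro σ
    by_cases h : (∀ i, σ (P i) = τ i) ∧ m2 ε σ ≤ ε0 ^ 2
    · rw [ind_true h, ← Real.exp_add]
      apply Real.one_le_exp
      have := hev σ h
      linarith
    · rw [ind_false h]
      positivity
  rw [GE_smul] at h11
  refine le_trans h11 ?_
  refine le_trans (mul_le_mul_of_nonneg_left hexp (Real.exp_pos _).le) ?_
  rw [← Real.exp_add]
  apply Real.exp_le_exp.mpr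
  have h12 := mul_le_mul_of_nonneg_left hright (by positivity : 0 ≤ K / 2)
  rw [hc]
  linarith

end H82AT

end S_COLB
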