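import Mathlib
import Pool.Agent.H82.ATM.G0
import Pool.Agent.H82.ATM.G3
import Pool.Agent.H82.ATM.G4
import Pool.Agent.H82.ATM.G5

set_option autoImplicit false

/-! Ashkin-Teller critical points, part G6: this file joins several modules to save build time. -/

section S_MFZ

/-! MODULE MFZ: lower bound of the partition function by product measures. -/

set_option autoImplicit false

namespace H82AT

open Finset

private theorem mfz_card {d L : ℕ} [NeZero L] : Fintype.card (Tor d L) = L ^ d := by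
  simp [Tor, ZMod.card]

/-- the Gibbs weight in terms of `(S, D S)`, `K = 2 d β` -/
theorem gw_eq {d L : ℕ} [NeZero L] (hd : 1 ≤ d) {β ε : ℝ} (h0 : 0 ≤ ε) (h1 : ε ≤ 1)
    (σ : Tor d L → Col) :
    gw β ε σ = Real.exp (-(d * β * (3 - ε) / 4 * (L : ℝ) ^ d))
      * Real.exp (d * β * ∑ x, ∑ j, Sv ε (σ x) j * avg (fun y => Sv ε (σ y) j) x) := by
  have _ := hd
  unfold gw
  rw [← Real.exp_add]
  congr 1
  rw [Finset.sum_comm]
  have e1 : ∀ j : Fin 3, ∑ e : Tor d L × Fin d,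
      (Sv ε (σ e.1) j - Sv ε (σ (e.1 + Pi.single e.2 1)) j) ^ 2 =
      2 * d * ∑ x, Sv ε (σ x) j * Lap (fun y => Sv ε (σ y) j) x := by
    intro j
    rw [← sbp (fun y => Sv ε (σ y) j) (fun y => Sv ε (σ y) j)]
    apply Finset.sum_congr rfl
    intro e _
    ring
  simp only [e1]
  rw [← Finset.mul_sum, Finset.sum_comm]
  have e2 : ∀ x : Tor d L, ∑ j, Sv ε (σ x) j * Lap (fun y => Sv ε (σ y) j) x =
      (3 - ε) / 4 - ∑ j, Sv ε (σ x) j * avg (fun y => Sv ε (σ y) j) x := by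
    intro x
    rw [← Sv_sq h0 h1 (σ x), ← Finset.sum_sub_distrib]
    apply Finset.sum_congr rfl
    intro j _
    unfold Lap
    ring
  simp only [e2]
  rw [Finset.sum_sub_distrib, Finset.sum_const, Finset.card_univ, mfz_card, nsmul_eq_mul]
  push_cast
  ring

private theorem mfz_two {V : Type} [Fintype V] [DecidableEq V] (f' : Col → ℝ)
    (hs : ∑ c, f' c = 1) (x y : V) (hxy : x ≠ y) (g h : Col → ℝ) :
    ∑ σ : V → Col, (∏ z, f' (σ z)) * (g (σ x) * h (σ y)) =
      (∑ c, f' c * g c) * (∑ c, f' c * h c) := by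
  have e1 : ∀ σ : V → Col, (∏ z, f' (σ z)) * (g (σ x) * h (σ y)) =
      ∏ z, (f' (σ z) * ((if z = x then g (σ z) else 1) * (if z = y then h (σ z) else 1))) := by
    intro σ
    rw [Finset.prod_mul_distrib, Finset.prod_mul_distrib, Finset.prod_ite_eq' univ x,
      Finset.prod_ite_eq' univ y, if_pos (mem_univ _), if_pos (mem_univ _)]
  simp only [e1]
  have e2 := Finset.prod_univ_sum (fun _ : V => (Finset.univ : Finset Col))
    (fun z c => f' c * ((if z = x then g c else 1) * (if z = y then h c else 1)))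
  rw [Fintype.piFinset_univ] at e2
  rw [← e2, Finset.prod_eq_mul x y hxy]
  · congr 1
    · apply Finset.sum_congr rfl
      intro c _
      rw [if_pos rfl, if_neg hxy, mul_one]
    · apply Finset.sum_congr rfl
      intro c _
      rw [if_pos rfl, if_neg (Ne.symm hxy), one_mul]
  · intro z _ hz
    refine Eq.trans ?_ hs
    apply Finset.sum_congr rfl
    intro c _
    rw [if_neg hz.1, if_neg hz.2]; ring
  · intro hx; exact absurd (mem_univ x) hx
  · intro hy; exact absurd (mem_univ y) hy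

private theorem mfz_one {V : Type} [Fintype V] [DecidableEq V] (f' : Col → ℝ)
    (hs : ∑ c, f' c = 1) (x : V) (g : Col → ℝ) :
    ∑ σ : V → Col, (∏ z, f' (σ z)) * g (σ x) = ∑ c, f' c * g c := by
  have e1 : ∀ σ : V → Col, (∏ z, f' (σ z)) * g (σ x) =
      ∏ z, (f' (σ z) * (if z = x then g (σ z) else 1)) := by
    intro σ
    rw [Finset.prod_mul_distrib, Finset.prod_ite_eq' univ x, if_pos (mem_univ _)]
  simp only [e1]
  have e2 := Finset.prod_univ_sum (fun _ : V => (Finset.univ : Finset Col))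
    (fun z c => f' c * (if z = x then g c else 1))
  rw [Fintype.piFinset_univ] at e2
  rw [← e2, Finset.prod_eq_single x]
  · apply Finset.sum_congr rfl
    intro c _
    rw [if_pos rfl]
  · intro z _ hz
    refine Eq.trans ?_ hs
    apply Finset.sum_congr rfl
    intro c _
    rw [if_neg hz, mul_one]
  · intro hx; exact absurd (mem_univ x) hx

private theorem mfz_total {V : Type} [Fintype V] [DecidableEq V] (f' : Col → ℝ)
    (hs : ∑ c, f' c = 1) : ∑ σ : V → Col, ∏ z, f' (σ z) = 1 := by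
  have e2 := Finset.prod_univ_sum (fun _ : V => (Finset.univ : Finset Col)) (fun _ c => f' c)
  rw [Fintype.piFinset_univ] at e2
  rw [← e2]
  simp [hs]

/-- Jensen (weighted AM-GM / convexity of exp) for the product measure `∏ f' (σ x)`; coordinates with `f' c = 0`
contribute nothing -/
theorem Z_low {d L : ℕ} [NeZero L] (hd : 1 ≤ d) (hL : 2 ≤ L) {β ε : ℝ} (hβ : 0 ≤ β)
    (f' : Col → ℝ) (hf : f' ∈ stdSimplex ℝ Col) :
    Real.exp (-((L : ℝ) ^ d * Phi (2 * d * β) ε f'))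
      ≤ ∑ σ : Tor d L → Col,
        Real.exp (d * β * ∑ x, ∑ j, Sv ε (σ x) j * avg (fun y => Sv ε (σ y) j) x) := by
  have _ := hβ
  have hf0 : ∀ c, 0 ≤ f' c := hf.1
  have hf1 : ∑ c, f' c = 1 := hf.2
  have hdR : (0 : ℝ) < d := by exact_mod_cast hd
  have : Fact (1 < L) := ⟨by omega⟩
  set H : (Tor d L → Col) → ℝ := fun σ =>
    d * β * ∑ x, ∑ j, Sv ε (σ x) j * avg (fun y => Sv ε (σ y) j) x with hH
  set ν : (Tor d L → Col) → ℝ := fun σ => ∏ z, f' (σ z) with hν
  have hν0 : ∀ σ, 0 ≤ ν σ := fun σ => Finset.prod_nonneg (fun z _ => hf0 _)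
  have hν1 : ∑ σ, ν σ = 1 := mfz_total f' hf1
  -- Jensen
  have hj := convexOn_exp.map_sum_le (t := (Finset.univ : Finset (Tor d L → Col))) (w := ν)
    (p := fun σ => H σ - Real.log (ν σ)) (fun σ _ => hν0 σ) hν1 (fun σ _ => Set.mem_univ _)
  simp only [smul_eq_mul] at hj
  have hle : ∑ σ, ν σ * Real.exp (H σ - Real.log (ν σ)) ≤ ∑ σ, Real.exp (H σ) := by
    apply Finset.sum_le_sum
    intro σ _
    rcases (hν0 σ).eq_or_lt with h | h
    · rw [← h, zero_mul]; positivity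
    · rw [Real.exp_sub, Real.exp_log h]
      rw [mul_div_cancel₀ _ h.ne']
  refine le_trans (le_of_eq ?_) (le_trans hj hle)
  congr 1
  -- the mean of the energy
  have hne : ∀ (x : Tor d L) (i : Fin d), x ≠ x + Pi.single i 1 := by
    intro x i h
    have h2 : (Pi.single i 1 : Tor d L) = 0 := by
      have := congrArg (fun z => z - x) h
      simpa using this.symm
    have h3 := congrFun h2 i
    simp at h3
  have hne' : ∀ (x : Tor d L) (i : Fin d), x ≠ x - Pi.single i 1 := by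
    intro x i h
    have h2 : (Pi.single i 1 : Tor d L) = 0 := by
      have := congrArg (fun z => x - z) h
      simpa using this.symm
    have h3 := congrFun h2 i
    simp at h3
  have hmean : ∑ σ, ν σ * H σ = (L : ℝ) ^ d * (d * β * ∑ j, (mf ε f' j) ^ 2) := by
    have e1 : ∀ σ, ν σ * H σ = d * β * ∑ x, ∑ j, (∑ i : Fin d,
        (ν σ * (Sv ε (σ x) j * Sv ε (σ (x + Pi.single i 1)) j) +
          ν σ * (Sv ε (σ x) j * Sv ε (σ (x - Pi.single i 1)) j))) / (2 * d) := by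
      intro σ
      rw [hH]
      simp only
      rw [mul_left_comm, Finset.mul_sum]
      congr 1
      apply Finset.sum_congr rfl
      intro x _
      rw [Finset.mul_sum]
      apply Finset.sum_congr rfl
      intro j _
      unfold avg
      rw [← mul_assoc, mul_div_assoc', Finset.mul_sum]
      congr 1
      apply Finset.sum_congr rfl
      intro i _
      ring
    simp only [e1]
    rw [← Finset.mul_sum, Finset.sum_comm]
    have e2 : ∀ x : Tor d L, ∑ σ : Tor d L → Col, ∑ j, (∑ i : Fin d,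
        (ν σ * (Sv ε (σ x) j * Sv ε (σ (x + Pi.single i 1)) j) +
          ν σ * (Sv ε (σ x) j * Sv ε (σ (x - Pi.single i 1)) j))) / (2 * d) =
        ∑ j, (mf ε f' j) ^ 2 := by
      intro x
      rw [Finset.sum_comm]
      apply Finset.sum_congr rfl
      intro j _
      rw [← Finset.sum_div, Finset.sum_comm]
      have e3 : ∀ i : Fin d, ∑ σ : Tor d L → Col,
          (ν σ * (Sv ε (σ x) j * Sv ε (σ (x + Pi.single i 1)) j) +
            ν σ * (Sv ε (σ x) j * Sv ε (σ (x - Pi.single i 1)) j)) = 2 * (mf ε f' j) ^ 2 := by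
        intro i
        rw [Finset.sum_add_distrib, mfz_two f' hf1 x _ (hne x i) (fun c => Sv ε c j)
          (fun c => Sv ε c j), mfz_two f' hf1 x _ (hne' x i) (fun c => Sv ε c j)
          (fun c => Sv ε c j)]
        unfold mf
        ring
      simp only [e3]
      rw [Finset.sum_const, Finset.card_univ, Fintype.card_fin, nsmul_eq_mul]
      field_simp
    simp only [e2]
    rw [Finset.sum_const, Finset.card_univ, mfz_card, nsmul_eq_mul]
    push_cast
    ring
  have hent : ∑ σ, ν σ * Real.log (ν σ) = (L : ℝ) ^ d * ∑ c, f' c * Real.log (f' c) := by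
    have e1 : ∀ σ, ν σ * Real.log (ν σ) = ∑ x, ν σ * Real.log (f' (σ x)) := by
      intro σ
      rw [← Finset.mul_sum]
      rcases (hν0 σ).eq_or_lt with h | h
      · rw [← h, zero_mul, zero_mul]
      · congr 1
        rw [hν]
        simp only
        rw [Real.log_prod]
        intro z _ hz
        rw [hν] at h
        simp only at h
        rw [Finset.prod_eq_zero (mem_univ z) hz] at h
        exact lt_irrefl _ h
    simp only [e1]
    rw [Finset.sum_comm]
    have e2 : ∀ x : Tor d L, ∑ σ : Tor d L → Col, ν σ * Real.log (f' (σ x)) =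
        ∑ c, f' c * Real.log (f' c) := fun x => mfz_one f' hf1 x (fun c => Real.log (f' c))
    simp only [e2]
    rw [Finset.sum_const, Finset.card_univ, mfz_card, nsmul_eq_mul]
    push_cast
    ring
  simp only [mul_sub]
  rw [Finset.sum_sub_distrib, hmean, hent]
  unfold Phi
  ring

end H82AT

end S_MFZ

section S_MFT

/-! MODULE MFT: counting of types. -/

set_option autoImplicit false

namespace H82AT

open Finset

private lemma mft_avg {V : Type} [Fintype V] (σ : V → Col) (g : Col → ℝ) :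
    (∑ x, g (σ x)) / Fintype.card V = ∑ c, frq σ c * g c := by
  classical
  have h1 : ∑ x, g (σ x) = ∑ c, ((Finset.univ.filter (fun x => σ x = c)).card : ℝ) * g c := by
    rw [← Finset.sum_fiberwise_of_maps_to (g := σ) (t := Finset.univ)
      (fun x _ => Finset.mem_univ _)]
    refine Finset.sum_congr rfl fun c _ => ?_
    rw [← nsmul_eq_mul, ← Finset.sum_const]
    refine Finset.sum_congr rfl fun x hx => ?_
    rw [(Finset.mem_filter.1 hx).2]
  rw [h1, Finset.sum_div]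
  refine Finset.sum_congr rfl fun c _ => ?_
  unfold frq
  ring

theorem frq_mem {V : Type} [Fintype V] [Nonempty V] (σ : V → Col) :
    frq σ ∈ stdSimplex ℝ Col := by
  refine ⟨fun c => ?_, ?_⟩
  · unfold frq
    positivity
  · have h1 := mft_avg σ (fun _ => 1)
    simp only [mul_one] at h1
    rw [← h1, Finset.sum_const, Finset.card_univ, nsmul_eq_mul, mul_one, div_self]
    exact_mod_cast Fintype.card_ne_zero

theorem mv_frq {V : Type} [Fintype V] (ε : ℝ) (σ : V → Col) (j : Fin 3) :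
    mv ε σ j = mf ε (frq σ) j := by
  unfold mv mf
  exact mft_avg σ (fun c => Sv ε c j)

theorem mt_frq {V : Type} [Fintype V] (σ : V → Col) : mt σ = mft (frq σ) := by
  unfold mt mft
  exact mft_avg σ (fun c => sg c.2)

private lemma mft_prod {V : Type} [Fintype V] [Nonempty V] (σ : V → Col) :
    ∏ x, frq σ (σ x) = Real.exp (Fintype.card V * ∑ c, frq σ c * Real.log (frq σ c)) := by
  classical
  have hN : (Fintype.card V : ℝ) ≠ 0 := by exact_mod_cast Fintype.card_ne_zero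
  have h0 : ∀ x, 0 < frq σ (σ x) := by
    intro x
    unfold frq
    have h1 : 0 < (Finset.univ.filter (fun y => σ y = σ x)).card :=
      Finset.card_pos.2 ⟨x, by simp⟩
    have h2 : 0 < Fintype.card V := Fintype.card_pos
    positivity
  have h1 : ∏ x, frq σ (σ x) = Real.exp (∑ x, Real.log (frq σ (σ x))) := by
    rw [Real.exp_sum]
    exact Finset.prod_congr rfl fun x _ => (Real.exp_log (h0 x)).symm
  rw [h1]
  congr 1
  have h2 := mft_avg σ (fun c => Real.log (frq σ c))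
  rw [← h2]
  field_simp

private lemma mft_total {V : Type} [Fintype V] [DecidableEq V] (f : Col → ℝ)
    (h1 : ∑ c, f c = 1) : ∑ σ : V → Col, ∏ x, f (σ x) = 1 := by
  classical
  have h2 := Finset.prod_univ_sum (fun _ : V => (Finset.univ : Finset Col)) (fun _ c => f c)
  rw [Fintype.piFinset_univ] at h2
  rw [← h2]
  simp [h1]

/-- number of `σ` with a given frequency vector `f` is at most `exp(-N ∑ f log f)`: each such `σ`
has probability `exp(N ∑ f log f)` under the product measure with marginal `f`; there are at most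
`(N+1)^4` frequency vectors. -/
theorem type_count {V : Type} [Fintype V] [DecidableEq V] [Nonempty V] (K ε : ℝ)
    (U : Set (Col → ℝ)) (b : ℝ)
    (hU : ∀ f ∈ stdSimplex ℝ Col, f ∈ U → b ≤ Phi K ε f) :
    ∑ σ : V → Col, ind (frq σ ∈ U) * Real.exp (K / 2 * Fintype.card V * m2 ε σ)
      ≤ ((Fintype.card V : ℝ) + 1) ^ 4 * Real.exp (-(Fintype.card V * b)) := by
  classical
  set N : ℕ := Fintype.card V with hN
  have hN0 : (0 : ℝ) ≤ N := Nat.cast_nonneg N
  -- each term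
  have hterm : ∀ σ : V → Col, ind (frq σ ∈ U) * Real.exp (K / 2 * N * m2 ε σ) ≤
      Real.exp (-(N * b)) * ∏ x, frq σ (σ x) := by
    intro σ
    rw [mft_prod σ, ← hN, ← Real.exp_add]
    by_cases h : frq σ ∈ U
    · rw [ind_true h, one_mul]
      refine Real.exp_le_exp.2 ?_
      have h1 := hU _ (frq_mem σ) h
      have h2 : m2 ε σ = ∑ j, (mf ε (frq σ) j) ^ 2 := by
        unfold m2
        exact Finset.sum_congr rfl fun j _ => by rw [mv_frq]
      unfold Phi at h1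
      rw [← h2] at h1
      have h3 := mul_le_mul_of_nonneg_left h1 hN0
      have h4 : (N : ℝ) * (-(K / 2) * m2 ε σ + ∑ c, frq σ c * Real.log (frq σ c)) =
          -(K / 2 * N * m2 ε σ) + N * ∑ c, frq σ c * Real.log (frq σ c) := by ring
      linarith
    · rw [ind_false h, zero_mul]
      exact (Real.exp_pos _).le
  refine (Finset.sum_le_sum fun σ _ => hterm σ).trans ?_
  rw [← Finset.mul_sum, mul_comm]
  refine mul_le_mul_of_nonneg_right ?_ (Real.exp_pos _).le
  -- grouping by the frequency vector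
  set I : Finset (Col → ℝ) := Finset.univ.image (fun σ : V → Col => frq σ) with hI
  have h1 : ∑ σ : V → Col, ∏ x, frq σ (σ x) =
      ∑ f ∈ I, ∑ σ ∈ Finset.univ.filter (fun σ : V → Col => frq σ = f), ∏ x, f (σ x) := by
    rw [← Finset.sum_fiberwise_of_maps_to (g := fun σ : V → Col => frq σ) (t := I)
      (fun σ _ => Finset.mem_image_of_mem _ (Finset.mem_univ _))]
    refine Finset.sum_congr rfl fun f _ => Finset.sum_congr rfl fun σ hσ => ?_
    rw [(Finset.mem_filter.1 hσ).2]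
  have h2 : ∀ f ∈ I,
      ∑ σ ∈ Finset.univ.filter (fun σ : V → Col => frq σ = f), ∏ x, f (σ x) ≤ 1 := by
    intro f hf
    rw [hI, Finset.mem_image] at hf
    obtain ⟨τ, _, rfl⟩ := hf
    have h3 := frq_mem τ
    calc _ ≤ ∑ σ : V → Col, ∏ x, frq τ (σ x) :=
          Finset.sum_le_sum_of_subset_of_nonneg (Finset.filter_subset _ _) fun σ _ _ =>
            Finset.prod_nonneg fun x _ => h3.1 _
      _ = 1 := mft_total _ h3.2
  have h3 : (I.card : ℝ) ≤ ((N : ℝ) + 1) ^ 4 := by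
    have h4 : I ⊆ (Finset.univ : Finset (Col → Fin (N + 1))).image
        (fun k c => ((k c : ℕ) : ℝ) / N) := by
      intro f hf
      rw [hI, Finset.mem_image] at hf
      obtain ⟨τ, _, rfl⟩ := hf
      rw [Finset.mem_image]
      refine ⟨fun c => ⟨(Finset.univ.filter (fun x => τ x = c)).card, ?_⟩, Finset.mem_univ _, ?_⟩
      · have := Finset.card_filter_le (Finset.univ : Finset V) (fun x => τ x = c)
        rw [Finset.card_univ, ← hN] at this
        omega
      · rfl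
    have h5 := (Finset.card_le_card h4).trans Finset.card_image_le
    have h6 : (Finset.univ : Finset (Col → Fin (N + 1))).card = (N + 1) ^ 4 := by
      rw [Finset.card_univ, Fintype.card_fun, Fintype.card_fin]
      rfl
    rw [h6] at h5
    exact_mod_cast h5
  rw [h1]
  calc _ ≤ ∑ f ∈ I, (1 : ℝ) := Finset.sum_le_sum h2
    _ = I.card := by rw [Finset.sum_const, nsmul_eq_mul, mul_one]
    _ ≤ _ := h3

end H82AT

end S_MFT

section S_MFP

/-! MODULE MFP: mean-field upper bound for type events of probability at least 1/2. -/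

set_option autoImplicit false

namespace H82AT

open Finset

/-- sum of an average -/
theorem mfp_sum_avg {d L : ℕ} [NeZero L] (hd : 1 ≤ d) (g : Tor d L → ℝ) :
    ∑ x, avg g x = ∑ x, g x := by
  have h := avg_symm (fun _ : Tor d L => (1 : ℝ)) g
  have hd' : (d : ℝ) ≠ 0 := by
    have : (1 : ℝ) ≤ d := by exact_mod_cast hd
    linarith
  have h1 : ∀ x : Tor d L, avg (fun _ : Tor d L => (1 : ℝ)) x = 1 := by
    intro x
    unfold avg
    simp only [sum_const, card_univ, Fintype.card_fin, nsmul_eq_mul]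
    field_simp
    ring
  simpa [h1] using h

theorem mfp_card {d L : ℕ} [NeZero L] : (Fintype.card (Tor d L) : ℝ) = (L : ℝ) ^ d := by
  simp [ZMod.card]

/-- one coordinate: `(f, D f) = N m^2 + (f - m, D f - m)` -/
theorem mfp_split {d L : ℕ} [NeZero L] (hd : 1 ≤ d) (f : Tor d L → ℝ) (m : ℝ)
    (hm : ∑ x, f x = (L : ℝ) ^ d * m) :
    ∑ x, f x * avg f x = (L : ℝ) ^ d * m ^ 2 + ∑ x, (f x - m) * (avg f x - m) := by
  have h1 : ∑ x, (f x - m) * (avg f x - m)
      = ∑ x, f x * avg f x - m * ∑ x, f x - m * ∑ x, avg f x + ∑ _x : Tor d L, m ^ 2 := by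
    rw [mul_sum, mul_sum, ← sum_sub_distrib, ← sum_sub_distrib, ← sum_add_distrib]
    apply sum_congr rfl
    intro x _
    ring
  rw [h1, mfp_sum_avg hd, hm, sum_const, card_univ, nsmul_eq_mul, mfp_card]
  ring

theorem mfp_m {d L : ℕ} [NeZero L] (ε : ℝ) (σ : Tor d L → Col) (j : Fin 3) :
    ∑ x, Sv ε (σ x) j = (L : ℝ) ^ d * mv ε σ j := by
  unfold mv
  rw [mfp_card]
  have : ((L : ℝ) ^ d) ≠ 0 := by
    have : (L : ℝ) ≠ 0 := by exact_mod_cast NeZero.ne L
    positivity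
  field_simp

/-- the exponent -/
noncomputable def mfpH {d L : ℕ} (ε : ℝ) (σ : Tor d L → Col) [NeZero L] : ℝ :=
  ∑ x, ∑ j, Sv ε (σ x) j * avg (fun y => Sv ε (σ y) j) x

noncomputable def mfpX {d L : ℕ} (ε : ℝ) (σ : Tor d L → Col) [NeZero L] : ℝ :=
  ∑ x, ∑ j, (Sv ε (σ x) j - mv ε σ j) * (avg (fun y => Sv ε (σ y) j) x - mv ε σ j)

noncomputable def mfpA {d L : ℕ} (ε : ℝ) (σ : Tor d L → Col) [NeZero L] : ℝ :=
  ∑ x, ∑ j, (Sv ε (σ x) j - mv ε σ j) ^ 2

noncomputable def mfpB {d L : ℕ} (ε : ℝ) (σ : Tor d L → Col) [NeZero L] : ℝ :=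
  ∑ x, ∑ j, (avg (fun y => Sv ε (σ y) j) x - mv ε σ j) ^ 2

theorem mfp_H {d L : ℕ} [NeZero L] (hd : 1 ≤ d) (ε : ℝ) (σ : Tor d L → Col) :
    mfpH ε σ = (L : ℝ) ^ d * m2 ε σ + mfpX ε σ := by
  unfold mfpH mfpX m2
  rw [sum_comm, sum_comm (f := fun x j => (Sv ε (σ x) j - mv ε σ j) *
    (avg (fun y => Sv ε (σ y) j) x - mv ε σ j)), mul_sum, ← sum_add_distrib]
  apply sum_congr rfl
  intro j _
  exact mfp_split hd (fun x => Sv ε (σ x) j) (mv ε σ j) (mfp_m ε σ j)

theorem mfp_A {d L : ℕ} [NeZero L] {ε : ℝ} (h0 : 0 ≤ ε) (h1 : ε ≤ 1) (σ : Tor d L → Col) :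
    mfpA ε σ ≤ 3 / 4 * (L : ℝ) ^ d := by
  have h2 : mfpA ε σ = ∑ x, ∑ j, (Sv ε (σ x) j) ^ 2 - (L : ℝ) ^ d * ∑ j, (mv ε σ j) ^ 2 := by
    unfold mfpA
    rw [sum_comm, sum_comm (f := fun x j => (Sv ε (σ x) j) ^ 2), mul_sum, ← sum_sub_distrib]
    apply sum_congr rfl
    intro j _
    have h3 : ∑ x, (Sv ε (σ x) j - mv ε σ j) ^ 2 = ∑ x, (Sv ε (σ x) j) ^ 2
        - 2 * mv ε σ j * ∑ x, Sv ε (σ x) j + ∑ _x : Tor d L, (mv ε σ j) ^ 2 := by
      rw [mul_sum, ← sum_sub_distrib, ← sum_add_distrib]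
      apply sum_congr rfl
      intro x _
      ring
    rw [h3, mfp_m, sum_const, card_univ, nsmul_eq_mul, mfp_card]
    ring
  rw [h2]
  have h4 : ∑ x : Tor d L, ∑ j, (Sv ε (σ x) j) ^ 2 = (3 - ε) / 4 * (L : ℝ) ^ d := by
    rw [sum_congr rfl (fun x _ => Sv_sq h0 h1 (σ x)), sum_const, card_univ, nsmul_eq_mul,
      mfp_card]
    ring
  rw [h4]
  have h5 : 0 ≤ ∑ j, (mv ε σ j) ^ 2 := sum_nonneg fun j _ => sq_nonneg _
  have h6 : 0 ≤ (L : ℝ) ^ d := by positivity
  nlinarith [mul_nonneg h6 h5, mul_nonneg h6 h0]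

theorem mfp_X {d L : ℕ} [NeZero L] (ε : ℝ) (σ : Tor d L → Col) (t : ℝ) (ht : 0 < t) :
    -(t / 2 * mfpA ε σ + 1 / (2 * t) * mfpB ε σ) ≤ mfpX ε σ ∧
    mfpX ε σ ≤ t / 2 * mfpA ε σ + 1 / (2 * t) * mfpB ε σ := by
  unfold mfpX mfpA mfpB
  have key : ∀ a b : ℝ, |a * b| ≤ t / 2 * a ^ 2 + 1 / (2 * t) * b ^ 2 := by
    intro a b
    have e : t / 2 * a ^ 2 + 1 / (2 * t) * b ^ 2 = ((t * a) ^ 2 + b ^ 2) / (2 * t) := by
      field_simp
    rw [e, le_div_iff₀ (by positivity), abs_mul]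
    have h0 := sq_nonneg (t * |a| - |b|)
    have h1 : (t * a) ^ 2 = (t * |a|) ^ 2 := by rw [mul_pow, mul_pow, sq_abs]
    have h2 : b ^ 2 = |b| ^ 2 := (sq_abs b).symm
    rw [h1, h2]
    nlinarith
  constructor
  · rw [mul_sum, mul_sum, ← sum_add_distrib, ← sum_neg_distrib]
    apply sum_le_sum
    intro x _
    rw [mul_sum, mul_sum, ← sum_add_distrib, ← sum_neg_distrib]
    apply sum_le_sum
    intro j _
    exact (abs_le.mp (key _ _)).1
  · rw [mul_sum, mul_sum, ← sum_add_distrib]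
    apply sum_le_sum
    intro x _
    rw [mul_sum, mul_sum, ← sum_add_distrib]
    apply sum_le_sum
    intro j _
    exact (abs_le.mp (key _ _)).2

theorem mfp_GE {d L : ℕ} [NeZero L] (hd : 1 ≤ d) {β ε : ℝ} (h0 : 0 ≤ ε) (h1 : ε ≤ 1)
    (f : (Tor d L → Col) → ℝ) :
    GE β ε f = (∑ σ, Real.exp (d * β * mfpH ε σ) * f σ) /
      ∑ σ : Tor d L → Col, Real.exp (d * β * mfpH ε σ) := by
  unfold GE
  have h2 : ∀ σ : Tor d L → Col, gw β ε σ = Real.exp (-(d * β * (3 - ε) / 4 * (L : ℝ) ^ d))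
      * Real.exp (d * β * mfpH ε σ) := fun σ => gw_eq hd h0 h1 σ
  simp only [h2, mul_assoc]
  rw [← mul_sum, ← mul_sum, mul_div_mul_left _ _ (Real.exp_pos _).ne']

theorem mfp_main {d L : ℕ} [NeZero L] (hd : 1 ≤ d) (hL : Even L) (hL2 : 2 ≤ L) {β ε : ℝ}
    (hβ : 0 < β) (hK : 2 * d * β ≤ 5) (h0 : 0 ≤ ε) (h1 : ε ≤ 1)
    (U : Set (Col → ℝ)) (f' : Col → ℝ) (hf : f' ∈ stdSimplex ℝ Col) (g : ℝ)
    (hU : ∀ f ∈ stdSimplex ℝ Col, f ∈ U → Phi (2 * d * β) ε f' + g ≤ Phi (2 * d * β) ε f)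
    (hP : 1 / 2 ≤ GE β ε (fun σ : Tor d L → Col => ind (frq σ ∈ U)))
    (t : ℝ) (ht : 0 < t) (hR : RR d L 2 ≤ t ^ 2) :
    1 / 2 ≤ ((L : ℝ) ^ d + 1) ^ 4
      * Real.exp (-((L : ℝ) ^ d * (g - 3 * t))) := by
  set N : ℝ := (L : ℝ) ^ d with hN
  have hd' : (1 : ℝ) ≤ d := by exact_mod_cast hd
  have hL0 : (0 : ℝ) < L := by exact_mod_cast (by omega : 0 < L)
  have hNpos : 0 < N := by positivity
  set w : (Tor d L → Col) → ℝ := fun σ => Real.exp (d * β * mfpH ε σ) with hw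
  have hwpos : ∀ σ, 0 < w σ := fun σ => Real.exp_pos _
  set Z : ℝ := ∑ σ, w σ with hZ
  have hZpos : 0 < Z := sum_pos (fun σ _ => hwpos σ) univ_nonempty
  have hZ2 : Real.exp (-(N * Phi (2 * d * β) ε f')) ≤ Z := Z_low hd hL2 hβ.le f' hf
  set wU : ℝ := ∑ σ, w σ * ind (frq σ ∈ U) with hwU
  have hGE : GE β ε (fun σ : Tor d L → Col => ind (frq σ ∈ U)) = wU / Z := mfp_GE hd h0 h1 _
  rw [hGE, le_div_iff₀ hZpos] at hP
  have hwUpos : 0 < wU := by linarith
  -- field
  have hB : ∑ σ, w σ * mfpB ε σ ≤ Z * (3 * N * RR d L 2 / (2 * d * β)) := by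
    have h2 := local_field (d := d) (L := L) hd hL (ε := ε) hβ
    have h3 : GE β ε (fun σ : Tor d L → Col => mfpB ε σ) = (∑ σ, w σ * mfpB ε σ) / Z :=
      mfp_GE hd h0 h1 _
    have h4 : GE β ε (fun σ : Tor d L → Col => mfpB ε σ) ≤ 3 * N * RR d L 2 / (2 * d * β) := h2
    rw [h3, div_le_iff₀ hZpos] at h4
    linarith
  have hB0 : ∀ σ : Tor d L → Col, 0 ≤ mfpB ε σ := fun σ =>
    sum_nonneg fun x _ => sum_nonneg fun j _ => sq_nonneg _
  have hBU : ∑ σ, w σ * ind (frq σ ∈ U) * mfpB ε σ ≤ ∑ σ, w σ * mfpB ε σ := by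
    apply sum_le_sum
    intro σ _
    have e1 := ind_le_one (frq σ ∈ U)
    have e2 : 0 ≤ w σ * mfpB ε σ := mul_nonneg (hwpos σ).le (hB0 σ)
    calc w σ * ind (frq σ ∈ U) * mfpB ε σ = ind (frq σ ∈ U) * (w σ * mfpB ε σ) := by ring
      _ ≤ 1 * (w σ * mfpB ε σ) := mul_le_mul_of_nonneg_right e1 e2
      _ = _ := one_mul _
  have hdb : 0 < d * β := by positivity
  have hBU2 : d * β * ∑ σ, w σ * ind (frq σ ∈ U) * mfpB ε σ ≤ wU * (3 * N * t ^ 2) := by
    have e1 := mul_le_mul_of_nonneg_left (hBU.trans hB) hdb.le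
    refine e1.trans ?_
    have e2 : d * β * (Z * (3 * N * RR d L 2 / (2 * d * β))) = (Z / 2) * (3 * N * RR d L 2) := by
      field_simp
    rw [e2]
    have e3 : 3 * N * RR d L 2 ≤ 3 * N * t ^ 2 := mul_le_mul_of_nonneg_left hR (by positivity)
    calc (Z / 2) * (3 * N * RR d L 2) ≤ (Z / 2) * (3 * N * t ^ 2) :=
          mul_le_mul_of_nonneg_left e3 (by positivity)
      _ ≤ wU * (3 * N * t ^ 2) := mul_le_mul_of_nonneg_right (by linarith) (by positivity)
  -- mean of X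
  have hXU : d * β * ∑ σ, w σ * ind (frq σ ∈ U) * mfpX ε σ ≤ 3 * N * t * wU := by
    have e1 : ∑ σ, w σ * ind (frq σ ∈ U) * mfpX ε σ
        ≤ ∑ σ, w σ * ind (frq σ ∈ U) * (t / 2 * (3 / 4 * N) + 1 / (2 * t) * mfpB ε σ) := by
      apply sum_le_sum
      intro σ _
      apply mul_le_mul_of_nonneg_left _ (mul_nonneg (hwpos σ).le (ind_nonneg _))
      refine (mfp_X ε σ t ht).2.trans ?_
      have := mfp_A h0 h1 σ
      have := mul_le_mul_of_nonneg_left this (by positivity : 0 ≤ t / 2)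
      linarith
    have e2 : ∑ σ, w σ * ind (frq σ ∈ U) * (t / 2 * (3 / 4 * N) + 1 / (2 * t) * mfpB ε σ)
        = wU * (t / 2 * (3 / 4 * N)) + 1 / (2 * t) * ∑ σ, w σ * ind (frq σ ∈ U) * mfpB ε σ := by
      rw [hwU, sum_mul, mul_sum, ← sum_add_distrib]
      apply sum_congr rfl
      intro σ _
      ring
    rw [e2] at e1
    have e3 := mul_le_mul_of_nonneg_left e1 hdb.le
    refine e3.trans ?_
    have e4 : 1 / (2 * t) * (d * β * ∑ σ, w σ * ind (frq σ ∈ U) * mfpB ε σ)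
        ≤ 1 / (2 * t) * (wU * (3 * N * t ^ 2)) := mul_le_mul_of_nonneg_left hBU2 (by positivity)
    have e5 : 1 / (2 * t) * (wU * (3 * N * t ^ 2)) = 3 / 2 * (wU * N * t) := by
      field_simp
    have e6 : d * β * (wU * (t / 2 * (3 / 4 * N))) ≤ 15 / 16 * (wU * N * t) := by
      have : 0 ≤ wU * N * t := by positivity
      nlinarith
    have e7 : 0 ≤ wU * N * t := by positivity
    nlinarith
  -- Jensen by hand
  have hJ : Real.exp (-(3 * N * t)) * wU
      ≤ ∑ σ : Tor d L → Col, ind (frq σ ∈ U) * Real.exp (2 * d * β / 2 * N * m2 ε σ) := by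
    have e1 : ∀ σ : Tor d L → Col, Real.exp (-(3 * N * t)) *
        (w σ * ind (frq σ ∈ U) + w σ * ind (frq σ ∈ U) * (3 * N * t)
          - d * β * (w σ * ind (frq σ ∈ U) * mfpX ε σ))
        ≤ ind (frq σ ∈ U) * Real.exp (2 * d * β / 2 * N * m2 ε σ) := by
      intro σ
      have e2 : Real.exp (2 * d * β / 2 * N * m2 ε σ) = w σ * Real.exp (-(d * β * mfpX ε σ)) := by
        rw [hw]
        simp only
        rw [mfp_H hd, ← Real.exp_add]
        congr 1
        ring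
      have e3 : Real.exp (-(d * β * mfpX ε σ))
          = Real.exp (-(3 * N * t)) * Real.exp (3 * N * t - d * β * mfpX ε σ) := by
        rw [← Real.exp_add]; congr 1; ring
      have e4 := Real.add_one_le_exp (3 * N * t - d * β * mfpX ε σ)
      rw [e2, e3]
      have e5 : 0 ≤ Real.exp (-(3 * N * t)) * (w σ * ind (frq σ ∈ U)) :=
        mul_nonneg (Real.exp_pos _).le (mul_nonneg (hwpos σ).le (ind_nonneg _))
      have e6 := mul_le_mul_of_nonneg_left e4 e5
      calc _ = Real.exp (-(3 * N * t)) * (w σ * ind (frq σ ∈ U)) *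
            (3 * N * t - d * β * mfpX ε σ + 1) := by ring
        _ ≤ _ := e6
        _ = _ := by ring
    refine le_trans ?_ (sum_le_sum (fun σ _ => e1 σ))
    rw [← mul_sum, sum_sub_distrib, sum_add_distrib, ← sum_mul, ← mul_sum]
    apply mul_le_mul_of_nonneg_left _ (Real.exp_pos _).le
    rw [← hwU]
    linarith
  have hT := type_count (V := Tor d L) (2 * d * β) ε U (Phi (2 * d * β) ε f' + g) hU
  rw [mfp_card, ← hN] at hT
  have hfin := hJ.trans hT
  -- conclude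
  have k1 : Real.exp (-(3 * N * t)) * (1 / 2 * Real.exp (-(N * Phi (2 * d * β) ε f')))
      ≤ (N + 1) ^ 4 * Real.exp (-(N * (Phi (2 * d * β) ε f' + g))) := by
    refine le_trans ?_ hfin
    apply mul_le_mul_of_nonneg_left _ (Real.exp_pos _).le
    linarith
  have k2 : Real.exp (-(3 * N * t)) * (1 / 2 * Real.exp (-(N * Phi (2 * d * β) ε f')))
      = Real.exp (-(3 * N * t) - N * Phi (2 * d * β) ε f') * (1 / 2) := by
    rw [sub_eq_add_neg, Real.exp_add]; ring
  have k3 : (N + 1) ^ 4 * Real.exp (-(N * (Phi (2 * d * β) ε f' + g)))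
      = Real.exp (-(3 * N * t) - N * Phi (2 * d * β) ε f') *
        ((N + 1) ^ 4 * Real.exp (-(N * (g - 3 * t)))) := by
    rw [mul_left_comm, ← Real.exp_add]
    congr 2
    ring
  rw [k2, k3] at k1
  exact le_of_mul_le_mul_left k1 (Real.exp_pos _)

theorem mf_upper {d L : ℕ} [NeZero L] (hd : 1 ≤ d) (hL : Even L) (hL2 : 2 ≤ L) {β ε : ℝ}
    (hβ : 0 < β) (hK : 2 * d * β ≤ 5) (h0 : 0 ≤ ε) (h1 : ε ≤ 1)
    (U : Set (Col → ℝ)) (f' : Col → ℝ) (hf : f' ∈ stdSimplex ℝ Col) (g : ℝ)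
    (hU : ∀ f ∈ stdSimplex ℝ Col, f ∈ U → Phi (2 * d * β) ε f' + g ≤ Phi (2 * d * β) ε f)
    (hP : 1 / 2 ≤ GE β ε (fun σ : Tor d L → Col => ind (frq σ ∈ U))) :
    1 / 2 ≤ ((L : ℝ) ^ d + 1) ^ 4
      * Real.exp (-((L : ℝ) ^ d * (g - 3 * Real.sqrt (RR d L 2)))) := by
  have hcont : Continuous (fun t : ℝ => ((L : ℝ) ^ d + 1) ^ 4
      * Real.exp (-((L : ℝ) ^ d * (g - 3 * t)))) := by fun_prop
  have hlim := (hcont.tendsto (Real.sqrt (RR d L 2))).mono_left
    (nhdsWithin_le_nhds (s := Set.Ioi (Real.sqrt (RR d L 2))))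
  refine ge_of_tendsto hlim ?_
  refine eventually_nhdsWithin_of_forall ?_
  intro t ht
  have ht' : Real.sqrt (RR d L 2) < t := ht
  have ht0 : 0 < t := lt_of_le_of_lt (Real.sqrt_nonneg _) ht'
  refine mfp_main hd hL hL2 hβ hK h0 h1 U f' hf g hU hP t ht0 ?_
  exact ((Real.sqrt_lt' ht0).mp ht').le

end H82AT

end S_MFP

section S_MFA1

/-! MODULE MFA1: at `ε = 0` no minimiser has `t`-average zero, except the uniform one when `K < 9/2`. -/

set_option autoImplicit false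

namespace H82AT

open Finset

theorem mfa1_sum (F : Col → ℝ) :
    ∑ c, F c = F (true, true) + F (true, false) + F (false, true) + F (false, false) := by
  rw [Fintype.sum_prod_type]
  simp only [Fintype.sum_bool]
  ring

/-- at `ε = 0` the squared magnetisation is `∑ f^2 - 1/4` -/
theorem mf_zero_sq (f : Col → ℝ) (hf : f ∈ stdSimplex ℝ Col) :
    ∑ j, (mf 0 f j) ^ 2 = ∑ c, (f c) ^ 2 - 1 / 4 := by
  have h1 := hf.2
  rw [mfa1_sum] at h1
  rw [mfa1_sum, Fin.sum_univ_three]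
  simp only [mf, mfa1_sum, Sv, sg, Matrix.cons_val_zero, Matrix.cons_val_one, Matrix.cons_val,
    add_zero, sub_zero, Real.sqrt_one, if_true, Bool.false_eq_true, if_false]
  generalize f (true, true) = a at *
  generalize f (true, false) = b at *
  generalize f (false, true) = c at *
  generalize f (false, false) = d at *
  have hd : d = 1 - a - b - c := by linarith
  subst hd
  ring

/-- one-coordinate part of the functional -/
noncomputable def mfa1_psi (K x : ℝ) : ℝ := x * Real.log x - K / 2 * x ^ 2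

theorem mfa1_Phi (K : ℝ) (f : Col → ℝ) (hf : f ∈ stdSimplex ℝ Col) :
    Phi K 0 f = K / 8 + (mfa1_psi K (f (true, true)) + mfa1_psi K (f (true, false)) +
      mfa1_psi K (f (false, true)) + mfa1_psi K (f (false, false))) := by
  unfold Phi mfa1_psi
  rw [mf_zero_sq f hf, mfa1_sum, mfa1_sum]
  ring

/-- explicit functions on the colours -/
def mfa1_fn (a b c d : ℝ) : Col → ℝ
  | (true, true) => a
  | (true, false) => b
  | (false, true) => c
  | (false, false) => d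

theorem mfa1_fn_mem {a b c d : ℝ} (ha : 0 ≤ a) (hb : 0 ≤ b) (hc : 0 ≤ c) (hd : 0 ≤ d)
    (h : a + b + c + d = 1) : mfa1_fn a b c d ∈ stdSimplex ℝ Col := by
  constructor
  · rintro ⟨s, t⟩
    cases s <;> cases t <;> assumption
  · rw [mfa1_sum]
    exact h

/-- the symmetric entropy function -/
noncomputable def mfa1_g (s : ℝ) : ℝ := (1 + s) * Real.log (1 + s) + (1 - s) * Real.log (1 - s)

theorem mfa1_g_upper {s : ℝ} (h0 : 0 ≤ s) (h1 : s ≤ 1 / 2) : mfa1_g s ≤ s ^ 2 + 4 * s ^ 3 := by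
  have e1 := Real.abs_log_sub_add_sum_range_le (x := s) (by rw [abs_of_nonneg h0]; linarith) 2
  have e2 := Real.abs_log_sub_add_sum_range_le (x := -s)
    (by rw [abs_neg, abs_of_nonneg h0]; linarith) 2
  rw [abs_neg] at e2
  rw [abs_of_nonneg h0] at e1 e2
  simp only [Finset.sum_range_succ, Finset.sum_range_zero] at e1 e2
  norm_num at e1 e2
  have e3 : s ^ 3 / (1 - s) ≤ 2 * s ^ 3 := by
    rw [div_le_iff₀ (by linarith)]
    nlinarith [pow_nonneg h0 3]
  have a1 := (abs_le.1 e1).2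
  have a2 := (abs_le.1 e2).2
  have b1 : Real.log (1 - s) ≤ -s - s ^ 2 / 2 + 2 * s ^ 3 := by linarith
  have b2 : Real.log (1 + s) ≤ s - s ^ 2 / 2 + 2 * s ^ 3 := by linarith
  unfold mfa1_g
  have c1 : (1 + s) * Real.log (1 + s) ≤ (1 + s) * (s - s ^ 2 / 2 + 2 * s ^ 3) :=
    mul_le_mul_of_nonneg_left b2 (by linarith)
  have c2 : (1 - s) * Real.log (1 - s) ≤ (1 - s) * (-s - s ^ 2 / 2 + 2 * s ^ 3) :=
    mul_le_mul_of_nonneg_left b1 (by linarith)
  have c3 : (1 + s) * (s - s ^ 2 / 2 + 2 * s ^ 3) + (1 - s) * (-s - s ^ 2 / 2 + 2 * s ^ 3) =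
      s ^ 2 + 4 * s ^ 3 := by ring
  linarith

theorem mfa1_g_lower {s : ℝ} (h0 : 0 ≤ s) (h1 : s ≤ 1) : s ^ 2 ≤ mfa1_g s := by
  have hmono : MonotoneOn (fun s => mfa1_g s - s ^ 2) (Set.Icc 0 1) := by
    have hder : ∀ x ∈ Set.Ioo (0 : ℝ) 1, HasDerivAt (fun s => mfa1_g s - s ^ 2)
        (Real.log (1 + x) - Real.log (1 - x) - 2 * x) x := by
      intro x hx
      have hp : (1 + x) ≠ 0 := by have := hx.1; linarith
      have hm : (1 - x) ≠ 0 := by have := hx.2; linarith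
      have d1 : HasDerivAt (fun s : ℝ => 1 + s) 1 x := by
        simpa using (hasDerivAt_id x).const_add 1
      have d2 : HasDerivAt (fun s : ℝ => 1 - s) (-1) x := by
        simpa using (hasDerivAt_id x).const_sub 1
      have d3 := d1.mul (d1.log hp)
      have d4 := d2.mul (d2.log hm)
      have d5 := (d3.add d4).sub (hasDerivAt_pow 2 x)
      refine d5.congr_deriv ?_
      field_simp
      ring
    refine monotoneOn_of_deriv_nonneg (convex_Icc 0 1) ?_ ?_ ?_
    · have c1 : Continuous (fun s : ℝ => (1 + s) * Real.log (1 + s)) :=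
        Real.continuous_mul_log.comp (continuous_const.add continuous_id)
      have c2 : Continuous (fun s : ℝ => (1 - s) * Real.log (1 - s)) :=
        Real.continuous_mul_log.comp (continuous_const.sub continuous_id)
      exact ((c1.add c2).sub (continuous_pow 2)).continuousOn
    · rw [interior_Icc]
      intro x hx
      exact (hder x hx).differentiableAt.differentiableWithinAt
    · rw [interior_Icc]
      intro x hx
      rw [(hder x hx).deriv]
      have hx1 := hx.1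
      have hx2 := hx.2
      have l1 := Real.le_log_one_add_of_nonneg hx1.le
      have l2 := Real.le_log_one_add_of_nonneg (x := x / (1 - x))
        (div_nonneg hx1.le (by linarith))
      have e1 : Real.log (1 + x / (1 - x)) = - Real.log (1 - x) := by
        rw [← Real.log_inv]
        congr 1
        field_simp
        ring
      have e2 : 2 * (x / (1 - x)) / (x / (1 - x) + 2) = 2 * x / (2 - x) := by
        have hne : 1 - x ≠ 0 := by linarith
        have : x / (1 - x) + 2 = (2 - x) / (1 - x) := by field_simp; ring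
        rw [this]
        have h2 : 2 - x ≠ 0 := by linarith
        field_simp
      rw [e1, e2] at l2
      have e3 : 2 * x ≤ 2 * x / (x + 2) + 2 * x / (2 - x) := by
        rw [div_add_div _ _ (by linarith) (by linarith), le_div_iff₀ (by nlinarith)]
        nlinarith [mul_pos hx1 hx1, mul_pos (mul_pos hx1 hx1) hx1]
      linarith
  have := hmono (Set.left_mem_Icc.2 zero_le_one) ⟨h0, h1⟩ h0
  simp only [mfa1_g] at this
  norm_num at this
  unfold mfa1_g
  linarith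

/-- Phi of the two-valued configuration can be lowered -/
theorem mfa1_claim {K : ℝ} (w : ℝ) (hw : |w| ≤ 1 / 4)
    (h : w ≠ 0 ∨ 9 / 2 ≤ K) :
    ∃ f' ∈ stdSimplex ℝ Col, Phi K 0 f' < K / 8 + 2 * (mfa1_psi K (1 / 4 + |w|) +
      mfa1_psi K (1 / 4 - |w|)) := by
  set v := |w| with hv
  have hv0 : 0 ≤ v := abs_nonneg w
  set x := 1 / 4 + v with hx
  have hx0 : 0 < x := by rw [hx]; linarith
  by_cases hK : 1 < K * x
  · -- perturb the two large coordinates
    obtain ⟨r, hr0, hr1, hr2⟩ : ∃ r : ℝ, 0 < r ∧ r ≤ 1 / 2 ∧ 4 * r < K * x - 1 :=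
      ⟨min (1 / 2) ((K * x - 1) / 8), lt_min (by norm_num) (by linarith), min_le_left _ _, by
        have := min_le_right (1 / 2 : ℝ) ((K * x - 1) / 8)
        linarith⟩
    have hg := mfa1_g_upper hr0.le hr1
    have hfm : mfa1_fn (x * (1 + r)) (1 / 4 - v) (x * (1 - r)) (1 / 4 - v) ∈ stdSimplex ℝ Col := by
      refine mfa1_fn_mem (mul_nonneg hx0.le (by linarith)) (by linarith)
        (mul_nonneg hx0.le (by linarith)) (by linarith) ?_
      rw [hx]; ring
    refine ⟨_, hfm, ?_⟩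
    rw [mfa1_Phi K _ hfm]
    simp only [mfa1_fn, mfa1_psi]
    rw [Real.log_mul hx0.ne' (by linarith), Real.log_mul hx0.ne' (by linarith)]
    have key : x * mfa1_g r < K * x ^ 2 * r ^ 2 := by
      have h1 : mfa1_g r < K * x * r ^ 2 := by
        have : r ^ 2 + 4 * r ^ 3 < K * x * r ^ 2 := by
          have hr2' : 0 < r ^ 2 := by positivity
          nlinarith
        linarith
      have := mul_lt_mul_of_pos_left h1 hx0
      nlinarith
    unfold mfa1_g at key
    nlinarith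
  · -- compare with the uniform configuration
    have hw0 : w ≠ 0 := by
      rcases h with h | h
      · exact h
      · rintro rfl
        apply hK
        rw [hx, hv, abs_zero]
        linarith
    have hvpos : 0 < v := abs_pos.2 hw0
    have hfm : mfa1_fn (1 / 4) (1 / 4) (1 / 4) (1 / 4) ∈ stdSimplex ℝ Col :=
      mfa1_fn_mem (by norm_num) (by norm_num) (by norm_num) (by norm_num) (by norm_num)
    refine ⟨_, hfm, ?_⟩
    rw [mfa1_Phi K _ hfm]
    simp only [mfa1_fn, mfa1_psi]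
    have hg := mfa1_g_lower (s := 4 * v) (by linarith) (by linarith)
    unfold mfa1_g at hg
    have e1 : x = 1 / 4 * (1 + 4 * v) := by rw [hx]; ring
    have l1 : Real.log x = Real.log (1 / 4) + Real.log (1 + 4 * v) := by
      rw [e1, Real.log_mul (by norm_num) (by linarith)]
    have l2 : (1 / 4 - v) * Real.log (1 / 4 - v) =
        (1 / 4 - v) * (Real.log (1 / 4) + Real.log (1 - 4 * v)) := by
      by_cases h4 : 1 - 4 * v = 0
      · have : 1 / 4 - v = 0 := by linarith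
        rw [this, zero_mul, zero_mul]
      · have e2 : 1 / 4 - v = 1 / 4 * (1 - 4 * v) := by ring
        rw [e2, Real.log_mul (by norm_num) h4]
    have hKx : K * x ≤ 1 := not_lt.1 hK
    -- K v^2 < g/4
    have hKv : K * v ^ 2 < 1 / 4 * (4 * v) ^ 2 := by
      rcases le_or_gt K 0 with hK0 | hK0
      · have : K * v ^ 2 ≤ 0 := mul_nonpos_of_nonpos_of_nonneg hK0 (sq_nonneg v)
        have : 0 < v ^ 2 := by positivity
        nlinarith
      · have h1 : K < 4 := by
          by_contra hcon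
          have : (4 : ℝ) * x ≤ K * x := mul_le_mul_of_nonneg_right (not_lt.1 hcon) hx0.le
          rw [hx] at this hKx
          linarith
        have : 0 < v ^ 2 := by positivity
        nlinarith
    have hmain : K * v ^ 2 < 1 / 4 * ((1 + 4 * v) * Real.log (1 + 4 * v) +
        (1 - 4 * v) * Real.log (1 - 4 * v)) := by linarith
    rw [l2, l1, hx]
    nlinarith

theorem no_min {K : ℝ} (h0 : 0 ≤ K) (h5 : K ≤ 5) (f : Col → ℝ) (hf : f ∈ stdSimplex ℝ Col)
    (ht : mft f = 0) (h : 0 < ∑ j, (mf 0 f j) ^ 2 ∨ 9 / 2 ≤ K) :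
    ∃ f' ∈ stdSimplex ℝ Col, Phi K 0 f' < Phi K 0 f := by
  have h1 := hf.2
  rw [mfa1_sum] at h1
  have ht' := ht
  rw [mft, mfa1_sum] at ht'
  simp only [sg, if_true, Bool.false_eq_true, if_false] at ht'
  have na := hf.1 (true, true)
  have nb := hf.1 (true, false)
  have nc := hf.1 (false, true)
  have nd := hf.1 (false, false)
  have hP := mfa1_Phi K f hf
  have hsq := mf_zero_sq f hf
  rw [mfa1_sum] at hsq
  generalize f (true, true) = a at *
  generalize f (true, false) = b at *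
  generalize f (false, true) = c at *
  generalize f (false, false) = d at *
  have hac : a + c = 1 / 2 := by linarith
  have hbd : b + d = 1 / 2 := by linarith
  set u := a - 1 / 4 with hu
  set v := b - 1 / 4 with hv
  have ea : a = 1 / 4 + u := by rw [hu]; ring
  have ec : c = 1 / 4 - u := by rw [hu]; linarith
  have eb : b = 1 / 4 + v := by rw [hv]; ring
  have ed : d = 1 / 4 - v := by rw [hv]; linarith
  have hu4 : |u| ≤ 1 / 4 := abs_le.2 ⟨by linarith, by linarith⟩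
  have hv4 : |v| ≤ 1 / 4 := abs_le.2 ⟨by linarith, by linarith⟩
  -- evenness
  have heven : ∀ w : ℝ, mfa1_psi K (1 / 4 + |w|) + mfa1_psi K (1 / 4 - |w|) =
      mfa1_psi K (1 / 4 + w) + mfa1_psi K (1 / 4 - w) := by
    intro w
    rcases abs_choice w with e | e
    · rw [e]
    · rw [e, sub_neg_eq_add, ← sub_eq_add_neg, add_comm]
  set U := mfa1_psi K (1 / 4 + u) + mfa1_psi K (1 / 4 - u) with hU
  set V := mfa1_psi K (1 / 4 + v) + mfa1_psi K (1 / 4 - v) with hV
  have hPf : Phi K 0 f = K / 8 + (U + V) := by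
    rw [hP, ea, eb, ec, ed, hU, hV]; ring
  rw [hPf]
  have hfm : ∀ w : ℝ, |w| ≤ 1 / 4 →
      mfa1_fn (1 / 4 + w) (1 / 4 + w) (1 / 4 - w) (1 / 4 - w) ∈ stdSimplex ℝ Col := by
    intro w hw
    obtain ⟨h1, h2⟩ := abs_le.1 hw
    exact mfa1_fn_mem (by linarith) (by linarith) (by linarith) (by linarith) (by ring)
  have hPw : ∀ w : ℝ, |w| ≤ 1 / 4 →
      Phi K 0 (mfa1_fn (1 / 4 + w) (1 / 4 + w) (1 / 4 - w) (1 / 4 - w)) =
        K / 8 + 2 * (mfa1_psi K (1 / 4 + w) + mfa1_psi K (1 / 4 - w)) := by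
    intro w hw
    rw [mfa1_Phi K _ (hfm w hw)]
    simp only [mfa1_fn]
    ring
  rcases lt_trichotomy U V with hlt | heq | hgt
  · exact ⟨_, hfm u hu4, by rw [hPw u hu4, ← hU]; linarith⟩
  · have hcase : (u ≠ 0 ∨ 9 / 2 ≤ K) ∨ (v ≠ 0 ∨ 9 / 2 ≤ K) := by
      rcases h with h | h
      · by_cases hu0 : u = 0
        · right; left
          intro hv0
          rw [hsq, ea, eb, ec, ed, hu0, hv0] at h
          norm_num at h
        · exact Or.inl (Or.inl hu0)
      · exact Or.inl (Or.inr h)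
    rcases hcase with hc | hc
    · obtain ⟨f', hf', hlt⟩ := mfa1_claim u hu4 hc
      rw [heven u, ← hU] at hlt
      exact ⟨f', hf', by linarith⟩
    · obtain ⟨f', hf', hlt⟩ := mfa1_claim v hv4 hc
      rw [heven v, ← hV] at hlt
      exact ⟨f', hf', by linarith⟩
  · exact ⟨_, hfm v hv4, by rw [hPw v hv4, ← hV]; linarith⟩

end H82AT

end S_MFA1

section S_MFG

/-! MODULE MFG: the mean-field gap, by compactness from `no_min`. -/

set_option autoImplicit false

namespace H82AT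

open Finset Filter Topology

theorem mfg_cont_Sv (c : Col) (j : Fin 3) : Continuous (fun ε : ℝ => Sv ε c j) := by
  fin_cases j
  · change Continuous (fun ε : ℝ => Real.sqrt (1 + ε) / 2 * sg c.1)
    fun_prop
  · change Continuous (fun ε : ℝ => Real.sqrt (1 - ε) / 2 * sg c.2)
    fun_prop
  · change Continuous (fun ε : ℝ => Real.sqrt (1 - ε) / 2 * (sg c.1 * sg c.2))
    fun_prop

section

variable {K ε : ℕ → ℝ} {f : ℕ → Col → ℝ} {Ks e : ℝ} {fs : Col → ℝ}

theorem mfg_t_mf (hε : Tendsto ε atTop (𝓝 e)) (hf : Tendsto f atTop (𝓝 fs)) (j : Fin 3) :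
    Tendsto (fun n => mf (ε n) (f n) j) atTop (𝓝 (mf e fs j)) := by
  unfold mf
  refine tendsto_finsetSum _ fun c _ => ?_
  have h1 := tendsto_pi_nhds.1 hf c
  have h2 := ((mfg_cont_Sv c j).tendsto e).comp hε
  exact h1.mul h2

theorem mfg_t_sq (hε : Tendsto ε atTop (𝓝 e)) (hf : Tendsto f atTop (𝓝 fs)) :
    Tendsto (fun n => ∑ j, (mf (ε n) (f n) j) ^ 2) atTop (𝓝 (∑ j, (mf e fs j) ^ 2)) :=
  tendsto_finsetSum _ fun j _ => (mfg_t_mf hε hf j).pow 2

theorem mfg_t_Phi (hK : Tendsto K atTop (𝓝 Ks)) (hε : Tendsto ε atTop (𝓝 e))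
    (hf : Tendsto f atTop (𝓝 fs)) :
    Tendsto (fun n => Phi (K n) (ε n) (f n)) atTop (𝓝 (Phi Ks e fs)) := by
  unfold Phi
  refine Tendsto.add ?_ ?_
  · exact ((hK.div_const 2).neg).mul (mfg_t_sq hε hf)
  · refine tendsto_finsetSum _ fun c _ => ?_
    exact (Real.continuous_mul_log.tendsto (fs c)).comp (tendsto_pi_nhds.1 hf c)

theorem mfg_t_mft (hf : Tendsto f atTop (𝓝 fs)) :
    Tendsto (fun n => mft (f n)) atTop (𝓝 (mft fs)) := by
  unfold mft
  exact tendsto_finsetSum _ fun c _ => (tendsto_pi_nhds.1 hf c).mul_const _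

end

theorem mfg_seq (ε0 : ℝ) (hε0 : 0 < ε0) (K ε : ℕ → ℝ) (f : ℕ → Col → ℝ)
    (h1 : ∀ n, 0 ≤ ε n) (h2 : ∀ n : ℕ, ε n ≤ 1 / ((n : ℝ) + 1)) (h3 : ∀ n, 0 ≤ K n)
    (h4 : ∀ n, K n ≤ 5) (h5 : ∀ n, f n ∈ stdSimplex ℝ Col)
    (h6 : ∀ n, ε0 ^ 2 ≤ ∑ j, (mf (ε n) (f n) j) ^ 2 ∨ 9 / 2 ≤ K n)
    (h7 : ∀ n : ℕ, |mft (f n)| ≤ 1 / ((n : ℝ) + 1))
    (h8 : ∀ n : ℕ, ∀ f' ∈ stdSimplex ℝ Col,
      Phi (K n) (ε n) (f n) ≤ Phi (K n) (ε n) f' + 1 / ((n : ℝ) + 1)) :
    False := by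
  have hone : Tendsto (fun n : ℕ => 1 / ((n : ℝ) + 1)) atTop (𝓝 0) :=
    tendsto_one_div_add_atTop_nhds_zero_nat
  have hεt : Tendsto ε atTop (𝓝 0) := squeeze_zero h1 h2 hone
  have hmt : Tendsto (fun n => |mft (f n)|) atTop (𝓝 0) :=
    squeeze_zero (fun _ => abs_nonneg _) h7 hone
  have hcomp : IsCompact (Set.Icc (0 : ℝ) 5 ×ˢ (stdSimplex ℝ Col)) :=
    isCompact_Icc.prod (isCompact_stdSimplex ℝ Col)
  obtain ⟨⟨Ks, fs⟩, hmem, φ, hφ, hlim⟩ := hcomp.tendsto_subseq (x := fun n => (K n, f n))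
    (fun n => ⟨⟨h3 n, h4 n⟩, h5 n⟩)
  obtain ⟨hKs, hfs⟩ := hmem
  have hφt := hφ.tendsto_atTop
  have c1 : Tendsto (fun n => K (φ n)) atTop (𝓝 Ks) := hlim.fst_nhds
  have c2 : Tendsto (fun n => f (φ n)) atTop (𝓝 fs) := hlim.snd_nhds
  have c3 : Tendsto (fun n => ε (φ n)) atTop (𝓝 0) := hεt.comp hφt
  have c4 : Tendsto (fun n => |mft (f (φ n))|) atTop (𝓝 0) := hmt.comp hφt
  have c5 : Tendsto (fun n => 1 / (((φ n : ℕ) : ℝ) + 1)) atTop (𝓝 0) := hone.comp hφt
  have hq := mfg_t_sq c3 c2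
  have hlim6 : ε0 ^ 2 ≤ ∑ j, (mf 0 fs j) ^ 2 ∨ 9 / 2 ≤ Ks := by
    by_contra hno
    push Not at hno
    have q1 := hq.eventually_lt_const hno.1
    have q2 := c1.eventually_lt_const hno.2
    obtain ⟨n, hn1, hn2⟩ := (q1.and q2).exists
    rcases h6 (φ n) with h | h
    · exact absurd hn1 (not_lt.2 h)
    · exact absurd hn2 (not_lt.2 h)
  have hmft0 : mft fs = 0 := abs_eq_zero.1 (tendsto_nhds_unique (mfg_t_mft c2).abs c4)
  obtain ⟨f', hf', hlt⟩ := no_min hKs.1 hKs.2 fs hfs hmft0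
    (hlim6.imp_left fun h => lt_of_lt_of_le (pow_pos hε0 2) h)
  have b1 := mfg_t_Phi c1 c3 c2
  have b2 := (mfg_t_Phi c1 c3 (tendsto_const_nhds (x := f'))).add c5
  have := le_of_tendsto_of_tendsto' b1 b2 (fun n => h8 (φ n) f' hf')
  linarith

theorem mf_gap (ε0 : ℝ) (hε0 : 0 < ε0) :
    ∃ c > 0, ∃ g > 0, ∃ ε2 > 0, ∀ ε : ℝ, 0 ≤ ε → ε ≤ ε2 → ∀ K : ℝ, 0 ≤ K → K ≤ 5 →
      ∃ f' ∈ stdSimplex ℝ Col, ∀ f ∈ stdSimplex ℝ Col,
        (ε0 ^ 2 ≤ ∑ j, (mf ε f j) ^ 2 ∨ 9 / 2 ≤ K) → |mft f| ≤ c →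
        Phi K ε f' + g ≤ Phi K ε f := by
  by_contra hcon
  push Not at hcon
  have hex : ∀ n : ℕ, ∃ (K ε : ℝ) (f : Col → ℝ), 0 ≤ ε ∧ ε ≤ 1 / ((n : ℝ) + 1) ∧ 0 ≤ K ∧ K ≤ 5 ∧
      f ∈ stdSimplex ℝ Col ∧ (ε0 ^ 2 ≤ ∑ j, (mf ε f j) ^ 2 ∨ 9 / 2 ≤ K) ∧
      |mft f| ≤ 1 / ((n : ℝ) + 1) ∧
      ∀ f' ∈ stdSimplex ℝ Col, Phi K ε f ≤ Phi K ε f' + 1 / ((n : ℝ) + 1) := by
    intro n
    have hpos : (0 : ℝ) < 1 / ((n : ℝ) + 1) := by positivity
    obtain ⟨ε, e1, e2, K, k1, k2, h⟩ := hcon _ hpos _ hpos _ hpos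
    have hne : (stdSimplex ℝ Col).Nonempty :=
      ⟨_, mfa1_fn_mem (a := 1 / 4) (b := 1 / 4) (c := 1 / 4) (d := 1 / 4) (by norm_num)
        (by norm_num) (by norm_num) (by norm_num) (by norm_num)⟩
    have hc : Continuous (fun f : Col → ℝ => Phi K ε f) := by
      unfold Phi mf
      refine Continuous.add ?_ ?_
      · refine continuous_const.mul (continuous_finsetSum _ fun j _ => Continuous.pow ?_ 2)
        exact continuous_finsetSum _ fun c _ => (continuous_apply c).mul_const _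
      · exact continuous_finsetSum _ fun c _ =>
          Real.continuous_mul_log.comp (continuous_apply c)
    obtain ⟨m, hm, hmin⟩ := (isCompact_stdSimplex ℝ Col).exists_isMinOn hne hc.continuousOn
    obtain ⟨f, hf, f1, f2, f3⟩ := h m hm
    refine ⟨K, ε, f, e1, e2, k1, k2, hf, f1, f2, fun f' hf' => ?_⟩
    have h9 : Phi K ε m ≤ Phi K ε f' := hmin hf'
    linarith
  choose K ε f h1 h2 h3 h4 h5 h6 h7 h8 using hex
  exact mfg_seq ε0 hε0 K ε f h1 h2 h3 h4 h5 h6 h7 h8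

end H82AT

end S_MFG

section S_MFA

/-! MODULE MFA: mean-field conclusion. -/

set_option autoImplicit false

namespace H82AT

open Finset

theorem mfa_small (g : ℝ) (hg : 0 < g) (N : ℝ) (h1 : 1 ≤ N) (hN : 122880 / g ^ 5 < N) :
    (N + 1) ^ 4 * Real.exp (-(N * (g / 2))) < 1 / 2 := by
  have h2 := Real.pow_div_factorial_le_exp (N * (g / 2)) (by positivity) 5
  have h3 : ((Nat.factorial 5 : ℕ) : ℝ) = 120 := by norm_num [Nat.factorial]
  rw [h3] at h2
  rw [Real.exp_neg, ← div_eq_mul_inv, div_lt_iff₀ (Real.exp_pos _)]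
  have h4 : (N + 1) ^ 4 ≤ (2 * N) ^ 4 := pow_le_pow_left₀ (by positivity) (by linarith) 4
  have h5 : 122880 < N * g ^ 5 := by
    rwa [div_lt_iff₀ (by positivity)] at hN
  have h6 : (2 * N) ^ 4 < 1 / 2 * ((N * (g / 2)) ^ 5 / 120) := by
    have e1 : 1 / 2 * ((N * (g / 2)) ^ 5 / 120) = N ^ 4 * (N * g ^ 5 / 7680) := by ring
    have e2 : (2 * N) ^ 4 = N ^ 4 * 16 := by ring
    rw [e1, e2]
    apply mul_lt_mul_of_pos_left _ (by positivity)
    rw [lt_div_iff₀ (by norm_num)]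
    linarith
  linarith

theorem mf_concl (ε0 : ℝ) (hε0 : 0 < ε0) :
    ∃ c > 0, ∃ ε1 > 0, ∃ d0 : ℕ, ∀ d : ℕ, d0 ≤ d → ∃ L0 : ℕ, ∀ L : ℕ, L0 ≤ L → Even L →
      ∀ [NeZero L], ∀ ε : ℝ, 0 ≤ ε → ε ≤ ε1 → ∀ β : ℝ, 0 < β → 2 * d * β ≤ 5 →
      GE β ε (fun σ : Tor d L → Col =>
        ind ((ε0 ^ 2 ≤ m2 ε σ ∨ 9 / 2 ≤ 2 * d * β) ∧ |mt σ| ≤ c)) ≤ 1 / 2 := by
  obtain ⟨c, hc, g, hg, ε2, hε2, hgap⟩ := mf_gap ε0 hε0
  obtain ⟨C, hC, hRR⟩ := RR_bound
  obtain ⟨d1, hd1⟩ := exists_nat_ge (36 * C / g ^ 2)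
  refine ⟨c, hc, min ε2 1, lt_min hε2 one_pos, max 8 d1, ?_⟩
  intro d hd
  have hd8 : 8 ≤ d := (le_max_left _ _).trans hd
  have hdd1 : d1 ≤ d := (le_max_right _ _).trans hd
  obtain ⟨L0, hL0⟩ := hRR d hd8
  obtain ⟨L1, hL1⟩ := exists_nat_gt (122880 / g ^ 5)
  refine ⟨max (max L0 L1) 2, ?_⟩
  intro L hL hLe _ ε hε hεε β hβ hK
  have hLL0 : L0 ≤ L := (le_max_left _ _).trans ((le_max_left _ _).trans hL)
  have hLL1 : L1 ≤ L := (le_max_right _ _).trans ((le_max_left _ _).trans hL)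
  have hL2 : 2 ≤ L := (le_max_right _ _).trans hL
  have hR := (hL0 L hLL0).1
  have hdpos : (0 : ℝ) < d := by exact_mod_cast (by omega : 0 < d)
  by_contra hcon
  push Not at hcon
  set U : Set (Col → ℝ) := {f | (ε0 ^ 2 ≤ ∑ j, (mf ε f j) ^ 2 ∨ 9 / 2 ≤ 2 * d * β) ∧ |mft f| ≤ c}
    with hU
  have hK0 : 0 ≤ 2 * d * β := by positivity
  obtain ⟨f', hf', hf'2⟩ := hgap ε hε (hεε.trans (min_le_left _ _)) (2 * d * β) hK0 hK
  have hPU : 1 / 2 ≤ GE β ε (fun σ : Tor d L → Col => ind (frq σ ∈ U)) := by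
    have e : (fun σ : Tor d L → Col => ind (frq σ ∈ U)) = fun σ : Tor d L → Col =>
        ind ((ε0 ^ 2 ≤ m2 ε σ ∨ 9 / 2 ≤ 2 * d * β) ∧ |mt σ| ≤ c) := by
      funext σ
      rw [hU]
      simp only [Set.mem_setOf_eq, m2, mt_frq, mv_frq]
    rw [e]
    exact hcon.le
  have hmain := mf_upper (d := d) (L := L) (by omega) hLe hL2 hβ hK hε
    (hεε.trans (min_le_right _ _)) U f' hf' g
    (fun f hf hfU => hf'2 f hf hfU.1 hfU.2) hPU
  have hsq : 3 * Real.sqrt (RR d L 2) ≤ g / 2 := by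
    have e1 : Real.sqrt (RR d L 2) ≤ g / 6 := by
      apply Real.sqrt_le_iff.mpr
      refine ⟨by positivity, hR.trans ?_⟩
      rw [div_le_iff₀ hdpos]
      have e2 : 36 * C / g ^ 2 ≤ d := hd1.trans (by exact_mod_cast hdd1)
      rw [div_le_iff₀ (by positivity)] at e2
      linarith
    linarith
  have hN1 : (1 : ℝ) ≤ (L : ℝ) ^ d := one_le_pow₀ (by exact_mod_cast (by omega : 1 ≤ L))
  have hNL : (L : ℝ) ≤ (L : ℝ) ^ d := by
    calc (L : ℝ) = (L : ℝ) ^ 1 := (pow_one _).symm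
      _ ≤ (L : ℝ) ^ d := pow_le_pow_right₀ (by exact_mod_cast (by omega : 1 ≤ L)) (by omega)
  have hlt : 122880 / g ^ 5 < (L : ℝ) ^ d := by
    have : (L1 : ℝ) ≤ L := by exact_mod_cast hLL1
    linarith
  have hs := mfa_small g hg ((L : ℝ) ^ d) hN1 hlt
  have hle : Real.exp (-((L : ℝ) ^ d * (g - 3 * Real.sqrt (RR d L 2))))
      ≤ Real.exp (-((L : ℝ) ^ d * (g / 2))) := by
    apply Real.exp_le_exp.mpr
    apply neg_le_neg
    apply mul_le_mul_of_nonneg_left _ (by positivity)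
    linarith
  have := mul_le_mul_of_nonneg_left hle (by positivity : 0 ≤ ((L : ℝ) ^ d + 1) ^ 4)
  linarith

end H82AT

end S_MFA
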