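import Mathlib
import Pool.Agent.H82.ATM.G3
import Pool.Agent.H82.ATM.G4
import Pool.Agent.H82.ATM.G5

set_option autoImplicit false

/-! Ashkin-Teller critical points, part G7: this file joins several modules to save build time. -/

section S_MSU

/-! MODULE MSU: the multiscale union bound. -/

set_option autoImplicit false

namespace H82AT

open Finset

theorem gsum_eq {d L : ℕ} [NeZero L] (l : List (Tor d L)) :
    ∑ i : Fin l.length, ∑ j : Fin l.length, |Gf (l.get i - l.get j)| = gsum l := by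
  unfold gsum
  have h : ∀ f : Tor d L → ℝ, ∑ i : Fin l.length, f (l.get i) = (l.map f).sum := by
    intro f
    simp
  rw [← h (fun v => (l.map (fun w => |Gf (v - w)|)).sum)]
  apply Finset.sum_congr rfl
  intro i _
  exact h (fun w => |Gf (l.get i - w)|)

/-- one family -/
theorem family_bound {d L : ℕ} [NeZero L] (hd : 1 ≤ d) (hLe : Even L) (hL : 3 ≤ L) {β ε η ε0 : ℝ}
    (hβ : 0 < β) (h0 : 0 < ε) (h1 : ε < 1) (he0 : 0 ≤ ε0) (ℓ N0 : ℕ) (hℓ : 1 ≤ ℓ)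
    (hN : ℓ ≤ N0) (B0 : ℝ) (gg : ℕ → ℝ)
    (hs : ∀ (x : Tor d L) (w : List (Dir d)), w.length = ℓ → (vts x w).Nodup →
      gsum (vts x w) ≤ B0)
    (hg : ∀ (h : ℕ) (z : Tor d L), 4 ^ h * N0 ≤ tdist 0 z → |Gf z| ≤ gg h)
    (m : ℕ)
    (hB : B0 + ∑ h ∈ Finset.range m, 2 ^ h * ((ℓ : ℝ) + 1) ^ 2 * gg h ≤ ((ℓ : ℝ) + 1) * (1 + η))
    (x : Tor d L) (q : List (Tor d L × List (Dir d))) (hq : q ∈ QQ ℓ N0 m x) :
    (torGr d L).EE (pr β (1 - ε) 1)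
        (fun ω σ => ind ((∀ e ∈ edsq q, 1 ≤ ((ω e : Fin 3) : ℕ)) ∧ m2 ε σ ≤ ε0 ^ 2))
      ≤ (4 * ((1 + ε) * β) ^ ℓ) ^ (2 ^ m) *
        Real.exp (-(2 * d * β * (2 ^ m * ((ℓ : ℝ) + 1)) * ((3 - ε) / 8 * (1 - η)
            - ε0 * Real.sqrt ((3 - ε) / 4)))) := by
  obtain ⟨hnd, hlen, hql, hpl, hgs⟩ := Q_sep ℓ N0 hℓ hN B0 gg hs hg m x q hq
  have hn : (((vtsq q).length : ℕ) : ℝ) = 2 ^ m * ((ℓ : ℝ) + 1) := by
    rw [hlen]; push_cast; ring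
  have key := forest hd hL hβ h0 h1 ℓ q hpl hnd (fun σ => m2 ε σ ≤ ε0 ^ 2)
    (Real.exp (-(2 * d * β * (2 ^ m * ((ℓ : ℝ) + 1)) * ((3 - ε) / 8 * (1 - η)
            - ε0 * Real.sqrt ((3 - ε) / 4))))) (Real.exp_pos _).le (by
      intro τ
      refine le_trans (GE_mono β ε _ (fun σ => ind ((∀ i : Fin (vtsq q).length,
        σ ((vtsq q).get i) = (fun i => τ ((vtsq q).get i)) i) ∧ m2 ε σ ≤ ε0 ^ 2)) ?_) ?_
      · intro σ
        apply ind_mono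
        rintro ⟨h2, h3⟩
        exact ⟨fun i => h2 _ (List.get_mem _ _), h3⟩
      · rw [← hn]
        apply col_bound hd hLe hβ h0.le h1.le he0 (vtsq q).get
        · exact List.nodup_iff_injective_get.mp hnd
        · rw [gsum_eq]
          refine le_trans hgs ?_
          rw [hn, mul_assoc]
          exact mul_le_mul_of_nonneg_left hB (by positivity))
  rw [hql] at key
  exact key

/-- the union bound over the families, for all parameters -/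
theorem ms_union {d L : ℕ} [NeZero L] (hd : 1 ≤ d) (hLe : Even L) (hL : 3 ≤ L) {β ε η ε0 : ℝ}
    (hβ : 0 < β) (h0 : 0 < ε) (h1 : ε < 1) (he0 : 0 ≤ ε0) (ℓ N0 : ℕ) (hℓ : 1 ≤ ℓ)
    (hN : ℓ ≤ N0) (B0 : ℝ) (gg : ℕ → ℝ)
    (hs : ∀ (x : Tor d L) (w : List (Dir d)), w.length = ℓ → (vts x w).Nodup →
      gsum (vts x w) ≤ B0)
    (hg : ∀ (h : ℕ) (z : Tor d L), 4 ^ h * N0 ≤ tdist 0 z → |Gf z| ≤ gg h)
    (m : ℕ)
    (hB : B0 + ∑ h ∈ Finset.range m, 2 ^ h * ((ℓ : ℝ) + 1) ^ 2 * gg h ≤ ((ℓ : ℝ) + 1) * (1 + η))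
    (hb : 0 ≤ (3 - ε) / 8 * (1 - η) - ε0 * Real.sqrt ((3 - ε) / 4)) (x : Tor d L) :
    (torGr d L).EE (pr β (1 - ε) 1)
        (fun ω σ => ind (reachT 1 (4 ^ m * N0) x ω ∧ m2 ε σ ≤ ε0 ^ 2))
      ≤ (4 * (36 * (N0 : ℝ)) ^ d * ((1 + ε) * (2 * d * β)
          * Real.exp (-(2 * d * β) * ((3 - ε) / 8 * (1 - η)
            - ε0 * Real.sqrt ((3 - ε) / 4)))) ^ ℓ) ^ (2 ^ m) := by
  classical
  set b : ℝ := (3 - ε) / 8 * (1 - η) - ε0 * Real.sqrt ((3 - ε) / 4) with hbdef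
  have hp : ∀ i, 0 < pr β (1 - ε) 1 i := fun i => pr_pos hβ (by linarith) (by linarith) i
  obtain ⟨hfin, hcard⟩ := QQ_card (d := d) (L := L) ℓ N0 (by omega) m x
  have hstep1 : (torGr d L).EE (pr β (1 - ε) 1)
        (fun ω σ => ind (reachT 1 (4 ^ m * N0) x ω ∧ m2 ε σ ≤ ε0 ^ 2)) ≤
      ∑ q ∈ hfin.toFinset, (torGr d L).EE (pr β (1 - ε) 1)
        (fun ω σ => ind ((∀ e ∈ edsq q, 1 ≤ ((ω e : Fin 3) : ℕ)) ∧ m2 ε σ ≤ ε0 ^ 2)) := by
    rw [← EE_sum]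
    apply EE_mono _ hp
    intro ω σ
    by_cases h : reachT 1 (4 ^ m * N0) x ω ∧ m2 ε σ ≤ ε0 ^ 2
    · obtain ⟨q, hq, hqe⟩ := reach_family (lv ω 1) ℓ N0 hN m x h.1
      rw [ind_true h]
      calc (1 : ℝ) = ind ((∀ e ∈ edsq q, 1 ≤ ((ω e : Fin 3) : ℕ)) ∧ m2 ε σ ≤ ε0 ^ 2) :=
            (ind_true ⟨fun e he => hqe e he, h.2⟩).symm
        _ ≤ _ := Finset.single_le_sum
            (f := fun q => ind ((∀ e ∈ edsq q, 1 ≤ ((ω e : Fin 3) : ℕ)) ∧ m2 ε σ ≤ ε0 ^ 2))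
            (fun q _ => ind_nonneg _) (hfin.mem_toFinset.mpr hq)
    · rw [ind_false h]
      exact Finset.sum_nonneg (fun q _ => ind_nonneg _)
  refine le_trans hstep1 ?_
  set E : ℝ := (4 * ((1 + ε) * β) ^ ℓ) ^ (2 ^ m) *
        Real.exp (-(2 * d * β * (2 ^ m * ((ℓ : ℝ) + 1)) * b)) with hE
  have hE0 : 0 ≤ E := by positivity
  have hstep2 : ∑ q ∈ hfin.toFinset, (torGr d L).EE (pr β (1 - ε) 1)
        (fun ω σ => ind ((∀ e ∈ edsq q, 1 ≤ ((ω e : Fin 3) : ℕ)) ∧ m2 ε σ ≤ ε0 ^ 2))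
      ≤ ((QQ (d := d) (L := L) ℓ N0 m x).ncard : ℝ) * E := by
    rw [Set.ncard_eq_toFinset_card _ hfin, ← nsmul_eq_mul]
    apply Finset.sum_le_card_nsmul
    intro q hq
    exact family_bound hd hLe hL hβ h0 h1 he0 ℓ N0 hℓ hN B0 gg hs hg m hB x q
      (hfin.mem_toFinset.mp hq)
  refine le_trans hstep2 ?_
  refine le_trans (mul_le_mul_of_nonneg_right hcard hE0) ?_
  have hdβ : 0 ≤ 2 * (d : ℝ) * β := by positivity
  have hexp : Real.exp (-(2 * d * β * (2 ^ m * ((ℓ : ℝ) + 1)) * b)) ≤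
      (Real.exp (-(2 * d * β) * b) ^ ℓ) ^ (2 ^ m) := by
    rw [← Real.exp_nat_mul, ← Real.exp_nat_mul]
    apply Real.exp_le_exp.mpr
    have : 0 ≤ 2 * (d : ℝ) * β * b * 2 ^ m := by positivity
    push_cast
    nlinarith
  calc ((36 * (N0 : ℝ)) ^ d) ^ (2 ^ m) * ((2 * (d : ℝ)) ^ ℓ) ^ (2 ^ m) * E
      ≤ ((36 * (N0 : ℝ)) ^ d) ^ (2 ^ m) * ((2 * (d : ℝ)) ^ ℓ) ^ (2 ^ m) *
        ((4 * ((1 + ε) * β) ^ ℓ) ^ (2 ^ m) * (Real.exp (-(2 * d * β) * b) ^ ℓ) ^ (2 ^ m)) := by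
        rw [hE]
        gcongr
    _ = (4 * (36 * (N0 : ℝ)) ^ d * ((1 + ε) * (2 * d * β)
          * Real.exp (-(2 * d * β) * b)) ^ ℓ) ^ (2 ^ m) := by
        rw [← mul_pow, ← mul_pow, ← mul_pow]
        congr 1
        rw [mul_pow, mul_pow, mul_pow, mul_pow, mul_pow, mul_pow, mul_pow]
        ring

end H82AT

end S_MSU

section S_MSF

/-! MODULE MSF: the multiscale bound with numbers. -/

set_option autoImplicit false

namespace H82AT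

open Finset

private theorem msf_vts_length {d L : ℕ} (w : List (Dir d)) :
    ∀ x : Tor d L, (vts x w).length = w.length + 1 := by
  induction w with
  | nil => intro x; rfl
  | cons a w ih =>
    intro x
    simp only [vts, List.length_cons, ih]

private theorem msf_gsum {d L : ℕ} [NeZero L] (l : List (Tor d L)) :
    gsum l = ∑ i : Fin l.length, ∑ j : Fin l.length, |Gf (l[i.1] - l[j.1])| := by
  unfold gsum
  rw [← Fin.sum_univ_fun_getElem]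
  apply Finset.sum_congr rfl
  intro i _
  rw [← Fin.sum_univ_fun_getElem]

/-- the numerical value of the exponent -/
private theorem msf_b {ε : ℝ} (h0 : 0 < ε) (h1 : ε ≤ 1 / 250) :
    0.3708 ≤ (3 - ε) / 8 * (1 - 1 / 200) - 1 / 500 * Real.sqrt ((3 - ε) / 4) := by
  have h2 : Real.sqrt ((3 - ε) / 4) ≤ 0.8661 := by
    rw [Real.sqrt_le_left (by norm_num)]
    norm_num
    linarith
  nlinarith

private theorem msf_q {ε K b : ℝ} (h0 : 0 < ε) (h1 : ε ≤ 1 / 250) (hb : 0.3708 ≤ b) (hK : 0 < K) :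
    (1 + ε) * K * Real.exp (-K * b) ≤ 0.997 := by
  have hb0 : 0 < b := by linarith
  have h2 : K * b ≤ Real.exp (K * b - 1) := by
    have := Real.add_one_le_exp (K * b - 1)
    linarith
  have h3 : K * b * Real.exp (-K * b) ≤ Real.exp (-1) := by
    calc K * b * Real.exp (-K * b) ≤ Real.exp (K * b - 1) * Real.exp (-K * b) := by gcongr
      _ = Real.exp (-1) := by rw [← Real.exp_add]; congr 1; ring
  have he : Real.exp (-1) ≤ 1 / 2.7182818283 := by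
    rw [Real.exp_neg, ← one_div]
    exact one_div_le_one_div_of_le (by norm_num) Real.exp_one_gt_d9.le
  have h4 : K * Real.exp (-K * b) ≤ (1 / 2.7182818283) / 0.3708 := by
    have h5 : 0 < K * Real.exp (-K * b) := by positivity
    rw [le_div_iff₀ (by norm_num)]
    nlinarith
  have h5 : 0 < K * Real.exp (-K * b) := by positivity
  have h6 : (1 / 2.7182818283 : ℝ) / 0.3708 * (1 + 1 / 250) ≤ 0.997 := by norm_num
  nlinarith

/-- the small parameter conditions for large `s` -/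
private theorem msf_small (CR CM : ℝ) (hCR : 0 < CR) (hCM : 0 < CM) : ∃ s0 : ℕ, 3 ≤ s0 ∧
    ∀ s : ℕ, s0 ≤ s → 36 * ((s : ℝ) + 1) ^ 6 * 0.997 ^ s ≤ 1 / 8 ∧
      (8 + 2 * CR + 16 * CM) / Real.sqrt s ≤ 1 / 400 := by
  have h1 := tendsto_pow_const_mul_const_pow_of_lt_one 6 (r := (0.997 : ℝ)) (by norm_num)
    (by norm_num)
  have h2 : ∀ᶠ n : ℕ in Filter.atTop, (n : ℝ) ^ 6 * 0.997 ^ n < 1 / (8 * 36 * 64) :=
    h1.eventually (gt_mem_nhds (by norm_num))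
  obtain ⟨n1, hn1⟩ := Filter.eventually_atTop.1 h2
  obtain ⟨n2, hn2⟩ := exists_nat_gt ((400 * (8 + 2 * CR + 16 * CM)) ^ 2)
  refine ⟨max 3 (max n1 n2), le_max_left _ _, ?_⟩
  intro s hs
  have hs3 : 3 ≤ s := le_trans (le_max_left _ _) hs
  have hs1 : n1 ≤ s := le_trans (le_trans (le_max_left _ _) (le_max_right _ _)) hs
  have hs2 : n2 ≤ s := le_trans (le_trans (le_max_right _ _) (le_max_right _ _)) hs
  have hsR : (3 : ℝ) ≤ s := by exact_mod_cast hs3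
  constructor
  · have h3 := hn1 s hs1
    have h4 : ((s : ℝ) + 1) ^ 6 ≤ (2 * s) ^ 6 := by gcongr; linarith
    have h5 : (0 : ℝ) < 0.997 ^ s := by positivity
    calc 36 * ((s : ℝ) + 1) ^ 6 * 0.997 ^ s ≤ 36 * (2 * s) ^ 6 * 0.997 ^ s := by gcongr
      _ = 36 * 64 * ((s : ℝ) ^ 6 * 0.997 ^ s) := by ring
      _ ≤ 36 * 64 * (1 / (8 * 36 * 64)) := by gcongr
      _ = 1 / 8 := by norm_num
  · have h3 : (400 * (8 + 2 * CR + 16 * CM)) ^ 2 < s :=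
      lt_of_lt_of_le hn2 (by exact_mod_cast hs2)
    have h4 : 400 * (8 + 2 * CR + 16 * CM) ≤ Real.sqrt s := Real.le_sqrt_of_sq_le h3.le
    have h5 : 0 < Real.sqrt s := by
      apply Real.sqrt_pos.2; linarith
    rw [div_le_iff₀ h5]
    linarith

/-- the budget for the Green function -/
private theorem msf_budget {CR CM r d s l n1 N0 Ld : ℝ} (m : ℕ) (hCR : 0 < CR) (hCM : 0 < CM)
    (hs : 3 ≤ s) (hr : r = Real.sqrt s) (hsd : s * s ≤ d) (hl : l = d * s) (hn1 : n1 = l + 1)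
    (hN0 : N0 = l ^ 2) (hLd : 400 * (n1 * (4 + 8 ^ m * N0)) ≤ Ld)
    (hsm : (8 + 2 * CR + 16 * CM) / r ≤ 1 / 400) :
    n1 * (1 + Real.sqrt (1 / (2 * d) + n1 / d ^ 2) + 2 * (1 / (2 * d) + n1 / d ^ 2) +
        n1 * (4 / Ld + CR / d ^ 2)) +
      ∑ h ∈ Finset.range m, 2 ^ h * n1 ^ 2 * (4 ^ h * N0 / (2 * Ld) + 2 * CM / (4 ^ h * N0 + 1)) ≤
      n1 * (1 + 1 / 200) := by
  have hs0 : 0 < s := by linarith
  have hd0 : 0 < d := by nlinarith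
  have hds : s ≤ d := by nlinarith
  have hd1 : 1 ≤ d := by linarith
  have hl0 : 0 < l := by rw [hl]; positivity
  have hl1 : 1 ≤ l := by rw [hl]; nlinarith
  have hn0 : 0 < n1 := by rw [hn1]; linarith
  have hN : 0 < N0 := by rw [hN0]; positivity
  have hLd0 : 0 < Ld := by
    have : 0 < 400 * (n1 * (4 + 8 ^ m * N0)) := by positivity
    linarith
  have hr0 : 0 < r := by rw [hr]; exact Real.sqrt_pos.2 hs0
  have hr1 : 1 ≤ r := by rw [hr]; exact Real.one_le_sqrt.2 (by linarith)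
  have hrr : r * r = s := by rw [hr]; exact Real.mul_self_sqrt hs0.le
  have hrs : 1 / s ≤ 1 / r := by
    apply one_div_le_one_div_of_le hr0
    nlinarith
  -- n1 / d^2 ≤ 2 / s
  have h1 : n1 / d ^ 2 ≤ 2 / s := by
    rw [div_le_div_iff₀ (by positivity) hs0]
    have e1 : n1 ≤ 2 * (d * s) := by rw [hn1, hl]; nlinarith
    calc n1 * s ≤ 2 * (d * s) * s := by gcongr
      _ = 2 * d * (s * s) := by ring
      _ ≤ 2 * d * d := by gcongr
      _ = 2 * d ^ 2 := by ring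
  have h2 : 1 / (2 * d) ≤ 1 / s := one_div_le_one_div_of_le hs0 (by linarith)
  have hT : 1 / (2 * d) + n1 / d ^ 2 ≤ 3 / s := by
    have : 3 / s = 1 / s + 2 / s := by ring
    linarith
  have hsqrt : Real.sqrt (1 / (2 * d) + n1 / d ^ 2) ≤ 2 / r := by
    rw [Real.sqrt_le_left (by positivity), div_pow]
    refine le_trans hT ?_
    have : r ^ 2 = s := by rw [← hrr]; ring
    rw [this]
    gcongr
    norm_num
  have hT2 : 2 * (1 / (2 * d) + n1 / d ^ 2) ≤ 6 / r := by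
    have e1 : 6 / r = 6 * (1 / r) := by ring
    have e2 : 3 / s = 3 * (1 / s) := by ring
    rw [e1]
    rw [e2] at hT
    linarith
  have hCRb : n1 * (CR / d ^ 2) ≤ 2 * CR / r := by
    have e1 : n1 * (CR / d ^ 2) = CR * (n1 / d ^ 2) := by ring
    rw [e1]
    have e2 : 2 * CR / r = CR * (2 * (1 / r)) := by ring
    rw [e2]
    have e3 : 2 / s = 2 * (1 / s) := by ring
    rw [e3] at h1
    have e4 : n1 / d ^ 2 ≤ 2 * (1 / r) := by linarith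
    gcongr
  -- the far part
  have hfar : ∀ h : ℕ, 2 ^ h * n1 ^ 2 * (2 * CM / (4 ^ h * N0 + 1)) ≤ n1 * (8 * CM / r) * (1 / 2) ^ h := by
    intro h
    have e1 : 2 * CM / (4 ^ h * N0 + 1) ≤ 2 * CM / (4 ^ h * N0) := by
      gcongr
      linarith
    have e2 : (2 : ℝ) ^ h * n1 ^ 2 * (2 * CM / (4 ^ h * N0)) = n1 * (2 * CM * (n1 / N0)) * (1 / 2) ^ h := by
      have e3 : (4 : ℝ) ^ h = 2 ^ h * 2 ^ h := by rw [← mul_pow]; norm_num
      rw [e3, one_div, inv_pow]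
      field_simp
    have e4 : n1 / N0 ≤ 4 / r := by
      rw [div_le_div_iff₀ hN hr0, hN0]
      have e5 : n1 ≤ 2 * l := by rw [hn1]; linarith
      have e6 : r ≤ l := by
        rw [hl]
        nlinarith
      calc n1 * r ≤ (2 * l) * l := by gcongr
        _ ≤ 4 * l ^ 2 := by nlinarith
    calc (2 : ℝ) ^ h * n1 ^ 2 * (2 * CM / (4 ^ h * N0 + 1))
        ≤ 2 ^ h * n1 ^ 2 * (2 * CM / (4 ^ h * N0)) := by gcongr
      _ = n1 * (2 * CM * (n1 / N0)) * (1 / 2) ^ h := e2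
      _ ≤ n1 * (2 * CM * (4 / r)) * (1 / 2) ^ h := by gcongr
      _ = n1 * (8 * CM / r) * (1 / 2) ^ h := by ring
  have hgeo : ∑ h ∈ Finset.range m, ((1 : ℝ) / 2) ^ h ≤ 2 := by
    have h3 := geom_sum_eq (x := (1 : ℝ) / 2) (by norm_num) m
    rw [h3]
    have h4 : (0 : ℝ) < (1 / 2) ^ m := by positivity
    rw [div_le_iff_of_neg (by norm_num)]
    linarith
  have hgeo8 : ∑ h ∈ Finset.range m, (8 : ℝ) ^ h ≤ 8 ^ m := by
    have h3 := geom_sum_eq (x := (8 : ℝ)) (by norm_num) m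
    rw [h3]
    have h4 : (0 : ℝ) < 8 ^ m := by positivity
    rw [div_le_iff₀ (by norm_num)]
    linarith
  have hnear : ∀ h : ℕ, 2 ^ h * n1 ^ 2 * (4 ^ h * N0 / (2 * Ld)) = (n1 ^ 2 * N0 / (2 * Ld)) * 8 ^ h := by
    intro h
    have e3 : (8 : ℝ) ^ h = 2 ^ h * 4 ^ h := by rw [← mul_pow]; norm_num
    rw [e3]; ring
  have hsum : ∑ h ∈ Finset.range m, 2 ^ h * n1 ^ 2 * (4 ^ h * N0 / (2 * Ld) +
      2 * CM / (4 ^ h * N0 + 1)) ≤ (n1 ^ 2 * N0 / (2 * Ld)) * 8 ^ m + n1 * (16 * CM / r) := by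
    have e1 : ∀ h ∈ Finset.range m, 2 ^ h * n1 ^ 2 * (4 ^ h * N0 / (2 * Ld) +
        2 * CM / (4 ^ h * N0 + 1)) ≤ (n1 ^ 2 * N0 / (2 * Ld)) * 8 ^ h +
          n1 * (8 * CM / r) * (1 / 2) ^ h := by
      intro h _
      rw [mul_add, hnear h]
      have := hfar h
      linarith
    refine le_trans (Finset.sum_le_sum e1) ?_
    rw [Finset.sum_add_distrib, ← Finset.mul_sum, ← Finset.mul_sum]
    have e2 : (n1 ^ 2 * N0 / (2 * Ld)) * ∑ h ∈ Finset.range m, (8 : ℝ) ^ h ≤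
        (n1 ^ 2 * N0 / (2 * Ld)) * 8 ^ m := by gcongr
    have e3 : n1 * (8 * CM / r) * ∑ h ∈ Finset.range m, ((1 : ℝ) / 2) ^ h ≤
        n1 * (8 * CM / r) * 2 := by gcongr
    have e4 : n1 * (8 * CM / r) * 2 = n1 * (16 * CM / r) := by ring
    linarith
  -- the terms with `Ld`
  have hLdt : n1 * (4 / Ld) + (n1 * N0 / (2 * Ld)) * 8 ^ m ≤ 1 / 400 := by
    have e1 : n1 * (4 / Ld) + (n1 * N0 / (2 * Ld)) * 8 ^ m = (n1 * (4 + 8 ^ m * N0 / 2)) / Ld := by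
      field_simp
    rw [e1, div_le_iff₀ hLd0]
    have e2 : n1 * (4 + 8 ^ m * N0 / 2) ≤ n1 * (4 + 8 ^ m * N0) := by
      have : 0 ≤ (8 : ℝ) ^ m * N0 := by positivity
      gcongr
      linarith
    linarith
  have hsm' : 2 / r + 6 / r + 2 * CR / r + 16 * CM / r ≤ 1 / 400 := by
    have : 2 / r + 6 / r + 2 * CR / r + 16 * CM / r = (8 + 2 * CR + 16 * CM) / r := by ring
    rw [this]; exact hsm
  have e7 : (n1 ^ 2 * N0 / (2 * Ld)) * 8 ^ m = n1 * ((n1 * N0 / (2 * Ld)) * 8 ^ m) := by ring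
  rw [e7] at hsum
  have e8 : n1 * (1 + Real.sqrt (1 / (2 * d) + n1 / d ^ 2) + 2 * (1 / (2 * d) + n1 / d ^ 2) +
        n1 * (4 / Ld + CR / d ^ 2)) + (n1 * ((n1 * N0 / (2 * Ld)) * 8 ^ m) + n1 * (16 * CM / r)) =
      n1 * (1 + Real.sqrt (1 / (2 * d) + n1 / d ^ 2) + 2 * (1 / (2 * d) + n1 / d ^ 2) +
        (n1 * (4 / Ld) + (n1 * N0 / (2 * Ld)) * 8 ^ m) + n1 * (CR / d ^ 2) + 16 * CM / r) := by ring
  have e9 : n1 * (1 + Real.sqrt (1 / (2 * d) + n1 / d ^ 2) + 2 * (1 / (2 * d) + n1 / d ^ 2) +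
        (n1 * (4 / Ld) + (n1 * N0 / (2 * Ld)) * 8 ^ m) + n1 * (CR / d ^ 2) + 16 * CM / r) ≤
      n1 * (1 + 1 / 200) := by
    apply mul_le_mul_of_nonneg_left _ hn0.le
    linarith
  linarith

/-- numbers: `ε0 = 1/500`, `ε ≤ 1/250`, `η = 1/200`, `ℓ = d * sqrt d`, `N0 = ℓ^2`;
`sup_K (1+ε) K exp(-bK) = (1+ε)/(e b) < 1` with `b ≥ 0.3708` -/
theorem ms_bound : ∃ d0 : ℕ, 1 ≤ d0 ∧ ∀ d : ℕ, d0 ≤ d → ∀ δ : ℝ, 0 < δ → ∃ n L0 : ℕ,
    ∀ L : ℕ, L0 ≤ L → Even L → ∀ [NeZero L], ∀ ε : ℝ, 0 < ε → ε ≤ 1 / 250 →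
    ∀ β : ℝ, 0 < β → ∀ x : Tor d L,
      (torGr d L).EE (pr β (1 - ε) 1)
        (fun ω σ => ind (reachT 1 n x ω ∧ m2 ε σ ≤ (1 / 500 : ℝ) ^ 2)) ≤ δ := by
  obtain ⟨CM, hCM, hM⟩ := MM_bound
  obtain ⟨CR, hCR, hR⟩ := RR_bound
  obtain ⟨s0, hs03, hs0⟩ := msf_small CR CM hCR hCM
  refine ⟨s0 * s0, by nlinarith, ?_⟩
  intro d hd δ hδ
  set s := Nat.sqrt d with hs
  have hs0s : s0 ≤ s := Nat.le_sqrt.2 hd
  have hsd : s * s ≤ d := Nat.sqrt_le d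
  have hds : d < (s + 1) * (s + 1) := Nat.lt_succ_sqrt d
  have hs3 : 3 ≤ s := le_trans hs03 hs0s
  have hd8 : 8 ≤ d := by nlinarith
  have hd1 : 1 ≤ d := by omega
  obtain ⟨hA, hB⟩ := hs0 s hs0s
  obtain ⟨LM, hLM⟩ := hM d hd8
  obtain ⟨LR, hLR⟩ := hR d hd8
  set ℓ := d * s with hℓ
  have hℓ1 : 1 ≤ ℓ := by rw [hℓ]; nlinarith
  set N0 := ℓ ^ 2 with hN0
  have hℓN : ℓ ≤ N0 := by rw [hN0]; nlinarith
  -- the base is at most one half
  have hbase : ∀ q : ℝ, 0 ≤ q → q ≤ 0.997 → 4 * (36 * (N0 : ℝ)) ^ d * q ^ ℓ ≤ 1 / 2 := by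
    intro q hq0 hq1
    have h1 : q ^ ℓ ≤ (0.997 : ℝ) ^ ℓ := by gcongr
    have h2 : (0.997 : ℝ) ^ ℓ = ((0.997 : ℝ) ^ s) ^ d := by rw [hℓ, ← pow_mul]; congr 1; ring
    have h3 : 36 * (N0 : ℝ) * 0.997 ^ s ≤ 1 / 8 := by
      have h4 : (N0 : ℝ) ≤ ((s : ℝ) + 1) ^ 6 := by
        have h5 : ℓ ≤ (s + 1) ^ 3 := by
          calc ℓ = d * s := hℓ
            _ ≤ ((s + 1) * (s + 1)) * (s + 1) := by gcongr; omega
            _ = (s + 1) ^ 3 := by ring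
        have h6 : N0 ≤ (s + 1) ^ 6 := by
          calc N0 = ℓ ^ 2 := hN0
            _ ≤ ((s + 1) ^ 3) ^ 2 := by gcongr
            _ = (s + 1) ^ 6 := by ring
        exact_mod_cast h6
      refine le_trans ?_ hA
      gcongr
    have h7 : (36 * (N0 : ℝ)) ^ d * (0.997 : ℝ) ^ ℓ ≤ 1 / 8 := by
      rw [h2, ← mul_pow]
      have h8 : (36 * (N0 : ℝ) * 0.997 ^ s) ^ d ≤ (1 / 8) ^ d := by gcongr
      have h9 : ((1 : ℝ) / 8) ^ d ≤ (1 / 8) ^ 1 :=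
        pow_le_pow_of_le_one (by norm_num) (by norm_num) hd1
      rw [pow_one] at h9
      linarith
    have h10 : (36 * (N0 : ℝ)) ^ d * q ^ ℓ ≤ (36 * (N0 : ℝ)) ^ d * (0.997 : ℝ) ^ ℓ := by gcongr
    nlinarith
  -- the number of scales
  obtain ⟨m, hm⟩ : ∃ m : ℕ, ((1 : ℝ) / 2) ^ (2 ^ m) ≤ δ := by
    obtain ⟨k, hk⟩ := exists_pow_lt_of_lt_one hδ (by norm_num : (1 : ℝ) / 2 < 1)
    refine ⟨k, le_trans ?_ hk.le⟩
    exact pow_le_pow_of_le_one (by norm_num) (by norm_num) Nat.lt_two_pow_self.le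
  refine ⟨4 ^ m * N0, max 3 (max (max LM LR) (400 * ((ℓ + 1) * (4 + 8 ^ m * N0)))), ?_⟩
  intro L hL hLe _ ε hε0 hε1 β hβ x
  have hL3 : 3 ≤ L := le_trans (le_max_left _ _) hL
  have hL' := le_trans (le_max_right _ _) hL
  have hLLM : LM ≤ L := le_trans (le_trans (le_max_left _ _) (le_max_left _ _)) hL'
  have hLLR : LR ≤ L := le_trans (le_trans (le_max_right _ _) (le_max_left _ _)) hL'
  have hLbig : 400 * ((ℓ + 1) * (4 + 8 ^ m * N0)) ≤ L := le_trans (le_max_right _ _) hL'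
  have hMM : MM d L ≤ CM := hLM L hLLM
  have hRR : RR d L 4 ≤ CR / (d : ℝ) ^ 2 := (hLR L hLLR).2
  have hLR0 : (0 : ℝ) < L := by exact_mod_cast (by omega : 0 < L)
  have hLd : (L : ℝ) ≤ (L : ℝ) ^ d := by
    have : (1 : ℝ) ≤ L := by exact_mod_cast (by omega : 1 ≤ L)
    exact le_self_pow₀ this (by omega)
  have hb := msf_b hε0 hε1
  have hmain := ms_union (d := d) (L := L) hd1 hLe hL3 (β := β) (ε := ε) (η := 1 / 200)
    (ε0 := 1 / 500) hβ hε0 (by linarith) (by norm_num) ℓ N0 hℓ1 hℓN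
    (((ℓ : ℝ) + 1) * (1 + Real.sqrt (1 / (2 * d) + ((ℓ : ℝ) + 1) / (d : ℝ) ^ 2)
      + 2 * (1 / (2 * d) + ((ℓ : ℝ) + 1) / (d : ℝ) ^ 2) +
        ((ℓ : ℝ) + 1) * (4 / (L : ℝ) ^ d + CR / (d : ℝ) ^ 2)))
    (fun h => 4 ^ h * (N0 : ℝ) / (2 * (L : ℝ) ^ d) + 2 * CM / (4 ^ h * (N0 : ℝ) + 1))
    ?_ ?_ m ?_ (by linarith) x
  · refine le_trans hmain ?_
    have hq0 : 0 ≤ (1 + ε) * (2 * d * β) * Real.exp (-(2 * d * β) * ((3 - ε) / 8 * (1 - 1 / 200)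
            - 1 / 500 * Real.sqrt ((3 - ε) / 4))) := by positivity
    have hdR : (0 : ℝ) < d := by exact_mod_cast (by omega : 0 < d)
    have hq1 := msf_q hε0 hε1 hb (K := 2 * d * β) (by positivity)
    have h1 := hbase _ hq0 hq1
    have h2 : 0 ≤ 4 * (36 * (N0 : ℝ)) ^ d * ((1 + ε) * (2 * d * β) * Real.exp (-(2 * d * β) *
        ((3 - ε) / 8 * (1 - 1 / 200) - 1 / 500 * Real.sqrt ((3 - ε) / 4)))) ^ ℓ := by positivity
    exact le_trans (pow_le_pow_left₀ h2 h1 _) hm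
  · intro y w hw hnd
    rw [msf_gsum]
    have hlen : (vts y w).length = ℓ + 1 := by rw [msf_vts_length, hw]
    have h1 := Gf_path (d := d) (L := L) (n := (vts y w).length) hd1 hL3
      (fun i => (vts y w)[i.1]) (List.nodup_iff_injective_getElem.1 hnd)
    refine le_trans h1 ?_
    rw [hlen]
    push_cast
    gcongr
  · intro h z hz
    have h1 := Gf_far (d := d) (L := L) hd1 (4 ^ h * N0) z hz
    refine le_trans h1 ?_
    push_cast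
    gcongr
  · exact msf_budget (CR := CR) (CM := CM) (r := Real.sqrt s) (d := d) (s := s) (l := ℓ)
      (n1 := (ℓ : ℝ) + 1) (N0 := N0) (Ld := (L : ℝ) ^ d) m hCR hCM (by exact_mod_cast hs3) rfl
      (by exact_mod_cast hsd) (by rw [hℓ]; push_cast; ring) rfl (by rw [hN0]; push_cast; ring)
      (by
        refine le_trans ?_ hLd
        exact_mod_cast hLbig) hB

end H82AT

end S_MSF
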