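import Mathlib
import Pool.Agent.H82.ATM.G3
import Pool.Agent.H82.ATM.G4
import Pool.Agent.H82.ATM.G6
import Pool.Agent.H82.ATM.G7
import Pool.Agent.H82.ATM.G8

set_option autoImplicit false

/-! Ashkin-Teller critical points, part G9: this file joins several modules to save build time. -/

section S_LOW

/-! MODULE LOW: no percolation for small β. -/

set_option autoImplicit false

namespace H82AT

open Finset

/-- union bound over self-avoiding paths in the torus -/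
private theorem low_torus {d L : ℕ} [NeZero L] (hd : 1 ≤ d) (hL : 3 ≤ L) {β ε : ℝ} (hβ : 0 < β)
    (h0 : 0 < ε) (h1 : ε < 1) (n : ℕ) (x : Tor d L) :
    (torGr d L).phi (pr β (1 - ε) 1) (fun ω => ind (reachT 1 n x ω))
      ≤ (2 * (d : ℝ)) ^ n * (4 * ((1 + ε) * β) ^ n) := by
  classical
  have hp : ∀ i, 0 < pr β (1 - ε) 1 i := fun i => pr_pos hβ (by linarith) (by linarith) i
  set S : Finset (List.Vector (Dir d) n) := Finset.univ.filter (fun v => (vts x v.1).Nodup) with hS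
  rw [← EE_edge]
  have e1 : (torGr d L).EE (pr β (1 - ε) 1) (fun ω _ => ind (reachT 1 n x ω))
      ≤ (torGr d L).EE (pr β (1 - ε) 1) (fun ω σ => ∑ v ∈ S,
        ind ((∀ e ∈ edsq [(x, v.1)], 1 ≤ ((ω e : Fin 3) : ℕ)) ∧ (fun _ => True) σ)) := by
    apply EE_mono _ hp
    intro ω σ
    by_cases h : reachT 1 n x ω
    · obtain ⟨z, hz, hc⟩ := h
      obtain ⟨w, hw1, hw2, hw3⟩ := saw_exists (lv ω 1) x z n hc hz
      have hmem : (⟨w, hw1⟩ : List.Vector (Dir d) n) ∈ S :=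
        Finset.mem_filter.2 ⟨@Finset.mem_univ (List.Vector (Dir d) n) _ _, hw2⟩
      refine le_trans (ind_le_one _) ?_
      refine le_trans (le_of_eq ?_) (Finset.single_le_sum (f := fun v : List.Vector (Dir d) n =>
        ind ((∀ e ∈ edsq [(x, v.1)], 1 ≤ ((ω e : Fin 3) : ℕ)) ∧ (fun _ => True) σ))
        (fun v _ => ind_nonneg _) hmem)
      rw [ind_true]
      refine ⟨?_, trivial⟩
      intro e he
      have he' : e ∈ eds x w := by simpa [edsq] using he
      exact hw3 e he'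
    · rw [ind_false h]
      exact Finset.sum_nonneg fun v _ => ind_nonneg _
  refine e1.trans ?_
  rw [EE_sum]
  have e2 : ∀ v ∈ S, (torGr d L).EE (pr β (1 - ε) 1) (fun ω σ =>
        ind ((∀ e ∈ edsq [(x, v.1)], 1 ≤ ((ω e : Fin 3) : ℕ)) ∧ (fun _ => True) σ))
      ≤ 4 * ((1 + ε) * β) ^ n := by
    intro v hv
    rw [hS, Finset.mem_filter] at hv
    have h := forest hd hL hβ h0 h1 n [(x, v.1)] (by
      intro p hp
      rw [List.mem_singleton] at hp
      rw [hp]
      exact v.2) (by simpa [vtsq] using hv.2) (fun _ => True) 1 zero_le_one (by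
      intro τ
      refine (GE_mono β ε _ (fun _ => 1) (fun σ => ind_le_one _)).trans ?_
      rw [GE_const])
    simpa using h
  refine (Finset.sum_le_sum e2).trans ?_
  rw [Finset.sum_const, nsmul_eq_mul]
  refine mul_le_mul_of_nonneg_right ?_ (by positivity)
  have e3 : S.card ≤ (2 * d) ^ n := by
    refine (Finset.card_filter_le _ _).trans ?_
    rw [Finset.card_univ, card_vector]
    simp [Fintype.card_prod, mul_comm]
  exact_mod_cast e3

/-- connections map along an embedding -/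
private theorem low_conn {V E V' E' : Type} {g : Gr V E} {g' : Gr V' E'} (m : Emb g g')
    (ω : E → Fin 3) (i : ℕ) {x y : V} (h : g.conn (lv ω i) x y) :
    g'.conn (lv (m.ext ω) i) (m.fV x) (m.fV y) := by
  induction h with
  | refl => exact Relation.ReflTransGen.refl
  | tail _ hbc ih =>
    refine Relation.ReflTransGen.tail ih ?_
    obtain ⟨e, he, h⟩ := hbc
    refine ⟨m.fE e, ?_, ?_⟩
    · show i ≤ ((m.ext ω (m.fE e) : Fin 3) : ℕ)
      unfold Emb.ext
      rw [m.injE.extend_apply]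
      exact he
    · rw [m.hs, m.ht]
      rcases h with ⟨h1, h2⟩ | ⟨h1, h2⟩
      · left
        exact ⟨by rw [h1], by rw [h2]⟩
      · right
        exact ⟨by rw [h1], by rw [h2]⟩

/-- the box modulo `L` -/
private def low_emb {d : ℕ} (L : ℕ) (a b : Vx d) (h : ∀ i, b i - a i < L) :
    Emb (boxGr d a b) (torGr d L) where
  fV v := castT L v.1
  fE e := (castT L (e.1.1 : Vx d), e.1.2)
  injV := by
    intro v w hvw
    apply Subtype.ext
    funext i
    have h1 : a i ≤ v.1 i := (Finset.mem_Icc.1 v.2).1 i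
    have h2 : v.1 i ≤ b i := (Finset.mem_Icc.1 v.2).2 i
    have h3 : a i ≤ w.1 i := (Finset.mem_Icc.1 w.2).1 i
    have h4 : w.1 i ≤ b i := (Finset.mem_Icc.1 w.2).2 i
    have h5 := h i
    have h6 : ((v.1 i - a i : ℤ) : ZMod L) = ((w.1 i - a i : ℤ) : ZMod L) := by
      have h7 : ((v.1 i : ℤ) : ZMod L) = ((w.1 i : ℤ) : ZMod L) := congrFun hvw i
      push_cast
      rw [h7]
    have h8 := temb_inj (by omega) (by omega) (by omega) (by omega) h6
    omega
  injE := by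
    intro e e' hee
    simp only [Prod.mk.injEq] at hee
    apply Subtype.ext
    apply Prod.ext
    · apply Subtype.ext
      funext i
      have h1 : a i ≤ (e.1.1 : Vx d) i := (Finset.mem_Icc.1 e.1.1.2).1 i
      have h2 : (e.1.1 : Vx d) i ≤ b i := (Finset.mem_Icc.1 e.1.1.2).2 i
      have h3 : a i ≤ (e'.1.1 : Vx d) i := (Finset.mem_Icc.1 e'.1.1.2).1 i
      have h4 : (e'.1.1 : Vx d) i ≤ b i := (Finset.mem_Icc.1 e'.1.1.2).2 i
      have h5 := h i
      have h6 : (((e.1.1 : Vx d) i - a i : ℤ) : ZMod L) = (((e'.1.1 : Vx d) i - a i : ℤ) : ZMod L) := by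
        have h7 : (((e.1.1 : Vx d) i : ℤ) : ZMod L) = (((e'.1.1 : Vx d) i : ℤ) : ZMod L) :=
          congrFun hee.1 i
        push_cast
        rw [h7]
      have h8 := temb_inj (by omega) (by omega) (by omega) (by omega) h6
      omega
    · exact hee.2
  hs e := rfl
  ht e := (temb_cast_add L _ _).symm

/-- a connection from a point outside the box is trivial -/
private theorem low_out {d : ℕ} {a b : Vx d} (ω : BE d a b → Fin 3) {x y : Vx d}
    (h : (ZGr d).conn (lv (bext ω) 1) x y) : x = y ∨ x ∈ Finset.Icc a b := by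
  rcases Relation.ReflTransGen.cases_head h with h | ⟨z, ⟨e, he, hxz⟩, _⟩
  · exact Or.inl h
  · right
    have hr : e ∈ Set.range (BE.toEd (d := d) (a := a) (b := b)) := by
      by_contra hr
      have h0 : bext ω e = 0 := by
        unfold bext
        exact Function.extend_apply' _ _ _ hr
      have h1 : 1 ≤ ((bext ω e : Fin 3) : ℕ) := he
      rw [h0] at h1
      exact absurd h1 (by decide)
    rw [mem_range_toEd] at hr
    rcases hxz with ⟨h1, _⟩ | ⟨_, h1⟩
    · have h2 : e.1 = x := h1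
      rw [← h2]
      exact hr.1
    · have h2 : e.1 + Pi.single e.2 1 = x := h1
      rw [← h2]
      exact hr.2

private theorem low_box {d : ℕ} (hd : 1 ≤ d) {β ε : ℝ} (hβ : 0 < β)
    (h0 : 0 < ε) (h1 : ε < 1) (n : ℕ) (hn : 1 ≤ n) (a b x : Vx d) :
    phiB d a b (pr β (1 - ε) 1) (fun ω => ind (reachZ 1 n x ω))
      ≤ (2 * (d : ℝ)) ^ n * (4 * ((1 + ε) * β) ^ n) := by
  classical
  have hp : ∀ i, 0 < pr β (1 - ε) 1 i := fun i => pr_pos hβ (by linarith) (by linarith) i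
  set L : ℕ := 3 + 2 * ∑ i, (b i - a i).natAbs with hLdef
  have hL3 : 3 ≤ L := by omega
  have : NeZero L := ⟨by omega⟩
  have hi : ∀ i, 2 * (b i - a i).natAbs ≤ L := by
    intro i
    have := Finset.single_le_sum (f := fun i => (b i - a i).natAbs) (fun i _ => Nat.zero_le _)
      (Finset.mem_univ i)
    omega
  have hi' : ∀ i, b i - a i < L := by
    intro i
    have := Finset.single_le_sum (f := fun i => (b i - a i).natAbs) (fun i _ => Nat.zero_le _)
      (Finset.mem_univ i)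
    omega
  set m := low_emb L a b hi' with hm
  have hmono : Monotone (fun ω : Tor d L × Fin d → Fin 3 => ind (reachT 1 n (castT L x) ω)) := by
    intro ω ω' h
    apply ind_mono
    rintro ⟨y, hy, hc⟩
    exact ⟨y, hy, conn_mono _ (lv_mono h 1) hc⟩
  have hpt : ∀ ω : BE d a b → Fin 3, ind (reachZ 1 n x (bext ω))
      ≤ ind (reachT 1 n (castT L x) (m.ext ω)) := by
    intro ω
    apply ind_mono
    rintro ⟨y, hy, hc⟩
    have hx : x ∈ Finset.Icc a b := by
      rcases low_out ω hc with h | h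
      · exfalso
        rw [h] at hy
        simp [zdist] at hy
        omega
      · exact h
    obtain ⟨hy', hc'⟩ := (conn_bext 1 le_rfl ω ⟨x, hx⟩ y).1 hc
    refine ⟨castT L y, ?_, ?_⟩
    · rw [tdist_cast_eq]
      · exact hy
      · intro i
        have h1 : a i ≤ x i := (Finset.mem_Icc.1 hx).1 i
        have h2 : x i ≤ b i := (Finset.mem_Icc.1 hx).2 i
        have h3 : a i ≤ y i := (Finset.mem_Icc.1 hy').1 i
        have h4 : y i ≤ b i := (Finset.mem_Icc.1 hy').2 i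
        have h5 := hi i
        omega
    · exact low_conn m ω 1 hc'
  calc phiB d a b (pr β (1 - ε) 1) (fun ω => ind (reachZ 1 n x ω))
      ≤ (boxGr d a b).phi (pr β (1 - ε) 1) (fun ω => ind (reachT 1 n (castT L x) (m.ext ω))) :=
        phi_le_phi _ hp _ _ hpt
    _ ≤ (torGr d L).phi (pr β (1 - ε) 1) (fun ω => ind (reachT 1 n (castT L x) ω)) :=
        phi_emb_mono m hp hp (RL_refl _) _ hmono
    _ ≤ _ := low_torus hd hL3 hβ h0 h1 n _

/-- embed the box in a large torus (`exists_cut` after a translation), then `saw_exists` and `forest`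
with `M = True`, `B = 1`: the probability is at most `(2d)^n * 4 * ((1+ε)β)^n`. -/
theorem low {d : ℕ} (hd : 1 ≤ d) {β ε : ℝ} (hβ : 0 < β) (h0 : 0 < ε) (h1 : ε < 1)
    (hb : 4 * d * β < 1) : ¬ Perc d (pr β (1 - ε) 1) 1 := by
  rintro ⟨θ, hθ, h⟩
  have hdR : (1 : ℝ) ≤ d := by exact_mod_cast hd
  set r : ℝ := 2 * (d : ℝ) * ((1 + ε) * β) with hr
  have hr0 : 0 ≤ r := by positivity
  have hdb : 0 < (d : ℝ) * β := by positivity
  have hr1 : r < 1 := by
    rw [hr]
    nlinarith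
  obtain ⟨n, hn⟩ := exists_pow_lt_of_lt_one (show (0 : ℝ) < θ / 4 by linarith) hr1
  obtain ⟨a, b, x, hx⟩ := h (n + 1)
  have h2 := low_box hd hβ h0 h1 (n + 1) (by omega) a b x
  have h3 : (2 * (d : ℝ)) ^ (n + 1) * (4 * ((1 + ε) * β) ^ (n + 1)) = 4 * r ^ (n + 1) := by
    rw [hr, mul_pow (2 * (d : ℝ))]
    ring
  have h4 : r ^ (n + 1) ≤ r ^ n := pow_le_pow_of_le_one hr0 hr1.le (by omega)
  rw [h3] at h2
  linarith

end H82AT

end S_LOW

section S_ASM

/-! MODULE ASM: assembly of the finite-volume part; small β. -/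

set_option autoImplicit false

namespace H82AT

open Finset

theorem asm_ball (d : ℕ) (hd : 1 ≤ d) (c : ℝ) (hc : 0 < c) (n : ℕ) :
    ∃ L1 : ℕ, ∀ L : ℕ, L1 ≤ L → 0 < L → (2 * (n : ℝ) + 1) ^ d / (L : ℝ) ^ d ≤ c := by
  obtain ⟨k, hk⟩ := exists_nat_gt ((2 * (n : ℝ) + 1) / c)
  refine ⟨max k (2 * n + 1), fun L hL hL0 => ?_⟩
  have h1 : (k : ℝ) ≤ L := by exact_mod_cast le_trans (le_max_left _ _) hL
  have h2 : (2 * (n : ℝ) + 1) ≤ L := by exact_mod_cast le_trans (le_max_right _ _) hL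
  have hLp : (0 : ℝ) < L := by exact_mod_cast hL0
  rw [← div_pow]
  have h3 : (2 * (n : ℝ) + 1) / L ≤ 1 := (div_le_one hLp).mpr h2
  have h0 : 0 ≤ (2 * (n : ℝ) + 1) / L := by positivity
  refine le_trans (pow_le_of_le_one h0 h3 (by omega)) ?_
  rw [div_le_iff₀ hLp]
  have h4 : (2 * (n : ℝ) + 1) < k * c := by
    rwa [div_lt_iff₀ hc] at hk
  nlinarith

theorem asm_reach {d L : ℕ} [NeZero L] {β ε c : ℝ} (hβ : 0 < β) (h0 : 0 < ε) (h1 : ε < 1)
    (hc : 0 < c) (h : GE β ε (fun σ : Tor d L → Col => ind (|mt σ| ≤ c)) ≤ 3 / 4) (n : ℕ)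
    (hn : (2 * (n : ℝ) + 1) ^ d / (L : ℝ) ^ d ≤ c ^ 2 / 8) :
    c ^ 2 / 8 ≤ (torGr d L).phi (pr β (1 - ε) 1) (fun ω => ind (reachT 2 n 0 ω)) := by
  have := order_reach hβ h0 h1 hc h n
  linarith

/-- the step for one torus -/
theorem asm_torus {d L : ℕ} [NeZero L] {β ε θ c e2 : ℝ} (hβ : 0 < β) (h0 : 0 < ε) (h1 : ε < 1)
    (hθ : 0 < θ) (n : ℕ)
    (hA : ∀ x : Tor d L, (torGr d L).EE (pr β (1 - ε) 1)
        (fun ω σ => ind (reachT 1 n x ω ∧ m2 ε σ ≤ e2)) ≤ θ / 8)
    (hB : (torGr d L).phi (pr β (1 - ε) 1)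
      (fun ω => ind ((∑ x, ind (reachT 1 n x ω)) < θ * (L : ℝ) ^ d)) ≤ 1 / 8)
    (hC : GE β ε (fun σ : Tor d L → Col => ind (e2 ≤ m2 ε σ ∧ |mt σ| ≤ c)) ≤ 1 / 2) :
    GE β ε (fun σ : Tor d L → Col => ind (|mt σ| ≤ c)) ≤ 3 / 4 := by
  have hLp : (0 : ℝ) < (L : ℝ) ^ d := by
    have : (0 : ℝ) < L := by exact_mod_cast Nat.pos_of_ne_zero (NeZero.ne L)
    positivity
  have hpos : ∀ i, 0 < pr β (1 - ε) 1 i := fun i => pr_pos hβ (by linarith) (by linarith) i
  have hcard : (Fintype.card (Tor d L) : ℝ) = (L : ℝ) ^ d := by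
    rw [Fintype.card_fun, ZMod.card, Fintype.card_fin]
    push_cast
    rfl
  have h14 : GE β ε (fun σ : Tor d L → Col => ind (m2 ε σ ≤ e2)) ≤ 1 / 4 := by
    rw [← EE_torus (d := d) (L := L) h0.le h1.le]
    have hstep : (torGr d L).EE (pr β (1 - ε) 1) (fun _ σ => ind (m2 ε σ ≤ e2))
        ≤ (torGr d L).EE (pr β (1 - ε) 1)
          (fun ω σ => ind ((∑ x, ind (reachT 1 n x ω)) < θ * (L : ℝ) ^ d)
            + (1 / (θ * (L : ℝ) ^ d)) * ∑ x : Tor d L,
              ind (reachT 1 n x ω ∧ m2 ε σ ≤ e2)) := by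
      refine EE_mono _ hpos _ _ (fun ω σ => ?_)
      have hnn : 0 ≤ (1 / (θ * (L : ℝ) ^ d)) * ∑ x : Tor d L,
              ind (reachT 1 n x ω ∧ m2 ε σ ≤ e2) :=
        mul_nonneg (by positivity) (Finset.sum_nonneg (fun _ _ => ind_nonneg _))
      by_cases hm : m2 ε σ ≤ e2
      · by_cases hF : (∑ x, ind (reachT 1 n x ω)) < θ * (L : ℝ) ^ d
        · rw [ind_true hm, ind_true hF]
          linarith
        · have heq : ∑ x : Tor d L, ind (reachT 1 n x ω ∧ m2 ε σ ≤ e2)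
              = ∑ x, ind (reachT 1 n x ω) := by
            refine Finset.sum_congr rfl (fun x _ => ?_)
            rw [ind_and, ind_true hm, mul_one]
          rw [ind_true hm, heq, ind_false hF, zero_add]
          push Not at hF
          rw [one_div, ← div_eq_inv_mul, le_div_iff₀ (by positivity), one_mul]
          exact hF
      · rw [ind_false hm]
        have := ind_nonneg ((∑ x, ind (reachT 1 n x ω)) < θ * (L : ℝ) ^ d)
        linarith
    refine le_trans hstep ?_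
    rw [EE_add, EE_smul, EE_sum, EE_edge]
    have hs : ∑ x : Tor d L, (torGr d L).EE (pr β (1 - ε) 1)
        (fun ω σ => ind (reachT 1 n x ω ∧ m2 ε σ ≤ e2)) ≤ (L : ℝ) ^ d * (θ / 8) := by
      refine le_trans (Finset.sum_le_sum (fun x _ => hA x)) ?_
      rw [Finset.sum_const, nsmul_eq_mul, Finset.card_univ, hcard]
    have h2 : (1 / (θ * (L : ℝ) ^ d)) * ∑ x : Tor d L, (torGr d L).EE (pr β (1 - ε) 1)
        (fun ω σ => ind (reachT 1 n x ω ∧ m2 ε σ ≤ e2)) ≤ 1 / 8 := by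
      refine le_trans (mul_le_mul_of_nonneg_left hs (by positivity)) ?_
      rw [one_div, ← div_eq_inv_mul, div_le_iff₀ (by positivity)]
      exact le_of_eq (by ring)
    linarith
  have hle : GE β ε (fun σ : Tor d L → Col => ind (|mt σ| ≤ c))
      ≤ GE β ε (fun σ : Tor d L → Col => ind (m2 ε σ ≤ e2)
        + ind (e2 ≤ m2 ε σ ∧ |mt σ| ≤ c)) := by
    refine GE_mono _ _ _ _ (fun σ => ?_)
    by_cases hm : m2 ε σ ≤ e2
    · rw [ind_true hm]
      have h1 := ind_nonneg (e2 ≤ m2 ε σ ∧ |mt σ| ≤ c)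
      have h2 := ind_le_one (|mt σ| ≤ c)
      linarith
    · push Not at hm
      have h1 := ind_nonneg (m2 ε σ ≤ e2)
      have h2 : ind (|mt σ| ≤ c) ≤ ind (e2 ≤ m2 ε σ ∧ |mt σ| ≤ c) :=
        ind_mono (fun h => ⟨hm.le, h⟩)
      linarith
  rw [GE_add] at hle
  linarith

theorem main_finite : ∃ d0 : ℕ, 1 ≤ d0 ∧ ∃ ε1 : ℝ, 0 < ε1 ∧ ε1 < 1 ∧ ∀ d : ℕ, d0 ≤ d →
    ∀ ε : ℝ, 0 < ε → ε ≤ ε1 →
      (∀ a b : ℝ, 0 < a → a < b → 2 * d * b ≤ 5 →
        Perc d (pr a (1 - ε) 1) 1 → Perc d (pr b (1 - ε) 1) 2) ∧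
      Perc d (pr (5 / (2 * d)) (1 - ε) 1) 2 := by
  obtain ⟨c, hc, ε2, hε2, d1, Hmf⟩ := mf_concl (1 / 500) (by norm_num)
  obtain ⟨d2, hd2, Hms⟩ := ms_bound
  refine ⟨max (max d1 d2) 1, le_max_right _ _, min ε2 (1 / 250), lt_min hε2 (by norm_num),
    lt_of_le_of_lt (min_le_right _ _) (by norm_num), ?_⟩
  intro d hd ε hε0 hε
  have hdd1 : d1 ≤ d := le_trans (le_trans (le_max_left _ _) (le_max_left _ _)) hd
  have hdd2 : d2 ≤ d := le_trans (le_trans (le_max_right _ _) (le_max_left _ _)) hd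
  have hd1 : 1 ≤ d := le_trans (le_max_right _ _) hd
  have hdp : (0 : ℝ) < d := by exact_mod_cast hd1
  have hεε2 : ε ≤ ε2 := le_trans hε (min_le_left _ _)
  have hεs : ε ≤ 1 / 250 := le_trans hε (min_le_right _ _)
  have hε1 : ε < 1 := by linarith
  have hJ1 : (0 : ℝ) < 1 - ε := by linarith
  have hJ2 : (1 : ℝ) - ε < 1 := by linarith
  have hc8 : 0 < c ^ 2 / 8 := by positivity
  obtain ⟨Lm, HLm⟩ := Hmf d hdd1
  constructor
  · intro a b ha hab hb5 hP
    obtain ⟨θ, hθ, Hlln⟩ := lln hd1 ha hJ1 hJ2 hP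
    obtain ⟨n1, L2, HL2⟩ := Hms d hdd2 (θ / 8) (by positivity)
    obtain ⟨M, hM, hMe, R0, HR0⟩ := Hlln n1
    refine transfer hd1 hJ1 hJ2 ha hab hc8 (fun n L0 => ?_)
    obtain ⟨L1, HL1⟩ := asm_ball d hd1 (c ^ 2 / 8) hc8 n
    set R : ℕ := R0 + L0 + Lm + L1 + L2 + 1 with hR
    have hML : R ≤ M * R := Nat.le_mul_of_pos_left R hM
    have hne : NeZero (M * R) := ⟨by
      have : 0 < M * R := Nat.mul_pos hM (by omega)
      omega⟩
    refine ⟨M * R, by omega, hne, fun β hβa hβb => ?_⟩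
    have hβ : 0 < β := lt_of_lt_of_le ha hβa
    have hLe : Even (M * R) := Even.mul_right hMe R
    have h5 : 2 * (d : ℝ) * β ≤ 5 := by
      refine le_trans ?_ hb5
      exact mul_le_mul_of_nonneg_left hβb (by positivity)
    have hB := HR0 R (by omega) β hβa
    have hcast : θ * ((M : ℝ) * R) ^ d = θ * (((M * R : ℕ) : ℝ)) ^ d := by push_cast; rfl
    rw [hcast] at hB
    refine asm_reach hβ hε0 hε1 hc ?_ n (HL1 (M * R) (by omega) (by omega))
    refine asm_torus (θ := θ) (e2 := (1 / 500) ^ 2) hβ hε0 hε1 hθ n1 ?_ hB ?_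
    · intro x
      exact HL2 (M * R) (by omega) hLe ε hε0 hεs β hβ x
    · refine le_trans (GE_mono _ _ _ _ (fun σ => ?_))
        (HLm (M * R) (by omega) hLe ε hε0.le hεε2 β hβ h5)
      exact ind_mono (fun h => ⟨Or.inl h.1, h.2⟩)
  · refine transfer (a := 9 / (4 * d)) (b := 5 / (2 * d)) hd1 hJ1 hJ2 (by positivity) ?_ hc8
      (fun n L0 => ?_)
    · rw [div_lt_div_iff₀ (by positivity) (by positivity)]
      nlinarith
    · obtain ⟨L1, HL1⟩ := asm_ball d hd1 (c ^ 2 / 8) hc8 n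
      set R : ℕ := L0 + Lm + L1 + 1 with hR
      have hne : NeZero (2 * R) := ⟨by omega⟩
      refine ⟨2 * R, by omega, hne, fun β hβa hβb => ?_⟩
      have hβ : 0 < β := lt_of_lt_of_le (by positivity) hβa
      have h5 : 2 * (d : ℝ) * β ≤ 5 := by
        rw [le_div_iff₀ (by positivity)] at hβb
        linarith
      have h9 : 9 / 2 ≤ 2 * (d : ℝ) * β := by
        rw [div_le_iff₀ (by positivity)] at hβa
        linarith
      refine asm_reach hβ hε0 hε1 hc ?_ n (HL1 (2 * R) (by omega) (by omega))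
      refine le_trans (le_trans (GE_mono _ _ _ _ (fun σ => ?_))
        (HLm (2 * R) (by omega) (even_two_mul R) ε hε0.le hεε2 β hβ h5)) (by norm_num)
      exact ind_mono (fun h => ⟨Or.inr h9, h⟩)

end H82AT

end S_ASM
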